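import Pool.Agent.Lib.KN55.Kit3

/-! A disc with a ray does not separate the plane. -/

set_option autoImplicit false

open Filter Topology Set Metric Complex Bornology MeasureTheory N62a1eb23
open scoped Real ENNReal

namespace KN.ARC55

open Pool.Agent.Lib.MP_c35c17_an

theorem log_univ {X : Type} [NormedAddCommGroup X] [NormedSpace ℝ X] {q : X → ℂ}
    (hq : Continuous q) (h : ∀ x, q x ≠ 0) : ∃ l : X → ℂ, Continuous l ∧ ∀ x, exp (l x) = q x := by
  obtain ⟨l, h1, h2⟩ := exists_continuousOn_eqOn_exp_comp (U := (univ : Set X))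
    (by
      have := (convex_univ (𝕜 := ℝ) (E := X)).contractibleSpace univ_nonempty
      exact (inferInstance : SimplyConnectedSpace (univ : Set X))) isOpen_univ hq.continuousOn
    (by rintro ⟨x, -, e⟩; exact h x e)
  exact ⟨l, continuousOn_univ.mp h1, fun x => h2 (mem_univ x)⟩

theorem retr (c : ℂ) {ε : ℝ} (hε : 0 < ε) : ∃ ρ : ℂ → ℂ, Continuous ρ ∧
    (∀ u, ρ u ∈ closedBall c ε) ∧ ∀ u ∈ closedBall c ε, ρ u = u := by
  have hm : ∀ u : ℂ, 0 < max ε ‖u - c‖ := fun u => lt_max_of_lt_left hε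
  refine ⟨fun u => c + (ε / max ε ‖u - c‖) • (u - c), ?_, fun u => ?_, fun u hu => ?_⟩
  · exact continuous_const.add ((continuous_const.div (by fun_prop) fun u => (hm u).ne').smul
      (by fun_prop))
  · rw [mem_closedBall_iff_norm, add_sub_cancel_left, norm_smul, Real.norm_eq_abs,
      abs_of_pos (div_pos hε (hm u)), div_mul_eq_mul_div, div_le_iff₀ (hm u)]
    exact mul_le_mul_of_nonneg_left (le_max_right _ _) hε.le
  · simp only
    rw [max_eq_left (mem_closedBall_iff_norm.mp hu), div_self hε.ne', one_smul, add_sub_cancel]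

theorem ray_log {Γ : ℝ → ℂ} (hΓ : Continuous Γ) (ht : Tendsto (fun t => ‖Γ t‖) atTop atTop)
    {x y : ℂ} (hx : ∀ t, Γ t ≠ x) (hy : ∀ t, Γ t ≠ y) : ∃ l : ℝ → ℂ, Continuous l ∧
      (∀ t, exp (l t) = (Γ t - x) / (Γ t - y)) ∧ ∀ᶠ t in atTop, ‖l t‖ ≤ 1 := by
  have hq : Continuous fun t => (Γ t - x) / (Γ t - y) :=
    (hΓ.sub continuous_const).div (hΓ.sub continuous_const) fun t => sub_ne_zero.mpr (hy t)
  have hq0 : ∀ t, (Γ t - x) / (Γ t - y) ≠ 0 := fun t =>
    div_ne_zero (sub_ne_zero.mpr (hx t)) (sub_ne_zero.mpr (hy t))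
  obtain ⟨l, h1, h2⟩ := log_univ hq hq0
  have h3 : Tendsto (fun t => (Γ t - x) / (Γ t - y)) atTop (𝓝 1) := by
    have h4 : Tendsto (fun t => Γ t - y) atTop (cobounded ℂ) := by
      rw [← tendsto_norm_atTop_iff_cobounded]
      refine tendsto_atTop_mono (fun t => norm_sub_norm_le _ _) ?_
      exact tendsto_atTop_add_const_right _ _ ht
    have h5 := ((tendsto_inv₀_cobounded.comp h4).const_mul (y - x)).const_add 1
    rw [mul_zero, add_zero] at h5
    refine h5.congr fun t => ?_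
    have := sub_ne_zero.mpr (hy t)
    simp only [Function.comp]
    field_simp
    ring
  have h6 : Tendsto (fun t => ‖log ((Γ t - x) / (Γ t - y))‖) atTop (𝓝 0) := by
    simpa using ((continuousAt_clog one_mem_slitPlane).tendsto.comp h3).norm
  obtain ⟨t1, ht1⟩ := eventually_atTop.mp ((h6.eventually_le_const one_pos).and
    (h3.eventually (isOpen_slitPlane.mem_nhds one_mem_slitPlane)))
  have h7 : ∀ t, t1 ≤ t → l t - log ((Γ t - x) / (Γ t - y)) =
      l t1 - log ((Γ t1 - x) / (Γ t1 - y)) := fun t h =>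
    Q.const_of_exp_eq_one (s := Ici t1) isPreconnected_Ici
      (d := fun t => l t - log ((Γ t - x) / (Γ t - y)))
      (h1.continuousOn.sub (hq.continuousOn.clog fun s hs => (ht1 s hs).2))
      (fun s _ => by rw [exp_sub, h2, exp_log (hq0 s), div_self (hq0 s)]) h self_mem_Ici
  refine ⟨fun t => l t - (l t1 - log ((Γ t1 - x) / (Γ t1 - y))), by fun_prop, fun t => ?_, ?_⟩
  · rw [exp_sub, exp_sub, h2, h2, exp_log (hq0 t1), div_self (hq0 t1), div_one]
  · filter_upwards [eventually_ge_atTop t1] with t h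
    rw [← h7 t h, sub_sub_cancel]
    exact (ht1 t h).1

theorem st : St_ARC := by
  intro e γ c ε a hε he hei hγ hγi ht ⟨p, hp, hpa⟩ hout
  set Γ : ℝ → ℂ := fun t => γ (max t a) with hΓd
  have hΓ : Continuous Γ := hγ.comp_continuous (by fun_prop) fun t => le_max_right t a
  have hΓe : ∀ t, a ≤ t → Γ t = γ t := fun t h => by simp [hΓd, max_eq_left h]
  have hΓt : Tendsto (fun t => ‖Γ t‖) atTop atTop :=
    ht.congr' ((eventually_ge_atTop a).mono fun t h => by simp only [hΓe t h])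
  set X : Set (ℂ × ℝ) := closedBall c ε ×ˢ {a} ∪ {p} ×ˢ Ici a with hX
  have hXc : IsClosed X :=
    (isClosed_closedBall.prod isClosed_singleton).union (isClosed_singleton.prod isClosed_Ici)
  set h : X → ℂ := fun w => e w.1.1 + Γ w.1.2 - γ a with hh
  have hc : Continuous h := by fun_prop
  have h1 : ∀ w : X, w.1.2 = a → h w = e w.1.1 := fun w e1 => by simp [hh, e1, hΓe]
  have h2 : ∀ w : X, w.1.1 = p → a ≤ w.1.2 → h w = γ w.1.2 := fun w e1 e2 => by
    simp [hh, e1, hΓe _ e2, hpa]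
  have hcase : ∀ w : X, (w.1.1 ∈ closedBall c ε ∧ w.1.2 = a) ∨ (w.1.1 = p ∧ a < w.1.2) := by
    rintro ⟨⟨u, t⟩, ⟨b1, b2⟩ | ⟨b1, b2⟩⟩
    · exact Or.inl ⟨b1, b2⟩
    · rcases (mem_Ici.mp b2).eq_or_lt with b3 | b3
      · exact Or.inl ⟨(mem_singleton_iff.mp b1).symm ▸ hp, b3.symm⟩
      · exact Or.inr ⟨b1, b3⟩
  have hinj : Function.Injective h := fun w w' e0 => by
    rcases hcase w with ⟨b1, b2⟩ | ⟨b1, b2⟩ <;> rcases hcase w' with ⟨d1, d2⟩ | ⟨d1, d2⟩
    · rw [h1 w b2, h1 w' d2] at e0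
      exact Subtype.ext (Prod.ext (hei b1 d1 e0) (b2.trans d2.symm))
    · rw [h1 w b2, h2 w' d1 d2.le] at e0
      exact absurd ⟨_, b1, e0⟩ (hout _ d2)
    · rw [h2 w b1 b2.le, h1 w' d2] at e0
      exact absurd ⟨_, d1, e0.symm⟩ (hout _ b2)
    · rw [h2 w b1 b2.le, h2 w' d1 d2.le] at e0
      exact Subtype.ext (Prod.ext (b1.trans d1.symm) (hγi b2.le d2.le e0))
  have hr : range h = e '' closedBall c ε ∪ γ '' Ici a := by
    ext z
    constructor
    · rintro ⟨w, rfl⟩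
      rcases hcase w with ⟨b1, b2⟩ | ⟨b1, b2⟩
      · exact Or.inl ⟨_, b1, (h1 w b2).symm⟩
      · exact Or.inr ⟨_, b2.le, (h2 w b1 b2.le).symm⟩
    · rintro (⟨u, b, rfl⟩ | ⟨t, b, rfl⟩)
      · exact ⟨⟨(u, a), Or.inl ⟨b, rfl⟩⟩, h1 _ rfl⟩
      · exact ⟨⟨(p, t), Or.inr ⟨rfl, b⟩⟩, h2 _ rfl b⟩
  have hprop : IsProperMap h := isProperMap_iff_isCompact_preimage.mpr ⟨hc, fun K hK => by
    obtain ⟨R, hR⟩ := hK.isBounded.exists_norm_le
    obtain ⟨t1, ht1⟩ := eventually_atTop.mp (ht.eventually_gt_atTop R)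
    refine (hXc.isClosedEmbedding_subtypeVal.isCompact_preimage
      ((isCompact_closedBall c ε).prod (isCompact_Icc (a := a) (b := max a t1)))).of_isClosed_subset
      (hK.isClosed.preimage hc) fun w hw => ?_
    rcases hcase w with ⟨b1, b2⟩ | ⟨b1, b2⟩
    · exact ⟨b1, b2.ge, b2.le.trans (le_max_left _ _)⟩
    · refine ⟨b1.symm ▸ hp, b2.le, le_max_of_le_right (le_of_not_ge fun b3 => ?_)⟩
      exact (ht1 _ b3).not_ge (h2 w b1 b2.le ▸ hR _ hw)⟩
  have hemb : IsClosedEmbedding h :=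
    IsClosedEmbedding.of_continuous_injective_isClosedMap hc hinj hprop.isClosedMap
  refine ⟨hr ▸ hemb.isClosed_range, ?_, fun hb => ?_, fun x hx y hy => ?_⟩
  · exact IsPreconnected.union (γ a) ⟨p, hp, hpa⟩ ⟨a, self_mem_Ici, rfl⟩
      ((convex_closedBall c ε).isPreconnected.image _ he.continuousOn)
      (isPreconnected_Ici.image _ hγ)
  · obtain ⟨R, hR⟩ := hb.exists_norm_le
    obtain ⟨t, b1, b2⟩ := ((ht.eventually_gt_atTop R).and (eventually_ge_atTop a)).exists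
    exact b1.not_ge (hR _ (Or.inr ⟨t, b2, rfl⟩))
  · obtain ⟨ρ, r1, r2, r3⟩ := retr c hε
    have g1 : ∀ {x}, x ∉ e '' closedBall c ε ∪ γ '' Ici a → ∀ u, e (ρ u) - x ≠ 0 :=
      fun hx u e0 => hx (Or.inl ⟨_, r2 u, sub_eq_zero.mp e0⟩)
    have g2 : ∀ {x}, x ∉ e '' closedBall c ε ∪ γ '' Ici a → ∀ t, Γ t ≠ x :=
      fun hx t e0 => hx (Or.inr ⟨_, le_max_right t a, e0⟩)
    obtain ⟨l1, a1, a2⟩ := log_univ (q := fun u => (e (ρ u) - x) / (e (ρ u) - y))
      (Continuous.div (by fun_prop) (by fun_prop) (g1 hy)) fun u => div_ne_zero (g1 hx u) (g1 hy u)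
    obtain ⟨l2, b1, b2, b3⟩ := ray_log hΓ hΓt (g2 hx) (g2 hy)
    obtain ⟨l, hl⟩ := ContinuousMap.exists_extension' hemb
      (⟨fun w => l1 w.1.1 - l1 p + l2 w.1.2, by fun_prop⟩ : C(X, ℂ))
    have hl' : ∀ w : X, l (h w) = l1 w.1.1 - l1 p + l2 w.1.2 := fun w => congrFun hl w
    obtain ⟨t1, ht1⟩ := eventually_atTop.mp b3
    obtain ⟨R, hR⟩ := (((isCompact_closedBall c ε).image he).union
      ((isCompact_Icc (a := a) (b := t1)).image hΓ)).isBounded.exists_norm_le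
    refine ⟨l, l.continuous.continuousOn, fun z hz => ?_, R + 1, fun z hz hz' => ?_⟩
    · obtain ⟨w, rfl⟩ := hr.symm ▸ hz
      rw [hl']
      rcases hcase w with ⟨d1, d2⟩ | ⟨d1, d2⟩
      · have := div_ne_zero (g1 hx p) (g1 hy p)
        rw [exp_add, exp_sub, a2, a2, b2, d2, hΓe a le_rfl, ← hpa, h1 w d2, r3 _ d1]
        rw [r3 _ hp] at this ⊢
        exact div_mul_cancel₀ _ this
      · rw [d1, sub_self, zero_add, b2, hΓe _ d2.le, h2 w d1 d2.le]
    · obtain ⟨w, rfl⟩ := hr.symm ▸ hz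
      rw [hl']
      rcases hcase w with ⟨d1, d2⟩ | ⟨d1, d2⟩
      · have := hR _ (Or.inl ⟨_, d1, (h1 w d2).symm⟩)
        linarith
      · rw [d1, sub_self, zero_add]
        refine ht1 _ (le_of_not_ge fun d3 => ?_)
        have := hR _ (Or.inr ⟨_, ⟨d2.le, d3⟩, (hΓe _ d2.le).trans (h2 w d1 d2.le).symm⟩)
        linarith

end KN.ARC55
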