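import Pool.Agent.Lib.KN55.Kit3

/-! The energy of a band of potentials. -/

set_option autoImplicit false

open Filter Topology Set Metric Complex Bornology MeasureTheory N62a1eb23
open scoped Real ENNReal

namespace KN

open Pool.Agent.Lib.MP_c35c17_an

namespace XBAND

theorem step (a : ℕ → ℝ) {x : ℝ} (h0 : a 0 ≤ x) :
    ∀ r, x < a r → ∃ j < r, a j ≤ x ∧ x < a (j + 1)
  | 0, h => absurd h (not_lt.mpr h0)
  | r + 1, h => by
    rcases le_or_gt (a r) x with h1 | h1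
    · exact ⟨r, Nat.lt_succ_self r, h1, h⟩
    · obtain ⟨j, h2, h3⟩ := step a h0 r h1
      exact ⟨j, h2.trans (Nat.lt_succ_self r), h3⟩

end XBAND

theorem st_BAND (hWAND : St_WAND) : St_BAND := by
  intro n θ k T η σ R t₀ α r hR ht hb hm
  have hn := σ.hyp.hn
  have hp : ∀ ζ ∈ R, 0 < ζ.re := fun ζ h => ht.trans_le (hb ζ h).1
  set B : ℕ → Set ℂ := fun j =>
    R ∩ {ζ | (n : ℝ) ^ (k * j) * t₀ ≤ ζ.re ∧ ζ.re < (n : ℝ) ^ (k * (j + 1)) * t₀} with hB
  have h1 : ∀ j, En (σ.φ ∘ Bc σ.Φ) (B j) ≤ ENNReal.ofReal (2 * π * σ.Λ) := fun j => by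
    refine hWAND _ (B j) R σ.μ hR inter_subset_left
      (hR.measurableSet.inter ((isClosed_le continuous_const continuous_re).measurableSet.inter
        (isOpen_lt continuous_re continuous_const).measurableSet))
      (σ.dφ.comp ((Bc_diff σ.cj).mono hp) hm)
      ((σ.inj.comp (Bc_injOn σ.cj fun ζ h => ⟨hp ζ h, (hb ζ h).2.2⟩) hm).mono inter_subset_left)
      (fun u hu => σ.φ_ne (hm hu.1) (σ.Bc_ne (hp u hu.1))) σ.μ_ne σ.μlt
      fun i hi u hu u' hu' e => ?_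
    have e1 : (σ.b 0 k)^[i] (Bc σ.Φ u) = Bc σ.Φ u' :=
      σ.inj (σ.G_maps.iterate i (hm hu.1)) (hm hu'.1) ((σ.φ_iter (hm hu.1) i).trans e)
    have e2 := σ.G_inv (hm hu.1) i
    have p : 0 < (((n : ℝ) : ℂ) ^ (k * i) * u').re := by
      rw [← ofReal_pow, re_ofReal_mul]
      exact mul_pos (npow_pos hn _) (hp u' hu'.1)
    rw [e1, Bc_iter hn σ.cj (hp u' hu'.1)] at e2
    have e3 := (Bc_inj σ.cj p (hp u hu.1) e2).1
    rw [← ofReal_pow, re_ofReal_mul] at e3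
    have e4 : (n : ℝ) ^ k ≤ (n : ℝ) ^ (k * i) := npow_mono hn (Nat.le_mul_of_pos_right k hi)
    have e5 := hu.2.2
    rw [mul_add, mul_one, pow_add, mul_comm ((n : ℝ) ^ (k * j)), mul_assoc, ← e3] at e5
    exact absurd e5 (not_lt.mpr (mul_le_mul e4 hu'.2.1 (mul_pos (npow_pos hn _) ht).le
      (npow_pos hn _).le))
  have h2 : R ⊆ ⋃ j : Fin r, B j := fun ζ h => by
    obtain ⟨j, h3, h4⟩ := XBAND.step (fun j => (n : ℝ) ^ (k * j) * t₀) (by simpa using (hb ζ h).1)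
      r (hb ζ h).2.1
    exact mem_iUnion.mpr ⟨⟨j, h3⟩, h, h4⟩
  refine (En_mono h2).trans ((lintegral_iUnion_le _ _).trans
    ((ENNReal.tsum_le_tsum fun j : Fin r => h1 j).trans_eq ?_))
  rw [tsum_fintype, Finset.sum_const, Finset.card_univ, Fintype.card_fin, nsmul_eq_mul,
    ENNReal.ofReal_mul (Nat.cast_nonneg r), ENNReal.ofReal_natCast]

end KN
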