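import Pool.Agent.Lib.KN55.Kit3

/-! Inverse branches on the complement of a slit. -/

set_option autoImplicit false

open Filter Topology Set Metric Complex Bornology MeasureTheory N62a1eb23
open scoped Real ENNReal

namespace KN

open Pool.Agent.Lib.MP_c35c17_an

namespace XBR

theorem full_compl {S : Set ℂ} (hS : IsPreconnected S) (hb : ¬ IsBounded S) : Q.Full Sᶜ :=
  fun K hK => eq_empty_of_forall_notMem fun p hp => by
    have h1 : p ∈ S := by
      by_contra h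
      exact disjoint_left.mp hK.2.1 hp h
    exact hb (hK.1.isBounded.subset (hK.subset_of_inter hS disjoint_compl_right h1 hp))

theorem rot_chart {n : ℕ} (hn : 2 ≤ n) {c : ℂ} (hc : c ∈ multibrotSet n) {Φ : ℂ → ℂ}
    (h : L.Bot n c 1 Φ) {t : ℝ} (ht : 0 < t) (x : ℝ) (a : ℕ) :
    Bc Φ ⟨t, x + a / n⟩ = exp (2 * π * I / n) ^ a * Bc Φ ⟨t, x⟩ := by
  have hn0 : n ≠ 0 := by omega
  have h1 : (exp (2 * π * I / n) ^ a) ^ n = 1 := by
    rw [← pow_mul, mul_comm a n, pow_mul, (isPrimitiveRoot_exp n hn0).pow_eq_one, one_pow]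
  rw [Bc, Bc, ← L.UI.rot hn hc h h1 (chart_gt (ζ := ⟨t, x⟩) ht), ← exp_nat_mul, ← exp_add]
  congr 2
  have h2 : (⟨t, x + a / n⟩ : ℂ) = ⟨t, x⟩ + ((a / n : ℝ) : ℂ) * I :=
    Complex.ext (by simp) (by simp)
  rw [h2]
  push_cast
  ring

end XBR

theorem st_BR {n : ℕ} (hn : 2 ≤ n) : St_BR n := by
  intro c hc Φ hΦ S g₀ ϑ hcl hS hb hSc hcS hg₀ hoff
  have hn0 : n ≠ 0 := by omega
  have : NeZero n := ⟨hn0⟩
  have hnR : (0 : ℝ) < n := by exact_mod_cast Nat.pos_of_ne_zero hn0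
  have hnC : (n : ℂ) ≠ 0 := by exact_mod_cast hn0
  have hcj := cj_of_bot hn hc hΦ
  have hω := isPrimitiveRoot_exp n hn0
  obtain ⟨Lz, hLd, hLe⟩ := Q.exists_log_of_full hcl.isOpen_compl hSc (XBR.full_compl hS hb)
    (x := c) fun h => h hcS
  have hr : ∀ z ∉ S, exp (Lz z / n) ^ n = z - c := fun z hz => by
    rw [← exp_nat_mul, mul_div_cancel₀ _ hnC, hLe z hz]
  have hB : ∀ t x : ℝ, 0 < t → Bc Φ ⟨t / n, x / n⟩ ^ n = Bc Φ ⟨t, x⟩ - c := fun t x ht => by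
    have h1 := Bc_iter' (x := x / n) hn hcj (div_pos ht hnR) 1
    rw [pow_one, mul_div_cancel₀ _ hnR.ne', mul_div_cancel₀ _ hnR.ne', Function.iterate_one] at h1
    rw [← h1, F, add_sub_cancel_right]
  set R : Set (ℝ × ℝ) := Ioi g₀ ×ˢ Ioo ϑ (ϑ + 1) with hR
  have hp : ((g₀ + 1, ϑ + 1 / 2) : ℝ × ℝ) ∈ R := ⟨by simp, by constructor <;> linarith⟩
  have hRS : ∀ p ∈ R, Bc Φ ⟨p.1, p.2⟩ ∉ S := fun p hp => hoff _ _ hp.1 hp.2.1 hp.2.2
  set ω : ℂ := Bc Φ ⟨(g₀ + 1) / n, (ϑ + 1 / 2) / n⟩ / exp (Lz (Bc Φ ⟨g₀ + 1, ϑ + 1 / 2⟩) / n)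
    with hωd
  have hω1 : ω ^ n = 1 := by
    rw [hωd, div_pow, hB _ _ (by linarith), ← hr _ (hRS _ hp)]
    exact div_self (pow_ne_zero _ (exp_ne_zero _))
  have hω0 : ω ≠ 0 := fun h => by
    rw [h, zero_pow hn0] at hω1
    exact zero_ne_one hω1
  have hroot : ∀ (a : ℕ), ∀ z ∉ S, (exp (2 * π * I / n) ^ a * (ω * exp (Lz z / n))) ^ n = z - c :=
    fun a z hz => by
      rw [mul_pow, mul_pow, hω1, one_mul, hr z hz, ← pow_mul, mul_comm a n, pow_mul, hω.pow_eq_one,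
        one_pow, one_mul]
  have hc1 : ∀ u v : ℝ × ℝ → ℝ, Continuous u → Continuous v → (∀ p ∈ R, 0 < u p) →
      ContinuousOn (fun p => Bc Φ ⟨u p, v p⟩) R := fun u v hu hv h0 => by
    refine (Bc_diff hcj).continuousOn.comp (f := fun p => (⟨u p, v p⟩ : ℂ))
      (Continuous.continuousOn ?_) fun p hp => h0 p hp
    have h1 : (fun p => (⟨u p, v p⟩ : ℂ)) = fun p => (u p : ℂ) + (v p : ℂ) * I :=
      funext fun p => Complex.ext (by simp) (by simp)
    rw [h1]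
    fun_prop
  have hmain : EqOn (fun p : ℝ × ℝ => Bc Φ ⟨p.1 / n, p.2 / n⟩)
      (fun p : ℝ × ℝ => ω * exp (Lz (Bc Φ ⟨p.1, p.2⟩) / n)) R := by
    refine L.eqOn_of_pow hn0 (isPreconnected_Ioi.prod isPreconnected_Ioo)
      (hc1 _ _ (by fun_prop) (by fun_prop) fun p hp => div_pos (hg₀.trans hp.1) hnR)
      (continuousOn_const.mul (ContinuousOn.cexp (ContinuousOn.div_const
        (hLd.continuousOn.comp (hc1 _ _ continuous_fst continuous_snd fun p hp => hg₀.trans hp.1)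
          fun p hp => hRS p hp) _)))
      (fun p _ => mul_ne_zero hω0 (exp_ne_zero _)) (fun p hp => ?_) hp ?_
    · rw [hB _ _ (hg₀.trans hp.1), mul_pow, hω1, one_mul, hr _ (hRS p hp)]
    · exact (div_mul_cancel₀ _ (exp_ne_zero _)).symm
  refine ⟨fun a z => exp (2 * π * I / n) ^ a.val * (ω * exp (Lz z / n)), fun a => ?_,
    fun a y hy => ?_, fun a b y hy y' hy' e => ?_, fun y hy => ?_, fun a t x ht h1 h2 => ?_⟩
  · exact (differentiableOn_const _).mul ((differentiableOn_const _).mul (hLd.div_const _).cexp)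
  · rw [F, hroot _ y hy, sub_add_cancel]
  · have h1 : y = y' := by
      have h2 := hroot a.val y hy
      have e' : exp (2 * π * I / n) ^ a.val * (ω * exp (Lz y / n)) =
        exp (2 * π * I / n) ^ b.val * (ω * exp (Lz y' / n)) := e
      rw [e', hroot b.val y' hy'] at h2
      exact (sub_left_injective h2).symm
    subst h1
    exact ZMod.val_injective n (hω.pow_inj (ZMod.val_lt a) (ZMod.val_lt b)
      (mul_right_cancel₀ (mul_ne_zero hω0 (exp_ne_zero _)) e))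
  · have h0 : ω * exp (Lz (F n c y) / n) ≠ 0 := mul_ne_zero hω0 (exp_ne_zero _)
    have h1 : (y / (ω * exp (Lz (F n c y) / n))) ^ n = 1 := by
      rw [div_pow, div_eq_one_iff_eq (pow_ne_zero _ h0), mul_pow, hω1, one_mul, hr _ hy, F,
        add_sub_cancel_right]
    obtain ⟨i, hi, he⟩ := hω.eq_pow_of_pow_eq_one h1
    refine ⟨(i : ZMod n), ?_⟩
    simp only [ZMod.val_cast_of_lt hi]
    rw [he, div_mul_cancel₀ _ h0]
  · have h3 := hmain (show ((t, x) : ℝ × ℝ) ∈ R from ⟨ht, h1, h2⟩)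
    simp only at h3 ⊢
    rw [add_div, XBR.rot_chart hn hc hΦ (div_pos (hg₀.trans ht) hnR), h3]

end KN
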