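import Pool.Agent.Lib.KN55.Kit3

/-! Block CHAIN: the Dirichlet distance along a ray of a cone. -/

set_option autoImplicit false

open Filter Topology Set Metric Complex Bornology MeasureTheory N62a1eb23
open scoped Real ENNReal

namespace KN

namespace XCHAIN

theorem disj {p d : ℂ} {s t : ℝ} (hd : d.re = 1) (h : 3 * s ≤ t) :
    Disjoint (ball (p + s * d) (s / 2)) (ball (p + t * d) (t / 2)) := by
  refine ball_disjoint_ball ?_
  rw [dist_comm, dist_eq_norm]
  refine le_trans ?_ (re_le_norm _)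
  simp only [sub_re, add_re, re_ofReal_mul, hd]
  linarith

theorem far {a : ℝ} (ha : 0 < a) {i j : ℕ} (h : i + 8 ≤ j) :
    3 * ((7 / 6 : ℝ) ^ i * a) ≤ (7 / 6 : ℝ) ^ j * a := by
  have h1 : (7 / 6 : ℝ) ^ (i + 8) ≤ (7 / 6 : ℝ) ^ j := pow_le_pow_right₀ (by norm_num) h
  have h2 : (0 : ℝ) < (7 / 6 : ℝ) ^ i := by positivity
  rw [pow_add] at h1
  rw [← mul_assoc]
  exact mul_le_mul_of_nonneg_right (by nlinarith) ha.le

/-- the energies of the discs along the ray add up to at most eight times the total energy -/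
theorem sum_le {p d : ℂ} {a : ℝ} {R : Set ℂ} (φ : ℂ → ℂ) (hd : d.re = 1) (ha : 0 < a)
    (J : Finset ℕ)
    (hJ : ∀ j ∈ J, ball (p + ((7 / 6) ^ j * a : ℝ) * d) ((7 / 6) ^ j * a / 2) ⊆ R) :
    ∑ j ∈ J, En φ (ball (p + ((7 / 6) ^ j * a : ℝ) * d) ((7 / 6) ^ j * a / 2)) ≤ 8 * En φ R := by
  rw [← Finset.sum_fiberwise_of_maps_to (t := Finset.range 8) (g := fun j => j % 8)
    fun j _ => Finset.mem_range.mpr (Nat.mod_lt j (by norm_num))]
  refine (Finset.sum_le_card_nsmul _ _ (En φ R) fun r _ => ?_).trans_eq (by simp)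
  simp only [En]
  rw [← lintegral_biUnion_finset ?_ fun j _ => measurableSet_ball]
  · exact lintegral_mono_set (iUnion₂_subset fun j hj => hJ j (Finset.mem_filter.mp hj).1)
  · intro i hi j hj hij
    have h1 := (Finset.mem_filter.mp hi).2
    have h2 := (Finset.mem_filter.mp hj).2
    rcases lt_or_gt_of_ne hij with h | h
    · exact disj hd (far ha (by omega))
    · exact (disj hd (far ha (by omega))).symm

end XCHAIN

open XCHAIN in
theorem st_CHAIN (hSTEP : St_STEP) : St_CHAIN := by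
  intro x a b d N R hd hd' ha hab hb hR φ h1 h2 E h3 h4
  generalize (⟨0, x⟩ : ℂ) = p at hR ⊢
  have hge : ∀ j : ℕ, a ≤ (7 / 6 : ℝ) ^ j * a := fun j =>
    le_mul_of_one_le_left ha.le (one_le_pow₀ (by norm_num))
  obtain ⟨U, hU⟩ : ∃ U : ℕ → ℝ, ∀ j, U j =
      Real.log ‖φ (p + (min b ((7 / 6) ^ j * a) : ℝ) * d)‖ := ⟨_, fun _ => rfl⟩
  obtain ⟨e, he⟩ : ∃ e : ℕ → ℝ≥0∞, ∀ j, e j =
      En φ (ball (p + ((7 / 6) ^ j * a : ℝ) * d) ((7 / 6) ^ j * a / 2)) := ⟨_, fun _ => rfl⟩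
  have hfin : ∀ j : ℕ, (7 / 6 : ℝ) ^ j * a ≤ b → e j ≠ ⊤ := fun j hj => by
    rw [he]
    exact (((En_mono (hR _ ⟨hge j, hj⟩)).trans h4).trans_lt ENNReal.ofReal_lt_top).ne
  have hstep : ∀ j ∈ Finset.range N, (U (j + 1) - U j) ^ 2 ≤
      if (7 / 6 : ℝ) ^ j * a ≤ b then (e j).toReal else 0 := fun j _ => by
    have hj1 : (7 / 6 : ℝ) ^ (j + 1) * a = 7 / 6 * ((7 / 6) ^ j * a) := by ring
    have hj0 := ha.trans_le (hge j)
    split_ifs with hj
    · have hs := hR _ ⟨hge j, hj⟩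
      have h5 : (7 / 6 : ℝ) ^ j * a ≤ min b ((7 / 6) ^ (j + 1) * a) := le_min hj (by linarith)
      have h6 := min_le_right b ((7 / 6 : ℝ) ^ (j + 1) * a)
      have h7 := hSTEP (p + ((7 / 6) ^ j * a : ℝ) * d) (p + (min b ((7 / 6) ^ (j + 1) * a) : ℝ) * d)
        ((7 / 6) ^ j * a / 2) (by linarith) (by
          rw [add_sub_add_left_eq_sub, ← sub_mul, ← ofReal_sub, norm_mul, norm_real,
            Real.norm_of_nonneg (by linarith)]
          nlinarith [norm_nonneg d])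
        φ (h1.mono hs) (fun z hz => h2 z (hs hz)) (√(e j).toReal) (Real.sqrt_nonneg _)
        (by rw [Real.sq_sqrt ENNReal.toReal_nonneg, ENNReal.ofReal_toReal (hfin j hj), he])
      rw [hU, hU, min_eq_right hj, ← sq_abs, abs_sub_comm,
        ← Real.sq_sqrt (ENNReal.toReal_nonneg (a := e j))]
      exact pow_le_pow_left₀ (abs_nonneg _) (by simpa using h7) 2
    · rw [hU, hU, min_eq_left (not_le.mp hj).le, min_eq_left (by linarith [not_le.mp hj])]
      simp
  have hsum : ∑ j ∈ Finset.range N, (U (j + 1) - U j) ^ 2 ≤ 8 * E ^ 2 := by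
    refine (Finset.sum_le_sum hstep).trans ?_
    rw [← Finset.sum_filter, ← ENNReal.toReal_sum fun j hj => hfin j (Finset.mem_filter.mp hj).2]
    refine ENNReal.toReal_le_of_le_ofReal (by positivity) ?_
    simp only [he]
    refine (sum_le φ hd ha _ fun j hj => hR _ ⟨hge j, (Finset.mem_filter.mp hj).2⟩).trans ?_
    rw [ENNReal.ofReal_mul (by norm_num)]
    exact mul_le_mul' (by simp) h4
  have hcs := sq_sum_le_card_mul_sum_sq (s := Finset.range N) (f := fun j => U (j + 1) - U j)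
  rw [Finset.sum_range_sub, Finset.card_range, hU, hU, min_eq_left hb, pow_zero, one_mul,
    min_eq_right hab] at hcs
  rw [abs_sub_comm]
  refine le_of_sq_le_sq ?_ (by positivity)
  rw [sq_abs, mul_pow, Real.sq_sqrt (by positivity)]
  nlinarith [mul_le_mul_of_nonneg_left hsum (Nat.cast_nonneg (α := ℝ) N)]

end KN
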