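import Pool.Agent.Lib.KN55.Kit3

/-! Letters are constant on a cluster. -/

set_option autoImplicit false

open Filter Topology Set Metric Complex Bornology MeasureTheory N62a1eb23
open scoped Real ENNReal

namespace KN

open Pool.Agent.Lib.MP_c35c17_an

theorem st_CL : St_CL := by
  intro n θ k i ψ y₁ y₂ hn hi hψ h1 h2 h3 hc j hj
  by_contra hne
  obtain ⟨m, hm1, hm2⟩ := exists_cut h2 hne
  obtain ⟨m₁, hm₁⟩ := hc
  have hk : 0 < k := by omega
  have l0 := lam_pos (k := k) hn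
  have l1 := lam_le hn hk
  have l2 := lam_mul (k := k) hn
  have p1 := npow_mono hn (show j + 1 ≤ k from hj)
  have p2 := npow_mono hn hi.le
  have p3 := one_le_npow hn (j + 1)
  have p4 := one_le_npow hn i
  have hL : Lat n k ((n : ℝ) ^ i * (θ + m - (n : ℝ) ^ (j + 1) * ψ) - (y₁ - ψ)) :=
    (hψ.sub ((hψ.mul_pow (j + 1)).mul_pow i)).cg ⟨n ^ i * m - m₁, by
      rw [hm₁]; push_cast; ring⟩
  generalize (n : ℝ) ^ (j + 1) = N at *
  generalize (n : ℝ) ^ i = M at *
  generalize lam n k = l at l0 l1 l2 h3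
  obtain ⟨s, hs⟩ : ∃ s, s = θ + m - N * ψ := ⟨_, rfl⟩
  rw [← hs] at hL
  have q1 : N * l ≤ 1 := (mul_le_mul_of_nonneg_right p1 l0.le).trans_eq l2
  have q2 : M * l ≤ 1 := (mul_le_mul_of_nonneg_right p2 l0.le).trans_eq l2
  have s1 : N * (y₁ - ψ) < s := by rw [hs]; linarith
  have s2 : s ≤ 2 * l ^ 4 :=
    calc s ≤ N * (y₂ - ψ) := by rw [hs]; linarith
      _ ≤ N * (2 * l ^ 5) := by gcongr; linarith
      _ = N * l * (2 * l ^ 4) := by ring
      _ ≤ _ := mul_le_of_le_one_left (by positivity) q1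
  have s0 : 0 < s := (mul_pos (by linarith) (by linarith)).trans s1
  have s3 : M * s ≤ 2 * l ^ 3 :=
    calc M * s ≤ M * (2 * l ^ 4) := by gcongr
      _ = M * l * (2 * l ^ 3) := by ring
      _ ≤ _ := mul_le_of_le_one_left (by positivity) q2
  have l3 : l ^ 2 ≤ 1 / 4 := by nlinarith
  have l4 : 2 * l ^ 3 ≤ l := by nlinarith
  have l5 : 2 * l ^ 5 ≤ l := by
    nlinarith [mul_pos l0 l0, mul_le_mul l3 l3 (by positivity) (by norm_num)]
  have l6 : lam n k = l := mul_left_cancel₀ (npow_pos hn k).ne' ((lam_mul hn).trans l2.symm)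
  have e := hL.eq_zero hn hk (by
    rw [l6, abs_le]
    constructor <;> nlinarith [mul_pos (show 0 < M by linarith) s0])
  rw [← sub_eq_zero.mp e] at s1
  nlinarith [mul_le_mul p3 p4 zero_le_one (by linarith)]

end KN
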