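import Pool.Agent.Lib.KN55.Kit3

/-! The clusters of the first points of the orbit. -/

set_option autoImplicit false

open Filter Topology Set Metric Complex Bornology MeasureTheory N62a1eb23
open scoped Real ENNReal

namespace KN

open Pool.Agent.Lib.MP_c35c17_an

namespace XCLU

theorem small {n k J : ℕ} {s : ℝ} (hn : 2 ≤ n) (hk : 2 ≤ k) (hJ : 50 * k ≤ J)
    (hs : s < 2 * lam n k ^ (J - 5 * k)) :
    (n : ℝ) ^ LL k * ((n : ℝ) ^ LL k * s) ≤ 2 * lam n k ^ 5 := by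
  have l0 := lam_pos (k := k) hn
  have l1 := lam_le hn (by omega : 0 < k)
  have e : (n : ℝ) ^ LL k * lam n k ^ (10 * k + 9) = 1 := by
    rw [lam_pow, LL, mul_comm k, mul_inv_cancel₀ (npow_pos hn _).ne']
  have h : lam n k ^ (J - 5 * k) ≤ lam n k ^ (10 * k + 9 + (10 * k + 9 + 5)) :=
    pow_le_pow_of_le_one l0.le (by linarith) (by omega)
  have p := npow_pos hn (LL k)
  calc (n : ℝ) ^ LL k * ((n : ℝ) ^ LL k * s)
      ≤ (n : ℝ) ^ LL k * ((n : ℝ) ^ LL k * (2 * lam n k ^ (10 * k + 9 + (10 * k + 9 + 5)))) := by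
        gcongr
        linarith
    _ = 2 * ((n : ℝ) ^ LL k * lam n k ^ (10 * k + 9)) *
        ((n : ℝ) ^ LL k * lam n k ^ (10 * k + 9)) * lam n k ^ 5 := by
        rw [pow_add, pow_add (lam n k) (10 * k + 9) 5]
        ring
    _ = 2 * lam n k ^ 5 := by rw [e]; ring

theorem five {a : ℝ} (h0 : 0 < a) (h1 : a ≤ 1 / 2) : 2 * a ^ 5 ≤ a / 8 := by
  have : a ^ 4 ≤ (1 / 2) ^ 4 := pow_le_pow_left₀ h0.le h1 4
  nlinarith

end XCLU

open XCLU in
theorem st_CLU (hCL : St_CL) : St_CLU := by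
  intro n θ k T φ x sh τ i0 ψ s h1 h2
  have hn := h1.hyp.hn
  have hk := h1.hyp.pos
  have k2 : 2 ≤ k := by have := h1.i0p; have := h1.i0k; omega
  have l0 := lam_pos (k := k) hn
  have s0 := h2.spos
  have a1 := small hn k2 h1.big h2.small
  have a2 := five l0 (lam_le hn hk)
  have p := npow_pos hn (LL k)
  have a3 : (n : ℝ) ^ LL k * s ≤ 2 * lam n k ^ 5 :=
    (le_mul_of_one_le_left (by positivity) (one_le_npow hn _)).trans a1
  have a4 : ∀ l ≤ LL k, s ≤ (n : ℝ) ^ l * s ∧ (n : ℝ) ^ l * s ≤ (n : ℝ) ^ LL k * s := fun l hl =>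
    ⟨le_mul_of_one_le_left s0.le (one_le_npow hn _),
      mul_le_mul_of_nonneg_right (npow_mono hn hl) s0.le⟩
  have kL : k ≤ LL k := Nat.le_mul_of_pos_left _ (by omega)
  have e := h2.eq
  have c1 : ∀ i < k, Cg (τ i - (n : ℝ) ^ i * s) ((n : ℝ) ^ i * ψ) := fun i hi => by
    obtain ⟨m, hm⟩ := (h1.τm i hi).2
    exact ⟨m, by rw [hm, e]; ring⟩
  have c2 : ∀ i, 0 < i → i < k → ψ + lam n k ≤ τ i - (n : ℝ) ^ i * s ∧
      τ i - (n : ℝ) ^ i * s ≤ φ + 1 - lam n k := fun i i0 hi => by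
    have b1 := (h2.lat.mul_pow i).cg (c1 i hi)
    obtain ⟨b2, b3⟩ := a4 i (by omega)
    have b4 := h2.low i hi
    have b5 := (h1.τm i hi).1.2
    constructor
    · by_cases h : 0 < τ i - (n : ℝ) ^ i * s - ψ
      · linarith [(b1.sub h2.lat).lam_lt hn hk h]
      · have b6 := (b1.sub h2.lat).eq_zero hn hk (abs_le.2 ⟨by linarith, by linarith⟩)
        have b7 := hCL n θ k 0 ψ θ (τ i) hn hk h2.lat (by linarith) b4 (by linarith)
          (by simpa using Cg.refl θ)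
        have two := h1.hyp.two
        have b8 : k ∣ i := h1.hyp.dvd_of_occ (by omega) fun j hj => by
          rw [← (h1.τm i hi).2.lts_nu, ← b7 j hj, ← h1.hyp.per j (by omega), nu]
        exact absurd (Nat.le_of_dvd i0 b8) (by omega)
    · have := ((h1.pre.lat.cg (cg_add_one φ)).sub b1).lam_lt hn hk (by linarith)
      linarith
  refine ⟨?_, ?_, fun i i0 hi => ?_, fun l hl => ?_⟩
  · rw [le_div_iff₀ p]
    linarith
  · have := (h2.lat.sub h1.pre.lat).lam_lt hn hk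
      (by linarith [h2.gap, (a4 0 (Nat.zero_le _)).2, (a4 0 (Nat.zero_le _)).1])
    linarith
  · obtain ⟨b2, b3⟩ := a4 i (by omega)
    obtain ⟨b4, b5⟩ := c2 i i0 hi
    exact ⟨by linarith, by linarith, (h2.lat.mul_pow i).cg (c1 i hi)⟩
  · obtain ⟨b2, b3⟩ := a4 l hl
    have b1 : Cg ((n : ℝ) ^ l * ψ) ((n : ℝ) ^ (l % k) * ψ) := by
      have := (h2.lat.cg_pow (l / k)).mul_pow n (l % k)
      rwa [← mul_assoc, ← pow_add, Nat.mod_add_div] at this
    by_cases h : k ∣ l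
    · rw [Nat.mod_eq_zero_of_dvd h, pow_zero, one_mul] at b1
      obtain ⟨m, hm⟩ := b1.symm
      refine ⟨ψ + (n : ℝ) ^ l * s, ⟨m, ?_⟩, fun _ => ⟨by linarith, by linarith⟩,
        fun h' => absurd h h'⟩
      rw [e, mul_add]
      linarith
    · have i0 : 0 < l % k := Nat.pos_of_ne_zero fun h' => h (Nat.dvd_of_mod_eq_zero h')
      obtain ⟨b4, b5⟩ := c2 _ i0 (Nat.mod_lt l hk)
      obtain ⟨m, hm⟩ := (c1 _ (Nat.mod_lt l hk)).trans b1.symm
      refine ⟨τ (l % k) - (n : ℝ) ^ (l % k) * s + (n : ℝ) ^ l * s, ⟨m, ?_⟩,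
        fun h' => absurd h' h, fun _ => ⟨by linarith, by linarith⟩⟩
      rw [hm, e, mul_add]
      ring

end KN
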