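import Pool.Agent.Lib.KN55.Kit3

/-! Complex conjugation. -/

set_option autoImplicit false

open Filter Topology Set Metric Complex Bornology MeasureTheory N62a1eb23
open scoped Real ENNReal ComplexConjugate

namespace KN

open Pool.Agent.Lib.MP_c35c17_an

namespace XCONJ

theorem iter (n : ℕ) (c z : ℂ) (j : ℕ) : (F n (conj c))^[j] (conj z) = conj ((F n c)^[j] z) := by
  induction j with
  | zero => rfl
  | succ j ih => rw [iter_succ, iter_succ, ih, map_add, map_pow]

theorem iter_zero (n : ℕ) (c : ℂ) (j : ℕ) : (F n (conj c))^[j] 0 = conj ((F n c)^[j] 0) := by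
  simpa using iter n c 0 j

theorem dF_conj (n : ℕ) (c z : ℂ) (k : ℕ) : dF n (conj c) k (conj z) = conj (dF n c k z) := by
  simp only [dF, iter, map_prod, map_mul, map_pow, map_natCast]

theorem chart (Φ : ℂ → ℂ) (ζ : ℂ) : Bc (conj ∘ Φ ∘ conj) ζ = conj (Bc Φ (conj ζ)) := by
  simp [Bc, ← exp_conj, map_ofNat]

end XCONJ

open XCONJ in
theorem st_CONJ {n : ℕ} (hn : 2 ≤ n) : St_CONJ n := by
  intro c hc Φ hΦ hinj θ hP
  refine ⟨conj c, L.mem_of_bdd (R := ‖c‖ + 3) fun k => ?_, conj ∘ Φ ∘ conj,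
    ⟨fun w hw => ?_, fun w hw => ?_, ?_⟩, fun i j e => hinj ?_, fun e he => ?_, ?_⟩
  · rw [iter_zero, norm_conj]
    exact (orbit_lt hn hc le_rfl k).le
  · exact (differentiableAt_conj_conj_iff.mpr (hΦ.diff.differentiableAt
      ((isOpen_lt continuous_const continuous_norm).mem_nhds
        (by simpa using hw)))).differentiableWithinAt
  · simp only [Function.comp_apply, map_pow]
    rw [hΦ.conj _ (by rwa [norm_conj]), map_add, map_pow]
  · have h1 : Tendsto (fun w : ℂ => conj w) (cobounded ℂ) (cobounded ℂ) := by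
      rw [← tendsto_norm_atTop_iff_cobounded]
      simpa using tendsto_norm_cobounded_atTop (E := ℂ)
    have h2 := (continuous_conj.tendsto 1).comp (hΦ.norm.comp h1)
    rw [map_one] at h2
    exact h2.congr fun w => by simp
  · simp only [iter_zero] at e
    exact (starRingEnd ℂ).injective e
  · obtain ⟨ε, g, ϑ, h1, h2, h3, h4, h5, h6, h7⟩ := hP e he
    refine ⟨ε, g, -ϑ, h1, h2, h3, h4, by rwa [neg_sub_neg, abs_sub_comm], ?_, fun ζ h8 h9 => ?_⟩
    · rwa [chart, ← map_sub, norm_conj, show conj (⟨g, -ϑ⟩ : ℂ) = ⟨g, ϑ⟩ from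
        Complex.ext rfl (by simp)]
    · rw [chart, ← map_sub, norm_conj] at h9
      exact h7 (conj ζ) h8 h9
  · rintro k T C ⟨z, h1, h2, h3⟩
    obtain ⟨z, rfl⟩ : ∃ w, z = conj w := ⟨conj z, (conj_conj z).symm⟩
    rw [dF_conj, norm_conj] at h2 h3
    exact ⟨z, (starRingEnd ℂ).injective (by rwa [← iter]), h2, h3⟩

end KN
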