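import Pool.Agent.Lib.KN55.Kit3

/-! The Dirichlet distance is bounded in a domain with a horseshoe. -/

set_option autoImplicit false

open Filter Topology Set Metric Complex Bornology MeasureTheory N62a1eb23
open scoped Real ENNReal

namespace KN

open Pool.Agent.Lib.MP_c35c17_an

namespace XCROSS

/-- the distance is finite in a domain -/
theorem fin (hSTEP : St_STEP) {Ω : Set ℂ} (ho : IsOpen Ω) (hc : IsPreconnected Ω) {a b : ℂ}
    (ha : a ∈ Ω) (hb : b ∈ Ω) : ∃ D, 0 ≤ D ∧ Dst Ω a b D := by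
  refine hc.induction₂' (fun x y => ∃ D, 0 ≤ D ∧ Dst Ω x y D) (fun x hx => ?_)
    (fun x y z _ _ _ h1 h2 => ?_) ha hb
  · obtain ⟨r, hr, hs⟩ := Metric.isOpen_iff.mp ho x hx
    refine eventually_nhdsWithin_of_eventually_nhds ?_
    filter_upwards [closedBall_mem_nhds x (half_pos hr)] with y hy
    have h := (hSTEP x y r hr (by simpa [dist_eq_norm] using hy)).mono hs
    exact ⟨⟨1, zero_le_one, h⟩, 1, zero_le_one, h.symm⟩
  · obtain ⟨D, h3, h4⟩ := h1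
    obtain ⟨D', h5, h6⟩ := h2
    exact ⟨D + D', add_nonneg h3 h5, h4.trans h6⟩

theorem pt (f g f' g' : ℂ) (hf : f ≠ 0) (hg : g ≠ 0) :
    ‖f' * g + f * g'‖ ^ 2 / ‖f * g‖ ^ 2 ≤ 2 * (‖f'‖ ^ 2 / ‖f‖ ^ 2 + ‖g'‖ ^ 2 / ‖g‖ ^ 2) := by
  have h1 : (f' * g + f * g') / (f * g) = f' / f + g' / g := by field_simp
  rw [← div_pow, ← div_pow, ← div_pow, ← norm_div, ← norm_div, ← norm_div, h1]
  have h2 := norm_add_le (f' / f) (g' / g)
  have h3 := pow_le_pow_left₀ (norm_nonneg _) h2 2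
  nlinarith [sq_nonneg (‖f' / f‖ - ‖g' / g‖)]

/-- energy of a product -/
theorem En_mul {Ω : Set ℂ} (ho : IsOpen Ω) {f g : ℂ → ℂ} (hf : DifferentiableOn ℂ f Ω)
    (hg : DifferentiableOn ℂ g Ω) (hf0 : ∀ z ∈ Ω, f z ≠ 0) (hg0 : ∀ z ∈ Ω, g z ≠ 0) :
    En (f * g) Ω ≤ 2 * (En f Ω + En g Ω) := by
  have hm : AEMeasurable (fun z => ENNReal.ofReal (‖deriv f z‖ ^ 2 / ‖f z‖ ^ 2))
      (volume.restrict Ω) :=
    ENNReal.measurable_ofReal.comp_aemeasurable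
      ((((measurable_deriv f).norm.pow_const 2).aemeasurable).div
        ((hf.continuousOn.aemeasurable ho.measurableSet).norm.pow_const 2))
  rw [En, En, En, ← lintegral_add_left' hm, ← lintegral_const_mul' _ _ (by simp)]
  refine setLIntegral_mono' ho.measurableSet fun z hz => ?_
  rw [deriv_mul (hf.differentiableAt (ho.mem_nhds hz)) (hg.differentiableAt (ho.mem_nhds hz)),
    ← ENNReal.ofReal_add (by positivity) (by positivity), ← ENNReal.ofReal_ofNat,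
    ← ENNReal.ofReal_mul (by norm_num)]
  exact ENNReal.ofReal_le_ofReal (pt _ _ _ _ (hf0 z hz) (hg0 z hz))

/-- one contraction step -/
theorem step {Ω : Set ℂ} {G₀ G₁ : ℂ → ℂ} {a b : ℂ} {κ D : ℝ} (ho : IsOpen Ω)
    (d0 : DifferentiableOn ℂ G₀ Ω) (d1 : DifferentiableOn ℂ G₁ Ω) (i0 : InjOn G₀ Ω)
    (i1 : InjOn G₁ Ω) (m0 : MapsTo G₀ Ω Ω) (m1 : MapsTo G₁ Ω Ω)
    (hd : ∀ y ∈ Ω, ∀ y' ∈ Ω, G₀ y ≠ G₁ y') (ha : a ∈ Ω) (hb : b ∈ Ω)
    (a0 : Dst Ω a (G₀ a) κ) (a1 : Dst Ω a (G₁ a) κ) (b0 : Dst Ω b (G₀ b) κ)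
    (b1 : Dst Ω b (G₁ b) κ) (h : Dst Ω a b D) : Dst Ω a b (2 * κ + 3 / 4 * D) := by
  intro φ h1 h2 E h3 h4
  have e0 := h1.comp d0 m0
  have e1 := h1.comp d1 m1
  have n0 : ∀ z ∈ Ω, (φ ∘ G₀) z ≠ 0 := fun z hz => h2 _ (m0 hz)
  have n1 : ∀ z ∈ Ω, (φ ∘ G₁) z ≠ 0 := fun z hz => h2 _ (m1 hz)
  have hE : En (φ ∘ G₀ * φ ∘ G₁) Ω ≤ ENNReal.ofReal ((3 / 2 * E) ^ 2) := by
    refine (En_mul ho e0 e1 n0 n1).trans ?_
    rw [En_comp ho.measurableSet (fun z hz => d0.differentiableAt (ho.mem_nhds hz)) i0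
        fun z hz => h1.differentiableAt (ho.mem_nhds (m0 hz)),
      En_comp ho.measurableSet (fun z hz => d1.differentiableAt (ho.mem_nhds hz)) i1
        fun z hz => h1.differentiableAt (ho.mem_nhds (m1 hz)), En, En,
      ← lintegral_union (ho.measurableSet.image_of_continuousOn_injOn d1.continuousOn i1)
        (Set.disjoint_left.mpr (by
          rintro _ ⟨y, hy, rfl⟩ ⟨y', hy', e⟩
          exact hd y hy y' hy' e.symm))]
    calc _ ≤ 2 * ENNReal.ofReal (E ^ 2) :=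
          mul_le_mul_right ((En_mono (union_subset m0.image_subset m1.image_subset)).trans h4) 2
      _ ≤ _ := by
          rw [← ENNReal.ofReal_ofNat, ← ENNReal.ofReal_mul (by norm_num)]
          exact ENNReal.ofReal_le_ofReal (by nlinarith [sq_nonneg E])
  have k := h _ (e0.mul e1) (fun z hz => mul_ne_zero (n0 z hz) (n1 z hz)) _ (by positivity) hE
  simp only [Pi.mul_apply, norm_mul] at k
  rw [Real.log_mul (norm_ne_zero_iff.mpr (n0 a ha)) (norm_ne_zero_iff.mpr (n1 a ha)),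
    Real.log_mul (norm_ne_zero_iff.mpr (n0 b hb)) (norm_ne_zero_iff.mpr (n1 b hb))] at k
  have k0 := abs_le.mp (a0 φ h1 h2 E h3 h4)
  have k1 := abs_le.mp (a1 φ h1 h2 E h3 h4)
  have k2 := abs_le.mp (b0 φ h1 h2 E h3 h4)
  have k3 := abs_le.mp (b1 φ h1 h2 E h3 h4)
  have k4 := abs_le.mp k
  simp only [Function.comp_apply] at k4
  rw [abs_le]
  constructor <;> linarith [k0.1, k0.2, k1.1, k1.2, k2.1, k2.2, k3.1, k3.2, k4.1, k4.2]

end XCROSS

theorem st_CROSS (hSTEP : St_STEP) : St_CROSS := by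
  intro Ω G₀ G₁ a b κ ho hc d0 d1 i0 i1 m0 m1 hd ha hb hκ a0 a1 b0 b1
  obtain ⟨D, -, hD⟩ := XCROSS.fin hSTEP ho hc ha hb
  have key : ∀ j : ℕ, Dst Ω a b (8 * κ + (3 / 4) ^ j * D) := fun j => by
    induction j with
    | zero => exact hD.weaken (by rw [pow_zero]; linarith)
    | succ j ih =>
      exact (XCROSS.step ho d0 d1 i0 i1 m0 m1 hd ha hb a0 a1 b0 b1 ih).weaken (by
        rw [pow_succ]; linarith)
  intro φ h1 h2 E h3 h4
  have lim : Tendsto (fun j : ℕ => (8 * κ + (3 / 4 : ℝ) ^ j * D) * E) atTop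
      (𝓝 ((8 * κ + 0 * D) * E)) :=
    (((tendsto_pow_atTop_nhds_zero_of_lt_one (by norm_num) (by norm_num)).mul_const D).const_add
      _).mul_const E
  rw [zero_mul, add_zero] at lim
  exact ge_of_tendsto' lim fun j => key j φ h1 h2 E h3 h4

end KN
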