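import Pool.Agent.Lib.KN55.Kit3
import Pool.Agent.Lib.MP_c35c17_an.RBlue
import Pool.Agent.Lib.MP_c35c17_an.LF2G
import Pool.Agent.Lib.MP_c35c17_an.QMain

/-! From a weakly repelling cycle to the distance from the hyperbolic parameters. -/

set_option autoImplicit false

open Filter Topology Set Metric Complex Bornology MeasureTheory N62a1eb23
open scoped Real ENNReal

namespace KN

open Pool.Agent.Lib.MP_c35c17_an

theorem st_DIST {n : ℕ} (hn : 2 ≤ n) (hF : R.St_F3 n) : St_DIST n := by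
  obtain ⟨C, hC, h⟩ := hF
  obtain ⟨B, hB⟩ := Q.main_bound hn
  refine ⟨C, by linarith, fun c z k hk hz h1 h2 => ?_⟩
  set H : Set ℂ := {c | ∃ m z, IsAttractingCycle (fun w ↦ w ^ n + c) m z} with hH
  set ρ := dF n c k z with hρ
  set Λ := Real.log ‖ρ‖ with hΛ
  have hΛ0 : 0 < Λ := Real.log_pos h1
  have hρ0 : (‖ρ‖ : ℂ) ≠ 0 := by exact_mod_cast (by linarith : ‖ρ‖ ≠ 0)
  have hω : ‖ρ / (‖ρ‖ : ℂ)‖ = 1 := by
    rw [norm_div, norm_real, norm_norm, div_self (by linarith)]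
  have he : ρ = ρ / (‖ρ‖ : ℂ) * exp (Λ : ℂ) := by
    rw [← ofReal_exp, hΛ, Real.exp_log (by linarith), div_mul_cancel₀ _ hρ0]
  obtain ⟨G, -, -, hG⟩ := h k Λ (ρ / (‖ρ‖ : ℂ)) Λ c z hk hΛ0 hω (mem_ball_self hΛ0) hz he h2
  have hB0 : 0 ≤ C * (k : ℝ) ^ 408 * Λ := by positivity
  set R := (C * (k : ℝ) ^ 408 * Λ) ^ (((48 : ℕ) : ℝ)⁻¹) with hR
  have hR0 : 0 ≤ R := Real.rpow_nonneg hB0 _
  have hR48 : R ^ 48 = C * (k : ℝ) ^ 408 * Λ := Real.rpow_inv_natCast_pow hB0 (by norm_num)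
  rw [← hR48]
  refine pow_le_pow_left₀ infDist_nonneg (le_of_forall_pos_le_add fun ε hε => ?_) 48
  have t1 : Tendsto (fun t : ℝ => B * (k : ℝ) ^ 1872 * (Real.exp t - 1)) (𝓝[>] 0) (𝓝 0) := by
    have : Continuous fun t : ℝ => B * (k : ℝ) ^ 1872 * (Real.exp t - 1) := by fun_prop
    simpa using (this.tendsto 0).mono_left nhdsWithin_le_nhds
  have t2 : Tendsto (fun t : ℝ => Real.exp t) (𝓝[>] 0) (𝓝 1) := by
    simpa using (Real.continuous_exp.tendsto 0).mono_left nhdsWithin_le_nhds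
  obtain ⟨t, ⟨e1, e2⟩, e3, e4⟩ := (((t1.eventually_lt_const (pow_pos hε 576)).and
    (t2.eventually_lt_const (show (1 : ℝ) < 6 / 5 by norm_num))).and
      (Ioo_mem_nhdsGT hΛ0)).exists
  have hm : (t : ℂ) ∈ ball (Λ : ℂ) Λ := by
    rw [mem_ball, dist_eq_norm, ← ofReal_sub, norm_real, Real.norm_eq_abs, abs_lt]
    constructor <;> linarith
  obtain ⟨a1, a2, a3, -⟩ := hG t hm
  have a4 : ‖dF n (G t).1 k (G t).2‖ = Real.exp t := by
    rw [a2, norm_mul, hω, one_mul, norm_exp, ofReal_re]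
  have a5 : ‖(G t).1‖ ≤ 2 := by
    by_contra hc
    have := L.f2 hn k _ _ (not_le.mp hc).le hk a1
    linarith
  have a6 := hB _ a5 k _ hk a1 (by rw [a4]; exact Real.one_le_exp e3.le)
  rw [a4] at a6
  have a7 : infDist (G t).1 H < ε := lt_of_pow_lt_pow_left₀ 576 hε.le (a6.trans_lt e1)
  have a8 : ‖(G t).1 - c‖ ≤ R := le_of_pow_le_pow_left₀ (n := 48) (by norm_num) hR0 (hR48 ▸ a3)
  have a9 : infDist c H ≤ infDist (G t).1 H + dist c (G t).1 := infDist_le_infDist_add_dist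
  rw [dist_comm, dist_eq_norm] at a9
  linarith

end KN
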