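import Pool.Agent.Lib.KN55.Kit3

/-! Block FIX: the iterates of an injective self map with a wandering open set tend to a point. -/

set_option autoImplicit false

open Filter Topology Set Metric Complex Bornology MeasureTheory N62a1eb23
open scoped Real ENNReal

namespace KN

open Pool.Agent.Lib.MP_c35c17_an

namespace XFIX

variable {Ω O : Set ℂ} {G : ℂ → ℂ} {C : ℝ}

theorem iter_diff (hd : DifferentiableOn ℂ G Ω) (hm : MapsTo G Ω Ω) (m : ℕ) :
    DifferentiableOn ℂ G^[m] Ω := by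
  induction m with
  | zero => exact differentiableOn_id
  | succ m ih => exact ih.comp hd hm

/-- the areas of the images of a wandering disc tend to zero -/
theorem area_zero (hd : DifferentiableOn ℂ G Ω) (hi : InjOn G Ω) (hm : MapsTo G Ω Ω)
    (hC : ∀ R : ℝ, ∀ᶠ m in atTop, ∀ w ∈ Ω, ‖w‖ ≤ R → ‖G^[m] w‖ ≤ C) (hO : O ⊆ Ω)
    (hw : ∀ j : ℕ, 0 < j → ∀ y ∈ O, G^[j] y ∉ O) {y : ℂ} {r : ℝ} (hb : ball y r ⊆ O) :
    Tendsto (fun m => volume (G^[m] '' ball y r)) atTop (𝓝 0) := by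
  obtain ⟨N, hN⟩ := eventually_atTop.1 (hC (‖y‖ + r))
  have hbΩ := hb.trans hO
  have hme (m : ℕ) : MeasurableSet (G^[m] '' ball y r) :=
    measurableSet_ball.image_of_continuousOn_injOn ((iter_diff hd hm m).continuousOn.mono hbΩ)
      ((hi.iterate hm m).mono hbΩ)
  have hdis : Pairwise (Function.onFun Disjoint fun m => G^[m + N] '' ball y r) := by
    refine (pairwise_disjoint_on _).2 fun i j hij => disjoint_left.2 ?_
    rintro _ ⟨a, ha, rfl⟩ ⟨b, hb', e⟩
    rw [show j + N = i + N + (j - i) by omega, Function.iterate_add_apply] at e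
    have := hi.iterate hm _ (hm.iterate _ (hbΩ hb')) (hbΩ ha) e
    exact hw (j - i) (by omega) b (hb hb') (this ▸ hb ha)
  rw [← tendsto_add_atTop_iff_nat N]
  refine ENNReal.tendsto_atTop_zero_of_tsum_ne_top ?_
  rw [← measure_iUnion hdis fun m => hme _]
  refine ((measure_mono ?_).trans_lt (measure_closedBall_lt_top (x := (0 : ℂ)) (r := C))).ne
  refine iUnion_subset fun m => ?_
  rintro _ ⟨a, ha, rfl⟩
  refine mem_closedBall_zero_iff.2 (hN _ (Nat.le_add_left _ _) a (hbΩ ha) ?_)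
  have h1 := norm_sub_norm_le a y
  have h2 := mem_ball_iff_norm.1 ha
  linarith

end XFIX

theorem st_FIX : St_FIX := by
  intro Ω O G C hΩ hc hd hi hm hC hO hne hOΩ hw
  have hD := XFIX.iter_diff hd hm
  obtain ⟨h, ht, hh⟩ := Q.montel (hyperfilter ℕ) hΩ (F := fun m => G^[m]) (C := C) fun z hz => by
    obtain ⟨r, hr, hb⟩ := Metric.isOpen_iff.1 hΩ z hz
    refine ⟨r, hr, ((hC (‖z‖ + r)).filter_mono Nat.hyperfilter_le_atTop).mono fun m h1 =>
      ⟨(hD m).mono hb, fun w hw => h1 w (hb hw) ?_⟩⟩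
    have h1 := norm_sub_norm_le w z
    have h2 := mem_ball_iff_norm.1 hw
    linarith
  have ht' := ht.deriv (Eventually.of_forall hD) hΩ
  have h0 : ∀ y ∈ O, deriv h y = 0 := fun y hy => by
    obtain ⟨r, hr, hb⟩ := Metric.isOpen_iff.1 hO y hy
    have h1 := (XFIX.area_zero hd hi hm hC hOΩ hw hb).mono_left Nat.hyperfilter_le_atTop
    have h2 : Tendsto (fun m => ENNReal.ofReal (π * r ^ 2 * ‖deriv G^[m] y‖ ^ 2)) (hyperfilter ℕ)
        (𝓝 (ENNReal.ofReal (π * r ^ 2 * ‖deriv h y‖ ^ 2))) :=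
      ENNReal.tendsto_ofReal (((ht'.tendsto_at (hOΩ hy)).norm.pow 2).const_mul _)
    have h3 := le_of_tendsto_of_tendsto' h2 h1 fun m => by
      refine (mean_sq hr (((hD m).deriv hΩ).mono (hb.trans hOΩ))).trans_eq ?_
      have := Q.lintegral_image_holo' measurableSet_ball (fun z hz =>
        ((hD m).differentiableAt (hΩ.mem_nhds (hOΩ (hb hz)))).hasDerivAt)
        ((hi.iterate hm m).mono (hb.trans hOΩ)) fun _ => 1
      simpa only [mul_one, setLIntegral_one] using this.symm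
    have h4 := ENNReal.ofReal_eq_zero.1 (nonpos_iff_eq_zero.1 h3)
    have h5 : 0 < π * r ^ 2 := by positivity
    have h6 : ‖deriv h y‖ ^ 2 ≤ 0 := by
      by_contra hn
      exact absurd h4 (not_le.2 (mul_pos h5 (not_le.1 hn)))
    exact norm_eq_zero.1 (pow_eq_zero_iff two_ne_zero |>.1 (le_antisymm h6 (sq_nonneg _)))
  obtain ⟨y, hy⟩ := hne
  have h1 : EqOn (deriv h) 0 Ω :=
    ((hh.deriv hΩ).analyticOnNhd hΩ).eqOn_zero_of_preconnected_of_eventuallyEq_zero hc (hOΩ hy)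
      (eventually_of_mem (hO.mem_nhds hy) h0)
  exact ⟨h y, ht.congr_right fun w hw => hΩ.is_const_of_deriv_eq_zero hc hh h1 hw (hOΩ hy)⟩

end KN
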