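import Pool.Agent.Lib.KN55.Kit3

/-! The word `u ^ r w` on the first interval. -/

set_option autoImplicit false

open Filter Topology Set Metric Complex Bornology MeasureTheory N62a1eb23
open scoped Real ENNReal

namespace KN

open Pool.Agent.Lib.MP_c35c17_an

namespace XG2A

variable {n k T i0 : ℕ} {θ φ ψ s z : ℝ} {x τ : ℕ → ℝ} {sh : ℤ}

theorem stay (h : G1 n θ k T φ x sh τ i0) (hz : x (T / k - 1) < z) {j : ℕ} (hj : j ≤ 5 * k + 4) :
    θ ≤ (Gm n θ k sh)^[j] z := by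
  have h1 := h.big
  have h2 := h.hyp.pos
  have h3 := h.iter (i := T / k - 1 - j) (r := j) (by omega)
  rw [show T / k - 1 - j + j = T / k - 1 by omega] at h3
  have h4 := (Gm_strictMono (θ := θ) (k := k) (sh := sh) h.hyp.hn).iterate j hz
  have h5 := h.mono (i := 0) (j := T / k - 1 - j) (by omega) (by omega)
  rw [h.pre.x0] at h5
  linarith

theorem upper (h : G1 n θ k T φ x sh τ i0) (g : G2 n θ k T φ sh τ i0 ψ s)
    (hz : z ∈ Ioo (x (T / k - 1)) (τ i0)) {r : ℕ} (hr : r = mm k ∨ r = mm k + 1) :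
    (Gm n θ k sh)^[r] z ≤ ψ + lam n k / 2 := by
  have hn := h.hyp.hn
  have hz' : z ∈ Ioo φ (τ i0) := ⟨(h.pre.mem _ (Nat.sub_le _ _)).1.trans hz.1, hz.2⟩
  have hin : ∀ j, (Gm n θ k sh)^[j] z ∈ Ioo φ (τ i0) := fun j =>
    ⟨(h.left_iter hz' j).1, (h.left_iter hz' j).2.trans_lt hz.2⟩
  have hk0 : ∀ e ≤ 4, (Gm n θ k sh)^[e + 1 + 5 * k] z =
      ψ + lam n k * ((Gm n θ k sh)^[e + 5 * k] z - ψ) ∧ (Gm n θ k sh)^[e + 5 * k] z - ψ < 2 := by
    intro e he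
    rw [add_right_comm, Function.iterate_succ_apply']
    refine g.k0 _ (stay h hz.1 (by omega)) fun i h0 hi => ?_
    rw [Function.iterate_add_apply]
    exact (h.left_iter (hin _) e).2.trans_lt (g.run z hz' i h0 hi)
  obtain ⟨a0, b0⟩ := hk0 0 (by omega)
  obtain ⟨a1, -⟩ := hk0 1 (by omega)
  obtain ⟨a2, -⟩ := hk0 2 (by omega)
  have l0 := lam_pos (k := k) hn
  have l1 := lam_le hn h.hyp.pos
  have h3 : (Gm n θ k sh)^[2 + 1 + 5 * k] z ≤ ψ + lam n k / 2 := by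
    rw [a2, show 2 = 1 + 1 from rfl, a1, show 1 + 5 * k = 0 + 1 + 5 * k from rfl, a0]
    have c1 := mul_le_mul_of_nonneg_left b0.le l0.le
    have c2 : lam n k * ((Gm n θ k sh)^[0 + 5 * k] z - ψ) ≤ 1 := by linarith
    have c3 := mul_le_mul_of_nonneg_left c2 l0.le
    have c4 : lam n k * (lam n k * ((Gm n θ k sh)^[0 + 5 * k] z - ψ)) ≤ 1 / 2 := by linarith
    have c5 := mul_le_mul_of_nonneg_left c4 l0.le
    simp only [add_sub_cancel_left]
    norm_num at c5 ⊢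
    linarith
  rcases hr with rfl | rfl
  · rwa [mm, show 5 * k + 3 = 2 + 1 + 5 * k by ring]
  · rw [mm, show 5 * k + 3 = 2 + 1 + 5 * k by ring, Function.iterate_succ_apply']
    exact (h.left _ (hin _)).2.le.trans h3

end XG2A

theorem st_G2A : St_G2A := by
  intro n θ k T φ x sh τ i0 ψ s j0 sh' σ h1 h2 h3 h4 r hr y hy
  have hn := h1.hyp.hn
  have hyσ : y < σ := hy.2.trans_le h4.σm.1
  have a := h4.lft y ⟨hy.1, hyσ⟩
  have b := h4.lft θ ⟨le_rfl, hy.1.trans_lt hyσ⟩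
  rw [Wh_Gm hn]
  refine ⟨?_, XG2A.upper h1 h2 a hr⟩
  have c := XG2A.stay h1 b.1 (j := r) (by rcases hr with rfl | rfl <;> simp only [mm] <;> omega)
  have d1 := bh_sub_ge (k := k) (p := i0) (r := j0 + 1) (θ := θ) hn hy.1
  have d0 : 0 ≤ (y - θ) / (n : ℝ) ^ (j0 + 1) := div_nonneg (sub_nonneg.2 hy.1) (npow_pos hn _).le
  have d2 := bh_sub_ge (k := k) (p := 0) (r := k * r) (θ := θ) hn
    (show bh n θ k i0 (j0 + 1) θ - sh' ≤ bh n θ k i0 (j0 + 1) y - sh' by linarith)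
  have d3 : (y - θ) / (n : ℝ) ^ (r * k + (j0 + 1)) ≤
      (bh n θ k i0 (j0 + 1) y - sh' - (bh n θ k i0 (j0 + 1) θ - sh')) / (n : ℝ) ^ (k * r) := by
    rw [pow_add, mul_comm r k, mul_comm ((n : ℝ) ^ (k * r)), ← div_div]
    exact div_le_div_of_nonneg_right (by linarith) (npow_pos hn _).le
  rw [Gm_iter hn] at c ⊢
  linarith

end KN
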