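import Pool.Agent.Lib.KN55.Kit3

/-! The two branches of the horseshoe. -/

set_option autoImplicit false

open Filter Topology Set Metric Complex Bornology MeasureTheory N62a1eb23
open scoped Real ENNReal

namespace KN

open Pool.Agent.Lib.MP_c35c17_an

namespace XGA0

variable {n k T i0 j0 r : ℕ} {θ η : ℝ} (σ : Sit n θ k T η) {y : ℂ}

theorem idx (hj : j0 < k) (hr : r ≤ mm k + 1) : j0 + 1 + k * r ≤ LL k := by
  have h1 := Nat.mul_le_mul_left k hr
  rw [mm] at h1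
  rw [LL]
  nlinarith

theorem sub1 (hj : j0 < k) : σ.Ωs ⊆ Om σ.S (Iio (j0 + 1)) :=
  σ.Ωs_sub (by have := idx (r := 0) hj (Nat.zero_le _); omega)

theorem maps1 (hj : j0 < k) (hr : r ≤ mm k + 1) :
    MapsTo (σ.b i0 (j0 + 1)) σ.Ωs (Om σ.S (Iio (k * r))) := fun _ hy =>
  (σ.mod.br_inv (L := k * r) (σ.Ωs_sub (by have := idx hj hr; omega) hy)).2

theorem let1 (hj : j0 < k) (hr : r ≤ mm k + 1) (hy : y ∈ σ.Ωs) {e : ℕ} (he : e < k * r) :
    σ.InV (σ.W i0 j0 r y) e (vv n θ k e) := by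
  rw [σ.W_eq]
  simpa using σ.inV_b (p := 0) (maps1 σ hj hr hy) he

theorem let2 (hj : j0 < k) (hr : r ≤ mm k + 1) (hy : y ∈ σ.Ωs) :
    σ.InV (σ.W i0 j0 r y) (k * r + j0) (vv n θ k (i0 + j0)) := by
  rw [σ.W_eq]
  exact σ.inV_b_add (maps1 σ hj hr hy) (σ.inV_b (sub1 σ hj hy) (Nat.lt_succ_self _))

end XGA0

open XGA0 in
theorem st_GA0 : St_GA0 := by
  intro n θ k T η σ i0 j0 hT hj hne
  have hL := σ.LL_le hT
  refine ⟨fun r hr => ?_, fun y hy y' hy' e => ?_⟩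
  · have h1 : r ≤ mm k + 1 := by omega
    have h2 : k ≤ k * r := Nat.le_mul_of_pos_right k (by rw [mm] at hr; omega)
    have h3 := idx hj h1
    refine ⟨?_, ?_, fun y hy l hl hm => ?_⟩
    · exact ((σ.mod.br_diff (v := vv n θ k) (p := 0) (r := k * r)).comp
        (σ.mod.br_diff.mono (sub1 σ hj)) (maps1 σ hj h1)).congr fun y _ => σ.W_eq i0 j0 r y
    · intro y hy y' hy' e
      rw [σ.W_eq, σ.W_eq] at e
      exact σ.mod.br_inj (sub1 σ hj hy) (sub1 σ hj hy')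
        (σ.mod.br_inj (maps1 σ hj h1 hy) (maps1 σ hj h1 hy') e)
    · have h4 : l ≤ LL k := hl
      have h5 : k ∣ l := σ.hyp.dvd_of_occ (by omega) fun e he =>
        (σ.inV_slit hm (by omega)).uniq (let1 σ hj h1 hy (by omega))
      have h6 := (σ.inV_slit (j := k * r + j0) hm (by omega)).uniq (let2 σ hj h1 hy)
      rw [σ.hyp.per _ (by omega), ← add_assoc, vv_dvd (h5.add (dvd_mul_right k r))] at h6
      exact hne h6.symm
  · have h1 := let2 (i0 := i0) σ hj (Nat.le_succ _) hy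
    have h2 := let1 (i0 := i0) σ hj le_rfl hy' (e := k * mm k + j0) (by rw [mul_add]; omega)
    rw [e] at h1
    exact hne ((h1.uniq h2).trans (vv_dvd (dvd_mul_right k _) j0))

end KN
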