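import Pool.Agent.Lib.KN55.Kit3

/-! The distance across the horseshoe. -/

set_option autoImplicit false

open Filter Topology Set Metric Complex Bornology MeasureTheory N62a1eb23
open scoped Real ENNReal

namespace KN

open Pool.Agent.Lib.MP_c35c17_an

namespace XGA1

variable {n k T : ℕ} {θ η α β : ℝ}

/-- two points of a tent over a free interval -/
theorem tent (hTENT : St_TENT) (σ : Sit n θ k T η) (hbig : 50 * k ≤ T / k) {r t x t' x' : ℝ}
    {N : ℕ} (hab : β ≤ α + 1) (hfree : ∀ l ≤ LL k, ∀ m : ℤ, (n : ℝ) ^ l * θ + m ∉ Ioo α β)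
    (hr : 0 < r) (hη : η ≤ r / 2) (hN : 1 ≤ (7 / 6) ^ N * r) (h1 : r ≤ t) (h2 : t ≤ x - α)
    (h3 : t ≤ β - x) (h4 : r ≤ t') (h5 : t' ≤ x' - α) (h6 : t' ≤ β - x') :
    Dst σ.Ωs (Bc σ.Φ ⟨t, x⟩) (Bc σ.Φ ⟨t', x'⟩) (N + N) := by
  have hL := σ.LL_le hbig
  have h7 := (hTENT α β r t x N hab hr h1 h2 h3 hN).trans
    (hTENT α β r t' x' N hab hr h4 h5 h6 hN).symm
  refine h7.pull (isOpen_Ioo.reProdIm isOpen_Ioo) (σ.Ωs_open hbig)
    ((Bc_diff σ.cj).mono fun ζ hζ => ?_) (Bc_injOn σ.cj (α := α) fun ζ hζ => ?_) fun ζ hζ => ?_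
  · obtain ⟨h8, -⟩ := mem_reProdIm.mp hζ
    exact lt_trans (by linarith) h8.1
  · obtain ⟨h8, h9⟩ := mem_reProdIm.mp hζ
    exact ⟨by linarith [h8.1], by linarith [h9.1], by linarith [h9.2]⟩
  · obtain ⟨h8, h9⟩ := mem_reProdIm.mp hζ
    exact σ.mem_Om (t := ζ.re) (x := ζ.im) (Iic_subset_Iic.mpr (by omega)) (by linarith [h8.1])
      fun l hl m => lt_abs_of_not_mem (hfree l hl m) (by linarith [h9.1]) (by linarith [h9.2])

/-- points in the middle of a free interval are far from the orbit -/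
theorem far (hn : 2 ≤ n) (h0 : 0 < η) {d x : ℝ} (hd : (n : ℝ) ^ LL k * η < d)
    (hfree : ∀ l ≤ LL k, ∀ m : ℤ, (n : ℝ) ^ l * θ + m ∉ Ioo α β) (h1 : α + d ≤ x)
    (h2 : x ≤ β - d) : Far n θ η x (LL k + 1) := fun l hl m => by
  have h3 := mul_le_mul_of_nonneg_right (npow_mono hn (Nat.lt_succ_iff.mp hl)) h0.le
  exact lt_abs_of_not_mem (hfree l (Nat.lt_succ_iff.mp hl) m) (by linarith) (by linarith)

theorem mem (σ : Sit n θ k T η) (hbig : 50 * k ≤ T / k) {t x : ℝ} (ht : η < t)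
    (hx : Far n θ η x (LL k + 1)) : Bc σ.Φ ⟨t, x⟩ ∈ σ.Ωs := by
  have hL := σ.LL_le hbig
  refine σ.mem_Om (Iic_subset_Iic.mpr (by omega)) ht fun l hl m => ?_
  have h1 := mul_le_mul_of_nonneg_right (npow_mono σ.hyp.hn (Nat.zero_le l)) σ.ηpos.le
  rw [pow_zero, one_mul] at h1
  exact h1.trans_lt (hx l (Nat.lt_succ_iff.mpr hl) m)

theorem steps (hn : 2 ≤ n) :
    1 ≤ (7 / 6 : ℝ) ^ (5 * n * (LL k + k + 4)) * (lam n k / 16 / (n : ℝ) ^ LL k) := by
  have h1 := npow_le_ratio n (LL k + k + 4)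
  have h2 := two_pow_le hn 4
  have h3 := npow_pos hn k
  have h4 := npow_pos hn (LL k)
  have h5 := lam_pos (k := k) hn
  refine le_trans ?_ (mul_le_mul_of_nonneg_right h1 (by positivity))
  rw [pow_add, pow_add, lam]
  have h6 : (n : ℝ) ^ LL k * n ^ k * n ^ 4 * (((n : ℝ) ^ k)⁻¹ / 16 / n ^ LL k) = n ^ 4 / 16 := by
    field_simp
  rw [h6]
  linarith

theorem ex_le {r j0 : ℕ} (hr : r = mm k ∨ r = mm k + 1) (hj : j0 < k) :
    k * r + (j0 + 1) ≤ LL k := by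
  have h1 : r ≤ 5 * k + 4 := by rw [mm] at hr; omega
  have h2 := Nat.mul_le_mul_left k h1
  rw [LL]
  nlinarith

theorem cst (hk : 0 < k) : ((5 * n * (LL k + k + 4) : ℕ) : ℝ) ≤ 120 * n * k ^ 2 := by
  have h1 : LL k + k + 4 ≤ 24 * k ^ 2 := by rw [LL]; nlinarith
  have h2 : 5 * n * (LL k + k + 4) ≤ 120 * n * k ^ 2 := by
    have := Nat.mul_le_mul_left (5 * n) h1
    linarith
  exact_mod_cast h2

end XGA1

open XGA1 in
theorem st_GA1 {n : ℕ} (hn : 2 ≤ n) (hTENT : St_TENT) (hCROSS : St_CROSS) (hGA0 : St_GA0) :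
    St_GA1 n := by
  refine ⟨2160 * n, by have := npos hn; positivity, fun θ k T φ ψ ξ i0 j0 η σ hG hη x hx => ?_⟩
  have hk := hG.hyp.pos
  have hL := σ.LL_le hG.big
  have hl0 := lam_pos (k := k) hn
  have hl1 := lam_le hn hk
  have hQ0 := npow_pos hn (LL k)
  have hQ1 : 1 ≤ (n : ℝ) ^ LL k := by simpa using npow_mono hn (Nat.zero_le (LL k))
  have hs := eta_small hn hk σ.ηpos hη
  have hη0 := σ.ηpos
  have hη1 : η < lam n k / 32 := by nlinarith
  have hr0 : 0 < lam n k / 16 / (n : ℝ) ^ LL k := by positivity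
  have hr1 : lam n k / 16 / (n : ℝ) ^ LL k ≤ lam n k / 16 := div_le_self (by positivity) hQ1
  have hr2 : η ≤ lam n k / 16 / (n : ℝ) ^ LL k / 2 := by
    rw [div_right_comm, le_div_iff₀ hQ0]
    linarith
  have hx1 : ξ ≤ lam n k / 8 := hG.xi.trans (div_le_self (by positivity) hQ1)
  have o1 := hG.o1
  have o2 := hG.o2
  have o3 := hG.o3
  have o4 := hG.o4
  have hB : ∀ l ≤ LL k, ∀ m : ℤ, (n : ℝ) ^ l * θ + m ∉ Ioo (φ - lam n k / 2) θ :=
    fun l hl => hG.freeB l (Or.inl hl)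
  have fa : Far n θ η (ψ + lam n k / 2) (LL k + 1) :=
    far hn hη0 hs hG.freeA (by linarith) (by linarith)
  have fb : Far n θ η φ (LL k + 1) := far hn hη0 hs hB (by linarith) (by linarith)
  have tA := fun (t x t' x' : ℝ) => tent (t := t) (x := x) (t' := t') (x' := x') hTENT σ hG.big
    (by linarith) hG.freeA hr0 hr2 (steps hn)
  have tB := fun (t x t' x' : ℝ) => tent (t := t) (x := x) (t' := t') (x' := x') hTENT σ hG.big
    (by linarith) hB hr0 hr2 (steps hn)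
  have hW : ∀ r, r = mm k ∨ r = mm k + 1 →
      Dst σ.Ωs (Bc σ.Φ ⟨lam n k / 4, ψ + lam n k / 2⟩)
        (σ.W i0 j0 r (Bc σ.Φ ⟨lam n k / 4, ψ + lam n k / 2⟩))
        ((5 * n * (LL k + k + 4) : ℕ) + (5 * n * (LL k + k + 4) : ℕ)) ∧
      Dst σ.Ωs (Bc σ.Φ ⟨lam n k / 4, φ⟩) (σ.W i0 j0 r (Bc σ.Φ ⟨lam n k / 4, φ⟩))
        ((5 * n * (LL k + k + 4) : ℕ) + (5 * n * (LL k + k + 4) : ℕ)) := fun r hr => by
    have e1 := ex_le hr hG.jk
    have e2 := npow_mono hn e1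
    have e3 := npow_pos hn (k * r + (j0 + 1))
    have e4 : 1 ≤ (n : ℝ) ^ (k * r + (j0 + 1)) := by
      simpa using npow_mono hn (Nat.zero_le (k * r + (j0 + 1)))
    have e5 : (n : ℝ) ^ (k * r + (j0 + 1)) * η < lam n k / 4 :=
      (mul_le_mul_of_nonneg_right e2 hη0.le).trans_lt (by linarith)
    have e6 : lam n k / 4 / (n : ℝ) ^ (k * r + (j0 + 1)) ≤ lam n k / 4 :=
      div_le_self (by positivity) e4
    have e7 : lam n k / 16 / (n : ℝ) ^ LL k ≤ lam n k / 4 / (n : ℝ) ^ (k * r + (j0 + 1)) :=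
      div_le_div₀ (by positivity) (by linarith) e3 e2
    have e8 : ξ ≤ lam n k / 8 / (n : ℝ) ^ (k * r + (j0 + 1)) :=
      hG.xi.trans (div_le_div_of_nonneg_left (by positivity) e3 e2)
    obtain ⟨p, p1, p2⟩ := hG.g2 r hr (ψ + lam n k / 2) ⟨by linarith, by linarith⟩
    obtain ⟨q, q1, q2⟩ := hG.g3 r hr φ ⟨by linarith, le_rfl⟩
    rw [mul_comm r k] at p1
    have e9 : lam n k / 4 / (n : ℝ) ^ (k * r + (j0 + 1)) +
        lam n k / 8 / (n : ℝ) ^ (k * r + (j0 + 1)) ≤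
          (ψ + lam n k / 2 - θ) / (n : ℝ) ^ (k * r + (j0 + 1)) := by
      rw [← add_div]
      exact div_le_div_of_nonneg_right (by linarith) e3.le
    constructor
    · rw [(σ.W_chart (i0 := i0) (L := 0) e5 (fa.mono (by omega))).1,
        (cg_sub_int (Wh n θ k i0 j0 r (ψ + lam n k / 2)) p).symm.Bc]
      exact tA _ _ _ _ (by linarith) (by linarith) (by linarith) e7 (by linarith) (by linarith)
    · rw [(σ.W_chart (i0 := i0) (L := 0) e5 (fb.mono (by omega))).1,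
        (cg_sub_int (Wh n θ k i0 j0 r φ) q).symm.Bc]
      exact tB _ _ _ _ (by linarith) (by linarith) (by linarith) e7 (by linarith) (by linarith)
  obtain ⟨g1, g2⟩ := hGA0 n θ k T η σ i0 j0 hG.big hG.jk hG.ne
  obtain ⟨d0, i0', m0⟩ := g1 _ (Or.inl rfl)
  obtain ⟨d1, i1', m1⟩ := g1 _ (Or.inr rfl)
  have hc := hCROSS σ.Ωs _ _ _ _ _ (σ.Ωs_open hG.big)
    (σ.mod.conn _ (Iic_subset_Iic.mpr (by omega))) d0 d1 i0' i1' m0 m1 g2
    (mem σ hG.big (by linarith) fa) (mem σ hG.big (by linarith) fb) (by positivity)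
    (hW _ (Or.inl rfl)).1 (hW _ (Or.inr rfl)).1 (hW _ (Or.inl rfl)).2 (hW _ (Or.inr rfl)).2
  have hx2 : ψ + 3 * lam n k / 8 ≤ x ∧ x ≤ ψ + 5 * lam n k / 8 := by
    rcases hx with rfl | rfl <;> constructor <;> linarith
  have h0 := tA (lam n k / 16) x (lam n k / 4) (ψ + lam n k / 2) hr1 (by linarith [hx2.1])
    (by linarith [hx2.2]) (by linarith) (by linarith) (by linarith)
  refine (h0.trans hc).weaken ?_
  linarith [cst (n := n) hk]

end KN
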