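import Pool.Agent.Lib.KN55.Kit3

/-! The energy of the linearizer along the word through the gate. -/

set_option autoImplicit false

open Filter Topology Set Metric Complex Bornology MeasureTheory N62a1eb23
open scoped Real ENNReal

namespace KN

open Pool.Agent.Lib.MP_c35c17_an

namespace XGA2

variable {n k T i0 j0 r : ℕ} {θ η : ℝ} (σ : Sit n θ k T η) {y : ℂ}

theorem sub (hj : j0 < k) : σ.Ωs ⊆ Om σ.S (Iio (j0 + 1)) := σ.Ωs_sub (by rw [LL]; nlinarith)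

/-- the letter at time `j0` -/
theorem letter (hj : j0 < k) (hW : σ.W i0 j0 r y ∈ σ.Ωs) :
    σ.InV (σ.Y i0 j0 r y) j0 (vv n θ k (i0 + j0)) := σ.inV_b (sub σ hj hW) (Nat.lt_succ_self j0)

theorem ne_G (hj : j0 < k) (hne : vv n θ k (i0 + j0) ≠ vv n θ k j0) (hW : σ.W i0 j0 r y ∈ σ.Ωs)
    {u : ℂ} (hu : u ∈ σ.Ω) : σ.b 0 k u ≠ σ.Y i0 j0 r y :=
  fun e => hne ((letter σ hj hW).uniq (e ▸ σ.inV_G hu hj))

theorem inner (hj : j0 < k) (hr : r ≤ mm k + 1) (hy : y ∈ σ.Ωs) :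
    σ.b i0 (j0 + 1) y ∈ Om σ.S (Iio (k * r)) :=
  (σ.mod.br_inv (σ.Ωs_sub (by
    have := Nat.mul_le_mul_left k hr
    rw [mm] at this
    rw [LL]
    nlinarith) hy)).2

/-- the image avoids the slits once the late letter is wrong -/
theorem maps (hj : j0 < k) (hne : vv n θ k (i0 + j0) ≠ vv n θ k j0) (hW : σ.W i0 j0 r y ∈ σ.Ωs)
    {a a' : ZMod n} (ha : σ.S (k * (T / k) + (j0 + 1 + (k * mm k + j0))) ⊆ σ.g a '' (σ.S 0)ᶜ)
    (ha' : σ.InV (σ.W i0 j0 r y) (k * mm k + j0) a') (h : a ≠ a') : σ.Y i0 j0 r y ∈ σ.Ω := by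
  intro l hl hm
  rcases hl with hl | ⟨⟨q, rfl⟩, hl⟩
  · have h1 := σ.mod.map_iter hm (j0 + 1)
    rw [Sit.Y, σ.b_inv (sub σ hj hW)] at h1
    exact hW _ (show l + (j0 + 1) ≤ LL k by rw [LL]; nlinarith) h1
  rcases lt_or_ge (k * q + j0) T with h1 | h1
  · have h2 := σ.inV_slit (j := j0) hm h1.le
    rw [σ.hyp.per _ h1, vv_dvd (dvd_mul_right k q)] at h2
    exact hne ((letter σ hj hW).uniq h2)
  · have h2 : T / k = q := Nat.div_eq_of_lt_le (by rwa [mul_comm]) (by nlinarith)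
    obtain ⟨u, h3, h4⟩ := ha (h2.symm ▸ σ.mod.map_iter hm _)
    exact h (Sit.InV.uniq ⟨u, h3, h4.symm⟩ (σ.inV_b_add (sub σ hj hW) ha'))

end XGA2

open XGA2 in
theorem st_GA2 (hWAND : St_WAND) (hGA0 : St_GA0) : St_GA2 := by
  intro n θ k T η σ i0 j0 hbig hj hne
  obtain ⟨hW, -⟩ := hGA0 n θ k T η σ i0 j0 hbig hj hne
  have hL := σ.LL_le hbig
  obtain ⟨a, ha⟩ := σ.mod.sect (k * (T / k) + (j0 + 1 + (k * mm k + j0))) (by
    have := Nat.mul_div_le T k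
    rw [LL] at hL
    rw [mm]
    nlinarith)
  obtain ⟨r, hr, hm⟩ : ∃ r, (r = mm k ∨ r = mm k + 1) ∧ MapsTo (σ.Y i0 j0 r) σ.Ωs σ.Ω := by
    by_cases h : a = vv n θ k (i0 + j0)
    · refine ⟨_, Or.inr rfl, fun y hy => maps σ hj hne ((hW _ (Or.inr rfl)).2.2 hy) ha
        (a' := vv n θ k j0) ?_ (h ▸ hne)⟩
      have h1 := σ.inV_b (p := 0) (j := k * mm k + j0) (inner σ (i0 := i0) hj le_rfl hy)
        (by nlinarith)
      rwa [zero_add, vv_dvd (dvd_mul_right k _), ← σ.W_eq] at h1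
    · refine ⟨_, Or.inl rfl, fun y hy => maps σ hj hne ((hW _ (Or.inl rfl)).2.2 hy) ha ?_ h⟩
      rw [σ.W_eq]
      exact σ.inV_b_add (inner σ hj (Nat.le_succ _) hy) (σ.inV_b (sub σ hj hy) (Nat.lt_succ_self j0))
  obtain ⟨hd, hi, hs⟩ := hW r hr
  have hs' : MapsTo (σ.W i0 j0 r) σ.Ωs (Om σ.S (Iio (j0 + 1))) := fun y hy => sub σ hj (hs hy)
  have hD : DifferentiableOn ℂ (σ.φ ∘ σ.Y i0 j0 r) σ.Ωs :=
    σ.dφ.comp (σ.mod.br_diff.comp hd hs') hm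
  have h0 : ∀ y ∈ σ.Ωs, σ.φ (σ.Y i0 j0 r y) ≠ 0 := fun y hy => σ.φ_ne (hm hy) fun e =>
    ne_G σ hj hne (hs hy) σ.zfix.1 (σ.zfix.2.trans e.symm)
  refine ⟨r, hr, hm, hD, h0, ?_⟩
  rw [σ.A_sq]
  refine hWAND _ _ _ σ.μ (σ.Ωs_open hbig) Subset.rfl (σ.Ωs_open hbig).measurableSet hD
    (σ.inj.comp (σ.mod.br_inj.comp hi hs') hm) h0 σ.μ_ne σ.μlt fun j hj0 u hu u' hu' e => ?_
  obtain ⟨j, rfl⟩ := Nat.exists_eq_succ_of_ne_zero hj0.ne'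
  rw [Function.comp_apply, ← σ.φ_iter (hm hu)] at e
  have h1 := σ.inj (σ.G_maps.iterate _ (hm hu)) (hm hu') e
  rw [Function.iterate_succ_apply'] at h1
  exact ne_G σ hj hne (hs hu') (σ.G_maps.iterate _ (hm hu)) h1

end KN
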