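import Pool.Agent.Lib.KN55.Kit3

/-! The climb along a diagonal. -/

set_option autoImplicit false

open Filter Topology Set Metric Complex Bornology MeasureTheory N62a1eb23
open scoped Real ENNReal

namespace KN.GA355

open Pool.Agent.Lib.MP_c35c17_an

theorem st (hCHAIN : St_CHAIN) (hWAND : St_WAND) : St_GA3 := by
  intro n θ k T φ ψ ξ i0 j0 η σ x ρ N hG h1 h2 h3 h4 h5
  have hn := hG.hyp.hn
  have hk := hG.hyp.pos
  have l0 := lam_pos (k := k) hn
  have l1 := lam_le hn hk
  have η0 := σ.ηpos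
  have e1 : η ≤ (n : ℝ) ^ k * η := le_mul_of_one_le_left η0.le (one_le_npow hn k)
  have ρ0 : 0 < ρ := by linarith
  have o1 := hG.o1
  have o3 := hG.o3
  have o4 := hG.o4
  have o5 : ξ ≤ lam n k / 8 := hG.xi.trans (div_le_self (by linarith) (one_le_npow hn _))
  set R : Set ℂ := {u | (ρ / 2 < u.re ∧ u.re < lam n k / 4) ∧
    u.re / 3 < x + ρ - u.im ∧ x + ρ - u.im < lam n k / 4} with hR
  have hRo : IsOpen R :=
    ((isOpen_lt continuous_const continuous_re).inter (isOpen_lt continuous_re continuous_const)).inter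
      ((isOpen_lt (continuous_re.div_const 3) (continuous_const.sub continuous_im)).inter
        (isOpen_lt (continuous_const.sub continuous_im) continuous_const))
  have hp : ∀ u ∈ R, 0 < u.re := fun u hu => by linarith [hu.1.1]
  have hm : MapsTo (Bc σ.Φ) R σ.Ω := fun u hu =>
    σ.mem_Om (t := u.re) (x := u.im) σ.Zs_sub (by linarith [hu.1.1]) fun l hl m =>
      lt_abs_of_not_mem (hG.freeB l (Or.inr hl) m) (by linarith [hu.2.2])
        (by linarith [hu.2.1, hu.1.1])
  have hE : En (σ.φ ∘ Bc σ.Φ) R ≤ ENNReal.ofReal (σ.A ^ 2) := by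
    rw [σ.A_sq]
    refine hWAND _ R R σ.μ hRo Subset.rfl hRo.measurableSet
      (σ.dφ.comp ((Bc_diff σ.cj).mono hp) hm)
      (σ.inj.comp (Bc_injOn (α := φ) σ.cj fun ζ h => ⟨hp ζ h, by linarith [h.2.2],
        by linarith [h.2.1, hp ζ h]⟩) hm)
      (fun u hu => σ.φ_ne (hm hu) (σ.Bc_ne (hp u hu))) σ.μ_ne σ.μlt fun j hj u hu u' hu' e => ?_
    have a1 : (σ.b 0 k)^[j] (Bc σ.Φ u) = Bc σ.Φ u' :=
      σ.inj (σ.G_maps.iterate j (hm hu)) (hm hu') ((σ.φ_iter (hm hu) j).trans e)
    have a2 := σ.G_inv (hm hu) j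
    have p : 0 < (((n : ℝ) : ℂ) ^ (k * j) * u').re := by
      rw [← ofReal_pow, re_ofReal_mul]
      exact mul_pos (npow_pos hn _) (hp u' hu')
    rw [a1, Bc_iter hn σ.cj (hp u' hu')] at a2
    have a3 := (Bc_inj σ.cj p (hp u hu) a2).1
    rw [← ofReal_pow, re_ofReal_mul] at a3
    obtain ⟨q, hq⟩ := hG.g5
    have b0 : 0 < u.im - φ := by linarith [hu.2.2]
    have b1 : ∀ i, 0 < lam n k ^ i * (u.im - φ) ∧ lam n k ^ i * (u.im - φ) ≤ u.im - φ := fun i =>
      ⟨mul_pos (pow_pos l0 i) b0, mul_le_of_le_one_left b0.le (pow_le_one₀ l0.le (by linarith))⟩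
    have key : ∀ i ≤ j, (σ.b 0 k)^[i] (Bc σ.Φ u) =
        Bc σ.Φ ⟨u.re / (n : ℝ) ^ (k * i), φ + lam n k ^ i * (u.im - φ)⟩ := fun i hi => by
      induction i with
      | zero => simp
      | succ i ih =>
        have c1 : u'.re ≤ u.re / (n : ℝ) ^ (k * i) := by
          rw [le_div_iff₀' (npow_pos hn _), ← a3]
          exact mul_le_mul_of_nonneg_right (npow_mono hn (Nat.mul_le_mul_left k (by omega)))
            (hp u' hu').le
        have c2 := b1 i
        rw [Function.iterate_succ_apply', ih (by omega), Sit.b,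
          σ.mod.ch_far hn η0 (by linarith [hu'.1.1]) fun l hl m =>
            have c3 := mul_le_mul_of_nonneg_right (npow_mono hn hl.le) η0.le
            lt_abs_of_not_mem (hG.freeB l (Or.inr (Or.inl hl)) m) (by linarith [c2.1])
              (by linarith [c2.2, hu.2.1, hu.1.1]),
          hq _ ⟨by linarith [c2.1], by linarith [c2.2, hu.2.1, hu.1.1]⟩, div_div, ← pow_add,
          ← mul_add_one]
        exact Cg.Bc ⟨q, by ring⟩
    rw [key j le_rfl] at a1
    have c2 := b1 j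
    have a4 := (Bc_inj σ.cj (div_pos (hp u hu) (npow_pos hn _)) (hp u' hu') a1).2.eq_of_mem
      (a := φ) ⟨by linarith [c2.1], by linarith [c2.2, hu.2.1, hp u hu]⟩
      ⟨by linarith [hu'.2.2], by linarith [hu'.2.1, hp u' hu']⟩
    have a5 : lam n k ^ j * (u.im - φ) ≤ 1 / 2 * (u.im - φ) :=
      mul_le_mul_of_nonneg_right ((pow_le_of_le_one l0.le (by linarith) hj.ne').trans l1) b0.le
    simp only at a4
    linarith [hu'.2.2, hu.2.1, hp u hu]
  have hpt : ∀ s : ℝ, (⟨0, x + ρ⟩ : ℂ) + s * (1 - I) = ⟨s, x + ρ - s⟩ := fun s =>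
    Complex.ext (by simp) (by simp; ring)
  have hD := hCHAIN (x + ρ) ρ (lam n k / 8) (1 - I) N R (by simp)
    (by
      rw [← abs_norm, ← abs_of_pos (show (0 : ℝ) < 3 / 2 by norm_num), ← sq_le_sq, Complex.sq_norm,
        normSq_apply]
      norm_num) ρ0 h3 h5 fun s hs u hu => by
      rw [hpt, mem_ball_iff_norm] at hu
      have d1 := abs_lt.mp ((abs_re_le_norm _).trans_lt hu)
      have d2 := abs_lt.mp ((abs_im_le_norm _).trans_lt hu)
      simp only [sub_re, sub_im] at d1 d2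
      exact ⟨⟨by linarith [hs.1], by linarith [hs.2]⟩, by linarith, by linarith [hs.2]⟩
  rw [hpt, hpt, add_sub_cancel_right] at hD
  exact σ.U_chart hD hp hm σ.A_pos.le hE

end KN.GA355
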