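import Pool.Agent.Lib.KN55.Kit3

/-! Block GA4: two points of the tent are at bounded distance. -/

set_option autoImplicit false

open Filter Topology Set Metric Complex Bornology MeasureTheory N62a1eb23
open scoped Real ENNReal

namespace KN

open Pool.Agent.Lib.MP_c35c17_an

theorem st_GA4 {n : ℕ} (hn : 2 ≤ n) (hTENT : St_TENT) (hBAND : St_BAND) : St_GA4 n := by
  have n0 := npos hn
  refine ⟨1200 * n, by positivity, fun θ k T φ ψ ξ i0 j0 η σ t x t' x' h hη a1 a2 a3 b1 b2 b3 => ?_⟩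
  have hk := h.hyp.pos
  have k1 : (1 : ℝ) ≤ k := by exact_mod_cast hk
  have l0 := lam_pos (k := k) hn
  have l1 := lam_mul (k := k) hn
  have p0 := npow_pos hn (LL k)
  have p1 := npow_pos hn k
  have hA := σ.A_pos
  obtain ⟨r, hr⟩ : ∃ r, r = lam n k / 16 / (n : ℝ) ^ LL k := ⟨_, rfl⟩
  rw [← hr] at a1 b1
  have r0 : 0 < r := by rw [hr]; positivity
  have r1 : (n : ℝ) ^ LL k * (n : ℝ) ^ k * r = 1 / 16 := by
    rw [hr]
    field_simp
    linarith
  have e1 : η < r / 2 := by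
    have := eta_small hn hk σ.ηpos hη
    rw [hr, lt_div_iff₀ two_pos, lt_div_iff₀ p0]
    linarith
  have c1 : θ ≤ φ - lam n k / 2 + 1 := by
    have := h.xi.trans (div_le_self (by linarith) (one_le_npow hn _))
    linarith [h.o3, h.o4]
  have c2 : 1 ≤ (7 / 6 : ℝ) ^ (5 * n * (LL k + k + 4)) * r := by
    refine le_trans ?_ (mul_le_mul_of_nonneg_right (npow_le_ratio n _) r0.le)
    rw [pow_add, pow_add, mul_right_comm, r1]
    linarith [two_pow_le hn 4]
  have hm : MapsTo (Bc σ.Φ) (Ioo (r / 2) 1 ×ℂ Ioo (φ - lam n k / 2 + r / 2) (θ - r / 2)) σ.Ω :=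
    fun ζ hζ => σ.mem_Om (t := ζ.re) (x := ζ.im) σ.Zs_sub (e1.trans hζ.1.1) fun l hl m =>
      lt_abs_of_not_mem (h.freeB l (Or.inr hl) m) (by linarith [hζ.2.1]) (by linarith [hζ.2.2])
  have hb := hBAND n θ k T η σ _ (r / 2) (φ - lam n k / 2) (10 * k + 15)
    (isOpen_Ioo.reProdIm isOpen_Ioo) (by linarith) (fun ζ hζ => ⟨hζ.1.1.le, hζ.1.2.trans_le (by
      rw [show k * (10 * k + 15) = LL k + k + 5 * k by rw [LL]; ring, pow_add, pow_add,
        mul_right_comm, ← mul_div_assoc, r1]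
      linarith [two_pow_le hn 5, npow_mono hn (show 5 ≤ 5 * k by omega)]),
      by linarith [hζ.2.1], by linarith [hζ.2.2]⟩) hm
  refine (σ.U_chart ((hTENT _ _ r t x _ c1 r0 a1 a2 a3 c2).trans
    (hTENT _ _ r t' x' _ c1 r0 b1 b2 b3 c2).symm) (fun u hu => by linarith [hu.1.1]) hm
    (E := 5 * k * σ.A) (by positivity) (hb.trans (ENNReal.ofReal_le_ofReal ?_))).trans ?_
  · rw [← σ.A_sq, mul_pow]
    push_cast
    gcongr
    nlinarith
  · rw [← mul_assoc, LL]
    push_cast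
    refine mul_le_mul_of_nonneg_right ?_ hA.le
    have : (10 * (k : ℝ) + 9) * k + k + 4 ≤ 24 * k ^ 2 := by nlinarith
    calc _ = 50 * n * k * ((10 * (k : ℝ) + 9) * k + k + 4) := by ring
      _ ≤ 50 * n * k * (24 * k ^ 2) := by gcongr
      _ = _ := by ring

end KN
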