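import Pool.Agent.Lib.KN55.Kit3

/-! The left chain through the gate. -/

set_option autoImplicit false

open Filter Topology Set Metric Complex Bornology MeasureTheory N62a1eb23
open scoped Real ENNReal

namespace KN

open Pool.Agent.Lib.MP_c35c17_an

namespace XGA5

theorem root_le {n k M : ℕ} (hn : 2 ≤ n) (hk : 0 < k) :
    √(8 * ((5 * n * (k * M + LL k + 1) : ℕ) : ℝ)) ≤ 40 * n * (√(k * M) + (k : ℝ) ^ 3) := by
  have h1 : (1 : ℝ) ≤ k := by exact_mod_cast hk
  have h2 := ntwo hn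
  have h3 : (0 : ℝ) ≤ k * M := by positivity
  have h4 := Real.sq_sqrt h3
  have h5 := Real.sqrt_nonneg ((k : ℝ) * M)
  have h6 : (k : ℝ) ^ 2 ≤ (k : ℝ) ^ 6 := pow_le_pow_right₀ h1 (by norm_num)
  have h7 : ((LL k : ℕ) : ℝ) + 1 ≤ 20 * (k : ℝ) ^ 6 := by
    rw [LL]; push_cast; nlinarith
  have h8 : (0 : ℝ) ≤ (k : ℝ) ^ 3 := by positivity
  have h9 : (k : ℝ) * M + (k : ℝ) ^ 6 ≤ (√(k * M) + (k : ℝ) ^ 3) ^ 2 := by
    nlinarith [mul_nonneg h5 h8]
  refine Real.sqrt_le_iff.mpr ⟨by positivity, ?_⟩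
  push_cast
  calc _ = 40 * (n : ℝ) * (k * M + (LL k + 1)) := by ring
    _ ≤ 40 * (n : ℝ) * (40 * n * (k * M + (k : ℝ) ^ 6)) := by
        have : (0 : ℝ) ≤ (k : ℝ) ^ 6 := by positivity
        gcongr
        nlinarith
    _ ≤ 40 * (n : ℝ) * (40 * n * (√(k * M) + (k : ℝ) ^ 3) ^ 2) := by gcongr
    _ = _ := by ring

end XGA5

theorem st_GA5 {n : ℕ} (hn : 2 ≤ n) (hGA3 : St_GA3) (hGA4 : St_GA4 n) : St_GA5 n := by
  obtain ⟨C, hC, h4⟩ := hGA4
  have hn0 := npos hn
  refine ⟨40 * n + C, by positivity, fun θ k T φ ψ ξ i0 j0 r hG hr => ?_⟩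
  obtain ⟨x, hx, M, hM, hfar, p, hp1, hp2⟩ := hG.g4 r hr
  have hk := hG.hyp.pos
  have hl := lam_pos (k := k) hn
  have hl1 : lam n k ≤ 1 := (lam_le hn hk).trans (by norm_num)
  have he : 2 * (j0 + 1) + r * k ≤ LL k := by
    have := hG.jk
    rw [LL]
    rcases hr with h | h <;> rw [h, mm] <;> nlinarith
  have hrad : 0 < rad n k j0 r := by rw [rad]; positivity
  have hrad1 : rad n k j0 r ≤ lam n k / 16 :=
    div_le_self (by positivity) (one_le_npow hn _)
  have hrM : 0 < lam n k ^ M * rad n k j0 r := by positivity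
  have hnk := npow_pos hn k
  have hn3 := npow_pos hn (3 * LL k)
  refine ⟨x, hx, M, hM, min (lam n k ^ M * rad n k j0 r / (16 * (n : ℝ) ^ k))
    (1 / (2 * (n : ℝ) ^ (3 * LL k))), by positivity, fun η hη σ hY => ?_⟩
  have hη0 := σ.ηpos
  have hη1 : 16 * (n : ℝ) ^ k * η ≤ lam n k ^ M * rad n k j0 r :=
    (le_div_iff₀' (by positivity)).mp (hη.trans (min_le_left _ _))
  have hη2 : η * (n : ℝ) ^ (3 * LL k) < 1 := by
    have := (le_div_iff₀ (by positivity)).mp (hη.trans (min_le_right _ _))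
    nlinarith [mul_pos hη0 hn3]
  have hs := eta_small hn hk hη0 hη2
  have hs' : ∀ l ≤ LL k, (n : ℝ) ^ l * η < lam n k / 32 := fun l h =>
    (mul_le_mul_of_nonneg_right (npow_mono hn h) hη0.le).trans_lt hs
  have hξ : ξ ≤ lam n k / 8 := hG.xi.trans (div_le_self (by positivity) (one_le_npow hn _))
  have hx1 : ψ + 3 * lam n k / 8 ≤ x ∧ x ≤ ψ + 5 * lam n k / 8 := by
    rcases hx with h | h <;> rw [h] <;> constructor <;> linarith
  have hF : Far n θ η x (LL k + 1) := fun l h m => by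
    have h1 := hs' l (Nat.lt_succ_iff.mp h)
    exact lt_abs_of_not_mem (hG.freeA l (Nat.lt_succ_iff.mp h) m) (by linarith [hx1.1])
      (by linarith [hx1.2])
  have hLL := σ.LL_le hG.big
  have ha : Bc σ.Φ ⟨lam n k / 16, x⟩ ∈ σ.Ωs :=
    σ.mem_Om (Iic_subset_Iic.mpr (by omega)) (by have := hs' 0 (Nat.zero_le _); linarith [pow_zero (n : ℝ) ▸ this])
      fun l h m => (le_mul_of_one_le_left hη0.le (one_le_npow hn l)).trans_lt
        (hF l (Nat.lt_succ_iff.mpr h) m)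
  have hkr : k * r = r * k := mul_comm _ _
  obtain ⟨hW, hWF⟩ := σ.W_chart (i0 := i0) (j0 := j0) (r := r) (L := j0 + 1) (t := lam n k / 16)
    (x := x) (by linarith [hs' (k * r + (j0 + 1)) (by omega)]) (hF.mono (by omega))
  have hYc : σ.Y i0 j0 r (Bc σ.Φ ⟨lam n k / 16, x⟩) =
      Bc σ.Φ ⟨rad n k j0 r, Yh n θ k i0 j0 r x⟩ := by
    rw [Sit.Y, hW, Sit.b, σ.mod.ch_far hn hη0 (by
      rw [lt_div_iff₀' (npow_pos hn _), ← mul_assoc, ← pow_add]
      linarith [hs' (k * r + (j0 + 1) + (j0 + 1)) (by omega)]) hWF, div_div, ← pow_add, rad,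
      show k * r + (j0 + 1) + (j0 + 1) = 2 * (j0 + 1) + r * k by omega, Yh]
  have hit : ∀ j ≤ M, (σ.b 0 k)^[j] (Bc σ.Φ ⟨rad n k j0 r, Yh n θ k i0 j0 r x⟩) =
      Bc σ.Φ ⟨lam n k ^ j * rad n k j0 r, (bh n θ k 0 k)^[j] (Yh n θ k i0 j0 r x)⟩ := by
    intro j hj
    induction j with
    | zero => simp
    | succ j ih =>
      have h1 : lam n k ^ M * rad n k j0 r ≤ lam n k ^ j * rad n k j0 r :=
        mul_le_mul_of_nonneg_right (pow_le_pow_of_le_one hl.le hl1 (by omega)) hrad.le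
      have h2 : (n : ℝ) ^ k * η < lam n k ^ j * rad n k j0 r := by
        nlinarith [mul_pos hnk hη0]
      rw [Function.iterate_succ_apply', Function.iterate_succ_apply', ih (by omega), Sit.b,
        σ.mod.ch_far hn hη0 h2 (fun l h m =>
          ((mul_le_mul_of_nonneg_right (npow_mono hn h.le) hη0.le).trans_lt h2).trans_le
            (hfar j (by omega) l h m)), div_npow, pow_succ', mul_assoc]
  have hΩ := hY ha
  have hU := σ.U_iter hΩ (σ.φ_ne hΩ (hYc ▸ σ.Bc_ne hrad)) M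
  rw [hYc] at hU ⊢
  rw [hit M le_rfl, (cg_sub_int _ p).symm.Bc] at hU
  have hrM1 : lam n k ^ M * rad n k j0 r ≤ lam n k / 16 :=
    (mul_le_of_le_one_left hrad.le (pow_le_one₀ hl.le hl1)).trans hrad1
  have h3 := hGA3 n θ k T φ ψ ξ i0 j0 η σ _ _ (5 * n * (k * M + LL k + 1)) hG hp1 hp2
    (by linarith) (by nlinarith [mul_pos hnk hη0]) (by
      refine le_trans ?_ (mul_le_mul_of_nonneg_right (npow_le_ratio n _) hrM.le)
      have h1 := npow_mono hn he
      have h2 := npow_pos hn (2 * (j0 + 1) + r * k)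
      have h5 := npow_pos hn (k * M)
      rw [lam_pow, rad, pow_succ, pow_add]
      calc _ = 1 * 2 * (lam n k / 16) := by ring
        _ ≤ ((n : ℝ) ^ LL k / (n : ℝ) ^ (2 * (j0 + 1) + r * k)) * n * (lam n k / 16) := by
            gcongr
            · exact (one_le_div h2).mpr h1
            · exact ntwo hn
        _ = _ := by field_simp)
  have ht : lam n k / 16 / (n : ℝ) ^ LL k ≤ lam n k / 16 :=
    div_le_self (by positivity) (one_le_npow hn _)
  have h5 := h4 θ k T φ ψ ξ i0 j0 η σ (lam n k / 8)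
    ((bh n θ k 0 k)^[M] (Yh n θ k i0 j0 r x) - p + lam n k ^ M * rad n k j0 r - lam n k / 8)
    (lam n k / 4) φ hG hη2 (by linarith) (by linarith [hG.o1]) (by linarith) (by linarith)
    (by linarith) (by linarith [hG.o1, hG.o2])
  have h6 := mul_le_mul_of_nonneg_right (XGA5.root_le (M := M) hn hk) σ.A_pos.le
  have h7 : 0 ≤ C * √(k * M) * σ.A := by have := σ.A_pos; positivity
  linarith [(abs_le.mp h3).1, (abs_le.mp h5).1]

end KN
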