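import Pool.Agent.Lib.KN55.Kit3

/-! Block GATE: the estimate in the gate case. -/

set_option autoImplicit false

open Filter Topology Set Metric Complex Bornology MeasureTheory N62a1eb23
open scoped Real ENNReal

namespace KN

open Pool.Agent.Lib.MP_c35c17_an

namespace XGATE

theorem arith {k M m T Λ A C1 C5 C6 : ℝ} (hk : 1 ≤ k) (hM : k ^ 5 ≤ M) (hm : 2 * m ≤ M)
    (hT : T ≤ 2 * k * M) (hΛ : 0 < Λ) (hA : 0 < A) (hA2 : A ^ 2 = 2 * π * Λ) (h1 : 0 < C1)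
    (h5 : 0 < C5) (h6 : 0 < C6)
    (h : M * Λ ≤ m * Λ + C6 * k ^ 3 * A + C1 * k ^ 2 * A + C5 * (√(k * M) + k ^ 3) * A) :
    T * Λ ≤ 16 * π * (2 * C5 + C1 + C6) ^ 2 * k ^ 2 := by
  have k0 : 0 < k := by linarith
  have M0 : 0 < M := lt_of_lt_of_le (by positivity) hM
  have s3 : k ^ 3 ≤ √(k * M) := Real.le_sqrt_of_sq_le (by
    calc (k ^ 3) ^ 2 = k * k ^ 5 := by ring
      _ ≤ _ := by gcongr)
  have s2 : k ^ 2 ≤ √(k * M) := (pow_le_pow_right₀ hk (by norm_num)).trans s3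
  have e : √(k * M) ^ 2 = k * M := Real.sq_sqrt (by positivity)
  generalize √(k * M) = s at *
  have a1 : M * Λ ≤ 2 * (2 * C5 + C1 + C6) * s * A := by
    have b1 := mul_le_mul_of_nonneg_right hm hΛ.le
    have b2 := mul_le_mul_of_nonneg_left s3 (mul_pos h6 hA).le
    have b3 := mul_le_mul_of_nonneg_left s2 (mul_pos h1 hA).le
    have b4 := mul_le_mul_of_nonneg_left s3 (mul_pos h5 hA).le
    linarith
  generalize 2 * C5 + C1 + C6 = D at *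
  have a2 : M * Λ * (M * Λ) ≤ M * Λ * (8 * π * D ^ 2 * k) :=
    calc _ = (M * Λ) ^ 2 := by ring
      _ ≤ (2 * D * s * A) ^ 2 := pow_le_pow_left₀ (by positivity) a1 2
      _ = 4 * D ^ 2 * s ^ 2 * A ^ 2 := by ring
      _ = _ := by rw [e, hA2]; ring
  have a3 := le_of_mul_le_mul_left a2 (by positivity)
  calc T * Λ ≤ 2 * k * M * Λ := by gcongr
    _ = 2 * k * (M * Λ) := by ring
    _ ≤ 2 * k * (8 * π * D ^ 2 * k) := by gcongr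
    _ = _ := by ring

end XGATE

theorem st_GATE {n : ℕ} (hn : 2 ≤ n) (hGA1 : St_GA1 n) (hGA2 : St_GA2) (hGA5 : St_GA5 n)
    (hGA6 : St_GA6 n) : St_GATE n := by
  obtain ⟨C1, c1, h1⟩ := hGA1
  obtain ⟨C5, c5, h5⟩ := hGA5
  obtain ⟨C6, c6, h6⟩ := hGA6
  refine ⟨16 * π * (2 * C5 + C1 + C6) ^ 2, by positivity, fun θ k T φ ψ ξ i0 j0 hG hk ↦ ?_⟩
  have k0 := hG.hyp.pos
  have big := hG.big
  have p : (0 : ℝ) < (n : ℝ) ^ (3 * LL k) := by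
    have : (0 : ℝ) < n := by exact_mod_cast (by omega : 0 < n)
    positivity
  have main : ∀ r, r = mm k ∨ r = mm k + 1 → ∃ η₀ > 0, ∀ η ≤ η₀, ∀ σ : Sit n θ k T η,
      MapsTo (σ.Y i0 j0 r) σ.Ωs σ.Ω → DifferentiableOn ℂ (σ.φ ∘ σ.Y i0 j0 r) σ.Ωs →
      (∀ y ∈ σ.Ωs, σ.φ (σ.Y i0 j0 r y) ≠ 0) →
      En (σ.φ ∘ σ.Y i0 j0 r) σ.Ωs ≤ ENNReal.ofReal (σ.A ^ 2) →
      T * σ.Λ ≤ 16 * π * (2 * C5 + C1 + C6) ^ 2 * k ^ 2 := by
    intro r hr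
    obtain ⟨x, hx, M, hM, η₁, e1, H⟩ := h5 θ k T φ ψ ξ i0 j0 r hG hr
    refine ⟨min η₁ (1 / (2 * (n : ℝ) ^ (3 * LL k))), by positivity, fun η hη σ a b c d ↦ ?_⟩
    have hs : η * (n : ℝ) ^ (3 * LL k) < 1 := by
      have := (le_div_iff₀ (by positivity)).1 (hη.trans (min_le_right _ _))
      linarith
    have u1 := H η (hη.trans (min_le_left _ _)) σ a
    have u2 : σ.U (σ.Y i0 j0 r (Bc σ.Φ ⟨lam n k / 16, x⟩)) -
        σ.U (σ.Y i0 j0 r (Bc σ.Φ ⟨lam n k / 4, φ⟩)) ≤ C1 * k ^ 2 * σ.A :=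
      (abs_le.1 (h1 θ k T φ ψ ξ i0 j0 η σ hG hs x hx _ b c _ σ.A_pos.le d)).2
    have u3 := h6 θ k T φ ψ ξ i0 j0 r η σ hG hr hs a
    have t1 : T ≤ 2 * k * M := by
      have := Nat.lt_mul_div_succ T k0
      nlinarith
    refine XGATE.arith (M := M) (m := mm k) (by exact_mod_cast k0)
      (by exact_mod_cast hk.trans hM) (by exact_mod_cast (by unfold mm; omega : 2 * mm k ≤ M))
      (by exact_mod_cast t1) σ.Λ_pos σ.A_pos σ.A_sq c1 c5 c6 (by linarith)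
  obtain ⟨η₁, e1, H1⟩ := main _ (Or.inl rfl)
  obtain ⟨η₂, e2, H2⟩ := main _ (Or.inr rfl)
  refine ⟨min η₁ η₂, lt_min e1 e2, fun η hη σ ↦ ?_⟩
  obtain ⟨r, rfl | rfl, a, b, c, d⟩ := hGA2 n θ k T η σ i0 j0 big hG.jk hG.ne
  exacts [H1 η (hη.trans (min_le_left _ _)) σ a b c d, H2 η (hη.trans (min_le_right _ _)) σ a b c d]

end KN
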