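import Pool.Agent.Lib.KN55.Kit3

/-! The certificate of the gate case. -/

set_option autoImplicit false

open Filter Topology Set Metric Complex Bornology MeasureTheory N62a1eb23
open scoped Real ENNReal

namespace KN

open Pool.Agent.Lib.MP_c35c17_an

namespace XGATEC

variable {n k T i0 : ℕ} {θ φ ψ s : ℝ} {x τ : ℕ → ℝ} {sh : ℤ}

theorem le_LL (k : ℕ) : k ≤ LL k := by
  unfold LL
  exact Nat.le_mul_of_pos_left k (by omega)

/-- the multiples of the period avoid the interval to the left of the angle -/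
theorem freeB (h1 : G1 n θ k T φ x sh τ i0) (h3 : G3 n θ k φ τ ψ s) {l : ℕ}
    (hl : l ≤ LL k ∨ l ∈ Zs k T) (m : ℤ) : (n : ℝ) ^ l * θ + m ∉ Ioo (φ - lam n k / 2) θ := by
  rcases hl with hl | hl | ⟨⟨j, hj⟩, hl⟩
  · exact (h3.free h1 hl m).2
  · exact (h3.free h1 (hl.le.trans (le_LL k)) m).2
  · intro hm
    have hjT : j ≤ T / k := (Nat.le_div_iff_mul_le h1.hyp.pos).mpr (by rw [mul_comm, ← hj]; exact hl)
    have hc : Cg ((n : ℝ) ^ l * θ + m) (x j) := by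
      refine (cg_add_int _ m).trans ?_
      rw [hj, mul_comm k j]
      exact (h1.pre.cg j hjT).symm
    have a1 : θ ≤ x j := h1.pre.x0 ▸ h1.mono (Nat.zero_le j) hjT
    have a2 : x j < τ i0 := (h1.mono hjT le_rfl).trans_lt h1.xJ
    have a3 := (h3.tau i0 h1.i0p h1.i0k).2.1
    have := hc.eq_of_abs (abs_lt.mpr ⟨by linarith [hm.1], by linarith [hm.2]⟩)
    linarith [hm.2]

end XGATEC

theorem st_GATEC (hWS : St_WS) (hVF : St_VF) (hCLU : St_CLU) (hRUNR : St_RUNR) (hHH : St_HH)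
    (hG2A : St_G2A) (hPASS : St_PASS) : St_GATEC := by
  intro n θ k T φ x hH hbig hpre hinc
  obtain ⟨sh, τ, i0, h1⟩ := hWS n θ k T φ x hH hbig hpre hinc
  obtain ⟨ψ, s, h2⟩ := hVF n θ k T φ x sh τ i0 h1
  have h3 := hCLU n θ k T φ x sh τ i0 ψ s h1 h2
  obtain ⟨j0, sh', σ, h4⟩ := hHH n θ k T φ x sh τ i0 ψ s h1 h2 h3
  have hn := hH.hn
  have hl := lam_pos (k := k) hn
  have hs := h2.spos
  have he := h2.eq
  have ht := h3.tau i0 h1.i0p h1.i0k
  have ho : θ ≤ ψ + (n : ℝ) ^ LL k * s := by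
    have := le_mul_of_one_le_left hs.le (one_le_npow hn (LL k))
    linarith
  refine ⟨ψ, (n : ℝ) ^ LL k * s, i0, j0, hH, hbig, h4.jk, h4.ne, h3.gap, by linarith, ho,
    by linarith [ht.1, ht.2.1], h3.xi, fun l hl' m => (h3.free h1 hl' m).1,
    fun l hl' m => XGATEC.freeB h1 h3 hl' m, fun r hr y hy => ?_, fun r hr y hy => ?_,
    fun r hr => hPASS n θ k T φ x sh τ i0 ψ s j0 sh' σ h1 h2 h3 h4 r hr,
    ⟨sh, fun y hy => ?_⟩⟩
  · have := hG2A n θ k T φ x sh τ i0 ψ s j0 sh' σ h1 h2 h3 h4 r hr y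
      ⟨ho.trans hy.1.le, hy.2⟩
    exact ⟨sh' + r * sh, by linarith [this.1], this.2⟩
  · have hg := h2.gap
    have a1 := h4.rgt (y + 1) ⟨by linarith [h4.σm.2, hy.1], by linarith [hy.2]⟩
    have hr' : 3 * k + 3 ≤ r := by unfold mm at hr; omega
    have a2 := hRUNR n θ k T φ x sh τ i0 ψ s h1 h2 h3 _ a1 r hr'
    rw [← Wh_Gm hn] at a2
    have a3 := Wh_add_int (θ := θ) (k := k) (i0 := i0) hn j0 r y 1
    rw [Int.cast_one] at a3
    rw [a3] at a2
    exact ⟨sh' + r * sh, by linarith [a2.1], by linarith [a2.2]⟩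
  · have := h2.g5 y ⟨hy.1.le, hy.2⟩
    unfold Gm at this
    linarith

end KN
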