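import Pool.Agent.Lib.KN55.Kit3

/-! The breaking word. -/

set_option autoImplicit false

open Filter Topology Set

namespace KN

namespace XHH

variable {n k : ℕ} {θ : ℝ}

theorem sum_shift (i : ℕ) :
    ∑ j ∈ Finset.range k, vv n θ k (i + j) = ∑ j ∈ Finset.range k, vv n θ k j := by
  induction i with
  | zero => simp
  | succ i ih =>
    have h1 := Finset.sum_range_succ (fun j => vv n θ k (i + j)) k
    rw [Finset.sum_range_succ', vv_add, add_zero, ih] at h1
    rw [← add_right_cancel h1]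
    exact Finset.sum_congr rfl fun j _ => by rw [add_assoc, add_comm 1]

theorem bh_same {i r : ℕ} (h : ∀ j < r, vv n θ k (i + j) = vv n θ k j) (y : ℝ) :
    bh n θ k i r y = bh n θ k 0 r y := by
  induction r generalizing y with
  | zero => rfl
  | succ r ih =>
    have h1 := ih (fun j hj => h j (by omega)) (gh n θ (vv n θ k r) y)
    rw [bh, bh] at h1
    rw [bh, bh, br_succ', br_succ', h r (by omega), zero_add, h1]

/-- a point with the letters of the periodic word lies on one side of the other branch -/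
theorem side (hn : 2 ≤ n) {r : ℕ} {b : ZMod n} (hb : b ≠ vv n θ k r) {w : ℝ}
    (hw : ∀ j ≤ r, lts n θ w j = vv n θ k j) :
    (∀ y ∈ Ico θ (θ + 1), w < bh n θ k 0 r (gh n θ b y)) ∨
      ∀ y ∈ Ico θ (θ + 1), bh n θ k 0 r (gh n θ b y) < w := by
  have : NeZero n := ⟨by omega⟩
  obtain ⟨m, hm⟩ := bh_back (k := k) (p := 0) (r := r) (θ := θ) (y := w) hn
    fun j hj => by rw [hw j hj.le, zero_add]
  have e : w = bh n θ k 0 r ((n : ℝ) ^ r * w - m) := by rw [bh_sub_int hn, hm]; ring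
  have h1 : lt n θ ((n : ℝ) ^ r * w - m) ≠ b := by
    rw [(cg_sub_int _ m).lt_eq, ← lts, hw r le_rfl]
    exact hb.symm
  generalize (n : ℝ) ^ r * w - m = u at e h1
  have h2 : ⌊(n : ℝ) * u - θ⌋ ≠ b.val := fun h => h1 (by rw [lt, h]; simp)
  have h3 : ∀ y ∈ Ico θ (θ + 1), ⌊n * gh n θ b y - θ⌋ = b.val := fun y hy => by
    rw [floor_gh hn, Int.floor_eq_zero_iff.mpr ⟨by linarith [hy.1], by linarith [hy.2]⟩]
    simp
  have h0 := npos hn
  rw [e]
  refine h2.lt_or_gt.imp (fun h y hy => bh_strictMono hn ?_) fun h y hy => bh_strictMono hn ?_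
  · rw [← h3 y hy] at h
    exact lt_of_mul_lt_mul_left (sub_lt_sub_iff_right θ |>.mp
      (not_le.mp fun h' => h.not_ge (Int.floor_mono h'))) h0.le
  · rw [← h3 y hy] at h
    exact lt_of_mul_lt_mul_left (sub_lt_sub_iff_right θ |>.mp
      (not_le.mp fun h' => h.not_ge (Int.floor_mono h'))) h0.le

end XHH

open XHH in
theorem st_HH : St_HH := by
  classical
  intro n θ k T φ x sh τ i0 ψ s h1 h2 h3
  have hn := h1.hyp.hn
  have hk := h1.hyp.pos
  have hp := h1.i0p
  have hi := h1.i0k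
  have hT := h1.hyp.kT
  have ex := h1.hyp.prim i0 (Nat.not_dvd_of_pos_of_lt hp hi)
  obtain ⟨hj, hne⟩ := Nat.find_spec ex
  have hlow : ∀ j < Nat.find ex, vv n θ k (i0 + j) = vv n θ k j := fun j h =>
    not_not.mp fun h' => Nat.find_min ex h ⟨h.trans hj, h'⟩
  generalize Nat.find ex = j0 at hj hne hlow
  have hup : ∀ j < k, k ≤ i0 + j → vv n θ k (i0 + j) = vv n θ k j := fun j h h' => by
    have := h1.act (i0 + j - k) (by omega)
    rw [show k - i0 + (i0 + j - k) = j by omega] at this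
    rw [this, ← vv_add (i0 + j - k), Nat.sub_add_cancel h']
  have hl : i0 + j0 + 1 < k := by
    by_contra hc
    have h4 := sum_shift (n := n) (k := k) (θ := θ) i0
    rw [← Finset.add_sum_erase _ _ (Finset.mem_range.mpr hj),
      ← Finset.add_sum_erase _ _ (Finset.mem_range.mpr hj),
      Finset.sum_congr rfl (g := fun j => vv n θ k j) fun j hj' => by
        obtain ⟨a, b⟩ := Finset.mem_erase.mp hj'
        rcases a.lt_or_gt with c | c
        exacts [hlow j c, hup j (Finset.mem_range.mp b) (by omega)]] at h4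
    exact hne (add_right_cancel h4)
  obtain ⟨t1, t2, -⟩ := h3.tau (i0 + j0 + 1) (by omega) hl
  obtain ⟨⟨-, t3⟩, t4⟩ := h1.τm _ hl
  have t5 := h2.low _ hl
  have t6 : φ < θ := (h1.τ0 ▸ h1.τm 0 hk).1.1
  generalize τ (i0 + j0 + 1) = σ at t1 t2 t3 t4 t5
  have hb := bh_back (k := k) (p := i0) (r := j0 + 1) (θ := θ) (y := (n : ℝ) ^ i0 * θ) hn
    fun j hj' => by rw [(Cg.refl _).lts_nu, h1.hyp.per _ (by omega)]
  rw [← mul_assoc, ← pow_add, show j0 + 1 + i0 = i0 + j0 + 1 by omega] at hb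
  obtain ⟨sh', hs⟩ := ((t4.bh hn).trans hb).trans (h1.τm i0 hi).2.symm
  have hH : ∀ y, bh n θ k i0 (j0 + 1) y = bh n θ k 0 j0 (gh n θ (vv n θ k (i0 + j0)) y) :=
    fun y => by rw [← bh_same hlow, bh, bh, br_succ']
  have hσ : σ ∈ Ico θ (θ + 1) := ⟨t5, by linarith⟩
  have hJ : T / k - 1 < T / k := by have := h1.big; omega
  have hx := h1.ch _ hJ
  have hx' := h1.inc _ hJ
  rw [show T / k - 1 + 1 = T / k by omega] at hx hx'
  have hA := side (w := x (T / k - 1) + sh') hn hne fun j hj' => by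
    rw [(cg_add_int _ sh').lts_eq, ← hx, lts_Gm hn (by omega)]
  have hB := side (w := φ + 1 + sh') hn hne fun j _ => by
    rw [((cg_add_int _ sh').trans (cg_add_one φ)).lts_eq, h1.pre.per, zero_add]
  simp only [← hH] at hA hB
  have hA' := hA.resolve_right fun h => by linarith [h σ hσ, h1.xJ]
  have hB' := hB.resolve_left fun h => by linarith [h σ hσ, (h1.τm i0 hi).1.2]
  refine ⟨j0, sh', σ, hj, hne, ⟨t1, t2⟩, fun y hy => ⟨?_, ?_⟩, fun y hy => ⟨?_, ?_⟩⟩
  · linarith [hA' y ⟨hy.1, hy.2.trans hσ.2⟩]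
  · linarith [bh_strictMono (k := k) (p := i0) (r := j0 + 1) (θ := θ) hn hy.2]
  · linarith [bh_strictMono (k := k) (p := i0) (r := j0 + 1) (θ := θ) hn hy.1]
  · linarith [hB' y ⟨t5.trans hy.1.le, hy.2⟩]

end KN
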