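import Pool.Agent.Lib.KN55.Kit3

/-! Janiszewski type lemma: finitely many disjoint closed sets with logarithms do not separate. -/

set_option autoImplicit false

open Filter Topology Set Metric Complex Bornology MeasureTheory N62a1eb23
open scoped Real ENNReal

namespace KN

open Pool.Agent.Lib.MP_c35c17_an

namespace XJAN

theorem lg_empty : Lg (∅ : Set ℂ) := fun _ _ _ _ =>
  ⟨fun _ => 0, continuousOn_empty _, fun _ hz => absurd hz (notMem_empty _),
    0, fun _ hz => absurd hz (notMem_empty _)⟩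

theorem lg_union {P Q : Set ℂ} (hP : IsClosed P) (hQ : IsClosed Q) (hd : Disjoint P Q)
    (h1 : Lg P) (h2 : Lg Q) : Lg (P ∪ Q) := by
  classical
  intro x hx y hy
  obtain ⟨l1, c1, e1, R1, b1⟩ := h1 x (fun h => hx (Or.inl h)) y (fun h => hy (Or.inl h))
  obtain ⟨l2, c2, e2, R2, b2⟩ := h2 x (fun h => hx (Or.inr h)) y (fun h => hy (Or.inr h))
  have hQP : ∀ z ∈ Q, z ∉ P := fun z hz h => Set.disjoint_left.mp hd h hz
  refine ⟨fun z => if z ∈ P then l1 z else l2 z, ?_, ?_, max R1 R2, ?_⟩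
  · refine ContinuousOn.union_of_isClosed ?_ ?_ hP hQ
    · exact c1.congr fun z hz => if_pos hz
    · exact c2.congr fun z hz => if_neg (hQP z hz)
  · rintro z (hz | hz)
    · simp only [if_pos hz]; exact e1 z hz
    · simp only [if_neg (hQP z hz)]; exact e2 z hz
  · rintro z (hz | hz) hR
    · simp only [if_pos hz]; exact b1 z hz ((le_max_left _ _).trans hR)
    · simp only [if_neg (hQP z hz)]; exact b2 z hz ((le_max_right _ _).trans hR)

theorem lg_biUnion (S : ℕ → Set ℂ) (A : Set ℕ) (hA : A.Finite) :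
    (∀ l ∈ A, IsClosed (S l)) → (∀ l ∈ A, Lg (S l)) →
      (∀ l ∈ A, ∀ l' ∈ A, l ≠ l' → Disjoint (S l) (S l')) → Lg (⋃ l ∈ A, S l) := by
  induction A, hA using Set.Finite.induction_on with
  | empty => intro _ _ _; simpa using lg_empty
  | @insert a s ha hs ih =>
    intro hc hl hd
    rw [biUnion_insert]
    refine lg_union (hc a (mem_insert _ _))
      (hs.isClosed_biUnion fun l h => hc l (mem_insert_of_mem _ h)) ?_ (hl a (mem_insert _ _))
      (ih (fun l h => hc l (mem_insert_of_mem _ h)) (fun l h => hl l (mem_insert_of_mem _ h))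
        fun l h l' h' => hd l (mem_insert_of_mem _ h) l' (mem_insert_of_mem _ h'))
    refine disjoint_iUnion₂_right.mpr fun l h => ?_
    exact hd a (mem_insert _ _) l (mem_insert_of_mem _ h) (by rintro rfl; exact ha h)

/-- far out the quotient is close to one -/
theorem far (x y : ℂ) {z : ℂ} (hz : 2 * ‖y - x‖ + ‖y‖ + 1 ≤ ‖z‖) :
    z - y ≠ 0 ∧ ‖(y - x) / (z - y)‖ ≤ 1 / 2 ∧ (z - x) / (z - y) = 1 + (y - x) / (z - y) := by
  have h1 : ‖z‖ - ‖y‖ ≤ ‖z - y‖ := norm_sub_norm_le z y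
  have h2 : 0 < ‖z - y‖ := by linarith [norm_nonneg (y - x)]
  have h3 : z - y ≠ 0 := norm_pos_iff.mp h2
  refine ⟨h3, ?_, by field_simp; ring⟩
  rw [norm_div, div_le_iff₀ h2]
  linarith

theorem preconn {B : Set ℂ} (hB : IsClosed B) (hL : Lg B) : IsPreconnected Bᶜ := by
  classical
  rintro u v hu hv hcov ⟨x, hxB, hxu⟩ ⟨y, hyB, hyv⟩
  by_contra hne
  have hdis : ∀ z, z ∉ B → z ∈ u → z ∉ v := fun z h1 h2 h3 => hne ⟨z, h1, h2, h3⟩
  obtain ⟨l, hc, he, R, hb⟩ := hL x hxB y hyB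
  set R' : ℝ := max R (2 * ‖y - x‖ + ‖y‖ + 1) with hR'
  have hR1 : R ≤ R' := le_max_left _ _
  have hR2 : 2 * ‖y - x‖ + ‖y‖ + 1 ≤ R' := le_max_right _ _
  set F : Set ℂ := {z | R' ≤ ‖z‖} with hF
  have hFc : IsClosed F := isClosed_le continuous_const continuous_norm
  have hslit : ∀ z ∈ F, (z - x) / (z - y) ∈ slitPlane := fun z hz => by
    obtain ⟨-, h2, h3⟩ := far x y (hR2.trans hz)
    rw [h3]
    exact mem_slitPlane_of_norm_lt_one (by linarith)
  have hexp : ∀ z ∈ F, exp (log ((z - x) / (z - y))) = (z - x) / (z - y) := fun z hz =>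
    exp_log (slitPlane_ne_zero (hslit z hz))
  have hagree : ∀ z ∈ B, z ∈ F → l z = log ((z - x) / (z - y)) := fun z hzB hz => by
    obtain ⟨-, h2, h3⟩ := far x y (hR2.trans hz)
    have h4 := Complex.norm_log_one_add_half_le_self h2
    rw [← h3] at h4
    refine sub_eq_zero.mp (Q.exp_eq_one_norm ?_ ?_)
    · rw [exp_sub, he z hzB, hexp z hz, div_self (slitPlane_ne_zero (hslit z hz))]
    · have := hb z hzB (hR1.trans hz)
      linarith [norm_sub_le (l z) (log ((z - x) / (z - y)))]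
  set l' : ℂ → ℂ := fun z => if z ∈ B then l z else log ((z - x) / (z - y)) with hl'
  have hl'B : ∀ z ∈ B, l' z = l z := fun z hz => if_pos hz
  have hl'F : ∀ z ∈ F, l' z = log ((z - x) / (z - y)) := fun z hz => by
    by_cases h : z ∈ B
    · rw [hl'B z h, hagree z h hz]
    · exact if_neg h
  have hcont : ContinuousOn l' (B ∪ F) := by
    refine ContinuousOn.union_of_isClosed (hc.congr hl'B) (ContinuousOn.congr ?_ hl'F) hB hFc
    refine ContinuousOn.clog ?_ hslit
    exact (continuousOn_id.sub continuousOn_const).div (continuousOn_id.sub continuousOn_const)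
      fun z hz => (far x y (hR2.trans hz)).1
  obtain ⟨Lf, hLf⟩ := ContinuousMap.exists_restrict_eq (hB.union hFc)
    (⟨fun z : ↥(B ∪ F) => l' z, continuousOn_iff_continuous_domRestrict.mp hcont⟩ : C(↥(B ∪ F), ℂ))
  have hLf' : ∀ z ∈ B ∪ F, Lf z = l' z := fun z hz => congrArg (fun f => f ⟨z, hz⟩) hLf
  have hq : ∀ z ∈ B ∪ F, exp (Lf z) * (z - y) = z - x := by
    rintro z hz
    rw [hLf' z hz]
    rcases hz with hz | hz
    · have h0 : z - y ≠ 0 := sub_ne_zero.mpr (by rintro rfl; exact hyB hz)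
      rw [hl'B z hz, he z hz, div_mul_cancel₀ _ h0]
    · rw [hl'F z hz, hexp z hz, div_mul_cancel₀ _ (far x y (hR2.trans hz)).1]
  set H : ℂ → ℂ := fun z => if z ∈ Bᶜ ∩ u then exp (Lf z) * (z - y) else z - x with hH
  have hH1 : ∀ z ∈ (Bᶜ ∩ v)ᶜ, H z = exp (Lf z) * (z - y) := fun z hz => by
    by_cases h : z ∈ Bᶜ ∩ u
    · exact if_pos h
    · have hzB : z ∈ B := by
        by_contra hzB
        rcases hcov hzB with h' | h'
        · exact h ⟨hzB, h'⟩
        · exact hz ⟨hzB, h'⟩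
      rw [hq z (Or.inl hzB)]
      exact if_neg h
  have hH2 : ∀ z ∈ (Bᶜ ∩ u)ᶜ, H z = z - x := fun z hz => if_neg hz
  have hHc : Continuous H := by
    rw [← continuousOn_univ]
    have hun : (Bᶜ ∩ v)ᶜ ∪ (Bᶜ ∩ u)ᶜ = univ := by
      rw [eq_univ_iff_forall]
      intro z
      by_cases h : z ∈ Bᶜ ∩ u
      · exact Or.inl fun h' => hdis z h.1 h.2 h'.2
      · exact Or.inr h
    rw [← hun]
    refine ContinuousOn.union_of_isClosed (ContinuousOn.congr ?_ hH1) (ContinuousOn.congr ?_ hH2)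
      (hB.isOpen_compl.inter hv).isClosed_compl (hB.isOpen_compl.inter hu).isClosed_compl
    · exact Continuous.continuousOn (by fun_prop)
    · exact Continuous.continuousOn (by fun_prop)
  have hH0 : ∀ z, H z ≠ 0 := fun z => by
    by_cases h : z ∈ Bᶜ ∩ u
    · rw [hH1 z fun h' => hdis z h.1 h.2 h'.2]
      refine mul_ne_zero (exp_ne_zero _) (sub_ne_zero.mpr ?_)
      rintro rfl
      exact hdis _ h.1 h.2 hyv
    · rw [hH2 z h]
      refine sub_ne_zero.mpr ?_
      rintro rfl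
      exact h ⟨hxB, hxu⟩
  have hpos : 0 < R' + ‖x‖ := by linarith [norm_nonneg (y - x), norm_nonneg y, norm_nonneg x]
  refine Q.no_log hHc hH0 (q := x) hpos fun z hz => ?_
  have hzF : z ∈ F := by
    have := norm_sub_le z x
    show R' ≤ ‖z‖
    linarith
  by_cases h : z ∈ Bᶜ ∩ u
  · rw [hH1 z fun h' => hdis z h.1 h.2 h'.2, hq z (Or.inr hzF)]
  · exact hH2 z h

end XJAN

theorem st_JAN : St_JAN := by
  intro S A hA hc hl hd
  have h := XJAN.preconn (hA.isClosed_biUnion hc) (XJAN.lg_biUnion S A hA hc hl hd)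
  have e : Om S A = (⋃ l ∈ A, S l)ᶜ := by
    ext y
    simp [Om]
  rw [e]
  exact h

end KN
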