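import Pool.Agent.Lib.KN55.Kit3

/-! Koenigs coordinate of an attracting univalent self map. -/

set_option autoImplicit false

open Filter Topology Set Metric Complex Bornology MeasureTheory N62a1eb23
open scoped Real ENNReal

namespace KN

namespace XKOE

theorem local_est {G : ℂ → ℂ} {z : ℂ} {Ω : Set ℂ} (hΩ : IsOpen Ω) (hG : DifferentiableOn ℂ G Ω)
    (hz : z ∈ Ω) (hf : G z = z) {β : ℝ} (hβ : ‖deriv G z‖ < β) :
    ∃ r C : ℝ, 0 < r ∧ 0 < C ∧ ball z r ⊆ Ω ∧ ∀ w ∈ ball z r, ‖G w - z‖ ≤ β * ‖w - z‖ ∧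
      ‖G w - z - deriv G z * (w - z)‖ ≤ C * ‖w - z‖ ^ 2 := by
  have hn := hΩ.mem_nhds hz
  have h1 : DifferentiableAt ℂ (dslope G z) z :=
    ((differentiableOn_dslope hn).2 hG).differentiableAt hn
  obtain ⟨C, hC, h2⟩ := h1.isBigO_sub.exists_pos
  have h3 : ∀ᶠ w in 𝓝 z, ‖dslope G z w‖ < β :=
    h1.continuousAt.norm.eventually_lt continuousAt_const (by rwa [dslope_same])
  obtain ⟨r, hr, h4⟩ := Metric.eventually_nhds_iff_ball.1 ((h2.bound.and h3).and hn)
  refine ⟨r, C, hr, hC, fun w hw => (h4 w hw).2, fun w hw => ?_⟩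
  obtain ⟨⟨a, b⟩, -⟩ := h4 w hw
  have e : G w - z = (w - z) * dslope G z w := by
    have := sub_smul_dslope G z w
    rw [hf, smul_eq_mul] at this
    exact this.symm
  rw [dslope_same] at a
  constructor
  · rw [e, norm_mul, mul_comm]
    exact mul_le_mul_of_nonneg_right b.le (norm_nonneg _)
  · rw [e, show (w - z) * dslope G z w - deriv G z * (w - z) =
      (dslope G z w - deriv G z) * (w - z) by ring, norm_mul, sq, ← mul_assoc]
    exact mul_le_mul_of_nonneg_right a (norm_nonneg _)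

end XKOE

theorem st_KOE : St_KOE := by
  intro Ω G z hΩ hG hinj hmap hz hμ hT
  have hn := hΩ.mem_nhds hz
  have hit : ∀ m, DifferentiableOn ℂ G^[m] Ω := fun m => by
    induction m with
    | zero => exact differentiableOn_id
    | succ m ih => rw [Function.iterate_succ]; exact ih.comp hG hmap
  have hii : ∀ m, InjOn G^[m] Ω := fun m => by
    induction m with
    | zero => exact injOn_id _
    | succ m ih => rw [Function.iterate_succ]; exact ih.comp hinj hmap
  have hf : G z = z := by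
    have h1 := hT.tendsto_at (hmap hz)
    have h2 := (hG.differentiableAt hn).continuousAt.tendsto.comp (hT.tendsto_at hz)
    refine tendsto_nhds_unique (h2.congr fun m => ?_) h1
    rw [Function.comp_apply, ← Function.iterate_succ_apply' G, Function.iterate_succ_apply]
  set μ := deriv G z with hμd
  have hd : ∀ m, HasDerivAt G^[m] (μ ^ m) z := fun m =>
    HasDerivAt.iterate z (hG.differentiableAt hn).hasDerivAt hf m
  have ha1 : ‖μ‖ < 1 := by
    have h1 := (hT.deriv (Eventually.of_forall hit) hΩ).tendsto_at hz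
    simp only [Function.comp_apply, (hd _).deriv, deriv_const] at h1
    by_contra h
    obtain ⟨m, hm⟩ := (h1.norm.eventually_lt_const (by simp : ‖(0 : ℂ)‖ < 1)).exists
    rw [norm_pow] at hm
    exact absurd (one_le_pow₀ (not_lt.1 h)) (not_le.2 hm)
  refine ⟨hf, ha1, ?_⟩
  have ha0 : 0 < ‖μ‖ := norm_pos_iff.2 hμ
  obtain ⟨β, b1, b2, b3⟩ : ∃ β : ℝ, ‖μ‖ < β ∧ β < 1 ∧ β ^ 2 < ‖μ‖ := by
    refine ⟨2 * ‖μ‖ / (1 + ‖μ‖), ?_, ?_, ?_⟩
    · rw [lt_div_iff₀ (by linarith)]; nlinarith
    · rw [div_lt_one (by linarith)]; linarith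
    · rw [div_pow, div_lt_iff₀ (by positivity)]
      nlinarith [mul_pos ha0 (pow_pos (sub_pos.2 ha1) 2)]
  have b0 : 0 < β := ha0.trans b1
  obtain ⟨r, C, hr, hC, hb, hest⟩ := XKOE.local_est hΩ hG hz hf b1
  have hball : ∀ w ∈ ball z r, ∀ m, ‖G^[m] w - z‖ ≤ β ^ m * r ∧ G^[m] w ∈ ball z r := by
    intro w hw m
    induction m with
    | zero => exact ⟨by simpa using (mem_ball_iff_norm.1 hw).le, hw⟩
    | succ m ih =>
      have h1 := (hest _ ih.2).1
      rw [Function.iterate_succ_apply']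
      refine ⟨h1.trans ?_, mem_ball_iff_norm.2 (h1.trans_lt ?_)⟩
      · rw [pow_succ', mul_assoc]; exact mul_le_mul_of_nonneg_left ih.1 b0.le
      · nlinarith [mem_ball_iff_norm.1 ih.2, norm_nonneg (G^[m] w - z)]
  let ψ : ℕ → ℂ → ℂ := fun m w => (G^[m] w - z) / μ ^ m
  let d : ℕ → ℂ → ℂ := fun m w => ψ (m + 1) w - ψ m w
  have hψ : ∀ m, DifferentiableOn ℂ (ψ m) Ω := fun m => ((hit m).sub_const z).div_const _
  have hdd : ∀ m, DifferentiableOn ℂ (d m) (ball z r) := fun m =>
    ((hψ (m + 1)).sub (hψ m)).mono hb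
  have hu : Summable fun m : ℕ => C * r ^ 2 / ‖μ‖ * (β ^ 2 / ‖μ‖) ^ m :=
    (summable_geometric_of_lt_one (by positivity) ((div_lt_one ha0).2 b3)).mul_left _
  have hle : ∀ m w, w ∈ ball z r → ‖d m w‖ ≤ C * r ^ 2 / ‖μ‖ * (β ^ 2 / ‖μ‖) ^ m := by
    intro m w hw
    obtain ⟨h1, h2⟩ := hball w hw m
    have e : d m w = (G (G^[m] w) - z - μ * (G^[m] w - z)) / μ ^ (m + 1) := by
      simp only [d, ψ, Function.iterate_succ_apply']
      field_simp
      ring
    rw [e, norm_div, norm_pow]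
    calc _ ≤ C * (β ^ m * r) ^ 2 / ‖μ‖ ^ (m + 1) := by
          gcongr
          exact (hest _ h2).2.trans (by gcongr)
      _ = _ := by rw [div_pow, ← pow_mul, mul_pow, ← pow_mul, mul_comm 2 m]; field_simp; ring
  let φ₀ : ℂ → ℂ := fun w => w - z + ∑' m, d m w
  have hs := differentiableOn_tsum_of_summable_norm hu hdd isOpen_ball hle
  have hφ₀ : DifferentiableOn ℂ φ₀ (ball z r) := (differentiableOn_id.sub_const z).add hs
  have hlim : ∀ w ∈ ball z r, Tendsto (fun m => ψ m w) atTop (𝓝 (φ₀ w)) := fun w hw => by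
    have h1 := (Summable.of_norm_bounded hu fun m => hle m w hw).hasSum.tendsto_sum_nat
    refine (h1.const_add (w - z)).congr fun m => ?_
    rw [Finset.sum_range_sub fun m => ψ m w]
    simp [ψ]
  have hK : ∀ (k : ℕ) (w : ℂ), G^[k] w ∈ ball z r →
      Tendsto (fun m => ψ m w) atTop (𝓝 (φ₀ (G^[k] w) / μ ^ k)) := fun k w hw => by
    rw [← tendsto_add_atTop_iff_nat k]
    refine ((hlim _ hw).div_const _).congr fun m => ?_
    simp only [ψ, Function.iterate_add_apply, pow_add, div_div]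
  have hev : ∀ w ∈ Ω, ∀ ε > 0, ∀ᶠ k in hyperfilter ℕ, G^[k] w ∈ ball z ε := fun w hw ε hε =>
    hT.tendsto_at hw (ball_mem_nhds z hε)
  have hbn := ball_mem_nhds z hr
  have hD : HasStrictDerivAt φ₀ 1 z := by
    have h1 := (hφ₀.analyticAt hbn).hasStrictDerivAt
    have h2 := hasSum_deriv_of_summable_norm hu hdd isOpen_ball hle (mem_ball_self hr)
    have h3 : ∀ m, deriv (d m) z = 0 := fun m => by
      have := (((hd (m + 1)).sub_const z).div_const (μ ^ (m + 1))).sub
        (((hd m).sub_const z).div_const (μ ^ m))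
      rw [div_self (pow_ne_zero _ hμ), div_self (pow_ne_zero _ hμ), sub_self] at this
      exact this.deriv
    simp only [h3] at h2
    have h4 : HasDerivAt φ₀ (1 + 0) z := ((hasDerivAt_id z).sub_const z).add (by
      rw [hasSum_zero.unique h2]; exact (hs.differentiableAt hbn).hasDerivAt)
    rwa [h4.deriv, add_zero] at h1
  obtain ⟨ε, hε, hl⟩ := Metric.eventually_nhds_iff_ball.1
    ((hD.eventually_left_inverse one_ne_zero).and hbn)
  refine ⟨fun w => limUnder atTop fun m => ψ m w, fun w hw => ?_, fun y hy y' hy' h => ?_, ?_,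
    fun y hy => ?_⟩
  · obtain ⟨k, hk⟩ := (hev w hw r hr).exists
    have h1 := (hit k).differentiableAt (hΩ.mem_nhds hw)
    refine DifferentiableAt.differentiableWithinAt (DifferentiableAt.congr_of_eventuallyEq
      (f := fun w => φ₀ (G^[k] w) / μ ^ k)
      (((hφ₀.differentiableAt (isOpen_ball.mem_nhds hk)).comp w h1).div_const _) ?_)
    filter_upwards [h1.continuousAt.eventually (isOpen_ball.mem_nhds hk)] with w' hw'
    exact (hK k w' hw').limUnder_eq
  · obtain ⟨k, h1, h2⟩ := ((hev y hy ε hε).and (hev y' hy' ε hε)).exists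
    simp only [(hK k y (hl _ h1).2).limUnder_eq, (hK k y' (hl _ h2).2).limUnder_eq] at h
    rw [div_left_inj' (pow_ne_zero _ hμ)] at h
    exact hii k hy hy' (by rw [← (hl _ h1).1, h, (hl _ h2).1])
  · refine Tendsto.limUnder_eq (tendsto_const_nhds.congr fun m => ?_)
    simp only [ψ, Function.iterate_fixed hf, sub_self, zero_div]
  · obtain ⟨k, hk⟩ := (hev y hy r hr).exists
    have h1 := hK k y hk
    simp only [h1.limUnder_eq]
    refine Tendsto.limUnder_eq
      ((((tendsto_add_atTop_iff_nat 1).2 h1).const_mul μ).congr fun m => ?_)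
    simp only [ψ, Function.iterate_succ_apply, pow_succ]
    field_simp

end KN
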