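import Pool.Agent.Lib.KN55.Kit3

/-! The estimate in the case of many periodic angles. -/

set_option autoImplicit false

open Filter Topology Set Metric Complex Bornology MeasureTheory N62a1eb23
open scoped Real ENNReal

namespace KN

open Pool.Agent.Lib.MP_c35c17_an

namespace XLIMB

variable {n k T : ℕ} {θ : ℝ}

/-- lifts of the periodic angles in one window -/
theorem lift (hl : Limb n θ k T) : ∃ (P : ℕ) (E : Finset ℝ), 0 < P ∧
    T / k < E.card ∧ ∀ a ∈ E, Per n θ k 0 a ∧ Lat n (k * P) a ∧ a ∈ Ico θ (θ + 1) := by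
  classical
  obtain ⟨P, E, hP, hc, h1, h2⟩ := hl
  choose m hm using exists_lift θ
  refine ⟨P, E.image fun a => a + m a, hP, ?_, ?_⟩
  · rwa [Finset.card_image_of_injOn]
    intro a ha b hb e
    refine h2 a ha b hb ((cg_add_int a (m a)).symm.trans ?_)
    rw [show a + m a = b + m b from e]
    exact cg_add_int b (m b)
  · intro x hx
    obtain ⟨a, ha, rfl⟩ := Finset.mem_image.mp hx
    exact ⟨(h1 a ha).1.cg (cg_add_int _ _), (h1 a ha).2.cg (cg_add_int _ _), hm a⟩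

/-- a uniform positive lower bound over a finite set -/
theorem unif {ι : Type} (s : Finset ι) (p : ι → ℝ → Prop)
    (hm : ∀ i ∈ s, ∀ d d' : ℝ, d' ≤ d → p i d → p i d') (h : ∀ i ∈ s, ∃ d > 0, p i d) :
    ∃ d > 0, ∀ i ∈ s, p i d := by
  classical
  induction s using Finset.induction_on with
  | empty => exact ⟨1, one_pos, by simp⟩
  | insert i s _ ih =>
    obtain ⟨d, hd, h1⟩ := ih (fun j hj => hm j (Finset.mem_insert_of_mem hj))
      fun j hj => h j (Finset.mem_insert_of_mem hj)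
    obtain ⟨d', hd', h2⟩ := h i (Finset.mem_insert_self _ _)
    refine ⟨min d d', lt_min hd hd', fun j hj => ?_⟩
    rcases Finset.mem_insert.mp hj with rfl | hj'
    · exact hm j hj _ _ (min_le_right _ _) h2
    · exact hm j hj _ _ (min_le_left _ _) (h1 j hj')

/-- the margin -/
theorem margin (h : Hyp n θ k T) (E : Finset ℝ) (hE : ∀ a ∈ E, Per n θ k 0 a) :
    ∃ δ > 0, (∀ (p : ℕ) (y : ℝ), Per n θ k p y → ∀ m : ℤ, δ ≤ |y - θ - m|) ∧
      (∀ a ∈ E, ∀ l ∈ Zs k T, ∀ m : ℤ, δ ≤ |a - (n : ℝ) ^ l * θ - m|) ∧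
      ∀ a ∈ E, ∀ b ∈ E, a ≠ b → δ ≤ |a - b| := by
  classical
  obtain ⟨δ₁, h1, h2⟩ := h.far
  obtain ⟨δ₂, h3, h4⟩ := unif E (fun a d => ∀ l ∈ Zs k T, ∀ m : ℤ, d ≤ |a - (n : ℝ) ^ l * θ - m|)
    (fun a _ d d' hd hp l hl m => hd.trans (hp l hl m)) fun a ha => by
      obtain ⟨d, hd, h5⟩ := exists_margin ((Finset.range (T + 1)).filter (· ∈ Zs k T))
        (fun l => (n : ℝ) ^ l * θ) a fun l hl => h.per_ne (hE a ha) (Finset.mem_filter.mp hl).2
      refine ⟨d, hd, fun l hl => h5 l (Finset.mem_filter.mpr ⟨Finset.mem_range.mpr ?_, hl⟩)⟩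
      have := h.kT
      rcases hl with h6 | h6 <;> omega
  obtain ⟨δ₃, h5, h6⟩ := unif (E ×ˢ E) (fun q d => q.1 ≠ q.2 → d ≤ |q.1 - q.2|)
    (fun q _ d d' hd hp hq => hd.trans (hp hq)) fun q _ => by
      by_cases hq : q.1 = q.2
      · exact ⟨1, one_pos, fun h => absurd hq h⟩
      · exact ⟨_, abs_pos.mpr (sub_ne_zero.mpr hq), fun _ => le_rfl⟩
  refine ⟨min δ₁ (min δ₂ δ₃), lt_min h1 (lt_min h3 h5),
    fun p y hy m => (min_le_left _ _).trans (h2 p y (fun j _ => hy j) m),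
    fun a ha l hl m => ((min_le_right _ _).trans (min_le_left _ _)).trans (h4 a ha l hl m),
    fun a ha b hb hab => ((min_le_right _ _).trans (min_le_right _ _)).trans
      (h6 (a, b) (Finset.mem_product.mpr ⟨ha, hb⟩) hab)⟩

/-- the cone over an angle -/
def cone (t0 t1 a : ℝ) : Set ℂ := {ζ | t0 / 2 < ζ.re ∧ ζ.re < 2 * t1 ∧ |ζ.im - a| < ζ.re}

theorem cone_open (t0 t1 a : ℝ) : IsOpen (cone t0 t1 a) :=
  (isOpen_lt continuous_const continuous_re).inter ((isOpen_lt continuous_re continuous_const).inter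
    (isOpen_lt (by fun_prop) continuous_re))

theorem pt (a s : ℝ) : (⟨0, a⟩ : ℂ) + s * 1 = ⟨s, a⟩ := Complex.ext (by simp) (by simp)

theorem cone_dst (hC : St_CHAIN) {t0 t1 : ℝ} (a : ℝ) {N : ℕ} (h0 : 0 < t0) (h1 : t0 ≤ t1)
    (h2 : t1 ≤ (7 / 6) ^ N * t0) : Dst (cone t0 t1 a) ⟨t0, a⟩ ⟨t1, a⟩ √(8 * N) := by
  have := hC a t0 t1 1 N (cone t0 t1 a) (by simp) (by norm_num) h0 h1 h2 fun s hs ζ hζ => by
    rw [pt, mem_ball, dist_eq_norm] at hζ
    have h3 := abs_lt.mp ((abs_re_le_norm _).trans_lt hζ)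
    have h4 := (abs_im_le_norm _).trans_lt hζ
    simp only [sub_re, sub_im] at h3 h4
    exact ⟨by linarith [hs.1, h3.1], by linarith [hs.1, hs.2, h3.2], by linarith [h3.1]⟩
  rwa [pt, pt] at this

/-- pigeonhole for the energy -/
theorem pigeon (E : Finset ℝ) (hE : E.Nonempty) (C : ℝ → Set ℂ) (ψ : ℂ → ℂ) {B : ℝ} (hB : 0 ≤ B)
    (ho : ∀ a, IsOpen (C a)) (hd : (E : Set ℝ).PairwiseDisjoint C)
    (h : En ψ (⋃ a ∈ E, C a) ≤ ENNReal.ofReal B) :
    ∃ a ∈ E, En ψ (C a) ≤ ENNReal.ofReal (B / E.card) := by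
  have hc : (0 : ℝ) < E.card := by exact_mod_cast hE.card_pos
  refine ENNReal.exists_le_of_sum_le hE ?_
  rw [En, lintegral_biUnion_finset hd fun a _ => (ho a).measurableSet] at h
  refine h.trans_eq ?_
  rw [← ENNReal.ofReal_sum_of_nonneg fun _ _ => div_nonneg hB hc.le, Finset.sum_const,
    nsmul_eq_mul, mul_div_cancel₀ _ hc.ne']

/-- one turn around the cycle -/
theorem turn {η : ℝ} (σ : Sit n θ k T η) {P : ℕ} {a t : ℝ} (hp : Per n θ k 0 a)
    (hl : Lat n (k * P) a) (ht : (n : ℝ) ^ (k * P) * η < t)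
    (hf : ∀ (p : ℕ) (y : ℝ), Per n θ k p y → ∀ m : ℤ, η < |y - θ - m|) :
    (σ.b 0 k)^[P] (Bc σ.Φ ⟨t, a⟩) = Bc σ.Φ ⟨t / (n : ℝ) ^ (k * P), a⟩ := by
  have hn := σ.hyp.hn
  rw [σ.b_iter, Sit.b, σ.mod.ch hn σ.ηpos ht fun i q h1 _ =>
    hf q _ (Per.bh hn (hp.phase (by rw [h1]; simp)))]
  exact Cg.Bc (((lat_iff.mp hl).symm.bh (k := k) (p := 0) (r := k * P) (θ := θ) hn).trans
    (bh_back hn fun j _ => hp j))

theorem arith {P Λ c N n k T : ℝ} (hP : 1 ≤ P) (hΛ : 0 < Λ) (hc : 0 < c) (hn : 0 < n) (hk : 0 < k)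
    (hN : N = 5 * n * (k * P)) (hT : T ≤ k * c)
    (h : P * Λ ≤ √(8 * N) * √((P + 2) * (2 * π * Λ) / c)) : T * Λ ≤ 240 * π * n * k ^ 2 := by
  have hπ := Real.pi_pos
  have h0 : 0 ≤ 8 * N := by rw [hN]; positivity
  rw [← Real.sqrt_mul h0, Real.le_sqrt (by positivity) (by positivity), hN] at h
  have h1 : P * Λ * c ≤ 80 * π * n * k * (P + 2) := by
    refine le_of_mul_le_mul_left ?_ (show 0 < P * Λ / c by positivity)
    refine le_of_eq_of_le (by field_simp) (h.trans_eq (by field_simp; ring))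
  have h2 : Λ * c ≤ 240 * π * n * k := by
    refine le_of_mul_le_mul_left (a := P) ?_ (by linarith)
    have h3 : 80 * π * n * k * (P + 2) ≤ 80 * π * n * k * (3 * P) :=
      mul_le_mul_of_nonneg_left (by linarith) (by positivity)
    linarith
  calc T * Λ ≤ k * c * Λ := mul_le_mul_of_nonneg_right hT hΛ.le
    _ = k * (Λ * c) := by ring
    _ ≤ k * (240 * π * n * k) := mul_le_mul_of_nonneg_left h2 hk.le
    _ = _ := by ring

end XLIMB

open XLIMB in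
theorem st_LIMB {n : ℕ} (hn : 2 ≤ n) (hCHAIN : St_CHAIN) (hBAND : St_BAND) : St_LIMB n := by
  refine ⟨240 * π * n, by have := npos hn; positivity, fun θ k T h hl => ?_⟩
  obtain ⟨P, E, hP, hc, hE⟩ := lift hl
  obtain ⟨δ, hδ, h1, h2, h3⟩ := margin h E fun a ha => (hE a ha).1
  have hq := npow_pos hn (k * P)
  have hq1 := one_le_npow hn (k * P)
  obtain ⟨t1, ht1⟩ : ∃ t1, t1 = δ / 4 := ⟨_, rfl⟩
  obtain ⟨t0, ht0⟩ : ∃ t0, t0 = t1 / (n : ℝ) ^ (k * P) := ⟨_, rfl⟩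
  have h10 : t1 = (n : ℝ) ^ (k * P) * t0 := by rw [ht0, mul_div_cancel₀ _ hq.ne']
  have ht0p : 0 < t0 := by rw [ht0, ht1]; positivity
  have h01 : t0 ≤ t1 := h10 ▸ le_mul_of_one_le_left ht0p.le hq1
  refine ⟨t0 / 4, by positivity, fun η hη σ => ?_⟩
  have hne : E.Nonempty := Finset.card_pos.mp ((Nat.zero_le _).trans_lt hc)
  have hmap : ∀ a ∈ E, MapsTo (Bc σ.Φ) (cone t0 t1 a) σ.Ω := fun a ha ζ hζ =>
    σ.mem_Om (t := ζ.re) (x := ζ.im) σ.Zs_sub (by linarith [hζ.1]) fun l hl m => by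
      have h4 := h2 a ha l hl m
      have h5 := abs_sub_le (a - (n : ℝ) ^ l * θ - m) (ζ.im - (n : ℝ) ^ l * θ - m) 0
      rw [sub_zero, sub_zero, show a - (n : ℝ) ^ l * θ - m - (ζ.im - (n : ℝ) ^ l * θ - m) =
        -(ζ.im - a) by ring, abs_neg] at h5
      linarith [hζ.2.1, hζ.2.2]
  have hΛ := σ.Λ_pos
  have hB := hBAND n θ k T η σ (⋃ a ∈ E, cone t0 t1 a) (t0 / 2) θ (P + 2)
    (isOpen_biUnion fun a _ => cone_open _ _ a) (half_pos ht0p) (fun ζ hζ => by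
      obtain ⟨a, ha, hζ⟩ := mem_iUnion₂.mp hζ
      have h4 := abs_lt.mp hζ.2.2
      have h5 := h1 0 a (hE a ha).1 0
      have h6 := h1 0 a (hE a ha).1 1
      rw [Int.cast_zero, sub_zero, abs_of_nonneg (by linarith [(hE a ha).2.2.1])] at h5
      rw [Int.cast_one, abs_of_nonpos (by linarith [(hE a ha).2.2.2])] at h6
      refine ⟨hζ.1.le, hζ.2.1.trans_le ?_, by linarith [hζ.2.1, h4.1], by linarith [hζ.2.1, h4.2]⟩
      have h7 : (2 : ℝ) ^ 2 ≤ (n : ℝ) ^ (k * 2) :=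
        (two_pow_le hn 2).trans (npow_mono hn (by have := h.pos; omega))
      rw [mul_add, pow_add, h10]
      have h8 := mul_le_mul_of_nonneg_left h7 (mul_pos hq ht0p).le
      linarith)
    fun ζ hζ => by
      obtain ⟨a, ha, hζ⟩ := mem_iUnion₂.mp hζ
      exact hmap a ha hζ
  obtain ⟨a, ha, h4⟩ := pigeon E hne (cone t0 t1) _ (by positivity) (cone_open t0 t1)
    (fun a ha b hb hab => Set.disjoint_left.mpr fun ζ h5 h6 => by
      have h7 := abs_sub_le a ζ.im b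
      rw [abs_sub_comm a ζ.im] at h7
      linarith [h3 a ha b hb hab, h5.2.1, h5.2.2, h6.2.2]) hB
  have hcp : (0 : ℝ) < E.card := by exact_mod_cast hne.card_pos
  have hBp : 0 ≤ ((P + 2 : ℕ) : ℝ) * (2 * π * σ.Λ) / E.card :=
    div_nonneg (mul_nonneg (Nat.cast_nonneg _) (by positivity)) hcp.le
  have h5 := σ.U_chart (cone_dst hCHAIN a (N := 5 * n * (k * P)) ht0p h01
    (h10 ▸ mul_le_mul_of_nonneg_right (npow_le_ratio n _) ht0p.le))
    (fun u hu => (half_pos ht0p).trans hu.1) (hmap a ha) (Real.sqrt_nonneg _)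
    (h4.trans_eq (congrArg ENNReal.ofReal (Real.sq_sqrt hBp).symm))
  have h6 := turn σ (hE a ha).1 (hE a ha).2.1 (t := t1)
    (h10 ▸ mul_lt_mul_of_pos_left (by linarith) hq) fun p y hy m => by linarith [h1 p y hy m]
  have h7 : (⟨t1, a⟩ : ℂ) ∈ cone t0 t1 a :=
    ⟨show t0 / 2 < t1 by linarith, show t1 < 2 * t1 by linarith,
      show |a - a| < t1 by rw [sub_self, abs_zero]; linarith⟩
  have h8 := σ.U_iter (hmap a ha h7)
    (σ.φ_ne (hmap a ha h7) (σ.Bc_ne (show 0 < t1 by linarith))) P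
  rw [h6, ← ht0] at h8
  rw [h8, sub_sub_cancel_left, abs_neg, abs_of_nonneg (by positivity)] at h5
  refine arith (P := P) (c := E.card) (N := ((5 * n * (k * P) : ℕ) : ℝ)) (by exact_mod_cast hP) hΛ
    hcp (npos hn) (by exact_mod_cast h.pos) (by push_cast; ring) ?_ (by exact_mod_cast h5)
  have h9 := (Nat.div_lt_iff_lt_mul h.pos).mp hc
  rw [mul_comm]
  exact_mod_cast h9.le

end KN
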