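import Pool.Agent.Lib.KN55.Kit3

/-! The linearizer of the branch of one period. -/

set_option autoImplicit false

open Filter Topology Set Metric Complex Bornology MeasureTheory N62a1eb23
open scoped Real ENNReal

namespace KN

open Pool.Agent.Lib.MP_c35c17_an

namespace XLIN

variable {n k T p r j : ℕ} {c y : ℂ} {Φ : ℂ → ℂ} {θ η : ℝ} {S : ℕ → Set ℂ} {g : ZMod n → ℂ → ℂ}
  {a a' : ZMod n}

/-- the point lies in the sector `a` at time `j` -/
def IV (c : ℂ) (S : ℕ → Set ℂ) (g : ZMod n → ℂ → ℂ) (y : ℂ) (j : ℕ) (a : ZMod n) : Prop :=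
  (F n c)^[j] y ∈ g a '' (S 0)ᶜ

theorem uniq (h : Mod n c Φ θ T η S g) (h1 : IV c S g y j a) (h2 : IV c S g y j a') : a = a' := by
  obtain ⟨u, h3, h4⟩ := h1
  obtain ⟨u', h5, h6⟩ := h2
  exact h.disj _ _ _ h3 _ h5 (h4.trans h6.symm)

theorem iv_slit (h : Mod n c Φ θ T η S g) {l : ℕ} (hy : y ∈ S l) (hl : l + j ≤ T) :
    IV c S g y j (nu n θ (l + j)) := h.sectν _ hl (h.map_iter hy j)

theorem iv_br (h : Mod n c Φ θ T η S g) {v : ℕ → ZMod n} (hy : y ∈ Om S (Iio r)) (hj : j < r) :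
    IV c S g (br g v p r y) j (v (p + j)) := by
  obtain ⟨e, rfl⟩ := Nat.exists_eq_add_of_lt hj
  have h1 := h.br_inv (v := v) (p := p + j) (r := e + 1) (L := j)
    (by rwa [add_comm, ← add_assoc])
  have h2 := h.br_inv (v := v) (p := p + j + 1) (r := e) (L := 1)
    (Om_mono (Iio_subset_Iio (by omega)) hy)
  have h3 := (h.br_inv (v := v) (p := p) (r := j) (L := 0) h1.2).1
  refine ⟨_, h2.2 0 (by simp), ?_⟩
  rw [add_assoc j, br_add, h3, br_succ]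

theorem zs_sub (hp : Hyp n θ k T) : Zs k T ⊆ Iic (2 * T) := fun l hl => by
  have := hp.kT
  rcases hl with h | h <;> simp only [mem_Iic] <;> omega

theorem om_sub : Om S (Zs k T) ⊆ Om S (Iio k) := Om_mono fun _ hl => Or.inl hl

theorem ginv (h : Mod n c Φ θ T η S g) (hy : y ∈ Om S (Zs k T)) :
    (F n c)^[k] (br g (vv n θ k) 0 k y) = y := (h.br_inv (L := 0) (om_sub hy)).1

theorem maps (hp : Hyp n θ k T) (h : Mod n c Φ θ T η S g) :
    MapsTo (br g (vv n θ k) 0 k) (Om S (Zs k T)) (Om S (Zs k T)) := fun y hy l hl hm => by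
  have h1 : ∀ e < k, l + e ≤ T → nu n θ (l + e) = vv n θ k e := fun e he hT => by
    simpa using uniq h (iv_slit h hm hT) (iv_br h (p := 0) (om_sub hy) he)
  have h2 := h.map_iter hm k
  rw [ginv h hy] at h2
  have h3 := hp.two
  by_cases h4 : l + k ≤ T
  · exact hy (l + k) (Or.inr ⟨dvd_add (hp.dvd_of_occ h4 fun e he => h1 e he (by omega)) dvd_rfl,
      h4⟩) h2
  · obtain ⟨h5, h6⟩ := hl.resolve_left (by omega)
    have h7 := h1 (T - l) (by omega) (by omega)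
    rw [← vv_dvd h5, Nat.add_sub_cancel' h6] at h7
    exact hp.brk h7

theorem ginv_iter (hp : Hyp n θ k T) (h : Mod n c Φ θ T η S g) (hy : y ∈ Om S (Zs k T)) (m : ℕ) :
    (F n c)^[k * m] ((br g (vv n θ k) 0 k)^[m] y) = y := by
  induction m with
  | zero => rfl
  | succ m ih =>
    rw [Function.iterate_succ_apply', mul_add, mul_one, Function.iterate_add_apply,
      ginv h ((maps hp h).iterate m hy), ih]

theorem iv_iter (hp : Hyp n θ k T) (h : Mod n c Φ θ T η S g) (hy : y ∈ Om S (Zs k T)) (m : ℕ)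
    (hj : j < k * m) : IV c S g ((br g (vv n θ k) 0 k)^[m] y) j (vv n θ k j) := by
  induction m generalizing j with
  | zero => simp at hj
  | succ m ih =>
    have h1 := (maps hp h).iterate m hy
    rw [Function.iterate_succ_apply']
    rcases lt_or_ge j k with h2 | h2
    · simpa using iv_br h (v := vv n θ k) (p := 0) (om_sub h1) h2
    · obtain ⟨e, rfl⟩ := Nat.exists_eq_add_of_le' h2
      have h3 := ih (j := e) (by rw [mul_add, mul_one] at hj; omega)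
      rwa [IV, vv_add, Function.iterate_add_apply, ginv h h1]

theorem bound (hp : Hyp n θ k T) (h : Mod n c Φ θ T η S g) (hc : ‖c‖ ≤ 2) (R : ℝ) :
    ∀ᶠ m in atTop, ∀ w ∈ Om S (Zs k T), ‖w‖ ≤ R → ‖(br g (vv n θ k) 0 k)^[m] w‖ ≤ 5 := by
  have h1 : Tendsto (fun m : ℕ => k * m) atTop atTop := tendsto_id.const_mul_atTop' hp.pos
  filter_upwards [(dbl_tendsto.comp h1).eventually_gt_atTop R] with m hm w hw hR
  refine not_lt.mp fun h2 => ?_
  have h3 := (escape_iter hp.hn (c := c) (ρ := 5) (by linarith) h2.le (k * m)).2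
  rw [ginv_iter hp h hw] at h3
  exact absurd (h3.trans hR) (not_le.mpr hm)

theorem der (hp : Hyp n θ k T) (h : Mod n c Φ θ T η S g) (hy : y ∈ Om S (Zs k T)) :
    dF n c k (br g (vv n θ k) 0 k y) * deriv (br g (vv n θ k) 0 k) y = 1 := by
  have ho := (h.isOpen (zs_sub hp)).mem_nhds hy
  have h1 := ((h.br_diff (v := vv n θ k) (p := 0) (r := k)).mono om_sub).differentiableAt ho
  have h2 := (hasDerivAt_iter n c k _).comp y h1.hasDerivAt
  refine h2.unique ((hasDerivAt_id y).congr_of_eventuallyEq ?_)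
  filter_upwards [ho] with u hu using ginv h hu

theorem sect_open (h : Mod n c Φ θ T η S g) (a : ZMod n) : IsOpen (g a '' (S 0)ᶜ) := by
  have ho := (h.cl 0 (Nat.zero_le _)).isOpen_compl
  exact Q.isOpen_image_of_injOn ho (h.diff a)
    (fun u hu u' hu' e => by rw [← h.inv a u hu, e, h.inv a u' hu']) _ subset_rfl ho

theorem lim_mem (hp : Hyp n θ k T) (h : Mod n c Φ θ T η S g) (hy : y ∈ Om S (Zs k T)) {z : ℂ}
    (hz : Tendsto (fun m => (br g (vv n θ k) 0 k)^[m] y) (hyperfilter ℕ) (𝓝 z)) :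
    z ∈ Om S (Zs k T) := fun l hl hm => by
  obtain ⟨i, h1, h2⟩ := hp.w2 hl
  have h3 := (((differentiable_iter n c i).continuous.tendsto z).comp hz).eventually
    ((sect_open h _).mem_nhds (iv_slit h hm h1))
  have h4 : ∀ᶠ m in (hyperfilter ℕ : Filter ℕ), i < m :=
    (eventually_gt_atTop i).filter_mono Nat.hyperfilter_le_atTop
  obtain ⟨m, h5, h6⟩ := (h3.and h4).exists
  exact h2 (uniq h h5 (iv_iter hp h hy m (h6.trans_le (Nat.le_mul_of_pos_left m hp.pos))))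

theorem exists_x (n : ℕ) (θ : ℝ) (N : ℕ) :
    ∃ x : ℝ, ∃ δ > 0, ∀ l ≤ N, ∀ m : ℤ, δ ≤ |x - (n : ℝ) ^ l * θ - m| := by
  obtain ⟨x, hx⟩ :=
    ((countable_range fun q : ℕ × ℤ => (n : ℝ) ^ q.1 * θ + q.2).dense_compl ℝ).nonempty
  obtain ⟨δ, h1, h2⟩ := exists_margin (Finset.range (N + 1)) (fun l => (n : ℝ) ^ l * θ) x
    fun l _ ⟨m, hm⟩ => hx ⟨(l, m), hm.symm⟩
  exact ⟨x, δ, h1, fun l hl => h2 l (Finset.mem_range.mpr (by omega))⟩

theorem mem_ball_re {x ρ : ℝ} {ζ : ℂ} (h : ζ ∈ ball (⟨1, x⟩ : ℂ) ρ) :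
    |ζ.re - 1| < ρ ∧ |ζ.im - x| < ρ :=
  ⟨(abs_re_le_norm (ζ - ⟨1, x⟩)).trans_lt (mem_ball_iff_norm.mp h),
    (abs_im_le_norm (ζ - ⟨1, x⟩)).trans_lt (mem_ball_iff_norm.mp h)⟩

end XLIN

open XLIN in
theorem st_LIN {n : ℕ} (hn : 2 ≤ n) (hFIX : St_FIX) (hKOE : St_KOE) : St_LIN n := by
  intro θ k T hp
  obtain ⟨x, δ, hδ, hx⟩ := exists_x n θ (2 * T)
  have hρ : 0 < min δ 1 / 4 := by positivity
  have hρ1 : min δ 1 / 4 ≤ 1 / 4 := by linarith [min_le_right δ 1]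
  have hρ2 : min δ 1 / 4 ≤ δ / 4 := by linarith [min_le_left δ 1]
  generalize min δ 1 / 4 = ρ at hρ hρ1 hρ2
  refine ⟨ρ, hρ, fun η hη hη' c Φ S g hc hj h => ?_⟩
  have hb : ∀ ζ ∈ ball (⟨1, x⟩ : ℂ) ρ, 3 / 4 < ζ.re ∧ ζ.re < 5 / 4 ∧ |ζ.im - x| < ρ :=
    fun ζ hζ => by
      obtain ⟨h1, h2⟩ := mem_ball_re hζ
      exact ⟨by linarith [(abs_lt.mp h1).1], by linarith [(abs_lt.mp h1).2], h2⟩
  have hΩ := h.isOpen (zs_sub hp)
  have hd := (h.br_diff (v := vv n θ k) (p := 0) (r := k)).mono (om_sub (T := T))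
  have hi := (h.br_inj (v := vv n θ k) (p := 0) (r := k)).mono (om_sub (T := T))
  have hO : IsOpen (Bc Φ '' ball (⟨1, x⟩ : ℂ) ρ) :=
    Q.isOpen_image_of_injOn isOpen_ball
      ((Bc_diff hj).mono fun ζ hζ => show 0 < ζ.re by linarith [(hb ζ hζ).1])
      (Bc_injOn hj (α := x - 1 / 2) fun ζ hζ => by
        obtain ⟨h1, -, h3⟩ := hb ζ hζ
        exact ⟨by linarith, by linarith [(abs_lt.mp h3).1], by linarith [(abs_lt.mp h3).2]⟩)
      _ subset_rfl isOpen_ball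
  have hs : Bc Φ '' ball (⟨1, x⟩ : ℂ) ρ ⊆ Om S (Zs k T) := by
    rintro _ ⟨ζ, hζ, rfl⟩ l hl
    obtain ⟨h1, -, h3⟩ := hb ζ hζ
    refine h.off l (zs_sub hp hl) ζ.re ζ.im (by linarith) fun m => ?_
    have h4 := hx l (zs_sub hp hl) m
    have h5 := abs_lt.mp h3
    rcases le_abs.mp h4 with h6 | h6
    · exact lt_abs.mpr (Or.inl (by linarith [h5.1]))
    · exact lt_abs.mpr (Or.inr (by linarith [h5.2]))
  obtain ⟨z, hz⟩ := hFIX _ _ _ 5 hΩ (h.conn _ (zs_sub hp)) hd hi (maps hp h) (bound hp h hc) hO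
    ((nonempty_ball.mpr hρ).image _) hs (by
      rintro j hj0 _ ⟨ζ, hζ, rfl⟩ ⟨ζ', hζ', e⟩
      have h1 := ginv_iter hp h (hs ⟨ζ, hζ, rfl⟩) j
      obtain ⟨h2, h3, -⟩ := hb ζ hζ
      obtain ⟨h4, -, -⟩ := hb ζ' hζ'
      have h5 := two_le_npow hn (Nat.mul_pos hp.pos hj0)
      rw [← e, Bc_iter hn hj (by linarith), ← ofReal_pow] at h1
      have h6 := (Bc_inj hj (by rw [re_ofReal_mul]; nlinarith) (by linarith) h1).1
      rw [re_ofReal_mul] at h6
      nlinarith)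
  have hy := hs ⟨_, mem_ball_self hρ, rfl⟩
  have hzm := lim_mem hp h hy (hz.tendsto_at hy)
  have h1 := der hp h hzm
  obtain ⟨h2, h3, φ, h4, h5, h6, h7⟩ := hKOE _ _ z hΩ hd hi (maps hp h) hzm
    (right_ne_zero_of_mul_eq_one h1) hz
  have h8 := ginv h hzm
  rw [h2] at h1 h8
  exact ⟨⟨c, Φ, S, g, φ, z, _, hp, hη, hj, h, maps hp h, h8, ⟨hzm, h2⟩, h4, h5, h6, h7, h3, h1⟩,
    rfl⟩

end KN
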