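import Pool.Agent.Lib.KN55.Kit3

/-! Without a watershed at the angle the fixed point is unique. -/

set_option autoImplicit false

open Filter Topology Set

namespace KN

theorem st_NW (hSA1 : St_SA1) : St_NW := by
  intro n θ k T P p φ h hP hφ hw x hx
  by_contra hc
  have hn := h.hn
  obtain ⟨a1, a2⟩ := per_of_fix hn h.pos hP hx
  obtain ⟨b1, b2⟩ := per_of_fix hn h.pos hP hφ
  obtain ⟨x0, y0, c1, c2, c3, c4, c5, c6, c7, c8⟩ := hSA1 n θ k T P x φ h hP a1 a2 b1 b2 hc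
  have f1 := fix_of_per hn hφ c1 c2
  have f2 := fix_of_per hn hφ c3 c4
  obtain ⟨τ, hτ, wτ, -⟩ := exists_wt (Fm_strictMono (θ := θ) (k := k) (P := P) (p := p) hn).monotone
    (c5.trans c6)
    (fun z hz e => c7 z (per_of_fix hn h.pos hP e).1 (per_of_fix hn h.pos hP e).2 hz)
    (Fm_right hn h.pos hP f1.le) (h.Fm_left hP f2) fun z _ e => Fm_right hn h.pos hP e.le
  rcases laf_or (θ := θ) (k := k) hn 0 (k * P) τ with l | ⟨i, q, e1, e2, e3, e4⟩
  · obtain ⟨δ, hδ, l⟩ := l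
    refine wτ.not_laf (npow_pos hn (k * P)) ⟨δ, hδ, fun y hy => ?_⟩
    simp only [Fm]
    linarith [l y hy]
  obtain ⟨j, i', hi', rfl⟩ : ∃ j i', i' < k ∧ i = i' + k * j :=
    ⟨i / k, i % k, Nat.mod_lt _ h.pos, (Nat.mod_add_div i k).symm⟩
  have dv : k ∣ q + i' :=
    (Nat.dvd_add_iff_left (dvd_mul_right k j)).2 ⟨P, by omega⟩
  have e5 : Cg (bh n θ k 0 (k * j) τ) ((n : ℝ) ^ i' * θ) := by
    rw [bh_add, bh_dvd dv] at e3
    simpa using Cg.of_bh (l := 0) hn (by simpa using e3)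
  by_cases h0 : i' = 0
  · subst h0
    have e6 : bh n θ k q (0 + k * j) = bh n θ k 0 (k * j) := by
      funext y
      rw [zero_add, bh_dvd (by simpa using dv)]
    rw [e6] at e3 e4
    exact hw (Wt.cg hn (Wt.forth (bh_strictMono hn) (Fm_comm hn j) (npow_pos hn _) e4 wτ) e3.symm)
  rcases Nat.eq_zero_or_pos j with rfl | hj
  · obtain ⟨m, hm⟩ : Cg τ ((n : ℝ) ^ i' * θ) := e5
    exact c8 i' (Nat.pos_of_ne_zero h0) hi' m (hm ▸ hτ)
  · have h2 := h.two
    refine h0 (Nat.eq_zero_of_dvd_of_lt (h.dvd_of_occ (l := i') (by omega) fun e he => ?_) hi')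
    rw [← e5.lts_nu, lts_bh hn (he.trans_le (Nat.le_mul_of_pos_right k hj)), zero_add]

end KN
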