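import Pool.Agent.Lib.KN55.Kit3

/-! The passage through the gate. -/

set_option autoImplicit false

open Filter Topology Set Metric Complex Bornology MeasureTheory N62a1eb23
open scoped Real ENNReal

namespace KN

open Pool.Agent.Lib.MP_c35c17_an

namespace XPASS

variable {n k T : ℕ} {θ : ℝ}

theorem surj {f : ℝ → ℝ} {a b κ t : ℝ} (hκ : 0 < κ) (hf : ∀ y ∈ Icc a b, f y = f a + κ * (y - a))
    (ht : t ∈ Icc (f a) (f a + κ * (b - a))) : ∃ y ∈ Icc a b, f y = t := by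
  have h1 : 0 ≤ (t - f a) / κ := div_nonneg (by linarith [ht.1]) hκ.le
  have h2 : (t - f a) / κ ≤ b - a := by
    rw [div_le_iff₀ hκ]
    linarith [ht.2]
  have hy : a + (t - f a) / κ ∈ Icc a b := ⟨by linarith, by linarith⟩
  refine ⟨_, hy, ?_⟩
  rw [hf _ hy]
  field_simp
  ring

theorem aff (hn : 2 ≤ n) {f : ℝ → ℝ} {a b κ : ℝ} (hκ : 0 < κ)
    (hf : ∀ y ∈ Icc a b, f y = f a + κ * (y - a))
    (hB : ∀ j, ∀ y ∈ Icc a b, ∀ i < k, ¬ Cg ((bh n θ k 0 k)^[j] (f y)) ((n : ℝ) ^ i * θ)) (j : ℕ) :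
    ∀ y ∈ Icc a b, (bh n θ k 0 k)^[j] (f y) =
      (bh n θ k 0 k)^[j] (f a) + lam n k ^ j * κ * (y - a) := by
  induction j with
  | zero => simpa using hf
  | succ j ih =>
    intro y hy
    have hp : 0 < lam n k ^ j * κ := mul_pos (pow_pos (lam_pos hn) j) hκ
    have h0 : 0 ≤ lam n k ^ j * κ * (y - a) := mul_nonneg hp.le (by linarith [hy.1])
    have h1 : lam n k ^ j * κ * (y - a) ≤ lam n k ^ j * κ * (b - a) :=
      mul_le_mul_of_nonneg_left (by linarith [hy.2]) hp.le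
    have hfree : Free n θ ((bh n θ k 0 k)^[j] (f a)) ((bh n θ k 0 k)^[j] (f y)) k := by
      intro l hl m hm
      obtain ⟨y', hy', e⟩ := surj (f := fun y => (bh n θ k 0 k)^[j] (f y)) hp ih
        (t := (n : ℝ) ^ l * θ + m) ⟨hm.1.le, by linarith [hm.2, ih y hy]⟩
      exact hB j y' hy' l hl ⟨m, e⟩
    rw [Function.iterate_succ_apply', Function.iterate_succ_apply',
      Free.affine hn hfree (by linarith [ih y hy]), ih y hy, div_npow]
    ring

theorem base (hn : 2 ≤ n) {i0 j0 r : ℕ} {a y : ℝ} (hay : a ≤ y)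
    (h : Free n θ a y (2 * (j0 + 1) + r * k)) :
    Yh n θ k i0 j0 r y = Yh n θ k i0 j0 r a + ((n : ℝ) ^ (2 * (j0 + 1) + r * k))⁻¹ * (y - a) := by
  rw [show 2 * (j0 + 1) + r * k = (j0 + 1) + (k * r + (j0 + 1)) by ring] at h
  obtain ⟨e1, f1⟩ := Free.bh (k := k) (p := i0) hn h hay
  have m1 := (bh_strictMono (k := k) (p := i0) (r := j0 + 1) (θ := θ) hn).monotone hay
  obtain ⟨e2, f2⟩ := Free.bh (k := k) (p := 0) hn f1 m1
  have m2 := (bh_strictMono (k := k) (p := 0) (r := k * r) (θ := θ) hn).monotone m1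
  have e3 := Free.affine (k := k) (p := i0) hn f2 m2
  unfold Yh
  rw [Wh_eq, Wh_eq, e3, e2, e1,
    show 2 * (j0 + 1) + r * k = (j0 + 1) + (k * r + (j0 + 1)) by ring, pow_add _ (j0 + 1),
    pow_add _ (k * r)]
  have := npow_pos hn (j0 + 1)
  have := npow_pos hn (k * r)
  field_simp
  ring

theorem notcg (h : Hyp n θ k T) (hT : 50 * k * k ≤ T) {i0 j0 r : ℕ} (hj : j0 < k)
    (hne : vv n θ k (i0 + j0) ≠ vv n θ k j0) (hr : r = mm k ∨ r = mm k + 1) (y : ℝ)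
    (hJ : ¬ Cg (Yh n θ k i0 j0 r y) ((n : ℝ) ^ (T / k * k) * θ)) (j i : ℕ) (hi : i < k) :
    ¬ Cg ((bh n θ k 0 k)^[j] (Yh n θ k i0 j0 r y)) ((n : ℝ) ^ i * θ) := by
  intro hc
  have hn := h.hn
  have hk := h.pos
  have r1 : 1 ≤ r := by unfold mm at hr; omega
  have r2 : r ≤ 5 * k + 4 := by unfold mm at hr; omega
  have kk : k ≤ k * k := Nat.le_mul_self k
  have kr1 : k ≤ k * r := Nat.le_mul_of_pos_right k r1
  have kr2 : k * r ≤ 5 * (k * k) + 4 * k := by nlinarith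
  have hT' : 50 * (k * k) ≤ T := by rw [← mul_assoc]; exact hT
  rw [bh_iter] at hc
  rcases Nat.eq_zero_or_pos j with rfl | hj0
  · rw [mul_zero, bh_zero] at hc
    have hd : k ∣ i + (j0 + 1) := h.dvd_of_occ (by omega) fun e he => by
      rw [add_assoc, ← hc.lts_nu, Yh, lts_bh_add hn, Wh_eq, lts_bh hn (by omega), zero_add]
    apply hne
    have e1 := hc.lts_nu (j0 + 1 + (k * r + j0))
    rw [Yh, lts_bh_add hn, Wh_eq, lts_bh_add hn, lts_bh hn (Nat.lt_succ_self j0),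
      h.per _ (by omega),
      show i + (j0 + 1 + (k * r + j0)) = (i + (j0 + 1) + k * r) + j0 by ring,
      vv_dvd (dvd_add hd (dvd_mul_right k r))] at e1
    exact e1
  · have kj : k ≤ k * j := Nat.le_mul_of_pos_right k hj0
    have hd : k ∣ i := h.dvd_of_occ (by omega) fun e he => by
      rw [← hc.lts_nu, lts_bh hn (by omega), zero_add]
    obtain rfl : i = 0 := Nat.eq_zero_of_dvd_of_lt hd hi
    by_cases c1 : k * j + j0 < T
    · apply hne
      have e1 := hc.lts_nu (k * j + j0)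
      rw [lts_bh_add hn, Yh, lts_bh hn (Nat.lt_succ_self j0), zero_add, h.per _ c1,
        vv_dvd (dvd_mul_right k j)] at e1
      exact e1
    · by_cases c2 : T < k * j
      · apply h.brk
        have e1 := hc.lts_nu T
        rw [lts_bh hn c2, zero_add] at e1
        exact e1.symm
      · have e : T / k = j := by
          apply Nat.div_eq_of_lt_le
          · rw [mul_comm]; omega
          · rw [add_mul, mul_comm j k]; omega
        apply hJ
        have e1 := Cg.of_bh hn hc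
        rw [zero_add] at e1
        rw [e, mul_comm j k]
        exact e1

theorem Yh_mono (hn : 2 ≤ n) (i0 j0 r : ℕ) : StrictMono (Yh n θ k i0 j0 r) := fun a b hab => by
  unfold Yh
  rw [Wh_eq, Wh_eq]
  exact bh_strictMono hn (bh_strictMono hn (bh_strictMono hn hab))

theorem exit {φ ψ s : ℝ} {x τ : ℕ → ℝ} {sh : ℤ} {i0 : ℕ} (h1 : G1 n θ k T φ x sh τ i0)
    (h2 : G2 n θ k T φ sh τ i0 ψ s) {z : ℝ} (hz : z ∈ Ioo φ (τ i0)) :
    ∃ M, (Gm n θ k sh)^[M] z < θ := by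
  by_contra hc
  push Not at hc
  have hn := h1.hyp.hn
  have l0 : 0 < lam n k := lam_pos hn
  have l1 : lam n k ≤ 1 / 2 := lam_le hn h1.hyp.pos
  obtain ⟨w, hw⟩ : ∃ w, w = (Gm n θ k sh)^[5 * k] z := ⟨_, rfl⟩
  have hwm : w ∈ Ioo φ (τ i0) := by
    have := h1.left_iter hz (5 * k)
    rw [← hw] at this
    exact ⟨this.1, this.2.trans_lt hz.2⟩
  have hge : ∀ e, θ ≤ (Gm n θ k sh)^[e] w := fun e => by
    rw [hw, ← Function.iterate_add_apply]
    exact hc _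
  have hlt : ∀ e, ∀ i, 0 < i → i < k → (Gm n θ k sh)^[e] w < τ i := fun e i a b =>
    (h1.left_iter hwm e).2.trans_lt (hw ▸ h2.run z hz i a b)
  have key : ∀ e, (Gm n θ k sh)^[e] w - ψ = lam n k ^ e * (w - ψ) := fun e => by
    induction e with
    | zero => simp
    | succ e ih =>
      rw [Function.iterate_succ_apply', (h2.k0 _ (hge e) (hlt e)).1, ih]
      ring
  have h3 : w - ψ < 2 := (h2.k0 w (hge 0) (hlt 0)).2
  obtain ⟨e, he⟩ := exists_pow_lt_of_lt_one (half_pos h2.spos) (by linarith : lam n k < 1)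
  have h4 := hge e
  have h5 := key e
  have h6 : lam n k ^ e * (w - ψ) ≤ lam n k ^ e * 2 :=
    mul_le_mul_of_nonneg_left h3.le (pow_pos l0 e).le
  linarith [h2.eq]

end XPASS

theorem st_PASS (hG2A : St_G2A) : St_PASS := by
  intro n θ k T φ x sh τ i0 ψ s j0 sh' σ h1 h2 h3 h4 r hr
  have hn := h1.hyp.hn
  have hk := h1.hyp.pos
  have l0 : 0 < lam n k := lam_pos hn
  have hxi := G3.xi' hn h3
  have hs : s ≤ (n : ℝ) ^ LL k * s := le_mul_of_one_le_left h2.spos.le (one_le_npow hn _)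
  have hθ := h2.eq
  have hJ : 1 ≤ T / k := by have := h1.big; omega
  obtain ⟨c, hc⟩ : ∃ c : ℤ, c = (sh' + r * sh) + sh' := ⟨_, rfl⟩
  have hY : ∀ y ∈ Ico θ (ψ + lam n k),
      Yh n θ k i0 j0 r y - c ∈ Ioo (x (T / k - 1)) (τ i0) := fun y hy => by
    obtain ⟨a1, a2⟩ := hG2A n θ k T φ x sh τ i0 ψ s j0 sh' σ h1 h2 h3 h4 r hr y hy
    have a0 : 0 ≤ (y - θ) / (n : ℝ) ^ (r * k + (j0 + 1)) :=
      div_nonneg (by linarith [hy.1]) (npow_pos hn _).le
    have a3 := h4.lft _ ⟨by linarith, a2.trans_lt (by linarith [h4.σm.1])⟩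
    rw [bh_sub_int hn] at a3
    have e : Yh n θ k i0 j0 r y - c = bh n θ k i0 (j0 + 1) (Wh n θ k i0 j0 r y) -
        ((sh' + r * sh : ℤ) : ℝ) - sh' := by
      rw [hc, Yh]
      push_cast
      ring
    rw [e]
    exact a3
  have hYm : ∀ y ∈ Ico θ (ψ + lam n k), Yh n θ k i0 j0 r y - c ∈ Ioo φ (τ i0) := fun y hy =>
    ⟨(h1.pre.mem _ (Nat.sub_le _ _)).1.trans (hY y hy).1, (hY y hy).2⟩
  have hYJ : ∀ y ∈ Ico θ (ψ + lam n k), Cg (Yh n θ k i0 j0 r y) ((n : ℝ) ^ (T / k * k) * θ) →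
      Yh n θ k i0 j0 r y - c = x (T / k) := fun y hy e =>
    (((cg_sub_int _ c).trans e).trans (h1.pre.cg _ le_rfl).symm).eq_of_mem
      ⟨(hYm y hy).1, (hYm y hy).2.trans (h1.τm i0 h1.i0k).1.2⟩ (h1.pre.mem _ le_rfl)
  obtain ⟨x₀, hx₀, hD⟩ : ∃ x₀ ∈ ({ψ + 3 * lam n k / 8, ψ + 5 * lam n k / 8} : Set ℝ),
      ∀ y ∈ Icc (x₀ - lam n k / 16) (x₀ + lam n k / 16),
        ¬ Cg (Yh n θ k i0 j0 r y) ((n : ℝ) ^ (T / k * k) * θ) := by
    by_cases hA : ∀ y ∈ Icc (ψ + 3 * lam n k / 8 - lam n k / 16) (ψ + 3 * lam n k / 8 + lam n k / 16),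
        ¬ Cg (Yh n θ k i0 j0 r y) ((n : ℝ) ^ (T / k * k) * θ)
    · exact ⟨_, Or.inl rfl, hA⟩
    · push Not at hA
      obtain ⟨y, hy, e⟩ := hA
      refine ⟨_, Or.inr rfl, fun y' hy' e' => ?_⟩
      have b1 := hYJ y ⟨by linarith [hy.1], by linarith [hy.2]⟩ e
      have b2 := hYJ y' ⟨by linarith [hy'.1], by linarith [hy'.2]⟩ e'
      have b3 := XPASS.Yh_mono (k := k) (θ := θ) hn i0 j0 r
        (show y < y' by linarith [hy.2, hy'.1])
      linarith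
  have hx1 : ψ + 3 * lam n k / 8 ≤ x₀ ∧ x₀ ≤ ψ + 5 * lam n k / 8 := by
    rcases hx₀ with e | e
    · rw [e]; constructor <;> linarith
    · rw [e]; constructor <;> linarith
  have hq : 2 * (j0 + 1) + r * k ≤ LL k + 1 := by
    have a1 := h4.jk
    have a2 : r ≤ 5 * k + 4 := by unfold mm at hr; omega
    have a3 : r * k ≤ (5 * k + 4) * k := Nat.mul_le_mul_right k a2
    unfold LL
    nlinarith
  obtain ⟨κ, hκ⟩ : ∃ κ : ℝ, κ = ((n : ℝ) ^ (2 * (j0 + 1) + r * k))⁻¹ := ⟨_, rfl⟩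
  have κ0 : 0 < κ := hκ ▸ inv_pos.mpr (npow_pos hn _)
  have hrad : rad n k j0 r = κ * (lam n k / 16) := by
    rw [rad, hκ, div_eq_inv_mul]
  have hf : ∀ y ∈ Icc (x₀ - lam n k / 16) (x₀ + lam n k / 16), Yh n θ k i0 j0 r y =
      Yh n θ k i0 j0 r (x₀ - lam n k / 16) + κ * (y - (x₀ - lam n k / 16)) := fun y hy => by
    rw [hκ]
    refine XPASS.base hn hy.1 fun l hl m hm => ?_
    exact (G3.free h1 h3 (by omega : l ≤ LL k) m).1
      ⟨by linarith [hm.1, hx1.1], by linarith [hm.2, hy.2, hx1.2]⟩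
  have hB : ∀ j, ∀ y ∈ Icc (x₀ - lam n k / 16) (x₀ + lam n k / 16), ∀ i < k,
      ¬ Cg ((bh n θ k 0 k)^[j] (Yh n θ k i0 j0 r y)) ((n : ℝ) ^ i * θ) := fun j y hy i hi =>
    XPASS.notcg h1.hyp h1.bigT h4.jk h4.ne hr y (hD y hy) j i hi
  have hfar : ∀ j, ∀ i < k, ∀ p : ℤ, lam n k ^ j * rad n k j0 r ≤
      |(bh n θ k 0 k)^[j] (Yh n θ k i0 j0 r x₀) - (n : ℝ) ^ i * θ - p| := fun j i hi p => by
    by_contra hlt
    obtain ⟨b1, b2⟩ := abs_lt.mp (not_le.mp hlt)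
    have hA := XPASS.aff hn κ0 hf hB j
    have b3 := hA x₀ ⟨by linarith, by linarith⟩
    rw [hrad] at b1 b2
    obtain ⟨y, hy, e⟩ := XPASS.surj (f := fun y => (bh n θ k 0 k)^[j] (Yh n θ k i0 j0 r y))
      (mul_pos (pow_pos l0 j) κ0) hA (t := (n : ℝ) ^ i * θ + p)
      ⟨by linarith, by linarith⟩
    exact hB j y hy i hi ⟨p, e⟩
  have hx2 : x₀ ∈ Ico θ (ψ + lam n k) := ⟨by linarith [hx1.1], by linarith [hx1.2]⟩
  have hex := XPASS.exit h1 h2 (hYm x₀ hx2)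
  classical
  obtain ⟨M, hM⟩ : ∃ M, M = Nat.find hex := ⟨_, rfl⟩
  have hM1 : (Gm n θ k sh)^[M] (Yh n θ k i0 j0 r x₀ - c) < θ := hM ▸ Nat.find_spec hex
  have hM2 : ∀ j < M, θ ≤ (Gm n θ k sh)^[j] (Yh n θ k i0 j0 r x₀ - c) := fun j hj =>
    not_lt.mp (Nat.find_min hex (hM ▸ hj))
  have hMJ : T / k ≤ M := by
    by_contra hlt
    have a1 : T / k - 1 - M + M ≤ T / k := by omega
    have a2 := h1.iter a1
    rw [show T / k - 1 - M + M = T / k - 1 by omega] at a2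
    have a3 := (Gm_strictMono (k := k) (θ := θ) (sh := sh) hn).iterate M (hY x₀ hx2).1
    have a4 := h1.mono (Nat.zero_le (T / k - 1 - M)) (by omega)
    rw [h1.pre.x0] at a4
    linarith
  have hz : (Gm n θ k sh)^[M] (Yh n θ k i0 j0 r x₀ - c) =
      (bh n θ k 0 k)^[M] (Yh n θ k i0 j0 r x₀) - ((c + M * sh : ℤ) : ℝ) := by
    rw [Gm_iter hn, bh_sub_int hn, bh_iter]
    push_cast
    ring
  refine ⟨x₀, hx₀, M, hMJ, fun j _ => hfar j, c + M * sh, ?_, ?_⟩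
  · rw [← hz]
    obtain ⟨M', rfl⟩ : ∃ M', M = M' + 1 := ⟨M - 1, by omega⟩
    rw [Function.iterate_succ_apply']
    have a1 := (Gm_strictMono (k := k) (θ := θ) (sh := sh) hn).monotone (hM2 M' (Nat.lt_succ_self _))
    have a2 := (h2.k0 θ le_rfl fun i a b => by linarith [(h3.tau i a b).1]).1
    have a3 : 0 < lam n k * (θ - ψ) := mul_pos l0 (by linarith [h2.spos])
    linarith
  · have a1 := hfar M 0 hk (c + M * sh)
    rw [hz] at hM1
    rw [pow_zero, one_mul, abs_of_neg (by linarith)] at a1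
    linarith

end KN
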