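import Pool.Agent.Lib.KN55.Kit3

/-! Block PEAK: the angle of the points of largest potential. -/

set_option autoImplicit false

open Filter Topology Set Metric Complex Bornology MeasureTheory N62a1eb23
open scoped Real ENNReal

namespace KN

open Pool.Agent.Lib.MP_c35c17_an

namespace XPEAK

variable {n : ℕ} {c : ℂ} {Φ : ℂ → ℂ}

theorem bdd (h : L.Bot n c 1 Φ) : ∃ R : ℝ, ∀ w, 1 < ‖w‖ → ‖Φ w - c‖ ≤ 1 → ‖w‖ ≤ R := by
  obtain ⟨R, hR⟩ := L.UI.far h (show (0 : ℝ) < 1 / 2 by norm_num)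
  refine ⟨max R (2 * (‖c‖ + 1)), fun w h1 h2 => ?_⟩
  rcases le_or_gt ‖w‖ R with h3 | h3
  · exact le_max_of_le_left h3
  · have h0 : w ≠ 0 := norm_pos_iff.mp (by linarith)
    have h4 := hR w h3
    rw [div_sub_one h0, norm_div, div_lt_iff₀ (by linarith)] at h4
    refine le_max_of_le_right ?_
    linarith [norm_sub_norm_le (Φ w) c, norm_sub_norm_le w (Φ w), norm_sub_rev w (Φ w)]

theorem top (h : L.Bot n c 1 Φ) (hc : c ∈ closure (Φ '' {w | 1 < ‖w‖})) {ε : ℝ} (h0 : 0 < ε)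
    (h1 : ε ≤ 1) : ∃ w, 1 < ‖w‖ ∧ ‖Φ w - c‖ ≤ ε ∧
      ∀ w', 1 < ‖w'‖ → ‖Φ w' - c‖ ≤ ε → ‖w'‖ ≤ ‖w‖ := by
  obtain ⟨R, hR⟩ := bdd h
  obtain ⟨_, ⟨w₀, a1, rfl⟩, a2⟩ := Metric.mem_closure_iff.mp hc ε h0
  rw [dist_comm, dist_eq_norm] at a2
  have k : IsCompact ({w : ℂ | ‖w₀‖ ≤ ‖w‖} ∩ Φ ⁻¹' closedBall c ε) :=
    (isCompact_closedBall (0 : ℂ) R).of_isClosed_subset
      ((h.diff.continuousOn.mono fun w hw => lt_of_lt_of_le a1 hw).preimage_isClosed_of_isClosed
        (isClosed_le continuous_const continuous_norm) isClosed_closedBall) fun w hw =>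
      mem_closedBall_zero_iff.mpr (hR w (lt_of_lt_of_le a1 hw.1)
        ((mem_closedBall_iff_norm.mp hw.2).trans h1))
  obtain ⟨w, b1, b2⟩ := k.exists_isMaxOn ⟨w₀, le_refl ‖w₀‖, mem_closedBall_iff_norm.mpr a2.le⟩
    continuous_norm.continuousOn
  refine ⟨w, lt_of_lt_of_le a1 b1.1, mem_closedBall_iff_norm.mp b1.2, fun w' _ c2 => ?_⟩
  rcases le_total ‖w₀‖ ‖w'‖ with e | e
  · exact b2 ⟨e, mem_closedBall_iff_norm.mpr c2⟩
  · exact e.trans b1.1

end XPEAK

open XPEAK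

theorem st_PEAK {n : ℕ} (hn : 2 ≤ n) : St_PEAK n := by
  intro c hc Φ h hcl
  obtain ⟨R, hR⟩ := bdd h
  have e0 : ∀ j : ℕ, (0 : ℝ) < 1 / (j + 1) := fun j => by positivity
  have e1 : ∀ j : ℕ, (1 : ℝ) / (j + 1) ≤ 1 := fun j =>
    div_le_one_of_le₀ (by simp) (by positivity)
  choose w w1 w2 w3 using fun j : ℕ => top h hcl (e0 j) (e1 j)
  obtain ⟨z, -, s, hs, hz⟩ := (isCompact_closedBall (0 : ℂ) R).tendsto_subseq
    fun j => mem_closedBall_zero_iff.mpr (hR _ (w1 j) ((w2 j).trans (e1 j)))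
  have t0 : Tendsto (fun j => (1 : ℝ) / (s j + 1)) atTop (𝓝 0) :=
    tendsto_one_div_add_atTop_nhds_zero_nat.comp hs.tendsto_atTop
  have t1 : Tendsto (Φ ∘ w ∘ s) atTop (𝓝 c) :=
    tendsto_iff_norm_sub_tendsto_zero.mpr (squeeze_zero (fun _ => norm_nonneg _)
      (fun j => w2 (s j)) t0)
  have z1 : ‖z‖ = 1 := by
    refine le_antisymm (not_lt.mp fun a => h.ne_orbit hn hc le_rfl a 1 ?_)
      (ge_of_tendsto' hz.norm fun j => (w1 (s j)).le)
    have := ((h.diff.continuousOn.continuousAt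
      ((isOpen_lt continuous_const continuous_norm).mem_nhds a)).tendsto.comp hz)
    rw [tendsto_nhds_unique this t1]
    simp [F, zero_pow (show n ≠ 0 by omega)]
  have z0 : z ≠ 0 := norm_pos_iff.mp (by linarith)
  have p0 : (2 * π : ℂ) ≠ 0 := by simp
  have z2 : exp (2 * π * I * (arg z / (2 * π) : ℝ)) = z := by
    have := norm_mul_exp_arg_mul_I z
    rw [z1, ofReal_one, one_mul] at this
    rw [← this]
    congr 1
    rw [this]
    push_cast
    field_simp
  refine ⟨arg z / (2 * π), fun e he => ?_, ?_⟩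
  · set θ := arg z / (2 * π)
    have t2 : Tendsto (fun j => log (w (s j) / z) / (2 * π)) atTop (𝓝 0) := by
      have a : Tendsto (fun j => w (s j) / z) atTop (𝓝 1) := by
        simpa [div_self z0] using hz.div_const z
      simpa using (a.clog (by simp)).div_const (2 * π : ℂ)
    obtain ⟨j, j1, j2⟩ := ((t0.eventually_lt_const he).and
      ((tendsto_zero_iff_norm_tendsto_zero.mp t2).eventually_lt_const he)).exists
    set d := log (w (s j) / z) / (2 * π) with hd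
    have w0 : w (s j) ≠ 0 := norm_pos_iff.mp (by linarith [w1 (s j)])
    have q : exp (2 * π * (⟨d.re, d.im + θ⟩ : ℂ)) = w (s j) := by
      rw [show (⟨d.re, d.im + θ⟩ : ℂ) = d + I * θ from Complex.ext (by simp) (by simp), mul_add,
        exp_add, ← mul_assoc, z2, hd, mul_div_cancel₀ _ p0, exp_log (div_ne_zero w0 z0),
        div_mul_cancel₀ _ z0]
    have q1 := norm_chart ⟨d.re, d.im + θ⟩
    rw [q] at q1
    refine ⟨_, d.re, d.im + θ, e0 (s j), j1, ?_, (re_le_norm d).trans_lt j2, ?_, ?_,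
      fun ζ a b => ?_⟩
    · have := w1 (s j)
      rw [q1, Real.one_lt_exp_iff] at this
      exact pos_of_mul_pos_left (b := 2 * π) (by linarith) (by positivity)
    · rw [add_sub_cancel_right]
      exact (abs_im_le_norm d).trans_lt j2
    · rw [Bc, q]
      exact w2 _
    · have := w3 (s j) _ (chart_gt a) b
      rw [q1, norm_chart, Real.exp_le_exp] at this
      exact le_of_mul_le_mul_left this (by positivity)
  · rw [z2]
    exact MapClusterPt.of_comp (tendsto_nhdsWithin_iff.mpr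
      ⟨hz, Eventually.of_forall fun j => w1 (s j)⟩) t1.mapClusterPt

end KN
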