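import Pool.Agent.Lib.KN55.Kit3

/-! A lifted branch of several periods has a fixed point. -/

set_option autoImplicit false

open Filter Topology Set

namespace KN

namespace XPER

variable {n k T : ℕ} {θ δ x : ℝ}

theorem step (hn : 2 ≤ n) {q i : ℕ} (h : ∀ j ≤ T, lts n θ x j = vv n θ k (q + i + j)) :
    ∀ j ≤ T, lts n θ (bh n θ k q i x) j = vv n θ k (q + j) := fun j hj => by
  rcases lt_or_ge j i with h1 | h1
  · exact lts_bh hn h1
  · obtain ⟨e, rfl⟩ := Nat.exists_eq_add_of_le h1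
    rw [lts_bh_add hn, h e (by omega), add_assoc]

theorem gh_near (hn : 2 ≤ n) {a : ZMod n} {y : ℝ} (h : ∀ m : ℤ, δ ≤ |x - θ - m|)
    (hy : |y - x| < δ) : gh n θ a y = gh n θ a x + (y - x) / n := by
  obtain ⟨h1, h2⟩ := abs_lt.mp hy
  rcases le_total x y with h3 | h3
  · exact gh_affine hn h3 fun m hm => (h m).not_gt
      (abs_lt.mpr ⟨by linarith [hm.2], by linarith [hm.1]⟩)
  · rw [gh_affine (a := a) hn h3 fun m hm => (h m).not_gt
      (abs_lt.mpr ⟨by linarith [hm.2], by linarith [hm.1]⟩)]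
    ring

theorem aff (hn : 2 ≤ n) (hδ : ∀ (p : ℕ) (y : ℝ), (∀ j ≤ T, lts n θ y j = vv n θ k (p + j)) →
    ∀ m : ℤ, δ ≤ |y - θ - m|) {y : ℝ} (hy : |y - x| < δ) (i : ℕ) : ∀ q : ℕ,
    (∀ j ≤ T, lts n θ x j = vv n θ k (q + i + j)) →
      bh n θ k q i y = bh n θ k q i x + (y - x) / (n : ℝ) ^ i := by
  induction i with
  | zero => intro q _; simp
  | succ i ih =>
    intro q h
    have h1 : ∀ j ≤ T, lts n θ x j = vv n θ k (q + 1 + i + j) := fun j hj => by
      rw [h j hj, add_assoc q 1, add_comm 1]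
    have h2 := ih (q + 1) h1
    have h3 : |bh n θ k (q + 1) i y - bh n θ k (q + 1) i x| < δ := by
      rw [h2, add_sub_cancel_left, abs_div, abs_of_pos (npow_pos hn i)]
      exact (div_le_self (abs_nonneg _) (one_le_npow hn i)).trans_lt hy
    rw [bh_succ, bh_succ, gh_near hn (hδ _ _ (step hn h1)) h3, h2, add_sub_cancel_left, div_div,
      pow_succ]

theorem close (u : ℕ → ℝ) {ε : ℝ} (hε : 0 < ε) :
    ∃ (j P : ℕ) (p : ℤ), 0 < P ∧ |u (P + j) - p - u j| < ε := by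
  obtain ⟨a, -, φ, hφ, ha⟩ := (isCompact_Icc (a := (0 : ℝ)) (b := 1)).tendsto_subseq
    (x := fun j => Int.fract (u j)) fun j => ⟨Int.fract_nonneg _, (Int.fract_lt_one _).le⟩
  obtain ⟨N, hN⟩ := Metric.tendsto_atTop.mp ha _ (half_pos hε)
  obtain ⟨P, hP⟩ := Nat.exists_eq_add_of_lt (hφ (Nat.lt_succ_self N))
  have h1 := hN N le_rfl
  have h2 := hN (N + 1) (Nat.le_succ N)
  rw [Real.dist_eq, Function.comp_apply, abs_lt, Int.fract] at h1 h2
  refine ⟨φ N, P + 1, ⌊u (φ (N + 1))⌋ - ⌊u (φ N)⌋, Nat.succ_pos P, ?_⟩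
  rw [show P + 1 + φ N = φ (N + 1) by rw [hP]; ring, abs_lt]
  push_cast
  exact ⟨by linarith [h1.2, h2.1], by linarith [h1.1, h2.2]⟩

end XPER

open XPER in
theorem st_PER : St_PER := by
  intro n θ k T h
  have hn := h.hn
  obtain ⟨δ, hδ, hf⟩ := h.far
  obtain ⟨x, hx⟩ : ∃ x : ℝ, ∀ j ≤ T, lts n θ x j = vv n θ k j :=
    ⟨bh n θ k 0 (T + 1) 0, fun j hj => by rw [lts_bh hn (by omega), zero_add]⟩
  obtain ⟨j, P, p, hP, hc⟩ := close (fun j => (bh n θ k 0 k)^[j] x) (show 0 < δ / 8 by positivity)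
  rw [Function.iterate_add_apply, bh_iter P] at hc
  have hy : ∀ i ≤ T, lts n θ ((bh n θ k 0 k)^[j] x) i = vv n θ k (0 + k * P + i) := fun i hi => by
    rw [bh_iter, step hn (fun e he => by rw [hx e he, zero_add, vv_dvd (dvd_mul_right k j)]) i hi,
      zero_add, zero_add, vv_dvd (dvd_mul_right k P)]
  generalize (bh n θ k 0 k)^[j] x = y at hc hy
  obtain ⟨h1, h2⟩ := abs_lt.mp hc
  have h3 : δ / 2 / (n : ℝ) ^ (k * P) ≤ δ / 2 / 2 :=
    div_le_div_of_nonneg_left (by positivity) two_pos (two_le_npow hn (Nat.mul_pos h.pos hP))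
  have h4 := aff hn hf (x := y) (y := y - δ / 2)
    (abs_lt.mpr ⟨by linarith, by linarith⟩) (k * P) 0 hy
  have h5 := aff hn hf (x := y) (y := y + δ / 2)
    (abs_lt.mpr ⟨by linarith, by linarith⟩) (k * P) 0 hy
  rw [sub_sub_cancel_left, neg_div] at h4
  rw [add_sub_cancel_left] at h5
  obtain ⟨s, -, hs⟩ := tarski (f := Fm n θ k P p) (x := y - δ / 2) (y := y + δ / 2)
    (Fm_strictMono hn).monotone (by linarith) (by rw [Fm, h4]; linarith) (by rw [Fm, h5]; linarith)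
  exact ⟨P, p, s, hP, hs⟩

end KN
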