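import Pool.Agent.Lib.KN55.Kit3

/-! The case of a primitive period. -/

set_option autoImplicit false

open Filter Topology Set Metric Complex Bornology MeasureTheory N62a1eb23
open scoped Real ENNReal

namespace KN.PRIM55

open Pool.Agent.Lib.MP_c35c17_an

theorem out {n : ℕ} (hn : 2 ≤ n) (hMODEL : St_MODEL n) (hLIN : St_LIN n) {c : ℂ}
    (hc : c ∈ multibrotSet n) {Φ : ℂ → ℂ} (hB : L.Bot n c 1 Φ)
    (hi : Function.Injective (fun j => (F n c)^[j] 0)) {θ : ℝ} (hP : Peak c Φ θ) {k T : ℕ}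
    (h : Hyp n θ k T) {C : ℝ}
    (he : ∃ η₀ > 0, ∀ η ≤ η₀, ∀ σ : Sit n θ k T η, T * σ.Λ ≤ C * k ^ 2) : Out n c k T C := by
  obtain ⟨η₀, h0, h1⟩ := he
  obtain ⟨η₁, h2, h3⟩ := hLIN θ k T h
  have h4 : 0 < min η₀ η₁ := lt_min h0 h2
  obtain ⟨S, g, h5⟩ := hMODEL c hc Φ hB hi θ hP T _ h4 h.opn
  obtain ⟨σ, rfl⟩ := h3 _ h4 (min_le_right _ _) c Φ S g (L.norm_le_two hn hc) (cj_of_bot hn hc hB) h5
  have h6 : ‖dF n σ.c k σ.z‖ = ‖σ.μ‖⁻¹ :=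
    eq_inv_of_mul_eq_one_left (by rw [← norm_mul, σ.mult, norm_one])
  refine ⟨σ.z, σ.zper, ?_, ?_⟩
  · rw [h6]
    exact (one_lt_inv₀ (norm_pos_iff.mpr σ.μ_ne)).mpr σ.μlt
  · rw [h6, Real.log_inv]
    exact h1 _ (min_le_left _ _) σ

theorem st {n : ℕ} (hn : 2 ≤ n) (hMODEL : St_MODEL n) (hTRI : St_TRI) (hREFL : St_REFL)
    (hGATEC : St_GATEC) (hLIN : St_LIN n) (hLIMB : St_LIMB n) (hGATE : St_GATE n)
    (hCONJ : St_CONJ n) : St_PRIM n := by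
  obtain ⟨C1, p1, h1⟩ := hLIMB
  obtain ⟨C2, p2, h2⟩ := hGATE
  have up : ∀ {c : ℂ} {k T : ℕ} {C C' : ℝ}, C ≤ C' → Out n c k T C → Out n c k T C' :=
    fun h ⟨z, a1, a2, a3⟩ => ⟨z, a1, a2, a3.trans (by gcongr)⟩
  have inc : ∀ c ∈ multibrotSet n, ∀ Φ, L.Bot n c 1 Φ →
      Function.Injective (fun j => (F n c)^[j] 0) → ∀ θ, Peak c Φ θ → ∀ k T : ℕ, Hyp n θ k T →
      50 * k ^ 6 ≤ T → ∀ φ x, Pre n θ k T φ x → (∀ j < T / k, x j < x (j + 1)) →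
      Out n c k T C2 := by
    intro c hc Φ hB hi θ hP k T h hT φ x hp hx
    have h5 : 50 * k ^ 5 ≤ T / k := (Nat.le_div_iff_mul_le h.pos).mpr (by
      calc 50 * k ^ 5 * k = 50 * k ^ 6 := by ring
        _ ≤ T := hT)
    have h6 : k ≤ k ^ 5 := Nat.le_self_pow (by norm_num) k
    obtain ⟨ψ, ξ, i0, j0, hG⟩ := hGATEC n θ k T φ x h (by omega) hp hx
    exact out hn hMODEL hLIN hc hB hi hP h (h2 θ k T φ ψ ξ i0 j0 hG (by omega))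
  refine ⟨C1 + C2, by positivity, fun c hc Φ hB hi θ hP k T h hT => ?_⟩
  rcases hTRI n θ k T h with hl | ⟨φ, x, hp, hx | hx⟩
  · exact up (by linarith) (out hn hMODEL hLIN hc hB hi hP h (h1 θ k T h hl))
  · exact up (by linarith) (inc c hc Φ hB hi θ hP k T h hT φ x hp hx)
  · obtain ⟨c', hc', Φ', b1, b2, b3, b4⟩ := hCONJ c hc Φ hB hi θ hP
    obtain ⟨r1, r2⟩ := hREFL n θ k T h
    exact up (by linarith) (b4 k T C2 (inc c' hc' Φ' b1 b2 _ b3 k T r1 hT _ _ (r2 φ x hp)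
      fun j hj => neg_lt_neg (hx j hj)))

end KN.PRIM55
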