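import Pool.Agent.Lib.KN55.Kit3

/-! Block RED: reduction to the primitive period. -/

set_option autoImplicit false

open Filter Topology Set Metric Complex Bornology MeasureTheory N62a1eb23
open scoped Real ENNReal

namespace KN

open Pool.Agent.Lib.MP_c35c17_an

theorem st_RED : St_RED := by
  classical
  intro n θ k L hn hk hkL h0 h1 h2
  have hnu : ∀ i, nu n θ i = ((⌊((n : ℝ) ^ (i + 1) - 1) * θ⌋ : ℤ) : ZMod n) := fun i => by
    rw [nu, lts, lt, show (n : ℝ) * (n ^ i * θ) - θ = (n ^ (i + 1) - 1) * θ by ring]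
  simp only [← ZMod.intCast_eq_intCast_iff, ← hnu] at h1 h2
  have hper : Function.Periodic (vv n θ k) k := fun j => by rw [vv, vv, Nat.add_mod_right]
  have per : ∀ i < L + k, nu n θ i = vv n θ k i := by
    intro i
    induction i using Nat.strong_induction_on with
    | _ i ih =>
      intro hi
      rcases lt_or_ge i k with h | h
      · rw [vv, Nat.mod_eq_of_lt h]
      · obtain ⟨j, rfl⟩ := Nat.exists_eq_add_of_le' h
        rw [h1 j (by omega), ih j (by omega) (by omega), hper]
  have hex : ∃ d, 0 < d ∧ Function.Periodic (vv n θ k) d := ⟨k, hk, hper⟩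
  obtain ⟨hp, hq⟩ := Nat.find_spec hex
  set d := Nat.find hex with hd
  have hdvd : ∀ i, Function.Periodic (vv n θ k) i → d ∣ i := fun i hi => by
    by_contra hc
    refine Nat.find_min hex (Nat.mod_lt i hp) ⟨Nat.pos_of_ne_zero fun e =>
      hc (Nat.dvd_of_mod_eq_zero e), fun j => ?_⟩
    rw [← hq.map_mod_nat, Nat.add_mod_mod, hq.map_mod_nat, hi]
  have hle : d ≤ k := Nat.le_of_dvd hk (hdvd k hper)
  have he : vv n θ d = vv n θ k := funext fun j => by
    rw [vv, per _ (by have := Nat.mod_lt j hp; omega), hq.map_mod_nat]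
  refine ⟨d, hdvd k hper, hn, hp, by omega, fun i hi ⟨m, hm⟩ => h0 i hi m (by linarith),
    he ▸ per, ?_, fun i hi => ?_⟩
  · rw [he, hper, ← per L (by omega)]
    exact h2
  · by_contra hc
    push Not at hc
    rw [he] at hc
    refine hi (hdvd i fun j => ?_)
    rw [← hq.map_mod_nat, ← Nat.mod_add_mod, hq.map_mod_nat, add_comm, hc _ (Nat.mod_lt j hp),
      hq.map_mod_nat]

end KN
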