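import Pool.Agent.Lib.KN55.Kit3

/-! Reflection of the kneading data. -/

set_option autoImplicit false

open Filter Topology Set Metric Complex Bornology MeasureTheory N62a1eb23
open scoped Real ENNReal

namespace KN

namespace XREFL

variable {n k T : ℕ} {θ y : ℝ}

theorem lt_neg (h : ¬ Cg ((n : ℝ) * y) θ) : lt n (-θ) (-y) = -lt n θ y - 1 := by
  have h1 : ⌈(n : ℝ) * y - θ⌉ = ⌊(n : ℝ) * y - θ⌋ + 1 := by
    refine Int.ceil_eq_iff.mpr ⟨?_, ?_⟩
    · push_cast
      rw [add_sub_cancel_right]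
      refine lt_of_le_of_ne (Int.floor_le _) fun e => h ⟨⌊(n : ℝ) * y - θ⌋, ?_⟩
      linarith
    · push_cast
      exact (Int.lt_floor_add_one _).le
  rw [lt, lt, show (n : ℝ) * -y - -θ = -((n : ℝ) * y - θ) by ring, Int.floor_neg, h1]
  push_cast
  ring

theorem lts_neg {j : ℕ} (h : ¬ Cg ((n : ℝ) ^ (j + 1) * y) θ) :
    lts n (-θ) (-y) j = -lts n θ y j - 1 := by
  rw [lts, lts, mul_neg, lt_neg]
  rwa [← mul_assoc, ← pow_succ']

theorem nu_neg (h : Hyp n θ k T) {i : ℕ} (hi : i ≤ T) : nu n (-θ) i = -nu n θ i - 1 :=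
  lts_neg (h.opn i hi)

theorem vv_neg (h : Hyp n θ k T) (j : ℕ) : vv n (-θ) k j = -vv n θ k j - 1 :=
  nu_neg h ((Nat.mod_lt j h.pos).le.trans h.kT.le)

theorem ne_of_ne {a b : ZMod n} (h : a ≠ b) : -a - 1 ≠ -b - 1 := fun e =>
  h (neg_injective (sub_left_injective e))

theorem hyp_neg (h : Hyp n θ k T) : Hyp n (-θ) k T where
  hn := h.hn
  pos := h.pos
  two := h.two
  opn i hi hc := h.opn i hi (by simpa using hc.neg)
  per i hi := by rw [nu_neg h hi.le, vv_neg h, h.per i hi]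
  brk := by
    rw [nu_neg h le_rfl, vv_neg h]
    exact ne_of_ne h.brk
  prim i hi := by
    obtain ⟨j, hj, h1⟩ := h.prim i hi
    exact ⟨j, hj, by rw [vv_neg h, vv_neg h]; exact ne_of_ne h1⟩

theorem per_neg (h : Hyp n θ k T) {p : ℕ} (hy : Per n θ k p y) : Per n (-θ) k p (-y) := fun j => by
  rw [lts_neg (h.per_ne' (hy.pow (j + 1))), vv_neg h, hy j]

theorem lat_neg (h : Lat n k y) : Lat n k (-y) := by
  obtain ⟨m, hm⟩ := h
  exact ⟨-m, by push_cast; rw [← hm]; ring⟩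

end XREFL

open XREFL in
theorem st_REFL : St_REFL := by
  intro n θ k T h
  refine ⟨hyp_neg h, fun φ x hp => ?_⟩
  have hc : Cg (-φ - 1) (-φ) := ⟨-1, by push_cast; ring⟩
  refine ⟨(per_neg h hp.per).cg hc, (lat_neg hp.lat).cg hc, fun s hs hl => ?_, by simp [hp.x0],
    fun j hj => by simpa using (hp.cg j hj).neg, fun j hj => ?_⟩
  · have h1 := per_neg (hyp_neg h) hs
    rw [neg_neg] at h1
    have h2 := (hp.uniq _ h1 (lat_neg hl)).neg
    rw [neg_neg] at h2
    exact h2.trans hc.symm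
  · obtain ⟨h1, h2⟩ := hp.mem j hj
    exact ⟨by linarith, by linarith⟩

end KN
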