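import Pool.Agent.Lib.KN55.Kit3

/-! After `5 k` steps of the shifted branch a point left of the watershed is below all `τ i`. -/

set_option autoImplicit false

open Filter Topology Set

namespace KN

namespace XRUN

variable {n k T : ℕ} {θ φ : ℝ} {x τ : ℕ → ℝ} {sh : ℤ} {i0 : ℕ}

theorem step (hCL : St_CL) (h : G1 n θ k T φ x sh τ i0) {y : ℝ} (hy : y ∈ Ioo φ (τ i0)) {i : ℕ}
    (hi0 : 0 < i) (hik : i < k) (hiy : τ i ≤ y) (hfree : ∀ j < k, τ j ∉ Ioc (τ i) y) :
    (Gm n θ k sh)^[5] y < τ i := by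
  have hn := h.hyp.hn
  have hk := h.hyp.pos
  by_contra hc
  rw [not_lt] at hc
  have ha := (h.τm i hik).1
  have hy1 : y < φ + 1 := hy.2.trans (h.τm i0 h.i0k).1.2
  obtain ⟨ψ, hψ, hG⟩ := exists_virtual (θ := θ) (sh := sh) hn hk (τ i)
  have hF := h.free ha.1.le hy1.le hfree
  have haff : ∀ z ∈ Icc (τ i) y, Gm n θ k sh z = ψ + lam n k * (z - ψ) := fun z hz => by
    rw [(hF.mono le_rfl le_rfl hz.2).Gm hn hz.1, hG]; ring
  have hl0 := lam_pos (k := k) hn
  have hl1 := lam_le hn hk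
  have h1 : ψ < τ i := by
    have := (h.left _ ⟨ha.1, hiy.trans_lt hy.2⟩).2
    rw [hG] at this
    by_contra h2
    rw [not_lt] at h2
    nlinarith
  have h2 : y - ψ < 2 := by
    have := (h.left _ hy).1
    rw [haff y ⟨hiy, le_rfl⟩] at this
    nlinarith
  have hmem : ∀ j ≤ 5, (Gm n θ k sh)^[j] y ∈ Icc (τ i) y := fun j hj => by
    have h3 := h.left_iter hy j
    refine ⟨hc.trans ?_, h3.2⟩
    have h4 := h.left_iter ⟨h3.1, h3.2.trans_lt hy.2⟩ (5 - j)
    rw [← Function.iterate_add_apply, Nat.sub_add_cancel hj] at h4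
    exact h4.2
  have h3 : ∀ j ≤ 5, (Gm n θ k sh)^[j] y = ψ + lam n k ^ j * (y - ψ) := by
    intro j hj
    induction j with
    | zero => simp
    | succ j ih =>
      rw [Function.iterate_succ_apply', haff _ (hmem j (by omega)), ih (by omega)]
      ring
  have h4 : (Gm n θ k sh)^[5] y ≤ ψ + 2 * lam n k ^ 5 := by
    rw [h3 5 le_rfl]
    have := pow_pos hl0 5
    nlinarith
  have h5 := hCL n θ k i ψ (τ i) _ hn hik hψ h1 hc h4 (h.τm i hik).2
  have h6 : k ∣ i := h.hyp.dvd_of_occ (by have := h.hyp.two; omega) fun e he => by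
    rw [← (h.τm i hik).2.lts_nu, h5 e he, show 5 = 4 + 1 from rfl, Function.iterate_succ_apply',
      lts_Gm hn he]
  exact absurd (Nat.le_of_dvd hi0 h6) (by omega)

theorem run (hCL : St_CL) (h : G1 n θ k T φ x sh τ i0) (hlow : ∀ i < k, θ ≤ τ i) (m : ℕ) :
    ∀ y ∈ Ioo φ (τ i0), ((Finset.range k).filter fun i => 0 < i ∧ τ i ≤ y).card ≤ m →
      ∀ i, 0 < i → i < k → (Gm n θ k sh)^[5 * m] y < τ i := by
  classical
  induction m with
  | zero =>
    intro y _ hc i hi hik
    by_contra h1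
    have h2 : i ∈ (Finset.range k).filter fun i => 0 < i ∧ τ i ≤ y :=
      Finset.mem_filter.mpr ⟨Finset.mem_range.mpr hik, hi, by simpa using h1⟩
    have := Finset.card_pos.mpr ⟨i, h2⟩
    omega
  | succ m ih =>
    intro y hy hc i hi hik
    rcases ((Finset.range k).filter fun i => 0 < i ∧ τ i ≤ y).eq_empty_or_nonempty with he | hne
    · refine (h.left_iter hy _).2.trans_lt (not_le.mp fun h1 => ?_)
      have h2 : i ∈ (Finset.range k).filter fun i => 0 < i ∧ τ i ≤ y :=
        Finset.mem_filter.mpr ⟨Finset.mem_range.mpr hik, hi, h1⟩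
      rw [he] at h2
      exact absurd h2 (Finset.notMem_empty _)
    · obtain ⟨j, hj, hmax⟩ := Finset.exists_max_image _ τ hne
      obtain ⟨hj1, hj0, hjy⟩ := Finset.mem_filter.mp hj
      have hjk := Finset.mem_range.mp hj1
      have h1 := step hCL h hy hj0 hjk hjy fun l hl hm => by
        rcases Nat.eq_zero_or_pos l with rfl | hl0
        · exact absurd hm.1 (not_lt.mpr (h.τ0 ▸ hlow j hjk))
        · exact absurd hm.1 (not_lt.mpr (hmax l
            (Finset.mem_filter.mpr ⟨Finset.mem_range.mpr hl, hl0, hm.2⟩)))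
      have h2 := h.left_iter hy 5
      have h3 : ((Finset.range k).filter fun i => 0 < i ∧ τ i ≤ (Gm n θ k sh)^[5] y) ⊂
          (Finset.range k).filter fun i => 0 < i ∧ τ i ≤ y := by
        refine Finset.ssubset_iff_subset_ne.mpr ⟨fun l hl => ?_, fun e => ?_⟩
        · obtain ⟨a, b, c⟩ := Finset.mem_filter.mp hl
          exact Finset.mem_filter.mpr ⟨a, b, c.trans h2.2⟩
        · rw [← e] at hj
          exact absurd (Finset.mem_filter.mp hj).2.2 (not_le.mpr h1)
      have h4 := Finset.card_lt_card h3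
      have h5 := ih _ ⟨h2.1, h2.2.trans_lt hy.2⟩ (by omega) i hi hik
      rwa [← Function.iterate_add_apply, ← mul_add_one] at h5

end XRUN

theorem st_RUN (hCL : St_CL) : St_RUN := fun _ _ k _ _ _ _ _ _ h hlow y hy i hi hik =>
  XRUN.run hCL h hlow k y hy
    ((Finset.card_filter_le _ _).trans (Finset.card_range k).le) i hi hik

end KN
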