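import Pool.Agent.Lib.KN55.Kit3

/-! A shortest arc between periodic angles contains the critical angle. -/

set_option autoImplicit false

open Filter Topology Set Metric Complex Bornology MeasureTheory N62a1eb23
open scoped Real ENNReal

namespace KN

open Pool.Agent.Lib.MP_c35c17_an

namespace XSA1

variable {n k T P : ℕ} {θ : ℝ}

/-- an arc between two periodic angles of the same phase -/
structure Arc (n : ℕ) (θ : ℝ) (k P i : ℕ) (x y : ℝ) : Prop where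
  px : Per n θ k i x
  lx : Lat n (k * P) x
  py : Per n θ k i y
  ly : Lat n (k * P) y
  lt : x < y
  lt1 : y < x + 1

theorem exists_min (hn : 2 ≤ n) (hk : 0 < k) (hP : 0 < P) {i : ℕ} {x y : ℝ}
    (h : Arc n θ k P i x y) : ∃ i x y, Arc n θ k P i x y ∧
      ∀ i' x' y', Arc n θ k P i' x' y' → y - x ≤ y' - x' := by
  classical
  have hc : (0 : ℝ) < (n : ℝ) ^ (k * P) - 1 := by
    have := two_le_npow hn (Nat.mul_pos hk hP); linarith
  have key : ∀ i x y, Arc n θ k P i x y →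
      ∃ N : ℕ, ((n : ℝ) ^ (k * P) - 1) * (y - x) = N := fun i x y h => by
    obtain ⟨m, hm⟩ := h.ly.sub h.lx
    have h0 : (0 : ℝ) < m := hm ▸ mul_pos hc (sub_pos.mpr h.lt)
    have h1 : 0 ≤ m := by exact_mod_cast h0.le
    refine ⟨m.toNat, ?_⟩
    rw [hm]
    exact_mod_cast (Int.toNat_of_nonneg h1).symm
  have ex : ∃ N : ℕ, ∃ i x y, Arc n θ k P i x y ∧ ((n : ℝ) ^ (k * P) - 1) * (y - x) = N := by
    obtain ⟨N, hN⟩ := key i x y h
    exact ⟨N, i, x, y, h, hN⟩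
  obtain ⟨i, x, y, h, hN⟩ := Nat.find_spec ex
  refine ⟨i, x, y, h, fun i' x' y' h' => ?_⟩
  obtain ⟨N', hN'⟩ := key i' x' y' h'
  have h1 : Nat.find ex ≤ N' := Nat.find_min' ex ⟨i', x', y', h', hN'⟩
  have h2 : ((Nat.find ex : ℕ) : ℝ) ≤ N' := by exact_mod_cast h1
  rw [← hN, ← hN'] at h2
  exact le_of_mul_le_mul_left h2 hc

theorem lat_back (hn : 2 ≤ n) (hk : 0 < k) (hP : 0 < P) {p : ℕ} {x : ℝ}
    (hx : Per n θ k (p + 1) x) (hl : Lat n (k * P) x) : Lat n (k * P) (bh n θ k p 1 x) := by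
  obtain ⟨q, hq⟩ : ∃ q, k * P = q + 1 := ⟨k * P - 1, by have := Nat.mul_pos hk hP; omega⟩
  have h1 : Cg (bh n θ k p 1 ((n : ℝ) ^ 1 * ((n : ℝ) ^ q * x))) ((n : ℝ) ^ q * x) := by
    refine bh_back hn fun j hj => ?_
    obtain rfl : j = 0 := by omega
    rw [lts_pow, hx]
    have e : p + 1 + (q + 0) = k * P + (p + 0) := by omega
    rw [e, vv_dvd (Dvd.intro P rfl)]
  have h2 : Cg ((n : ℝ) ^ 1 * ((n : ℝ) ^ q * x)) x := by
    have := lat_iff.mp hl
    rw [hq] at this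
    have e : (n : ℝ) ^ 1 * ((n : ℝ) ^ q * x) = (n : ℝ) ^ (q + 1) * x := by ring
    rw [e]; exact this
  exact (hl.mul_pow q).cg ((h2.bh hn).symm.trans h1)

theorem pull (hn : 2 ≤ n) (hk : 0 < k) (hP : 0 < P) {i : ℕ} {x y : ℝ} (h : Arc n θ k P i x y)
    (hf : ∀ m : ℤ, θ + m ∉ Ioc x y) : ∃ i' x' y', Arc n θ k P i' x' y' ∧ y' - x' < y - x := by
  have e : i % k = (i + (k - 1) + 1) % k := by
    have : i + (k - 1) + 1 = i + k := by omega
    rw [this, Nat.add_mod_right]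
  have hF : Free n θ x y 1 := fun l hl m => by
    obtain rfl : l = 0 := by omega
    simpa using hf m
  have ha := Free.affine (k := k) (p := i + (k - 1)) hn hF h.lt.le
  have h2 := ntwo hn
  have hd : 0 < y - x := sub_pos.mpr h.lt
  have h3 : (y - x) / (n : ℝ) ^ 1 < y - x := by
    rw [pow_one]; exact div_lt_self hd (by linarith)
  have h4 : 0 < (y - x) / (n : ℝ) ^ 1 := by positivity
  refine ⟨i + (k - 1), bh n θ k (i + (k - 1)) 1 x, bh n θ k (i + (k - 1)) 1 y,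
    ⟨(h.px.phase e).bh hn, lat_back hn hk hP (h.px.phase e) h.lx, (h.py.phase e).bh hn,
      lat_back hn hk hP (h.py.phase e) h.ly, ?_, ?_⟩, ?_⟩
  · linarith
  · linarith [h.lt1]
  · linarith

theorem two {i : ℕ} {x y u w : ℝ} (hxy : y < x + 1) (pu : Per n θ k i u) (lu : Lat n (k * P) u)
    (pw : Per n θ k i w) (lw : Lat n (k * P) w) (hne : ¬ Cg u w) {m m' : ℤ}
    (hu : u + m ∈ Ioo x y) (hw : w + m' ∈ Ioo x y) :
    ∃ i' x' y', Arc n θ k P i' x' y' ∧ y' - x' < y - x := by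
  rcases lt_trichotomy (u + m) (w + m') with h | h | h
  · exact ⟨i, u + m, w + m', ⟨pu.cg (cg_add_int _ _), lu.cg (cg_add_int _ _),
      pw.cg (cg_add_int _ _), lw.cg (cg_add_int _ _), h, by linarith [hu.1, hw.2]⟩,
      by linarith [hu.1, hw.2]⟩
  · exact absurd ((cg_add_int u m).symm.trans (h ▸ cg_add_int w m')) hne
  · exact ⟨i, w + m', u + m, ⟨pw.cg (cg_add_int _ _), lw.cg (cg_add_int _ _),
      pu.cg (cg_add_int _ _), lu.cg (cg_add_int _ _), h, by linarith [hu.2, hw.1]⟩,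
      by linarith [hu.2, hw.1]⟩

/-- a point of the critical orbit of another phase inside an arc gives a shorter arc -/
theorem inside (hUL : St_UL) (H : Hyp n θ k T) (hP : 0 < P) {a b : ℝ} (pa : Per n θ k 0 a)
    (la : Lat n (k * P) a) (pb : Per n θ k 0 b) (lb : Lat n (k * P) b) (hab : ¬ Cg a b)
    {i l : ℕ} {x y : ℝ} (h : Arc n θ k P i x y) (hl : l < k) {m : ℤ}
    (hm : (n : ℝ) ^ l * θ + m ∈ Ioo x y) (hd : ∃ j < k, vv n θ k (i + j) ≠ vv n θ k (l + j)) :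
    ∃ i' x' y', Arc n θ k P i' x' y' ∧ y' - x' < y - x := by
  have h2 := H.two
  have hl' : ∀ j < k, lts n θ ((n : ℝ) ^ l * θ + m) j = vv n θ k (l + j) := fun j hj => by
    rw [(cg_add_int _ m).lts_nu, H.per _ (by omega)]
  have U : ∀ c, Per n θ k 0 c → ∃ m' : ℤ, (n : ℝ) ^ l * c + m' ∈ Ioo x y := fun c pc => by
    refine hUL n θ k x _ y _ H.hn (fun j _ => (h.px j).trans (h.py j).symm)
      (fun j hj => ?_) ?_ hm.1 hm.2 h.lt1
    · rw [hl' j hj, pc.pow l j, zero_add]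
    · obtain ⟨j, hj, hne⟩ := hd
      exact ⟨j, hj, by rw [h.px j, hl' j hj]; exact hne⟩
  obtain ⟨m1, h1⟩ := U a pa
  obtain ⟨m2, h3⟩ := U b pb
  refine two h.lt1 (pa.pow l) (la.mul_pow l) (pb.pow l) (lb.mul_pow l) (fun hc => hab ?_) h1 h3
  have hle : l ≤ k * P := hl.le.trans (Nat.le_mul_of_pos_right k hP)
  have e : ∀ c : ℝ, (n : ℝ) ^ (k * P - l) * ((n : ℝ) ^ l * c) = (n : ℝ) ^ (k * P) * c :=
    fun c => by rw [← mul_assoc, ← pow_add, Nat.sub_add_cancel hle]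
  have := hc.mul_pow n (k * P - l)
  rw [e, e] at this
  exact (lat_iff.mp la).symm.trans (this.trans (lat_iff.mp lb))

end XSA1

open XSA1 in
theorem st_SA1 (hUL : St_UL) : St_SA1 := by
  intro n θ k T P a b H hP pa la pb lb hab
  have hn := H.hn
  have hk := H.pos
  obtain ⟨b', hb', hbb⟩ := exists_lift' (a := a) (x := b) fun h => hab h.symm
  obtain ⟨i, x, y, h, hmin⟩ := exists_min hn hk hP
    (⟨pa, la, pb.cg hbb, lb.cg hbb, hb'.1, hb'.2⟩ : Arc n θ k P 0 a b')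
  have no : ∀ {d : ℝ}, d = y - x → ¬ ∃ i' x' y', Arc n θ k P i' x' y' ∧ y' - x' < d := by
    rintro d rfl ⟨i', x', y', h', hlt⟩
    exact absurd (hmin i' x' y' h') (not_le.mpr hlt)
  obtain ⟨m, hm⟩ : ∃ m : ℤ, θ + m ∈ Ioc x y := by
    by_contra hc
    exact no rfl (pull hn hk hP h fun m hm => hc ⟨m, hm⟩)
  have hm2 : θ + m < y := lt_of_le_of_ne hm.2 fun e => H.per_ne' h.py ⟨m, e.symm⟩
  have hi : k ∣ i := by
    by_contra hc
    refine no rfl (inside hUL H hP pa la pb lb hab h hk (m := m) (by simpa using ⟨hm.1, hm2⟩) ?_)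
    simpa using H.prim i hc
  have e : i % k = 0 % k := by rw [Nat.mod_eq_zero_of_dvd hi, Nat.zero_mod]
  have h0 : Arc n θ k P 0 (x - m) (y - m) :=
    ⟨(h.px.phase e).cg (cg_sub_int _ _), h.lx.cg (cg_sub_int _ _),
      (h.py.phase e).cg (cg_sub_int _ _), h.ly.cg (cg_sub_int _ _), by linarith [h.lt],
      by linarith [h.lt1]⟩
  refine ⟨x - m, y - m, h0.px, h0.lx, h0.py, h0.ly, by linarith [hm.1], by linarith, ?_, ?_⟩
  · intro c pc lc hc
    exact no rfl ⟨0, x - m, c, ⟨h0.px, h0.lx, pc, lc, hc.1, by linarith [hc.2, h.lt1]⟩,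
      by linarith [hc.2]⟩
  · intro l hl0 hl m' hm'
    refine no (d := y - m - (x - m)) (by ring) (inside hUL H hP pa la pb lb hab h0 hl hm' ?_)
    obtain ⟨j, hj, hne⟩ := H.prim l fun hd => absurd (Nat.le_of_dvd hl0 hd) (not_le.mpr hl)
    exact ⟨j, hj, by rw [zero_add]; exact hne.symm⟩

end KN
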