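import Pool.Agent.Lib.KN55.Kit3

/-! The shortest arc between the orbit of the fixed angle and the orbit of `θ`. -/

set_option autoImplicit false

open Filter Topology Set Metric Complex Bornology MeasureTheory N62a1eb23
open scoped Real ENNReal

namespace KN

open Pool.Agent.Lib.MP_c35c17_an

namespace XSA2

variable {n k T : ℕ} {θ φ x y : ℝ} {i : ℕ}

/-- arcs between the two points of index `i` -/
def Arc (n : ℕ) (θ φ : ℝ) (i : ℕ) (x y : ℝ) : Prop := x < y ∧ y < x + 1 ∧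
  ((Cg x ((n : ℝ) ^ i * φ) ∧ Cg y ((n : ℝ) ^ i * θ)) ∨
    (Cg x ((n : ℝ) ^ i * θ) ∧ Cg y ((n : ℝ) ^ i * φ)))

theorem cg_sub {a b : ℝ} (h : Cg x a) (h' : Cg y b) : Cg (y - x) (b - a) := by
  obtain ⟨m, rfl⟩ := h
  obtain ⟨m', rfl⟩ := h'
  exact ⟨m' - m, by push_cast; ring⟩

theorem fin_len : {d : ℝ | ∃ i < k, ∃ x y, Arc n θ φ i x y ∧ d = y - x}.Finite := by
  have key : ∀ {x y a b : ℝ}, x < y → y < x + 1 → Cg x a → Cg y b → Int.fract (b - a) = y - x :=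
    fun h1 h2 h3 h4 => by
      obtain ⟨m, hm⟩ := (cg_sub h3 h4).symm
      exact Int.fract_eq_iff.mpr ⟨by linarith, by linarith, m, by linarith⟩
  refine (((finite_Iio k).image fun i => Int.fract ((n : ℝ) ^ i * θ - (n : ℝ) ^ i * φ)).union
    ((finite_Iio k).image fun i => Int.fract ((n : ℝ) ^ i * φ - (n : ℝ) ^ i * θ))).subset ?_
  rintro _ ⟨i, hi, x, y, ⟨h1, h2, h3 | h3⟩, rfl⟩
  · exact Or.inl ⟨i, hi, key h1 h2 h3.1 h3.2⟩
  · exact Or.inr ⟨i, hi, key h1 h2 h3.1 h3.2⟩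

theorem la (hp : Per n θ k 0 φ) (h : Cg x ((n : ℝ) ^ i * φ)) (j : ℕ) :
    lts n θ x j = vv n θ k (i + j) := by
  simpa using (hp.pow i).cg h j

theorem lb (H : Hyp n θ k T) (hi : i ≤ k) (h : Cg x ((n : ℝ) ^ i * θ)) {j : ℕ} (hj : j < k) :
    lts n θ x j = vv n θ k (i + j) := by
  have := H.two
  rw [h.lts_nu, H.per _ (by omega)]

theorem vv_ne (H : Hyp n θ k T) {j : ℕ} (hi : i < k) (hj : j < k) (hij : i ≠ j) :
    ∃ e < k, vv n θ k (i + e) ≠ vv n θ k (j + e) := by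
  wlog h : i < j generalizing i j
  · obtain ⟨e, he, h1⟩ := this hj hi hij.symm (by omega)
    exact ⟨e, he, h1.symm⟩
  by_contra h0
  have h1 : ∀ e < k, vv n θ k (i + e) = vv n θ k (j + e) := fun e he =>
    not_not.mp fun h2 => h0 ⟨e, he, h2⟩
  have h2 : k ∣ j - i := H.vv_eq fun e _ => by
    have h3 := h1 ((e + k - i) % k) (Nat.mod_lt _ H.pos)
    rw [add_comm i, add_comm j, vv_mod, vv_mod, show e + k - i + i = e + k by omega,
      show e + k - i + j = j - i + e + k by omega, vv_add, vv_add] at h3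
    exact h3.symm
  have := Nat.eq_zero_of_dvd_of_lt h2 (by omega)
  omega

theorem ab_ne (H : Hyp n θ k T) (hp : Per n θ k 0 φ) (hl : Lat n k φ) (hi : i ≤ k) :
    ¬ Cg ((n : ℝ) ^ i * φ) ((n : ℝ) ^ i * θ) := fun h => by
  have h1 := h.mul_pow n (k - i)
  rw [← mul_assoc, ← mul_assoc, ← pow_add, Nat.sub_add_cancel hi] at h1
  exact H.per_ne hp (Or.inr ⟨dvd_rfl, H.kT.le⟩) ((lat_iff.mp hl).symm.trans h1)

/-- pull-back of an arc without points of the partition -/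
theorem pull (H : Hyp n θ k T) (hp : Per n θ k 0 φ) (hi : i < k) (h : Arc n θ φ (i + 1) x y)
    (h' : ∀ m : ℤ, θ + m ∉ Ioc x y) : ∃ x' y', Arc n θ φ i x' y' ∧ y' - x' < y - x := by
  have hn := H.hn
  obtain ⟨h1, h2, h3⟩ := h
  have key : ∀ {z w : ℝ}, Cg z ((n : ℝ) ^ (i + 1) * w) → lts n θ ((n : ℝ) ^ i * w) 0 =
      vv n θ k (i + 0) → Cg (gh n θ (vv n θ k i) z) ((n : ℝ) ^ i * w) := fun {z w} a b => by
    obtain ⟨m, rfl⟩ := a
    rw [lts_zero, add_zero] at b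
    rw [gh_add_int hn, pow_succ', mul_assoc, ← b]
    exact (cg_add_int _ m).trans (gh_back hn _)
  have ea := la (i := i) hp (Cg.refl _) 0
  have eb := lb H hi.le (Cg.refl _) H.pos
  have h4 := gh_affine (a := vv n θ k i) hn h1.le h'
  have h5 : (y - x) / n < y - x := div_lt_self (by linarith) (by linarith [ntwo hn])
  have h6 : 0 < (y - x) / n := div_pos (by linarith) (npos hn)
  refine ⟨gh n θ (vv n θ k i) x, gh n θ (vv n θ k i) y, ⟨by linarith, by linarith, ?_⟩, by linarith⟩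
  exact h3.imp (fun a => ⟨key a.1 ea, key a.2 eb⟩) fun a => ⟨key a.1 eb, key a.2 ea⟩

/-- an arc that contains a point of the orbit of `θ` contains a shorter arc -/
theorem inside (hUL : St_UL) (H : Hyp n θ k T) (hp : Per n θ k 0 φ) (hl : Lat n k φ) (hi : i < k)
    (h : Arc n θ φ i x y) {j : ℕ} (hj : j < k) (hij : i ≠ j) {z : ℝ} (hz : z ∈ Ioo x y)
    (hc : Cg z ((n : ℝ) ^ j * θ)) : ∃ x' y', Arc n θ φ j x' y' ∧ y' - x' < y - x := by
  obtain ⟨h1, h2, h3⟩ := h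
  have e1 : ∀ e < k, lts n θ x e = vv n θ k (i + e) := fun e he =>
    h3.elim (fun a => la hp a.1 e) fun a => lb H hi.le a.1 he
  have e2 : ∀ e < k, lts n θ y e = vv n θ k (i + e) := fun e he =>
    h3.elim (fun a => lb H hi.le a.2 he) fun a => la hp a.2 e
  obtain ⟨e, he, h4⟩ := vv_ne H hi hj hij
  obtain ⟨m, hm⟩ := hUL n θ k x z y ((n : ℝ) ^ j * φ) H.hn
    (fun e he => (e1 e he).trans (e2 e he).symm)
    (fun e he => (lb H hj.le hc he).trans (la hp (Cg.refl _) e).symm)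
    ⟨e, he, by rwa [e1 e he, lb H hj.le hc he]⟩ hz.1 hz.2 h2
  have h5 := cg_add_int ((n : ℝ) ^ j * φ) m
  rcases lt_trichotomy z ((n : ℝ) ^ j * φ + m) with h6 | h6 | h6
  · exact ⟨z, _, ⟨h6, by linarith [hz.1, hm.2], Or.inr ⟨hc, h5⟩⟩, by linarith [hz.1, hm.2]⟩
  · exact absurd (h5.symm.trans (h6 ▸ hc)) (ab_ne H hp hl hj.le)
  · exact ⟨_, z, ⟨h6, by linarith [hz.2, hm.1], Or.inl ⟨h5, hc⟩⟩, by linarith [hz.2, hm.1]⟩

end XSA2

open XSA2 in
theorem st_SA2 (hUL : St_UL) : St_SA2 := by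
  intro n θ k T φ x sh τ i0 h l hl
  have H := h.hyp
  have hp := h.pre.per
  have hla := h.pre.lat
  have hk := H.pos
  have hb := h.big
  have hθ : θ ∈ Ioo φ (φ + 1) := h.pre.x0 ▸ h.pre.mem 0 (Nat.zero_le _)
  have c0 : ∀ z : ℝ, Cg z ((n : ℝ) ^ 0 * z) := fun z => by simpa using Cg.refl z
  have a0 : Arc n θ φ 0 φ θ := ⟨hθ.1, hθ.2, Or.inl ⟨c0 φ, c0 θ⟩⟩
  obtain ⟨_, ⟨i, hi, a, b, ha, rfl⟩, hm⟩ := exists_min_image _ id
    (fin_len (n := n) (k := k) (θ := θ) (φ := φ)) ⟨_, 0, hk, φ, θ, a0, rfl⟩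
  have mn : ∀ j < k, ∀ d, d ≤ b - a → ¬ ∃ x' y', Arc n θ φ j x' y' ∧ y' - x' < d :=
    fun j hj d hd ⟨x', y', h1, h2⟩ => (hm _ ⟨j, hj, x', y', h1, rfl⟩).not_gt (h2.trans_le hd)
  have len : ∀ {u w : ℝ}, u < w → w < u + 1 → Cg a u → Cg b w → b - a = w - u :=
    fun h1 h2 h3 h4 => (cg_sub h3 h4).eq_of_mem (a := 0)
      ⟨by linarith [ha.1], by linarith [ha.2.1]⟩ ⟨by linarith, by linarith⟩
  rcases i with _ | i
  · rcases ha.2.2 with h1 | h1
    · by_contra h2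
      have h3 : 0 ≠ l := fun e => h2 (by rw [← e, h.τ0])
      exact mn l hl _ (len hθ.1 hθ.2 (h1.1.trans (c0 φ).symm) (h1.2.trans (c0 θ).symm)).ge
        (inside hUL H hp hla hk a0 hl h3 ⟨(h.τm l hl).1.1, not_le.mp h2⟩ (h.τm l hl).2)
    · obtain ⟨k, rfl⟩ := Nat.exists_eq_succ_of_ne_zero hk.ne'
      have h2 := h.pre.mem 1 (by omega)
      have h3 := h.pre.cg 1 (by omega)
      have h4 : θ < x 1 := h.pre.x0 ▸ h.inc 0 (by omega)
      rw [one_mul] at h3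
      have h5 := len (u := θ) (w := φ + 1) hθ.2 (by linarith [hθ.1]) (h1.1.trans (c0 θ).symm)
        ((h1.2.trans (c0 φ).symm).trans (cg_add_one φ).symm)
      refine (mn k (by omega) _ (by linarith) (pull H hp (by omega) (x := x 1) (y := φ + 1)
        ⟨h2.2, by linarith [h2.1], Or.inr ⟨h3, (cg_add_one φ).trans (lat_iff.mp hla).symm⟩⟩
        fun m hm => ?_)).elim
      have h6 : (0 : ℝ) < m := by linarith [hm.1]
      have h7 : (m : ℝ) < 1 := by linarith [hm.2, hθ.1]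
      have h8 : 0 < m := by exact_mod_cast h6
      have h9 : m < 1 := by exact_mod_cast h7
      omega
  · exfalso
    by_cases h1 : ∃ m : ℤ, θ + m ∈ Ioc a b
    · obtain ⟨m, h1, h2⟩ := h1
      have h3 : θ + m ≠ b := fun e => ha.2.2.elim
        (fun c => H.opn' (Nat.succ_pos i) (by have := H.kT; omega)
          (c.2.symm.trans (e ▸ cg_add_int θ m)))
        fun c => H.per_ne' (hp.pow (i + 1)) (c.2.symm.trans (e ▸ cg_add_int θ m))
      exact mn 0 hk _ le_rfl (inside hUL H hp hla hi ha hk (by omega) ⟨h1, lt_of_le_of_ne h2 h3⟩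
        ((cg_add_int θ m).trans (c0 θ)))
    · exact mn i (by omega) _ le_rfl (pull H hp (by omega) ha fun m hm => h1 ⟨m, hm⟩)

end KN
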