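import Pool.Agent.Lib.KN55.Kit3

/-! Row SHORT: ray segments of bounded potential ratio near the Julia set are short. -/

set_option autoImplicit false

open Filter Topology Set Metric Complex Bornology MeasureTheory N62a1eb23
open scoped Real ENNReal

namespace KN

open Pool.Agent.Lib.MP_c35c17_an

namespace XSHORT

variable {n : ℕ} {c : ℂ} {Φ : ℂ → ℂ}

theorem small (hn : 2 ≤ n) (h : L.Cj n c Φ) {ε : ℝ} (hε : 0 < ε) :
    ∃ ρ : ℝ, 1 < ρ ∧ volume (Φ '' {w | 1 < ‖w‖ ∧ ‖w‖ < ρ}) ≤ ENNReal.ofReal ε := by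
  obtain ⟨C, hC⟩ := Q.conj_bound hn h.diff h.conj
  let A : ℕ → Set ℂ := fun j => Φ '' {w | 1 < ‖w‖ ∧ ‖w‖ < 1 + 1 / ((j : ℝ) + 1)}
  have ho : ∀ j, IsOpen (A j) := fun j =>
    Q.isOpen_image_of_injOn (isOpen_lt continuous_const continuous_norm) h.diff h.inj _
      (fun w hw => hw.1) ((isOpen_lt continuous_const continuous_norm).inter
        (isOpen_lt continuous_norm continuous_const))
  have ha : Antitone A := fun i j hij => image_mono fun w hw => ⟨hw.1, hw.2.trans_le (by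
    have : (i : ℝ) ≤ j := by exact_mod_cast hij
    gcongr)⟩
  have hf : volume (A 0) ≠ ∞ := by
    refine ((measure_mono ?_).trans_lt (measure_closedBall_lt_top (x := (0 : ℂ)) (r := C))).ne
    rintro _ ⟨w, hw, rfl⟩
    have := hw.2
    exact mem_closedBall_zero_iff.2 (hC w hw.1 (by norm_num at this; linarith))
  have he : ⋂ j, A j = ∅ := by
    refine eq_empty_of_forall_notMem fun y hy => ?_
    obtain ⟨w, hw, rfl⟩ := mem_iInter.1 hy 0
    obtain ⟨j, hj⟩ := exists_nat_one_div_lt (sub_pos.2 hw.1)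
    obtain ⟨w', hw', e⟩ := mem_iInter.1 hy j
    have := hw'.2
    rw [h.inj hw'.1 hw.1 e] at this
    linarith
  have ht := tendsto_measure_iInter_atTop (μ := volume)
    (fun j => (ho j).measurableSet.nullMeasurableSet) ha ⟨0, hf⟩
  rw [he, measure_empty] at ht
  obtain ⟨j, hj⟩ := (ht.eventually (Iic_mem_nhds (ENNReal.ofReal_pos.2 hε))).exists
  exact ⟨1 + 1 / ((j : ℝ) + 1), lt_add_of_pos_right _ (by positivity), hj⟩

theorem der (h : L.Cj n c Φ) {e ρ : ℝ} (he : 0 < e) (hρ : 1 < ρ)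
    (hv : volume (Φ '' {w | 1 < ‖w‖ ∧ ‖w‖ < ρ}) ≤ ENNReal.ofReal ((e / 2) ^ 2)) {ζ : ℂ}
    (h0 : 0 < ζ.re) (h1 : ζ.re ≤ 1) (h2 : ζ.re ≤ Real.log ρ / (4 * π)) :
    ζ.re * ‖deriv (Bc Φ) ζ‖ ≤ e := by
  have hb : ∀ z ∈ ball ζ (ζ.re / 2), |z.re - ζ.re| < ζ.re / 2 ∧ |z.im - ζ.im| < ζ.re / 2 :=
    fun z hz => by
      rw [mem_ball, dist_eq_norm] at hz
      exact ⟨(abs_re_le_norm (z - ζ)).trans_lt hz, (abs_im_le_norm (z - ζ)).trans_lt hz⟩
  have hp : ball ζ (ζ.re / 2) ⊆ {z : ℂ | 0 < z.re} := fun z hz => by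
    have := abs_lt.1 (hb z hz).1
    change 0 < z.re
    linarith
  have ho : IsOpen {z : ℂ | 0 < z.re} := isOpen_lt continuous_const continuous_re
  have hd := Bc_diff h
  have h3 := mean_sq (h := deriv (Bc Φ)) (w := ζ) (half_pos h0) ((hd.deriv ho).mono hp)
  have h4 := Q.lintegral_image_holo' (f := Bc Φ) (f' := deriv (Bc Φ))
    (measurableSet_ball (x := ζ) (ε := ζ.re / 2))
    (fun z hz => (hd.differentiableAt (ho.mem_nhds (hp hz))).hasDerivAt)
    (Bc_injOn (α := ζ.im - 1 / 2) h fun z hz => by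
      have := abs_lt.1 (hb z hz).2
      exact ⟨hp hz, by linarith, by linarith⟩) fun _ => 1
  simp only [mul_one, lintegral_const, Measure.restrict_apply_univ, one_mul] at h4
  have h5 : Bc Φ '' ball ζ (ζ.re / 2) ⊆ Φ '' {w | 1 < ‖w‖ ∧ ‖w‖ < ρ} := by
    rintro _ ⟨z, hz, rfl⟩
    refine ⟨_, ⟨chart_gt (hp hz), ?_⟩, rfl⟩
    have := abs_lt.1 (hb z hz).1
    rw [le_div_iff₀ (by positivity)] at h2
    rw [norm_chart, ← Real.lt_log_iff_exp_lt (by linarith)]
    nlinarith [Real.pi_pos]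
  rw [← h4] at h3
  have h6 := (ENNReal.ofReal_le_ofReal_iff (by positivity)).1 (h3.trans ((measure_mono h5).trans hv))
  refine abs_le_of_sq_le_sq' ?_ he.le |>.2
  nlinarith [Real.pi_gt_three, sq_nonneg (ζ.re * ‖deriv (Bc Φ) ζ‖)]

end XSHORT

theorem st_SHORT {n : ℕ} (hn : 2 ≤ n) : St_SHORT n := by
  intro c Φ h K δ hδ
  have hK : 0 < |K| + 1 := by positivity
  have he : 0 < δ / (|K| + 1) := by positivity
  obtain ⟨ρ, hρ, hv⟩ := XSHORT.small hn h (ε := (δ / (|K| + 1) / 2) ^ 2) (by positivity)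
  have hl := Real.log_pos hρ
  set τ := min 1 (Real.log ρ / (4 * π)) with hτ
  have hτ0 : 0 < τ := lt_min one_pos (by positivity)
  refine ⟨τ / (|K| + 1), by positivity, fun t s x ht h1 h2 h3 => ?_⟩
  have h4 : s ≤ (|K| + 1) * t := by nlinarith [le_abs_self K]
  rw [lt_div_iff₀' hK] at h1
  have ho : IsOpen {z : ℂ | 0 < z.re} := isOpen_lt continuous_const continuous_re
  have h5 := Convex.norm_image_sub_le_of_norm_deriv_le (f := Bc Φ) (C := δ / (|K| + 1) / t)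
    (s := {z : ℂ | t ≤ z.re} ∩ {z : ℂ | z.re ≤ τ}) (x := ⟨t, x⟩) (y := ⟨s, x⟩)
    (fun z hz => (Bc_diff h).differentiableAt (ho.mem_nhds (ht.trans_le hz.1)))
    (fun z hz => by
      have h6 := XSHORT.der h he hρ hv (ht.trans_le hz.1) (hz.2.trans (min_le_left _ _))
        (hz.2.trans (min_le_right _ _))
      rw [le_div_iff₀' ht]
      exact (mul_le_mul_of_nonneg_right hz.1 (norm_nonneg _)).trans h6)
    ((convex_halfSpace_re_ge t).inter (convex_halfSpace_re_le τ))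
    ⟨le_refl t, show t ≤ τ by linarith⟩ ⟨h2, show s ≤ τ by linarith⟩
  refine h5.trans ?_
  rw [show (⟨s, x⟩ : ℂ) - ⟨t, x⟩ = ((s - t : ℝ) : ℂ) from Complex.ext (by simp) (by simp),
    norm_real, Real.norm_of_nonneg (by linarith), div_div, div_mul_eq_mul_div,
    div_le_iff₀ (by positivity)]
  nlinarith

end KN
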