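import Pool.Agent.Lib.KN55.Kit3

/-! The slits at different times are disjoint. -/

set_option autoImplicit false

open Filter Topology Set Metric Complex Bornology MeasureTheory N62a1eb23
open scoped Real ENNReal

namespace KN

open Pool.Agent.Lib.MP_c35c17_an

namespace XSLIT

variable {n : ℕ} {c : ℂ}

theorem orbit_c (hn : 2 ≤ n) (l : ℕ) : (F n c)^[l] c = (F n c)^[l + 1] 0 := by
  rw [Function.iterate_succ_apply]
  simp [F, show n ≠ 0 by omega]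

theorem loc (hn : 2 ≤ n) (hi : Function.Injective fun j => (F n c)^[j] 0) (l : ℕ) {δ : ℝ}
    (hδ : 0 < δ) : ∀ᶠ ρ in 𝓝[>] (0 : ℝ), InjOn (F n c)^[l] (ball c ρ) ∧
      ∀ z ∈ ball c ρ, dist ((F n c)^[l] z) ((F n c)^[l] c) < δ := by
  have h1 : deriv (F n c)^[l] c ≠ 0 := by
    rw [(hasDerivAt_iter n c l c).deriv, dF]
    refine Finset.prod_ne_zero_iff.mpr fun j _ => mul_ne_zero (by exact_mod_cast (by omega : n ≠ 0))
      (pow_ne_zero _ fun h => ?_)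
    rw [orbit_c hn] at h
    exact absurd (hi (a₁ := j + 1) (a₂ := 0) h) (by omega)
  have h2 := ((differentiable_iter n c l).analyticAt c).hasStrictDerivAt.eventually_left_inverse h1
  have h3 := Metric.tendsto_nhds.mp ((differentiable_iter n c l).continuous.tendsto c) δ hδ
  obtain ⟨ρ, h4, h5⟩ := Metric.eventually_nhds_iff_ball.mp (h2.and h3)
  refine eventually_of_mem (Ioo_mem_nhdsGT h4) fun r hr => ⟨fun z hz z' hz' e => ?_, fun z hz =>
    (h5 z (ball_subset_ball hr.2.le hz)).2⟩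
  rw [← (h5 z (ball_subset_ball hr.2.le hz)).1, e, (h5 z' (ball_subset_ball hr.2.le hz')).1]

theorem sep (hn : 2 ≤ n) (hi : Function.Injective fun j => (F n c)^[j] 0) (N : ℕ) :
    ∃ δ > 0, ∀ l ≤ N, ∀ l' ≤ N, l ≠ l' → 4 * δ < dist ((F n c)^[l] c) ((F n c)^[l'] c) := by
  have h : ∀ᶠ δ in 𝓝 (0 : ℝ), ∀ l ∈ Iic N, ∀ l' ∈ Iic N, l ≠ l' →
      4 * δ < dist ((F n c)^[l] c) ((F n c)^[l'] c) := by
    refine (eventually_all_finite (finite_Iic N)).mpr fun l _ =>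
      (eventually_all_finite (finite_Iic N)).mpr fun l' _ => ?_
    by_cases e : l = l'
    · exact Eventually.of_forall fun _ h => absurd e h
    · have h1 : 0 < dist ((F n c)^[l] c) ((F n c)^[l'] c) := by
        rw [dist_pos, orbit_c hn, orbit_c hn]
        exact fun h => e (by simpa using hi h)
      exact (eventually_lt_nhds (show 0 < dist ((F n c)^[l] c) ((F n c)^[l'] c) / 4 by
        positivity)).mono fun δ h _ => by linarith
  obtain ⟨δ, h1, h2⟩ := ((h.filter_mono nhdsWithin_le_nhds).and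
    (self_mem_nhdsWithin (s := Ioi (0 : ℝ)))).exists
  exact ⟨δ, h2, h1⟩

end XSLIT

theorem st_SLIT {n : ℕ} (hn : 2 ≤ n) (hSHORT : St_SHORT n) : St_SLIT n := by
  intro c hc Φ hB hi θ hP N e he
  have hcj := cj_of_bot hn hc hB
  obtain ⟨δ, hδ, hsep⟩ := XSLIT.sep hn hi N
  obtain ⟨t₀, ht₀, hsh⟩ := hSHORT c Φ hcj ((n : ℝ) ^ N) δ hδ
  obtain ⟨ρ, hρ, hρ0⟩ := (((eventually_all_finite (finite_Iic N)).mpr
    fun l _ => XSLIT.loc hn hi l hδ).and (self_mem_nhdsWithin (s := Ioi (0 : ℝ)))).exists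
  have hN := npow_pos hn N
  obtain ⟨ε, g, ϑ, h1, h2, h3, h4, h5, h6, h7⟩ := hP (min (min e ρ) (t₀ / (n : ℝ) ^ N))
    (lt_min (lt_min he hρ0) (by positivity))
  simp only [lt_min_iff] at h2 h4 h5
  have hsub : closedBall c ε ⊆ ball c ρ := closedBall_subset_ball h2.1.2
  have hmem : Bc Φ ⟨g, ϑ⟩ ∈ closedBall c ε := mem_closedBall_iff_norm.mpr h6
  have hpot : ∀ (l : ℕ) (ζ : ℂ), 0 < ζ.re → Bc Φ ζ ∈ (F n c)^[l] '' closedBall c ε →
      ζ.re ≤ (n : ℝ) ^ l * g := by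
    rintro l ζ hζ ⟨y, hy, hy'⟩
    obtain ⟨ζ', e1, e2⟩ := pre_range hn hc hB l hζ hy'
    have hl := npow_pos hn l
    rw [e1] at hζ ⊢
    exact mul_le_mul_of_nonneg_left (h7 ζ' ((mul_pos_iff_of_pos_left hl).mp hζ)
      (e2 ▸ mem_closedBall_iff_norm.mp hy)) hl.le
  have hle : ∀ l ≤ N, (n : ℝ) ^ l * g ≤ (n : ℝ) ^ N * g := fun l hl =>
    mul_le_mul_of_nonneg_right (npow_mono hn hl) h3.le
  have hD : ∀ l ≤ N, ∀ y ∈ (F n c)^[l] '' closedBall c ε, dist y ((F n c)^[l] c) < δ := by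
    rintro l hl _ ⟨z, hz, rfl⟩
    exact (hρ l hl).2 z (hsub hz)
  have hR : ∀ l ≤ N, ∀ t : ℝ, (n : ℝ) ^ l * g ≤ t → t ≤ (n : ℝ) ^ N * g →
      dist (Bc Φ ⟨t, (n : ℝ) ^ l * ϑ⟩) ((F n c)^[l] c) < 2 * δ := fun l hl t a1 a2 => by
    have b1 := hD l hl _ ⟨_, hmem, Bc_iter' hn hcj h3 l⟩
    have hl0 := npow_pos hn l
    have b2 := hsh ((n : ℝ) ^ l * g) t ((n : ℝ) ^ l * ϑ) (by positivity)
      ((hle l hl).trans_lt ((lt_div_iff₀' hN).mp h4.2)) a1
      (a2.trans (mul_le_mul_of_nonneg_left (le_mul_of_one_le_left h3.le (one_le_npow hn l)) hN.le))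
    rw [← dist_eq_norm] at b2
    linarith [dist_triangle (Bc Φ ⟨t, (n : ℝ) ^ l * ϑ⟩)
      (Bc Φ ⟨(n : ℝ) ^ l * g, (n : ℝ) ^ l * ϑ⟩) ((F n c)^[l] c)]
  have hpos : ∀ (l : ℕ) (t : ℝ), (n : ℝ) ^ l * g ≤ t → 0 < t := fun l t h =>
    (mul_pos (npow_pos hn l) h3).trans_le h
  refine ⟨ε, g, ϑ, h1, h3, h4.1.1, h5.1.1, hmem, fun l hl => (hρ l hl).1.mono hsub, hpot,
    fun l hl l' hl' hne => disjoint_left.mpr fun y hy hy' => ?_⟩
  have key : ∀ z, dist z ((F n c)^[l] c) < 2 * δ → dist z ((F n c)^[l'] c) < 2 * δ → False :=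
    fun z a1 a2 => by
      linarith [hsep l hl l' hl' hne, dist_triangle_left ((F n c)^[l] c) ((F n c)^[l'] c) z]
  rcases hy with hy | ⟨t, ht, rfl⟩
  · rcases hy' with hy' | ⟨t', ht', rfl⟩
    · exact key y (by linarith [hD l hl y hy]) (by linarith [hD l' hl' y hy'])
    · exact key _ (by linarith [hD l hl _ hy])
        (hR l' hl' t' ht' ((hpot l _ (hpos l' t' ht') hy).trans (hle l hl)))
  · rcases hy' with hy' | ⟨t', ht', e'⟩
    · exact key _ (hR l hl t ht ((hpot l' _ (hpos l t ht) hy').trans (hle l' hl')))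
        (by linarith [hD l' hl' _ hy'])
    · have h8 := (Bc_inj hcj (ζ := ⟨t', _⟩) (ζ' := ⟨t, _⟩) (hpos l' t' ht') (hpos l t ht) e').2
      exact key _ (hR l hl _ (hle l hl) le_rfl) (h8.Bc ▸ hR l' hl' _ (hle l' hl') le_rfl)

end KN
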