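import Pool.Agent.Lib.KN55.Kit3

/-! Dirichlet distance from a point of a tent to its apex. -/

set_option autoImplicit false

open Filter Topology Set Metric Complex Bornology MeasureTheory N62a1eb23
open scoped Real ENNReal

namespace KN

namespace XTENT

theorem ball_sub {α β r t x : ℝ} (hβ : β ≤ α + 1) (h1 : r ≤ t) (h2 : t ≤ x - α) (h3 : t ≤ β - x) :
    ball (⟨t, x⟩ : ℂ) (t / 2) ⊆ Ioo (r / 2) 1 ×ℂ Ioo (α + r / 2) (β - r / 2) := by
  intro z hz
  rw [mem_ball, dist_eq_norm] at hz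
  have a := abs_lt.1 ((abs_re_le_norm _).trans_lt hz)
  have b := abs_lt.1 ((abs_im_le_norm _).trans_lt hz)
  simp only [sub_re, sub_im] at a b
  exact ⟨⟨by linarith [a.1], by linarith [a.2]⟩, by linarith [b.1], by linarith [b.2]⟩

theorem norm_step {t x t' x' : ℝ} (ht : 0 < t) (h1 : |t' - t| ≤ t / 6) (h2 : |x' - x| ≤ t / 6) :
    ‖(⟨t', x'⟩ : ℂ) - ⟨t, x⟩‖ ≤ t / 2 / 2 := by
  refine abs_le_of_sq_le_sq' ?_ (by positivity) |>.2
  rw [Complex.sq_norm, normSq_apply]
  simp only [sub_re, sub_im]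
  have a := abs_le.1 h1
  have b := abs_le.1 h2
  nlinarith [a.1, a.2, b.1, b.2]

theorem aux (hSTEP : St_STEP) {α β r : ℝ} (hβ : β ≤ α + 1) (hr : 0 < r) : ∀ (N : ℕ) (t x : ℝ),
    r ≤ t → t ≤ x - α → t ≤ β - x → (β - α) / 2 ≤ (7 / 6) ^ N * t →
    Dst (Ioo (r / 2) 1 ×ℂ Ioo (α + r / 2) (β - r / 2)) ⟨t, x⟩ ⟨(β - α) / 2, (α + β) / 2⟩ N
  | 0, t, x, _, h2, h3, h4 => by
    rw [pow_zero, one_mul] at h4
    have e1 : t = (β - α) / 2 := by linarith
    have e2 : x = (α + β) / 2 := by linarith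
    rw [e1, e2, Nat.cast_zero]
    exact Dst.refl _ _
  | N + 1, t, x, h1, h2, h3, h4 => by
    have ht : 0 < t := hr.trans_le h1
    set t' := min (7 / 6 * t) ((β - α) / 2) with ht'
    have a1 : t ≤ t' := le_min (by linarith) (by linarith)
    have a2 : t' ≤ 7 / 6 * t := min_le_left _ _
    have a3 : t' ≤ (β - α) / 2 := min_le_right _ _
    set x' := max (α + t') (min x (β - t')) with hx'
    have b1 : α + t' ≤ x' := le_max_left _ _
    have b2 : x' ≤ β - t' := max_le (by linarith) (min_le_right _ _)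
    have b3 : x' ≤ x + t / 6 := max_le (by linarith) ((min_le_left _ _).trans (by linarith))
    have b4 : x - t / 6 ≤ x' := le_max_of_le_right (le_min (by linarith) (by linarith))
    have c1 : (β - α) / 2 ≤ (7 / 6) ^ N * t' := by
      rcases min_choice (7 / 6 * t) ((β - α) / 2) with e | e
      · rw [ht', e, ← mul_assoc, ← pow_succ]; exact h4
      · rw [ht', e]
        exact le_mul_of_one_le_left (by linarith) (one_le_pow₀ (by norm_num))
    have d1 := (hSTEP ⟨t, x⟩ ⟨t', x'⟩ (t / 2) (by positivity) (norm_step ht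
      (abs_le.2 ⟨by linarith, by linarith⟩) (abs_le.2 ⟨by linarith, by linarith⟩))).mono
        (ball_sub hβ h1 h2 h3)
    refine (d1.trans (aux hSTEP hβ hr N t' x' (h1.trans a1) (by linarith) (by linarith) c1)).weaken ?_
    push_cast
    linarith

end XTENT

theorem st_TENT (hSTEP : St_STEP) : St_TENT := by
  intro α β r t x N hβ hr h1 h2 h3 h4
  refine XTENT.aux hSTEP hβ hr N t x h1 h2 h3 ?_
  have := mul_le_mul_of_nonneg_left h1 (show (0 : ℝ) ≤ (7 / 6) ^ N by positivity)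
  linarith

end KN
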