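import Pool.Agent.Lib.KN55.Kit3

/-! Block TRI: many periodic angles, or a monotone backward orbit towards one fixed angle. -/

set_option autoImplicit false

open Filter Topology Set Metric Complex Bornology MeasureTheory N62a1eb23
open scoped Real ENNReal

namespace KN

open Pool.Agent.Lib.MP_c35c17_an

namespace XTRI

theorem chain {f : ℝ → ℝ} (hf : StrictMono f) {x : ℕ → ℝ} {J : ℕ}
    (h : ∀ j < J, f (x (j + 1)) = x j) (hne : ∀ j < J, x j ≠ x (j + 1)) :
    (∀ j < J, x j < x (j + 1)) ∨ ∀ j < J, x (j + 1) < x j := by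
  rcases le_total (x 0) (x 1) with h0 | h0
  · refine .inl fun j => ?_
    induction j with
    | zero => exact fun hj => lt_of_le_of_ne h0 (hne 0 hj)
    | succ j ih =>
      intro hj
      rw [← hf.lt_iff_lt, h j (by omega), h _ hj]
      exact ih (by omega)
  · refine .inr fun j => ?_
    induction j with
    | zero => exact fun hj => lt_of_le_of_ne h0 (hne 0 hj).symm
    | succ j ih =>
      intro hj
      rw [← hf.lt_iff_lt, h j (by omega), h _ hj]
      exact ih (by omega)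

end XTRI

theorem st_TRI (hPER : St_PER) (hWT : St_WT) (hNW : St_NW) : St_TRI := fun n θ k T h => by
  obtain ⟨P, p, φ0, hP, h0⟩ := hPER n θ k T h
  by_cases hw : Wt (Fm n θ k P p) θ
  · exact .inl (hWT n θ k T P p h hP hw)
  have hn := h.hn
  obtain ⟨y, hy, m, rfl⟩ := exists_lift' fun e =>
    h.per_ne' (per_of_fix hn h.pos hP h0).1 (Cg.symm e)
  obtain ⟨φ, hφ, hθ⟩ : ∃ φ, Fm n θ k P p φ = φ ∧ θ ∈ Ioo φ (φ + 1) :=
    ⟨φ0 + (-m : ℤ), by rw [Fm_add_int hn, h0], by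
      push_cast; exact ⟨by linarith [hy.1], by linarith [hy.2]⟩⟩
  have nw := hNW n θ k T P p φ h hP hφ hw
  obtain ⟨sh, hsh⟩ := nw _ ((Fm_comm hn 1 φ).trans (by rw [hφ]))
  have hG : Gm n θ k sh φ = φ := by rw [mul_one] at hsh; rw [Gm, hsh, add_sub_cancel_right]
  have fx : ∀ s, Gm n θ k sh s = s → Per n θ k 0 s ∧ Lat n k s := fun s hs => by
    simpa using per_of_fix (P := 1) (p := sh) hn h.pos one_pos (by rw [Fm_one]; exact hs)
  have uq : ∀ s, Per n θ k 0 s → Lat n k s → Cg s φ := fun s h1 h2 =>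
    nw s (fix_of_per hn hφ h1 (h2.mul P))
  have ex : ∀ j, ∃ y, j ≤ T / k → y ∈ Ioo φ (φ + 1) ∧ Cg y ((n : ℝ) ^ (j * k) * θ) := fun j => by
    by_cases hj : j ≤ T / k
    · obtain ⟨y, h1, h2⟩ := exists_lift' fun e => h.per_ne (fx φ hG).1 (l := j * k)
        (.inr ⟨dvd_mul_left _ _, (Nat.le_div_iff_mul_le h.pos).mp hj⟩) (Cg.symm e)
      exact ⟨y, fun _ => ⟨h1, h2⟩⟩
    · exact ⟨0, fun e => absurd e hj⟩
  choose x hx using ex
  have mono := Gm_strictMono (θ := θ) (k := k) (sh := sh) hn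
  have ch : ∀ j < T / k, Gm n θ k sh (x (j + 1)) = x j := fun j hj => by
    have h1 := (Nat.le_div_iff_mul_le h.pos).mp (Nat.succ_le_of_lt hj)
    rw [Nat.succ_mul] at h1
    obtain ⟨a1, a2⟩ := hx j hj.le
    obtain ⟨b1, b2⟩ := hx (j + 1) hj
    have h2 : Cg (x (j + 1)) ((n : ℝ) ^ k * x j) := b2.trans (by
      rw [Nat.succ_mul, add_comm, pow_add, mul_assoc]
      exact (a2.mul_pow n k).symm)
    refine Cg.eq_of_mem ((cg_sub_int _ sh).trans ((h2.bh hn).trans (bh_back hn fun i hi => ?_)))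
      ⟨hG ▸ mono b1.1, ?_⟩ a1
    · rw [a2.lts_nu, h.per _ (by omega), vv_dvd (dvd_mul_left _ _), zero_add]
    · have := mono b1.2
      rwa [Gm_add_one hn, hG] at this
  refine .inr ⟨φ, x, ⟨(fx φ hG).1, (fx φ hG).2, uq, ?_, fun j hj => (hx j hj).2,
    fun j hj => (hx j hj).1⟩, XTRI.chain mono ch fun j hj e => ?_⟩
  · obtain ⟨a1, a2⟩ := hx 0 (Nat.zero_le _)
    exact Cg.eq_of_mem (by simpa using a2) a1 hθ
  · obtain ⟨a1, a2⟩ := fx _ ((ch j hj).trans e)
    obtain ⟨b1, b2⟩ := (hx (j + 1) hj).1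
    exact b1.ne' ((uq _ a1 a2).eq_of_abs (abs_lt.mpr ⟨by linarith, by linarith⟩))

end KN
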