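import Pool.Agent.Lib.KN55.Kit3

/-! Unlinking of pairs of angles with common itineraries. -/

set_option autoImplicit false

open Filter Topology Set Metric Complex Bornology MeasureTheory N62a1eb23
open scoped Real ENNReal

namespace KN

open Pool.Agent.Lib.MP_c35c17_an

namespace XUL

/-- linked pairs with common itineraries up to time `r` have the same letters -/
def Core (n : ℕ) (θ : ℝ) (r : ℕ) : Prop := ∀ x x' y y' : ℝ,
  (∀ j < r, lts n θ x j = lts n θ y j) → (∀ j < r, lts n θ x' j = lts n θ y' j) →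
  x < x' → x' < y → y < y' → y' < x + 1 → ∀ j < r, lts n θ x j = lts n θ x' j

theorem step {n : ℕ} {θ : ℝ} {r : ℕ} (hn : 2 ≤ n) (ih : Core n θ r) {p q s t : ℝ}
    (h1 : ∀ j < r + 1, lts n θ p j = lts n θ s j) (h2 : ∀ j < r + 1, lts n θ q j = lts n θ t j)
    (a : p < q) (b : q < s) (c : s < t) (e : ⌊(n : ℝ) * t - θ⌋ = ⌊(n : ℝ) * p - θ⌋) :
    ∀ j < r, lts n θ p (j + 1) = lts n θ q (j + 1) := by
  have h0 := npos hn
  intro j hj
  rw [← lts_mul, ← lts_mul]
  refine ih (n * p) (n * q) (n * s) (n * t) (fun i hi => ?_) (fun i hi => ?_)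
    (mul_lt_mul_of_pos_left a h0) (mul_lt_mul_of_pos_left b h0) (mul_lt_mul_of_pos_left c h0) ?_ j hj
  · rw [lts_mul, lts_mul]; exact h1 _ (by omega)
  · rw [lts_mul, lts_mul]; exact h2 _ (by omega)
  · have u := Int.lt_floor_add_one ((n : ℝ) * t - θ)
    have v := Int.floor_le ((n : ℝ) * p - θ)
    rw [e] at u
    linarith

theorem fl_sub (n : ℕ) (θ z : ℝ) : ⌊(n : ℝ) * (z - 1) - θ⌋ = ⌊(n : ℝ) * z - θ⌋ - n := by
  rw [show (n : ℝ) * (z - 1) - θ = ((n : ℝ) * z - θ) - (n : ℕ) by ring, Int.floor_sub_natCast]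

theorem lts_sub (n : ℕ) (θ z : ℝ) (j : ℕ) : lts n θ (z - 1) j = lts n θ z j := by
  have := (cg_sub_int z 1).lts_eq n θ j
  simpa using this

theorem two_of_dvd {n : ℕ} {a b : ℤ} (h : ((a : ℤ) : ZMod n) = ((b : ℤ) : ZMod n)) (h1 : a ≤ b)
    (h2 : b ≤ a + n) : b = a ∨ b = a + n := by
  have d : (n : ℤ) ∣ b - a := (ZMod.intCast_eq_intCast_iff_dvd_sub a b n).1 h
  by_cases e : b = a
  · exact Or.inl e
  · have := Int.le_of_dvd (by omega) d
    omega

theorem core {n : ℕ} (θ : ℝ) (hn : 2 ≤ n) (r : ℕ) : Core n θ r := by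
  induction r with
  | zero => intro x x' y y' _ _ _ _ _ _ j hj; omega
  | succ r ih =>
    intro x x' y y' h1 h2 a b c d
    have h0 := npos hn
    have mono : ∀ u v : ℝ, u < v → ⌊(n : ℝ) * u - θ⌋ ≤ ⌊(n : ℝ) * v - θ⌋ := fun u v h =>
      Int.floor_le_floor (by have := mul_lt_mul_of_pos_left h h0; linarith)
    have m1 := mono _ _ a
    have m2 := mono _ _ b
    have m3 := mono _ _ c
    have m4 := mono (y' - 1) x (by linarith)
    have f1 := fl_sub n θ x'
    have f2 := fl_sub n θ y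
    have f3 := fl_sub n θ y'
    have e1 := h1 0 (by omega)
    have e2 := h2 0 (by omega)
    rw [lts_zero, lts_zero, lt, lt] at e1 e2
    have c1 := two_of_dvd e1 (by omega) (by omega)
    have c2 := two_of_dvd e2 (by omega) (by omega)
    have z : lts n θ x 0 = lts n θ x' 0 := by
      rw [lts_zero, lts_zero, lt, lt]
      have : ⌊(n : ℝ) * x' - θ⌋ = ⌊(n : ℝ) * x - θ⌋ ∨ ⌊(n : ℝ) * x' - θ⌋ = ⌊(n : ℝ) * x - θ⌋ + n := by
        omega
      rcases this with h | h <;> rw [h]
      push_cast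
      simp
    have s : ∀ j < r, lts n θ x (j + 1) = lts n θ x' (j + 1) := by
      intro j hj
      have k1 := h1 (j + 1) (by omega)
      have k2 := h2 (j + 1) (by omega)
      by_cases g1 : ⌊(n : ℝ) * y' - θ⌋ = ⌊(n : ℝ) * x - θ⌋
      · exact step hn ih h1 h2 a b c g1 j hj
      by_cases g2 : ⌊(n : ℝ) * y - θ⌋ = ⌊(n : ℝ) * x - θ⌋
      · have := step hn ih (p := y' - 1) (q := x) (s := x') (t := y)
          (fun i hi => by rw [lts_sub]; exact (h2 i hi).symm) h1 (by linarith) a b (by omega) j hj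
        rw [lts_sub] at this
        rw [k2, this]
      by_cases g3 : ⌊(n : ℝ) * x' - θ⌋ = ⌊(n : ℝ) * x - θ⌋
      · have := step hn ih (p := y - 1) (q := y' - 1) (s := x) (t := x')
          (fun i hi => by rw [lts_sub]; exact (h1 i hi).symm)
          (fun i hi => by rw [lts_sub]; exact (h2 i hi).symm) (by linarith) (by linarith) a
          (by omega) j hj
        rw [lts_sub, lts_sub] at this
        rw [k1, k2, this]
      · have := step hn ih (p := x' - 1) (q := y - 1) (s := y' - 1) (t := x)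
          (fun i hi => by rw [lts_sub, lts_sub]; exact h2 i hi)
          (fun i hi => by rw [lts_sub]; exact (h1 i hi).symm) (by linarith) (by linarith)
          (by linarith) (by omega) j hj
        rw [lts_sub, lts_sub] at this
        rw [k1, this]
    intro j hj
    cases j with
    | zero => exact z
    | succ j => exact s j (by omega)

end XUL

theorem st_UL : St_UL := by
  intro n θ r x x' y y' hn h1 h2 ⟨j, hj, hne⟩ a b c
  obtain ⟨m, hm1, hm2⟩ := exists_lift x y'
  have k : ∀ i, lts n θ (y' + m) i = lts n θ y' i := (cg_add_int y' m).lts_eq n θ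
  have n1 : y' + m ≠ x := fun h => hne (by rw [h2 j hj, ← k, h])
  have n2 : y' + m ≠ y := fun h => hne (by rw [h2 j hj, ← k, h, h1 j hj])
  refine ⟨m, lt_of_le_of_ne hm1 n1.symm, ?_⟩
  by_contra h
  have h' : y < y' + m := lt_of_le_of_ne (not_lt.1 h) n2.symm
  exact hne (XUL.core θ hn r x x' y (y' + m) h1 (fun i hi => by rw [k]; exact h2 i hi) a b h' hm2 j hj)

end KN
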