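import Pool.Agent.Lib.KN55.Kit3

/-! The virtual fixed angle. -/

set_option autoImplicit false

open Filter Topology Set

namespace KN

namespace XVF

theorem jump {n k : ℕ} {θ φ : ℝ} {sh : ℤ} (hn : 2 ≤ n) (hk : 0 < k) (h : φ < θ) :
    Gm n θ k sh φ + lam n k < Gm n θ k sh θ := by
  obtain ⟨r, rfl⟩ := Nat.exists_eq_succ_of_ne_zero hk.ne'
  have h0 := npos hn
  have h1 := gh_jump (θ := θ) (a := vv n θ (r + 1) (0 + r)) (x := φ) (y := θ) (m := 0) hn
    (by simpa using h)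
  have h2 : 0 < 1 / (n : ℝ) := by positivity
  have h3 := bh_sub_ge (k := r + 1) (p := 0) (r := r) (θ := θ) hn
    (show gh n θ (vv n θ (r + 1) (0 + r)) φ ≤ gh n θ (vv n θ (r + 1) (0 + r)) θ by linarith)
  have h4 : ∀ y, bh n θ (r + 1) 0 (r + 1) y =
      bh n θ (r + 1) 0 r (gh n θ (vv n θ (r + 1) (0 + r)) y) := fun y => br_succ'
  have h5 : lam n (r + 1) = 1 / n / (n : ℝ) ^ r := by
    rw [lam, pow_succ]
    field_simp
  have h6 : 1 / n / (n : ℝ) ^ r < (gh n θ (vv n θ (r + 1) (0 + r)) θ -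
      gh n θ (vv n θ (r + 1) (0 + r)) φ) / (n : ℝ) ^ r :=
    div_lt_div_of_pos_right (by linarith) (npow_pos hn r)
  simp only [Gm, Nat.succ_eq_add_one, h4]
  linarith

end XVF

theorem st_VF (hSA2 : St_SA2) (hRUN : St_RUN) : St_VF := by
  intro n θ k T φ x sh τ i0 h
  have hn := h.hyp.hn
  have hk := h.hyp.pos
  have low := hSA2 n θ k T φ x sh τ i0 h
  have run := hRUN n θ k T φ x sh τ i0 h low
  have l0 := lam_pos (k := k) hn
  have l1 := lam_le hn hk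
  have hθ : θ ∈ Ioo φ (φ + 1) := h.pre.x0 ▸ h.pre.mem 0 (Nat.zero_le _)
  have hx : ∀ j ≤ T / k, θ ≤ x j := fun j hj => h.pre.x0 ▸ h.mono (Nat.zero_le j) hj
  have hτ := (h.τm i0 h.i0k).1
  have hθ' : θ < τ i0 := (hx _ le_rfl).trans_lt h.xJ
  obtain ⟨ψ, hψ, e⟩ := exists_virtual (θ := θ) (sh := sh) hn hk θ
  have hl := h.left θ ⟨hθ.1, hθ'⟩
  have k0 : ∀ y, θ ≤ y → (∀ i, 0 < i → i < k → y < τ i) →
      Gm n θ k sh y = ψ + lam n k * (y - ψ) ∧ y - ψ < 2 := fun y h1 h2 => by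
    have h3 := h2 i0 h.i0p h.i0k
    have h4 : Free n θ θ y k := h.free hθ.1.le (h3.trans hτ.2).le fun i hi hm => by
      rcases Nat.eq_zero_or_pos i with rfl | h0
      · exact absurd (h.τ0 ▸ hm.1) (lt_irrefl _)
      · exact (h2 i h0 hi).not_ge hm.2
    have h5 : Gm n θ k sh y = ψ + lam n k * (y - ψ) := by
      rw [h4.Gm hn h1, e]
      ring
    refine ⟨h5, not_le.mp fun h6 => ?_⟩
    have h7 := (h.left y ⟨hθ.1.trans_le h1, h3⟩).1
    nlinarith [hτ.2]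
  have hJ : T / k - 5 * k + 5 * k = T / k := Nat.sub_add_cancel (by have := h.big; omega)
  have below : ∀ j ≤ T / k - 5 * k, ∀ i, 0 < i → i < k → x j < τ i := fun j hj i h0 hi => by
    have h1 := run (x (T / k)) ⟨hθ.1.trans_le (hx _ le_rfl), h.xJ⟩ i h0 hi
    have h2 := h.iter (i := T / k - 5 * k) (r := 5 * k) hJ.le
    rw [hJ] at h2
    exact (h.mono hj (Nat.sub_le _ _)).trans_lt (h2 ▸ h1)
  have ind : ∀ j ≤ T / k - 5 * k, θ - ψ = lam n k ^ j * (x j - ψ) := fun j hj => by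
    induction j with
    | zero => simp [h.pre.x0]
    | succ j ih =>
      have h1 := (k0 _ (hx (j + 1) (by omega)) (below (j + 1) hj)).1
      rw [h.ch j (by omega)] at h1
      rw [ih (by omega), h1]
      ring
  refine ⟨ψ, θ - ψ, low, by ring, hψ, by nlinarith [hl.2], ?_, ?_, k0, run, fun y hy => ?_⟩
  · rw [ind _ le_rfl, mul_comm]
    exact mul_lt_mul_of_pos_right (k0 _ (hx _ (Nat.sub_le _ _)) (below _ le_rfl)).2 (pow_pos l0 _)
  · have h1 := XVF.jump (sh := sh) hn hk hθ.1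
    rw [h.fix] at h1
    exact h1.trans hl.2
  · have h4 : Free n θ φ y k := h.free le_rfl (hy.2.trans hθ.2).le fun i hi hm =>
      (hy.2.trans_le (low i hi)).not_ge hm.2
    rw [h4.Gm hn hy.1, h.fix]

end KN
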