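import Pool.Agent.Lib.KN55.Kit3

/-! The energy of a wandering set. -/

set_option autoImplicit false

open Filter Topology Set Metric Complex Bornology MeasureTheory N62a1eb23
open scoped Real ENNReal

namespace KN

open Pool.Agent.Lib.MP_c35c17_an

theorem st_WAND : St_WAND := by
  intro ψ s U μ hU hsU hs hd hi h0 hμ h1 hw
  have p0 : 0 < ‖μ‖ := norm_pos_iff.mpr hμ
  have hz : ∀ j : ℤ, μ ^ j ≠ 0 := fun j => zpow_ne_zero j hμ
  have hD : ∀ (j : ℤ), ∀ u ∈ U, HasDerivAt (fun u => μ ^ j * ψ u) (μ ^ j * deriv ψ u) u :=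
    fun j u hu => (hd.differentiableAt (hU.mem_nhds hu)).hasDerivAt.const_mul _
  have hC : ∀ j : ℤ, ContinuousOn (fun u => μ ^ j * ψ u) U := fun j u hu =>
    (hD j u hu).continuousAt.continuousWithinAt
  set S : ℤ → Set ℂ := fun j => (s ∩ (U ∩ (fun u => ‖μ ^ j * ψ u‖) ⁻¹' Iio ‖μ‖⁻¹)) \
    (U ∩ (fun u => ‖μ ^ j * ψ u‖) ⁻¹' Iio 1) with hS
  have m1 : ∀ j, MeasurableSet (S j) := fun j =>
    (hs.inter ((hC j).norm.isOpen_inter_preimage hU isOpen_Iio).measurableSet).diff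
      ((hC j).norm.isOpen_inter_preimage hU isOpen_Iio).measurableSet
  have s1 : ∀ j, S j ⊆ s := fun j u hu => hu.1.1
  have i1 : ∀ j : ℤ, InjOn (fun u => μ ^ j * ψ u) (S j) := fun j u hu u' hu' e =>
    hi (s1 j hu) (s1 j hu') (mul_left_cancel₀ (hz j) e)
  have c1 : s ⊆ ⋃ j, S j := fun u hu => by
    obtain ⟨j, a, b⟩ := exists_mem_Ico_zpow (norm_pos_iff.mpr (h0 u hu)) ((one_lt_inv₀ p0).mpr h1)
    have q : 0 < ‖μ‖ ^ j := zpow_pos p0 j
    rw [inv_zpow, inv_le_iff_one_le_mul₀' q] at a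
    rw [zpow_add_one₀ (inv_pos.mpr p0).ne', inv_zpow, lt_inv_mul_iff₀ q] at b
    refine mem_iUnion.mpr ⟨j, ⟨hu, hsU hu, ?_⟩, fun h => ?_⟩
    · simpa only [mem_preimage, mem_Iio, norm_mul, norm_zpow] using b
    · have := h.2
      simp only [mem_preimage, mem_Iio, norm_mul, norm_zpow] at this
      exact this.not_ge a
  have e1 : ∀ j, En ψ (S j) =
      ∫⁻ w in (fun u => μ ^ j * ψ u) '' S j, ENNReal.ofReal (1 / ‖w‖ ^ 2) := fun j => by
    rw [Q.log_area (m1 j) (fun u hu => hD j u (hsU (s1 j hu))) (i1 j), En]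
    refine lintegral_congr fun u => ?_
    rw [norm_mul, norm_mul, mul_pow, mul_pow,
      mul_div_mul_left _ _ (pow_ne_zero 2 (norm_ne_zero_iff.mpr (hz j)))]
  have key : ∀ i j : ℤ, j < i → ∀ u ∈ s, ∀ u' ∈ s, μ ^ i * ψ u ≠ μ ^ j * ψ u' := by
    intro i j hij u hu u' hu' e
    refine hw (i - j).toNat (by omega) u hu u' hu' (mul_left_cancel₀ (hz j) ?_)
    rw [← e, ← mul_assoc, ← zpow_natCast, ← zpow_add₀ hμ]
    congr 2
    omega
  have d1 : Pairwise (Function.onFun Disjoint fun j => (fun u => μ ^ j * ψ u) '' S j) := by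
    intro i j hij
    refine disjoint_left.mpr ?_
    rintro _ ⟨u, hu, rfl⟩ ⟨u', hu', e⟩
    rcases lt_or_gt_of_ne hij with h | h
    exacts [key j i h u' (s1 j hu') u (s1 i hu) e, key i j h u (s1 i hu) u' (s1 j hu') e.symm]
  calc En ψ s ≤ ∑' j, En ψ (S j) := (En_mono c1).trans (lintegral_iUnion_le _ _)
    _ = ∫⁻ w in ⋃ j, (fun u => μ ^ j * ψ u) '' S j, ENNReal.ofReal (1 / ‖w‖ ^ 2) := by
        rw [lintegral_iUnion (fun j => (m1 j).image_of_continuousOn_injOn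
          ((hC j).mono ((s1 j).trans hsU)) (i1 j)) d1]
        exact tsum_congr e1
    _ ≤ ENNReal.ofReal (Real.log ‖μ‖⁻¹ - Real.log 1) * ENNReal.ofReal (2 * π) := by
        refine Q.annulus_area one_pos fun w hw' => ?_
        obtain ⟨j, u, hu, rfl⟩ := mem_iUnion.mp hw'
        exact ⟨not_lt.mp fun h => hu.2 ⟨hu.1.2.1, h⟩, le_of_lt hu.1.2.2⟩
    _ = _ := by
        rw [mul_comm, ← ENNReal.ofReal_mul (by positivity), Real.log_one, sub_zero, Real.log_inv]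

end KN
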