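import Pool.Agent.Lib.KN55.Kit3

/-! The watershed of the branch of one period. -/

set_option autoImplicit false

open Filter Topology Set Metric Complex Bornology MeasureTheory N62a1eb23
open scoped Real ENNReal

namespace KN

open Pool.Agent.Lib.MP_c35c17_an

theorem st_WS : St_WS := by
  intro n θ k T φ x h big pre inc
  have hn := h.hn
  have hk := h.pos
  have kT := h.kT
  obtain ⟨sh, hsh⟩ := ((lat_iff.mp pre.lat).symm.bh (k := k) (p := 0) (r := k) (θ := θ) hn).trans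
    (bh_back hn fun j _ => pre.per j)
  have fix : Gm n θ k sh φ = φ := by rw [Gm, hsh]; ring
  have fix1 : Gm n θ k sh (φ + 1) = φ + 1 := by rw [Gm_add_one hn, fix]
  have sm := Gm_strictMono (k := k) (θ := θ) (sh := sh) hn
  have mem : ∀ y ∈ Ioo φ (φ + 1), Gm n θ k sh y ∈ Ioo φ (φ + 1) := fun y hy =>
    ⟨fix.ge.trans_lt (sm hy.1), (sm hy.2).trans_le fix1.le⟩
  have nof : ∀ z ∈ Ioo φ (φ + 1), Gm n θ k sh z ≠ z := fun z hz e => by
    obtain ⟨a, b⟩ := per_of_fix (P := 1) (p := sh) hn hk one_pos (by rw [Fm_one]; exact e)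
    rw [mul_one] at b
    exact hz.1.ne' ((pre.uniq z a b).eq_of_abs
      (abs_lt.mpr ⟨by linarith [hz.1], by linarith [hz.2]⟩))
  have rt : ∀ z, Gm n θ k sh z ≤ z → ∀ᶠ w in 𝓝[>] z, Gm n θ k sh w < w := fun z hz => by
    have := Fm_right (P := 1) (p := sh) (θ := θ) (x := z) hn hk one_pos (by rw [Fm_one]; exact hz)
    rwa [Fm_one] at this
  have lf : ∀ᶠ w in 𝓝[<] (φ + 1), w < Gm n θ k sh w := by
    have := h.Fm_left (P := 1) (p := sh) (x := φ + 1) one_pos (by rw [Fm_one]; exact fix1)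
    rwa [Fm_one] at this
  obtain ⟨t, tm, tw, tl, tr⟩ := exists_wt sm.monotone (lt_add_one φ) nof (rt φ fix.le) lf
    fun z _ hz => rt z hz.le
  have ch : ∀ j < T / k, Gm n θ k sh (x (j + 1)) = x j := fun j hj => by
    have b : (j + 1) * k ≤ T := (Nat.le_div_iff_mul_le hk).mp hj
    have c1 : Cg (x (j + 1)) ((n : ℝ) ^ k * ((n : ℝ) ^ (j * k) * θ)) := by
      rw [← mul_assoc, ← pow_add, show k + j * k = (j + 1) * k by ring]
      exact pre.cg _ hj
    have c2 : Cg (bh n θ k 0 k ((n : ℝ) ^ k * ((n : ℝ) ^ (j * k) * θ))) ((n : ℝ) ^ (j * k) * θ) :=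
      bh_back hn fun e he => by
        rw [lts_pow, zero_add, ← vv_dvd (p := j * k) (Dvd.intro_left j rfl)]
        exact h.per _ (by nlinarith)
    exact ((((cg_sub_int _ sh).trans (c1.bh hn)).trans c2).trans (pre.cg j hj.le).symm).eq_of_mem
      (mem _ (pre.mem _ hj)) (pre.mem j hj.le)
  have ex : ∀ i, ∃ y, i < k → y ∈ Ioo φ (φ + 1) ∧ Cg y ((n : ℝ) ^ i * θ) := fun i => by
    by_cases hi : i < k
    · obtain ⟨y, a, b⟩ := exists_lift' (a := φ) (x := (n : ℝ) ^ i * θ)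
        fun c => h.per_ne pre.per (Or.inl hi) c.symm
      exact ⟨y, fun _ => ⟨a, b⟩⟩
    · exact ⟨0, fun c => absurd c hi⟩
  choose τ hτ using ex
  have τ0 : τ 0 = θ := by
    have a := (hτ 0 hk).2
    rw [pow_zero, one_mul] at a
    exact a.eq_of_mem (hτ 0 hk).1 (pre.x0 ▸ pre.mem 0 (Nat.zero_le _))
  have nl : ¬ LAf (bh n θ k 0 k) t ((n : ℝ) ^ k) := fun ⟨δ, d0, d1⟩ =>
    tw.not_laf (npow_pos hn k) ⟨δ, d0, fun y hy => by rw [Gm, Gm, d1 y hy]; ring⟩
  obtain ⟨i, q, e1, ik, c, -⟩ := (laf_or hn 0 k t).resolve_left nl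
  have ct : Cg t ((n : ℝ) ^ i * θ) := by
    have := Cg.of_bh (l := 0) hn (by rw [pow_zero, one_mul]; exact c)
    rwa [zero_add] at this
  have et : τ i = t := ((hτ i ik).2.trans ct.symm).eq_of_mem (hτ i ik).1 tm
  obtain ⟨J, hJ⟩ : ∃ J, T / k = J + 1 := ⟨T / k - 1, by omega⟩
  have xJ : x (T / k) < t := not_le.mp fun a => by
    have b := tr _ ⟨a, (pre.mem _ le_rfl).2⟩
    have d := inc J (by omega)
    rw [hJ, ch J (by omega)] at b
    exact b.not_gt d
  have mono : ∀ j ≤ T / k, θ ≤ x j := fun j hj => by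
    induction j with
    | zero => exact pre.x0.ge
    | succ j ih => exact (ih (by omega)).trans (inc j hj).le
  have i0 : 0 < i := Nat.pos_of_ne_zero fun e => by
    rw [e, τ0] at et
    exact (mono _ le_rfl).not_gt (et ▸ xJ)
  refine ⟨sh, τ, i, h, big, pre, inc, fix, ch, τ0, hτ, i0, ik, et ▸ xJ, fun y hy => ?_,
    fun y hy => ?_, fun j hj => ?_⟩
  · rw [et] at hy
    exact ⟨(mem y ⟨hy.1, hy.2.trans tm.2⟩).1, tl y hy⟩
  · rw [et] at hy
    exact ⟨tr y hy, (mem y ⟨tm.1.trans_le hy.1, hy.2⟩).2⟩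
  · rw [show k - i = q by omega, ← lts_bh (x := t) hn hj, c.lts_eq]
    exact h.per j (by omega)

end KN
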