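import Pool.Agent.Lib.KN55.Kit3

/-! A watershed at `θ` gives many periodic angles. -/

set_option autoImplicit false

open Filter Topology Set Metric Complex Bornology MeasureTheory N62a1eb23
open scoped Real ENNReal

namespace KN

namespace XWT

variable {n k T P : ℕ} {θ : ℝ} {p : ℤ}

theorem back (h : Hyp n θ k T) {j q i : ℕ} (hj : j * k + q + i ≤ T) :
    Cg (bh n θ k q i ((n : ℝ) ^ (j * k + q + i) * θ)) ((n : ℝ) ^ (j * k + q) * θ) := by
  have h1 := bh_back (k := k) (p := q) (r := i) (θ := θ) (y := (n : ℝ) ^ (j * k + q) * θ) h.hn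
    fun e he => by
      rw [(Cg.refl _).lts_nu, h.per _ (by omega), add_assoc, vv_dvd (Dvd.intro_left j rfl)]
  rwa [← mul_assoc, ← pow_add, add_comm i] at h1

theorem wt_all (h : Hyp n θ k T) (hw : Wt (Fm n θ k P p) θ) {j : ℕ} (hj : j ≤ T / k) :
    Wt (Fm n θ k P p) ((n : ℝ) ^ (j * k) * θ) := by
  induction j with
  | zero => simpa using hw
  | succ j ih =>
    have h1 : (j + 1) * k ≤ T := (Nat.le_div_iff_mul_le h.pos).mp hj
    rw [add_mul, one_mul] at h1 ⊢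
    have h2 := back h (j := j) (q := 0) (i := k * 1) (by omega)
    rw [add_zero, show j * k + k * 1 = j * k + k by omega] at h2
    have h3 := (ih (by omega)).cg h.hn h2
    rcases laf_or (k := k) (θ := θ) h.hn 0 (k * 1) ((n : ℝ) ^ (j * k + k) * θ) with
      h4 | ⟨i, q, h4, h5, h6, -⟩
    · exact Wt.back (bh_strictMono h.hn) (Fm_comm h.hn 1) (npow_pos h.hn _) h4 h3
    · have h7 := back h (j := j) (q := q) (i := i) (by omega)
      rw [show j * k + q + i = j * k + k by omega] at h7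
      exact absurd (h7.symm.trans h6) (h.opn' (by omega) (by omega))

theorem ne_cg (h : Hyp n θ k T) {j j' : ℕ} (hj : j ≤ T / k) (hj' : j' ≤ T / k)
    (hc : Cg ((n : ℝ) ^ (j * k) * θ) ((n : ℝ) ^ (j' * k) * θ)) : j = j' := by
  wlog hlt : j ≤ j' generalizing j j'
  · exact (this hj' hj hc.symm (by omega)).symm
  by_contra hne
  have h1 : j' * k ≤ T := (Nat.le_div_iff_mul_le h.pos).mp hj'
  have h2 : j * k < j' * k := Nat.mul_lt_mul_of_pos_right (by omega) h.pos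
  obtain ⟨e, he⟩ := Nat.exists_eq_add_of_le h1
  have h3 := hc.lts_nu e
  rw [(Cg.refl _).lts_nu, h.per _ (by omega), vv_dvd (Dvd.intro_left j rfl),
    ← vv_dvd (Dvd.intro_left j' rfl), ← he] at h3
  exact h.brk h3.symm

theorem least (h : Hyp n θ k T) (hP : 0 < P) {y : ℝ} (hw : Wt (Fm n θ k P p) y) :
    ∃ e, Fm n θ k P p e = e ∧ y < e ∧ ∀ x, Fm n θ k P p x = x → y < x → e ≤ x := by
  have hf : {x | Fm n θ k P p x = x ∧ x ∈ Ioo y (y + 1)}.Finite :=
    (lat_finite h.hn (Nat.mul_pos h.pos hP) y (y + 1)).subset fun x hx =>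
      ⟨(per_of_fix h.hn h.pos hP hx.1).2, Ioo_subset_Icc_self hx.2⟩
  obtain ⟨s, h1, h2⟩ := Wt.fixed (Fm_strictMono h.hn).monotone hw (hw.cg h.hn (cg_add_one y))
    (lt_add_one y)
  obtain ⟨e, he, h3⟩ := Set.exists_min_image _ id hf ⟨s, h2, h1⟩
  refine ⟨e, he.1, he.2.1, fun x hx hy => ?_⟩
  rcases lt_or_ge x (y + 1) with h4 | h4
  · exact h3 x ⟨hx, hy, h4⟩
  · exact he.2.2.le.trans h4

end XWT

open XWT in
theorem st_WT : St_WT := by
  classical
  intro n θ k T P p h hP hw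
  have h1 : ∀ j : ℕ, ∃ e, j ≤ T / k → Fm n θ k P p e = e ∧ (n : ℝ) ^ (j * k) * θ < e ∧
      ∀ x, Fm n θ k P p x = x → (n : ℝ) ^ (j * k) * θ < x → e ≤ x := fun j => by
    by_cases hj : j ≤ T / k
    · obtain ⟨e, he⟩ := least h hP (wt_all h hw hj)
      exact ⟨e, fun _ => he⟩
    · exact ⟨0, fun h => absurd h hj⟩
  choose e he using h1
  have h2 : ∀ j ≤ T / k, ∀ j' ≤ T / k, Cg (e j) (e j') → j = j' := by
    rintro j hj j' hj' ⟨m, hm⟩
    obtain ⟨-, a2, a3⟩ := he j hj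
    obtain ⟨-, b2, b3⟩ := he j' hj'
    have hz := (wt_all h hw hj').cg h.hn (cg_add_int _ m)
    rcases lt_trichotomy ((n : ℝ) ^ (j * k) * θ) ((n : ℝ) ^ (j' * k) * θ + m) with h3 | h3 | h3
    · obtain ⟨s, h4, h5⟩ := Wt.fixed (Fm_strictMono h.hn).monotone (wt_all h hw hj) hz h3
      linarith [a3 s h5 h4.1, h4.2]
    · exact ne_cg h hj hj' ⟨m, h3⟩
    · obtain ⟨s, h4, h5⟩ := Wt.fixed (Fm_strictMono h.hn).monotone hz (wt_all h hw hj) h3
      have h6 : Fm n θ k P p (s + (-m : ℤ)) = s + (-m : ℤ) := by rw [Fm_add_int h.hn, h5]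
      have h7 := b3 _ h6 (by push_cast; linarith [h4.1])
      push_cast at h7
      linarith [h4.2]
  refine ⟨P, (Finset.range (T / k + 1)).image e, hP, ?_, fun a ha => ?_, fun a ha b hb hc => ?_⟩
  · rw [Finset.card_image_of_injOn, Finset.card_range]
    · exact Nat.lt_succ_self _
    · intro j hj j' hj' hjj
      exact h2 j (Nat.lt_succ_iff.mp (Finset.mem_range.mp hj)) j'
        (Nat.lt_succ_iff.mp (Finset.mem_range.mp hj')) (hjj ▸ Cg.refl _)
  · obtain ⟨j, hj, rfl⟩ := Finset.mem_image.mp ha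
    exact per_of_fix h.hn h.pos hP (he j (Nat.lt_succ_iff.mp (Finset.mem_range.mp hj))).1
  · obtain ⟨j, hj, rfl⟩ := Finset.mem_image.mp ha
    obtain ⟨j', hj', rfl⟩ := Finset.mem_image.mp hb
    rw [h2 j (Nat.lt_succ_iff.mp (Finset.mem_range.mp hj)) j'
      (Nat.lt_succ_iff.mp (Finset.mem_range.mp hj')) hc]

end KN
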