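import Pool.Agent.Lib.KN55.Kit3
import Pool.Agent.Lib.MP_c35c17_an.QMain

/-! Assembly of the Yoccoz inequality in kneading form. -/

set_option autoImplicit false

open Filter Topology Set Metric Complex Bornology MeasureTheory N62a1eb23
open scoped Real ENNReal

namespace KN

open Pool.Agent.Lib.MP_c35c17_an

theorem main {n : ℕ} (hn : 2 ≤ n) (hPEAK : St_PEAK n) (hRED : St_RED) (hPRIM : St_PRIM n)
    (hDIST : St_DIST n) : ∃ C : ℝ, 0 < C ∧ ∀ c ∈ multibrotSet n,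
    Function.Injective (fun j => (F n c)^[j] 0) → ∀ Φ, L.Bot n c 1 Φ →
    c ∈ closure (Φ '' {w | 1 < ‖w‖}) →
    ∃ θ : ℝ, MapClusterPt c (𝓝[{w | 1 < ‖w‖}] exp (2 * π * I * θ)) Φ ∧ ∀ k L : ℕ, 0 < k →
      (∀ i ≤ L + k, ∀ m : ℤ, ((n : ℝ) ^ (i + 1) - 1) * θ ≠ m) →
      (∀ i < L, ⌊((n : ℝ) ^ (i + k + 1) - 1) * θ⌋ ≡ ⌊((n : ℝ) ^ (i + 1) - 1) * θ⌋ [ZMOD n]) →
      ¬ ⌊((n : ℝ) ^ (L + k + 1) - 1) * θ⌋ ≡ ⌊((n : ℝ) ^ (L + 1) - 1) * θ⌋ [ZMOD n] →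
      C * (k : ℝ) ^ 6 ≤ L → ∃ z, (F n c)^[k] z = z ∧ 1 < ‖dF n c k z‖ ∧
        min (infDist c {c | ∃ m z, IsAttractingCycle (fun w ↦ w ^ n + c) m z}) (1 / k) ^ 48 ≤
          C * (k : ℝ) ^ 408 * Real.log ‖dF n c k z‖ ∧
        L * Real.log ‖dF n c k z‖ ≤ C * (k : ℝ) ^ 2 := by
  obtain ⟨C1, hC1, h1⟩ := hPRIM
  obtain ⟨C2, hC2, h2⟩ := hDIST
  refine ⟨50 + C1 + C2, by positivity, fun c hc hinj Φ hB hcl => ?_⟩
  obtain ⟨θ, hP, hM⟩ := hPEAK c hc Φ hB hcl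
  refine ⟨θ, hM, fun k L hk ho hper hbrk hL => ?_⟩
  have hk1 : (1 : ℝ) ≤ k := by exact_mod_cast hk
  have key : (50 + C1 + C2) * (k : ℝ) ^ 6 ≤ L → ∃ z, (F n c)^[k] z = z ∧
      1 < ‖dF n c k z‖ ∧ L * Real.log ‖dF n c k z‖ ≤ C1 * (k : ℝ) ^ 2 := by
    intro hL
    have h6 : 0 < (k : ℝ) ^ 6 := by positivity
    have hL' : 50 * k ^ 6 ≤ L := by
      have : (50 : ℝ) * (k : ℝ) ^ 6 ≤ L := by nlinarith
      exact_mod_cast this
    have hkk : k ≤ k ^ 6 := Nat.le_self_pow (by norm_num) k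
    obtain ⟨k', hd, hH⟩ := hRED n θ k L hn hk (by omega) ho hper hbrk
    have hle : k' ≤ k := Nat.le_of_dvd hk hd
    have hp : k' ^ 6 ≤ k ^ 6 := Nat.pow_le_pow_left hle 6
    obtain ⟨z, hz, hz1, hz2⟩ := h1 c hc Φ hB hinj θ hP k' (L + k) hH (by omega)
    obtain ⟨e, rfl⟩ := hd
    have he : 0 < e := Nat.pos_of_mul_pos_left hk
    have hlog : 0 < Real.log ‖dF n c k' z‖ := Real.log_pos hz1
    refine ⟨z, ?_, ?_, ?_⟩
    · rw [Function.iterate_mul]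
      exact Function.iterate_fixed hz e
    · rw [Q.dF_mul hz, norm_pow]
      exact one_lt_pow₀ hz1 he.ne'
    · rw [Q.dF_mul hz, norm_pow, Real.log_pow]
      have he1 : (1 : ℝ) ≤ e := by exact_mod_cast he
      have h3 : (L : ℝ) * Real.log ‖dF n c k' z‖ ≤ C1 * (k' : ℝ) ^ 2 := by
        refine le_trans ?_ hz2
        have : (L : ℝ) ≤ ((L + k' * e : ℕ) : ℝ) := by exact_mod_cast Nat.le_add_right _ _
        exact mul_le_mul_of_nonneg_right this hlog.le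
      have h4 : 0 ≤ C1 * (k' : ℝ) ^ 2 := by positivity
      push_cast
      calc (L : ℝ) * (e * Real.log ‖dF n c k' z‖) = e * (L * Real.log ‖dF n c k' z‖) := by ring
        _ ≤ e * (C1 * (k' : ℝ) ^ 2) := by gcongr
        _ ≤ e * e * (C1 * (k' : ℝ) ^ 2) := by
            apply mul_le_mul_of_nonneg_right _ h4
            nlinarith
        _ = C1 * ((k' : ℝ) * e) ^ 2 := by ring
  obtain ⟨z, a1, a2, a3⟩ := key hL
  have hlog : 0 < Real.log ‖dF n c k z‖ := Real.log_pos a2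
  have hk0 : (0 : ℝ) < k := by linarith
  refine ⟨z, a1, a2, ?_, a3.trans (by gcongr; linarith)⟩
  refine le_trans (b := C2 * (k : ℝ) ^ 408 * Real.log ‖dF n c k z‖) ?_ (by gcongr; linarith)
  have h0 : 0 ≤ min (infDist c {c | ∃ m z, IsAttractingCycle (fun w ↦ w ^ n + c) m z})
      (1 / k : ℝ) := le_min infDist_nonneg (by positivity)
  rcases le_total (C2 * (k : ℝ) ^ 456 * Real.log ‖dF n c k z‖) 1 with h5 | h5
  · exact (pow_le_pow_left₀ h0 (min_le_left _ _) 48).trans (h2 c z k hk a1 a2 h5)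
  · refine (pow_le_pow_left₀ h0 (min_le_right _ _) 48).trans ?_
    rw [one_div_pow, div_le_iff₀ (by positivity)]
    exact h5.trans_eq (by ring)

end KN
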