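import Pool.Agent.Lib.KN55.B_STEP
import Pool.Agent.Lib.KN55.B_TENT
import Pool.Agent.Lib.KN55.B_CHAIN
import Pool.Agent.Lib.KN55.B_CROSS
import Pool.Agent.Lib.KN55.B_WAND
import Pool.Agent.Lib.KN55.B_FIX
import Pool.Agent.Lib.KN55.B_KOE
import Pool.Agent.Lib.KN55.B_JAN
import Pool.Agent.Lib.KN55.B_ARC55
import Pool.Agent.Lib.KN55.B_PEAK
import Pool.Agent.Lib.KN55.B_SHORT
import Pool.Agent.Lib.KN55.B_SLIT
import Pool.Agent.Lib.KN55.B_BR
import Pool.Agent.Lib.KN55.B_MODEL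
import Pool.Agent.Lib.KN55.B_UL
import Pool.Agent.Lib.KN55.B_PER
import Pool.Agent.Lib.KN55.B_WT
import Pool.Agent.Lib.KN55.B_SA1
import Pool.Agent.Lib.KN55.B_NW
import Pool.Agent.Lib.KN55.B_TRI
import Pool.Agent.Lib.KN55.B_REFL
import Pool.Agent.Lib.KN55.B_WS
import Pool.Agent.Lib.KN55.B_SA2
import Pool.Agent.Lib.KN55.B_CL
import Pool.Agent.Lib.KN55.B_RUN
import Pool.Agent.Lib.KN55.B_VF
import Pool.Agent.Lib.KN55.B_CLU
import Pool.Agent.Lib.KN55.B_RUNR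
import Pool.Agent.Lib.KN55.B_HH
import Pool.Agent.Lib.KN55.B_G2A
import Pool.Agent.Lib.KN55.B_PASS
import Pool.Agent.Lib.KN55.B_GATEC
import Pool.Agent.Lib.KN55.B_LIN
import Pool.Agent.Lib.KN55.B_BAND
import Pool.Agent.Lib.KN55.B_LIMB
import Pool.Agent.Lib.KN55.B_GA0
import Pool.Agent.Lib.KN55.B_GA1
import Pool.Agent.Lib.KN55.B_GA2
import Pool.Agent.Lib.KN55.B_GA355
import Pool.Agent.Lib.KN55.B_GA4
import Pool.Agent.Lib.KN55.B_GA5
import Pool.Agent.Lib.KN55.B_GA6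
import Pool.Agent.Lib.KN55.B_GATE
import Pool.Agent.Lib.KN55.B_CONJ
import Pool.Agent.Lib.KN55.B_PRIM55
import Pool.Agent.Lib.KN55.B_RED
import Pool.Agent.Lib.KN55.B_DIST
import Pool.Agent.Lib.MP_c35c17_an.R_MOD
import Pool.Agent.Lib.MP_c35c17_an.R_SM
import Pool.Agent.Lib.MP_c35c17_an.R_FP
import Pool.Agent.Lib.MP_c35c17_an.R_NR
import Pool.Agent.Lib.MP_c35c17_an.R_DYN
import Pool.Agent.Lib.MP_c35c17_an.R_PBACT
import Pool.Agent.Lib.MP_c35c17_an.R_POLY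
import Pool.Agent.Lib.MP_c35c17_an.R_G1
import Pool.Agent.Lib.MP_c35c17_an.R_G2
import Pool.Agent.Lib.MP_c35c17_an.R_AN
import Pool.Agent.Lib.MP_c35c17_an.R_LOC
import Pool.Agent.Lib.MP_c35c17_an.R_MEAN
import Pool.Agent.Lib.MP_c35c17_an.R_G5
import Pool.Agent.Lib.MP_c35c17_an.R_GON
import Pool.Agent.Lib.MP_c35c17_an.R_L1
import Pool.Agent.Lib.MP_c35c17_an.R_LK
import Pool.Agent.Lib.MP_c35c17_an.R_CORE
import Pool.Agent.Lib.MP_c35c17_an.R_F1
import Pool.Agent.Lib.MP_c35c17_an.R_F3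
import Pool.Agent.Lib.MP_c35c17_an.LF2G
import Pool.Agent.Lib.MP_c35c17_an.LF3a
import Pool.Agent.Lib.KN55.Main

/-! All blocks of the Yoccoz inequality in kneading form. -/

set_option autoImplicit false

namespace KN

open Pool.Agent.Lib.MP_c35c17_an

theorem all {n : ℕ} (hn : 2 ≤ n) : St_PEAK n ∧ St_RED ∧ St_PRIM n ∧ St_DIST n := by
  have hF3 : R.St_F3 n :=
    R.st_F3 hn (R.st_F1 hn (R.st_CORE (R.st_MOD hn) R.st_SM (R.st_DYN R.st_FP R.st_NR) R.st_PB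
      R.st_ACT R.st_POLY (R.st_GON R.st_PB (R.st_AN R.st_G1 R.st_G2) R.st_LOC R.st_MEAN R.st_G5)
      (R.st_L1 hn) R.st_LK)) (L.f2 hn) L.f3a
  have hSTEP : St_STEP := st_STEP
  have hTENT : St_TENT := st_TENT hSTEP
  have hCHAIN : St_CHAIN := st_CHAIN hSTEP
  have hCROSS : St_CROSS := st_CROSS hSTEP
  have hWAND : St_WAND := st_WAND
  have hFIX : St_FIX := st_FIX
  have hKOE : St_KOE := st_KOE
  have hJAN : St_JAN := st_JAN
  have hARC : St_ARC := ARC55.st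
  have hPEAK : St_PEAK n := st_PEAK hn
  have hSHORT : St_SHORT n := st_SHORT hn
  have hSLIT : St_SLIT n := st_SLIT hn hSHORT
  have hBR : St_BR n := st_BR hn
  have hMODEL : St_MODEL n := st_MODEL hn hJAN hARC hSLIT hBR
  have hUL : St_UL := st_UL
  have hPER : St_PER := st_PER
  have hWT : St_WT := st_WT
  have hSA1 : St_SA1 := st_SA1 hUL
  have hNW : St_NW := st_NW hSA1
  have hTRI : St_TRI := st_TRI hPER hWT hNW
  have hREFL : St_REFL := st_REFL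
  have hWS : St_WS := st_WS
  have hSA2 : St_SA2 := st_SA2 hUL
  have hCL : St_CL := st_CL
  have hRUN : St_RUN := st_RUN hCL
  have hVF : St_VF := st_VF hSA2 hRUN
  have hCLU : St_CLU := st_CLU hCL
  have hRUNR : St_RUNR := st_RUNR
  have hHH : St_HH := st_HH
  have hG2A : St_G2A := st_G2A
  have hPASS : St_PASS := st_PASS hG2A
  have hGATEC : St_GATEC := st_GATEC hWS hVF hCLU hRUNR hHH hG2A hPASS
  have hLIN : St_LIN n := st_LIN hn hFIX hKOE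
  have hBAND : St_BAND := st_BAND hWAND
  have hLIMB : St_LIMB n := st_LIMB hn hCHAIN hBAND
  have hGA0 : St_GA0 := st_GA0
  have hGA1 : St_GA1 n := st_GA1 hn hTENT hCROSS hGA0
  have hGA2 : St_GA2 := st_GA2 hWAND hGA0
  have hGA3 : St_GA3 := GA355.st hCHAIN hWAND
  have hGA4 : St_GA4 n := st_GA4 hn hTENT hBAND
  have hGA5 : St_GA5 n := st_GA5 hn hGA3 hGA4
  have hGA6 : St_GA6 n := st_GA6 hn hGA4
  have hGATE : St_GATE n := st_GATE hn hGA1 hGA2 hGA5 hGA6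
  have hCONJ : St_CONJ n := st_CONJ hn
  have hPRIM : St_PRIM n := PRIM55.st hn hMODEL hTRI hREFL hGATEC hLIN hLIMB hGATE hCONJ
  have hRED : St_RED := st_RED
  have hDIST : St_DIST n := st_DIST hn hF3
  exact ⟨hPEAK, hRED, hPRIM, hDIST⟩

end KN
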