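import Pool.Agent.Lib.KN55.Kit3

/-! The right chain. -/

set_option autoImplicit false

open Filter Topology Set Metric Complex Bornology MeasureTheory N62a1eb23
open scoped Real ENNReal

namespace KN

open Pool.Agent.Lib.MP_c35c17_an

theorem st_GA6 {n : ℕ} (hn : 2 ≤ n) (hGA4 : St_GA4 n) : St_GA6 n := by
  obtain ⟨C, hC, h4⟩ := hGA4
  refine ⟨C, hC, fun θ k T φ ψ ξ i0 j0 r η σ hg hr hη hm => ?_⟩
  have hk := hg.hyp.pos
  have hs := eta_small hn hk σ.ηpos hη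
  have hl := lam_pos (k := k) hn
  have hjk := hg.jk
  have ho1 := hg.o1
  have ho2 := hg.o2
  have h0 := σ.ηpos
  have hlen : k * r + (j0 + 1) + (k * mm k + (j0 + 1)) ≤ LL k := by
    rw [LL]
    rcases hr with rfl | rfl <;> simp only [mm] <;> nlinarith
  have hsm : ∀ l ≤ LL k, (n : ℝ) ^ l * η < lam n k / 32 := fun l hl' =>
    (mul_le_mul_of_nonneg_right (npow_mono hn hl') h0.le).trans_lt hs
  have hfar : Far n θ η φ (LL k + 1) := fun l hl' m => by
    have := hsm l (by omega)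
    exact lt_abs_of_not_mem (hg.freeB l (Or.inl (by omega)) m) (by linarith) (by linarith)
  have hη0 : η < lam n k / 32 := by simpa using hsm 0 (Nat.zero_le _)
  have hb : Bc σ.Φ ⟨lam n k / 4, φ⟩ ∈ σ.Ωs :=
    σ.mem_Om (Iic_subset_Iic.mpr (by have := σ.LL_le hg.big; omega)) (by linarith) fun l hl' m =>
      lt_abs_of_not_mem (hg.freeB l (Or.inl hl') m) (by linarith) (by linarith)
  obtain ⟨e1, f1⟩ := σ.W_chart (r := r) (i0 := i0) (j0 := j0) (L := k * mm k + (j0 + 1) + 0)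
    (t := lam n k / 4) (x := φ) (by linarith [hsm (k * r + (j0 + 1)) (by omega)])
    (hfar.mono (by omega))
  obtain ⟨e2, -⟩ := σ.W_chart (r := mm k) (i0 := i0) (j0 := j0) (L := 0)
    (t := lam n k / 4 / (n : ℝ) ^ (k * r + (j0 + 1))) (by
      rw [lt_div_iff₀' (npow_pos hn _), ← mul_assoc, ← pow_add]
      linarith [hsm _ hlen]) f1
  obtain ⟨p1, hp1⟩ := hg.g3 r hr φ ⟨by linarith, le_rfl⟩
  obtain ⟨p2, hp2⟩ := hg.g3 (mm k) (Or.inl rfl) _ hp1
  have e3 : Wh n θ k i0 j0 (mm k) (Wh n θ k i0 j0 r φ) =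
      Wh n θ k i0 j0 (mm k) (Wh n θ k i0 j0 r φ - p1) - p2 + (p1 + p2 : ℤ) := by
    conv_lhs => rw [← sub_add_cancel (Wh n θ k i0 j0 r φ) p1, Wh_add_int hn]
    push_cast
    ring
  rw [← e1, e3, Bc_add_int, div_div (lam n k / 4), ← pow_add] at e2
  have hY := hm hb
  have e4 : (σ.b 0 k)^[mm k] (σ.Y i0 j0 r (Bc σ.Φ ⟨lam n k / 4, φ⟩)) = _ := e2
  have hp := npow_pos hn (k * r + (j0 + 1) + (k * mm k + (j0 + 1)))
  have ht : lam n k / 4 / (n : ℝ) ^ (k * r + (j0 + 1) + (k * mm k + (j0 + 1))) ≤ lam n k / 4 :=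
    div_le_self (by linarith) (one_le_npow hn _)
  have hne : σ.φ (σ.Y i0 j0 r (Bc σ.Φ ⟨lam n k / 4, φ⟩)) ≠ 0 := fun h =>
    σ.φ_ne (σ.G_maps.iterate (mm k) hY) (e4 ▸ σ.Bc_ne (by positivity))
      (by rw [σ.φ_iter hY, h, mul_zero])
  have e5 := σ.U_iter hY hne (mm k)
  rw [e4] at e5
  have h5 := h4 θ k T φ ψ ξ i0 j0 η σ
    (lam n k / 4 / (n : ℝ) ^ (k * r + (j0 + 1) + (k * mm k + (j0 + 1))))
    (Wh n θ k i0 j0 (mm k) (Wh n θ k i0 j0 r φ - p1) - p2) (lam n k / 4) φ hg hη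
    (div_le_div₀ (by linarith) (by linarith) hp (npow_mono hn hlen))
    (by linarith [hp2.1]) (by linarith [hp2.2])
    ((div_le_self (by linarith) (one_le_npow hn _)).trans (by linarith)) (by linarith) (by linarith)
  linarith [(abs_le.mp h5).2]

end KN
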