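import Pool.Agent.Lib.KN55.Kit3

/-! Block MODEL: slits and inverse branches. -/

set_option autoImplicit false

open Filter Topology Set Metric Complex Bornology MeasureTheory N62a1eb23
open scoped Real ENNReal

namespace KN

open Pool.Agent.Lib.MP_c35c17_an

namespace XMODEL

variable {n : ℕ} {c : ℂ} {Φ : ℂ → ℂ} {ε g ϑ : ℝ}

theorem map (hn : 2 ≤ n) (h : L.Cj n c Φ) (hg : 0 < g) (l : ℕ) :
    MapsTo (F n c) (slit n c Φ ε g ϑ l) (slit n c Φ ε g ϑ (l + 1)) := by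
  rintro _ (⟨z, hz, rfl⟩ | ⟨t, ht, rfl⟩)
  · exact Or.inl ⟨z, hz, Function.iterate_succ_apply' _ _ _⟩
  · have h0 : 0 < t := (mul_pos (npow_pos hn l) hg).trans_le ht
    refine Or.inr ⟨n * t, ?_, ?_⟩
    · rw [mem_Ici, pow_succ', mul_assoc]
      exact mul_le_mul_of_nonneg_left ht (npos hn).le
    · have h1 := Bc_iter' (x := (n : ℝ) ^ l * ϑ) hn h h0 1
      rw [Function.iterate_one, pow_one, ← mul_assoc, ← pow_succ'] at h1
      exact h1.symm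

theorem off (hn : 2 ≤ n) (h : L.Cj n c Φ) (hg : 0 < g) {l : ℕ}
    (hp : ∀ ζ : ℂ, 0 < ζ.re → Bc Φ ζ ∈ (F n c)^[l] '' closedBall c ε → ζ.re ≤ (n : ℝ) ^ l * g)
    {t x : ℝ} (ht : (n : ℝ) ^ l * g < t) (hx : ¬ Cg x ((n : ℝ) ^ l * ϑ)) :
    Bc Φ ⟨t, x⟩ ∉ slit n c Φ ε g ϑ l := by
  have h0 := mul_pos (npow_pos hn l) hg
  rintro (h1 | ⟨s, hs, h1⟩)
  · exact absurd (hp ⟨t, x⟩ (h0.trans ht) h1) (not_le.mpr ht)
  · exact hx (Bc_inj (ζ := ⟨t, x⟩) (ζ' := ⟨s, _⟩) h (h0.trans ht) (h0.trans_le hs) h1.symm).2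

theorem arc (hn : 2 ≤ n) (hARC : St_ARC) (hc : c ∈ multibrotSet n) (h : L.Bot n c 1 Φ)
    (hε : 0 < ε) (hg : 0 < g) (hb : Bc Φ ⟨g, ϑ⟩ ∈ closedBall c ε) {l : ℕ}
    (hi : InjOn (F n c)^[l] (closedBall c ε))
    (hp : ∀ ζ : ℂ, 0 < ζ.re → Bc Φ ζ ∈ (F n c)^[l] '' closedBall c ε → ζ.re ≤ (n : ℝ) ^ l * g) :
    IsClosed (slit n c Φ ε g ϑ l) ∧ IsPreconnected (slit n c Φ ε g ϑ l) ∧
      ¬ IsBounded (slit n c Φ ε g ϑ l) ∧ Lg (slit n c Φ ε g ϑ l) := by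
  have hj := cj_of_bot hn hc h
  have h0 := mul_pos (npow_pos hn l) hg
  refine hARC _ (fun t : ℝ => Bc Φ ⟨t, (n : ℝ) ^ l * ϑ⟩) c ε _ hε
    (differentiable_iter n c l).continuous hi ?_ ?_ (Bc_tendsto h _)
    ⟨_, hb, Bc_iter' hn hj hg l⟩ fun t ht h1 => absurd (hp ⟨t, _⟩ (h0.trans ht) h1) (not_le.mpr ht)
  · have h1 : Continuous fun t : ℝ => (⟨t, (n : ℝ) ^ l * ϑ⟩ : ℂ) := by
      simp only [mk_eq_add_mul_I]
      fun_prop
    exact (Bc_diff hj).continuousOn.comp h1.continuousOn fun t ht => h0.trans_le ht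
  · exact fun s hs t ht e =>
      (Bc_inj (ζ := ⟨s, _⟩) (ζ' := ⟨t, _⟩) hj (h0.trans_le hs) (h0.trans_le ht) e).1

/-- a connected set whose image avoids the first slit lies in one sector -/
theorem sector {S A : Set ℂ} {G : ZMod n → ℂ → ℂ} (hS : IsClosed S)
    (hd : ∀ a, DifferentiableOn ℂ (G a) Sᶜ) (hi : ∀ a, ∀ y ∉ S, F n c (G a y) = y)
    (hj : ∀ a b, ∀ y ∉ S, ∀ y' ∉ S, G a y = G b y' → a = b)
    (hs : ∀ y, F n c y ∉ S → ∃ a, y = G a (F n c y)) (hA : IsPreconnected A)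
    (hm : ∀ y ∈ A, F n c y ∉ S) {a : ZMod n} (ha : (A ∩ G a '' Sᶜ).Nonempty) :
    A ⊆ G a '' Sᶜ := by
  have ho : ∀ b, IsOpen (G b '' Sᶜ) := fun b => Q.isOpen_image_of_injOn hS.isOpen_compl (hd b)
    (fun y hy y' hy' e => by rw [← hi b y hy, e, hi b y' hy']) _ Subset.rfl hS.isOpen_compl
  refine hA.subset_left_of_subset_union (ho a)
    (isOpen_biUnion (s := {b | b ≠ a}) fun b _ => ho b) ?_ (fun y hy => ?_) ha
  · refine disjoint_left.mpr ?_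
    rintro _ ⟨y, hy, rfl⟩ h1
    obtain ⟨b, hb, y', hy', e⟩ := mem_iUnion₂.mp h1
    exact hb (hj _ _ _ hy' _ hy e)
  · obtain ⟨b, hb⟩ := hs y (hm y hy)
    by_cases e : b = a
    · exact Or.inl ⟨_, hm y hy, e ▸ hb.symm⟩
    · exact Or.inr (mem_iUnion₂.mpr ⟨b, e, _, hm y hy, hb.symm⟩)

theorem chart (hn : 2 ≤ n) {G : ZMod n → ℂ → ℂ} {θ e : ℝ} (hg : g < e) (hϑ : |ϑ - θ| < e)
    (h : ∀ a, ∀ t x : ℝ, g < t → ϑ < x → x < ϑ + 1 →
      G a (Bc Φ ⟨t, x⟩) = Bc Φ ⟨t / n, (x + (a.val : ℝ)) / n⟩) (a : ZMod n) (t x : ℝ) (ht : e < t)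
    (hx : ∀ m : ℤ, e < |x - θ - m|) : G a (Bc Φ ⟨t, x⟩) = Bc Φ ⟨t / n, gh n θ a x⟩ := by
  have h1 := hx ⌊x - θ⌋
  have h2 := hx (⌊x - θ⌋ + 1)
  have h3 := Int.floor_le (x - θ)
  have h4 := Int.lt_floor_add_one (x - θ)
  have h5 := abs_lt.mp hϑ
  have h6 := (npos hn).ne'
  push_cast at h2
  rw [abs_of_nonneg (by linarith)] at h1
  rw [abs_of_neg (by linarith)] at h2
  rw [← (cg_sub_int x ⌊x - θ⌋).Bc, h a t _ (hg.trans ht) (by linarith [h5.2]) (by linarith [h5.1])]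
  refine (Cg.Bc ⟨⌊x - θ⌋, ?_⟩).symm
  rw [gh]
  field_simp
  ring

end XMODEL

theorem st_MODEL {n : ℕ} (hn : 2 ≤ n) (hJAN : St_JAN) (hARC : St_ARC) (hSLIT : St_SLIT n)
    (hBR : St_BR n) : St_MODEL n := by
  intro c hc Φ h hinj θ hθ T η hη hopn
  have hj := cj_of_bot hn hc h
  obtain ⟨δ, hδ, hmar⟩ := exists_margin (Finset.range (T + 1)) (fun i => (n : ℝ) ^ (i + 1) * θ) θ
    fun i hi e => hopn i (Nat.lt_succ_iff.mp (Finset.mem_range.mp hi)) e.symm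
  obtain ⟨δ', hδ', hnear⟩ := lts_near (L := T + 1) (x := θ) hn fun j hj => hopn j (by omega)
  set κ := min (min η δ') (δ / 4) with hκ
  have hκ0 : 0 < κ := lt_min (lt_min hη hδ') (by positivity)
  have hκ1 : κ ≤ η := (min_le_left _ _).trans (min_le_left _ _)
  have hκ2 : κ ≤ δ' := (min_le_left _ _).trans (min_le_right _ _)
  have hκ3 : κ ≤ δ / 4 := min_le_right _ _
  have hN := npow_pos hn (2 * T + 1)
  obtain ⟨ε, g, ϑ, hε, hg, hge, hϑ, hb, hi, hp, hdis⟩ :=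
    hSLIT c hc Φ h hinj θ hθ (2 * T + 1) (κ / (n : ℝ) ^ (2 * T + 1)) (by positivity)
  have hsm : ∀ l ≤ 2 * T + 1, ∀ u : ℝ, 0 ≤ u → u < κ / (n : ℝ) ^ (2 * T + 1) →
      (n : ℝ) ^ l * u < κ := fun l hl u hu h1 =>
    (mul_le_mul_of_nonneg_right (npow_mono hn hl) hu).trans_lt ((lt_div_iff₀' hN).mp h1)
  have hgl := fun l hl => hsm l hl g hg.le hge
  have hϑl : ∀ l ≤ 2 * T + 1, |(n : ℝ) ^ l * ϑ - (n : ℝ) ^ l * θ| < κ := fun l hl => by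
    rw [← mul_sub, abs_mul, abs_of_pos (npow_pos hn l)]
    exact hsm l hl _ (abs_nonneg _) hϑ
  have hg0 : g < κ := by simpa using hgl 0 (by omega)
  have hϑ0 : |ϑ - θ| < κ := by simpa using hϑl 0 (by omega)
  have ha := fun l hl => XMODEL.arc hn hARC hc h hε hg hb (hi l hl) (hp l)
  have hconn : ∀ A : Set ℕ, A ⊆ Iic (2 * T) → IsPreconnected (Om (slit n c Φ ε g ϑ) A) := by
    intro A hA
    have h1 : ∀ l ∈ A, l ≤ 2 * T + 1 := fun l hl => Nat.le_succ_of_le (hA hl)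
    exact hJAN _ A ((finite_Iic _).subset hA) (fun l hl => (ha l (h1 l hl)).1)
      (fun l hl => (ha l (h1 l hl)).2.2.2) fun l hl l' hl' => hdis l (h1 l hl) l' (h1 l' hl')
  obtain ⟨G, hd, hinv, hdj, hsur, hch⟩ := hBR c hc Φ h (slit n c Φ ε g ϑ 0) g ϑ
    (ha 0 (by omega)).1 (ha 0 (by omega)).2.1 (ha 0 (by omega)).2.2.1
    (by
      have h1 := hconn {0} (by simp)
      rwa [show Om (slit n c Φ ε g ϑ) {0} = (slit n c Φ ε g ϑ 0)ᶜ by ext; simp [Om]] at h1)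
    (Or.inl ⟨c, mem_closedBall_self hε.le, rfl⟩) hg
    fun t x ht h1 h2 => XMODEL.off hn hj hg (hp 0) (by simpa using ht) fun e => by
      rw [pow_zero, one_mul] at e
      exact h1.ne' (e.eq_of_abs (abs_lt.mpr ⟨by linarith, by linarith⟩))
  have hchart := XMODEL.chart hn hg0 hϑ0 hch
  have hout : ∀ l ≤ 2 * T, ∀ y ∈ slit n c Φ ε g ϑ l, F n c y ∉ slit n c Φ ε g ϑ 0 :=
    fun l hl y hy => disjoint_left.mp (hdis (l + 1) (by omega) 0 (by omega) (by omega))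
      (XMODEL.map hn hj hg l hy)
  have hsec := fun l (hl : l ≤ 2 * T) (a : ZMod n) => XMODEL.sector (a := a) (ha 0 (by omega)).1 hd
    hinv hdj hsur (ha l (by omega)).2.1 (hout l hl)
  refine ⟨slit n c Φ ε g ϑ, G, fun l hl => (ha l (by omega)).1, hconn, XMODEL.map hn hj hg, hd,
    hinv, hdj, fun l hl => ?_, fun l hl => ?_, fun l hl t x ht hx => ?_,
    fun a t x ht hx => hchart a t x (hκ1.trans_lt ht) fun m => hκ1.trans_lt (hx m)⟩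
  · have h1 : (F n c)^[l] c ∈ slit n c Φ ε g ϑ l := Or.inl ⟨c, mem_closedBall_self hε.le, rfl⟩
    obtain ⟨a, e⟩ := hsur _ (hout l hl _ h1)
    exact ⟨a, hsec l hl a ⟨_, h1, _, hout l hl _ h1, e.symm⟩⟩
  · have h0 := mul_pos (npow_pos hn l) hg
    have h1 : Bc Φ ⟨(n : ℝ) ^ l * g + κ, (n : ℝ) ^ l * ϑ⟩ ∈ slit n c Φ ε g ϑ l :=
      Or.inr ⟨_, le_add_of_nonneg_right hκ0.le, rfl⟩
    refine hsec l (by omega) _ ⟨_, h1, _, hout l (by omega) _ h1, ?_⟩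
    have h2 := Bc_iter' (x := (n : ℝ) ^ l * ϑ) hn hj (add_pos h0 hκ0) 1
    rw [Function.iterate_one, pow_one] at h2
    rw [h2, nu, ← hnear ϑ (hϑ0.trans_le hκ2) l (by omega), lts, hchart _ _ _
      (by nlinarith [ntwo hn]) fun m => ?_, mul_div_cancel_left₀ _ (npos hn).ne']
    · exact (gh_back hn _).Bc
    · have h3 := hmar l (Finset.mem_range.mpr (by omega)) (-m)
      have h4 := hϑl (l + 1) (by omega)
      have h5 := abs_sub_le (θ + m) ((n : ℝ) ^ (l + 1) * ϑ) ((n : ℝ) ^ (l + 1) * θ)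
      rw [show θ - (n : ℝ) ^ (l + 1) * θ - ((-m : ℤ) : ℝ) = θ + m - (n : ℝ) ^ (l + 1) * θ by
        push_cast; ring] at h3
      rw [← mul_assoc, ← pow_succ', sub_sub, abs_sub_comm]
      linarith
  · refine XMODEL.off hn hj hg (hp l) (((hgl l (by omega)).trans_le hκ1).trans ht) ?_
    rintro ⟨m, rfl⟩
    have h1 := hx m
    rw [add_sub_right_comm, add_sub_cancel_right] at h1
    linarith [hϑl l (by omega)]

end KN
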