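import Pool.Agent.Lib.KN55.Kit3

/-! The orbit to the right of the watershed runs to the fixed angle. -/

set_option autoImplicit false

open Filter Topology Set Metric Complex Bornology MeasureTheory N62a1eb23
open scoped Real ENNReal

namespace KN

open Pool.Agent.Lib.MP_c35c17_an

namespace XRUNR

variable {n k T : ℕ} {θ φ ψ s : ℝ} {x τ : ℕ → ℝ} {sh : ℤ} {i0 : ℕ}

theorem jump (h1 : G1 n θ k T φ x sh τ i0) (h2 : G2 n θ k T φ sh τ i0 ψ s)
    (h3 : G3 n θ k φ τ ψ s) {y : ℝ} (hy : y ∈ Ico (τ i0) (φ + 1)) {i : ℕ} (hi : i < k)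
    (hyi : y < τ i) (hmin : ∀ j < k, y < τ j → τ i ≤ τ j) : τ i ≤ (Gm n θ k sh)^[3] y := by
  have hn := h1.hyp.hn
  have hk := h1.hyp.pos
  by_contra hc
  rw [not_le] at hc
  have l0 := lam_pos (k := k) hn
  have l1 := lam_le hn hk
  have hφ := (h1.τm i0 h1.i0k).1.1
  have hτ := (h1.τm i hi).1.2
  have hi0 : 0 < i := by
    rcases Nat.eq_zero_or_pos i with rfl | h
    · have h10 := (h1.pre.x0 ▸ h1.mono (Nat.zero_le _) le_rfl).trans_lt h1.xJ
      rw [h1.τ0] at hyi
      linarith [hy.1]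
    · exact h
  obtain ⟨p, hp, hq⟩ := exists_virtual (θ := θ) (sh := sh) hn hk y
  have aff : ∀ z, y ≤ z → z < τ i → Gm n θ k sh z = p + lam n k * (z - p) := fun z a b => by
    rw [Free.Gm hn (h1.free (by linarith [hy.1]) (by linarith) fun j hj hm =>
      (hmin j hj hm.1).not_gt (hm.2.trans_lt b)) a, hq]
    ring
  have hle : τ i ≤ p := le_of_forall_lt_imp_le_of_dense fun z hz => by
    rcases le_total z y with a | a
    · have := (h1.right y hy).1
      rw [hq] at this
      nlinarith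
    · have := (h1.right z ⟨hy.1.trans a, hz.trans hτ⟩).1
      rw [aff z a hz] at this
      nlinarith
  have r1 := h1.right y hy
  have r2 := h1.right _ ⟨hy.1.trans r1.1.le, r1.2⟩
  have r3 := h1.right _ ⟨(hy.1.trans r1.1.le).trans r2.1.le, r2.2⟩
  have e3 : (Gm n θ k sh)^[3] y = Gm n θ k sh (Gm n θ k sh (Gm n θ k sh y)) := rfl
  rw [e3] at hc
  have a1 := aff _ r1.1.le (by linarith [r2.1, r3.1])
  have a2 := aff _ (r1.1.le.trans r2.1.le) (by linarith [r3.1])
  have b0 : p - y < 2 := by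
    have := r1.2
    rw [hq] at this
    nlinarith [hy.1]
  obtain ⟨-, -, t3⟩ := h3.tau i hi0 hi
  have s1 : (n : ℝ) ^ i * s ≤ lam n k / 8 :=
    (mul_le_mul_of_nonneg_right (npow_mono hn (by unfold LL; nlinarith)) h2.spos.le).trans
      (h3.xi' hn)
  have s2 : 0 < (n : ℝ) ^ i * s := mul_pos (npow_pos hn i) h2.spos
  have s3 := (hp.sub t3).lam_lt hn hk (by linarith)
  rw [a2, a1, hq] at hc
  have c1 : lam n k * lam n k ≤ 1 / 4 := by nlinarith
  have c2 : lam n k * lam n k * (p - y) ≤ 1 / 2 := by nlinarith [mul_pos l0 l0]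
  nlinarith [mul_le_mul_of_nonneg_left c2 l0.le]

open Classical in
theorem count (h1 : G1 n θ k T φ x sh τ i0) (h2 : G2 n θ k T φ sh τ i0 ψ s)
    (h3 : G3 n θ k φ τ ψ s) {y : ℝ} (hy : y ∈ Ico (τ i0) (φ + 1)) (j : ℕ) :
    ((Finset.range k).filter fun i => (Gm n θ k sh)^[3 * j] y < τ i).card ≤ k - j := by
  induction j with
  | zero => simpa using (Finset.card_filter_le _ _).trans (Finset.card_range k).le
  | succ j ih =>
    have hz := h1.right_iter hy (3 * j)
    have hz' : (Gm n θ k sh)^[3 * j] y ∈ Ico (τ i0) (φ + 1) := ⟨hy.1.trans hz.1, hz.2⟩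
    rw [show 3 * (j + 1) = 3 + 3 * j by ring, Function.iterate_add_apply]
    generalize (Gm n θ k sh)^[3 * j] y = z at ih hz'
    have hw := (h1.right_iter hz' 3).1
    have sub : ((Finset.range k).filter fun i => (Gm n θ k sh)^[3] z < τ i) ⊆
        (Finset.range k).filter fun i => z < τ i := fun i hi => by
      rw [Finset.mem_filter] at hi ⊢
      exact ⟨hi.1, hw.trans_lt hi.2⟩
    rcases ((Finset.range k).filter fun i => z < τ i).eq_empty_or_nonempty with e | ne
    · rw [e] at sub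
      rw [Finset.subset_empty.mp sub]
      simp
    · obtain ⟨i, hi, hm⟩ := Finset.exists_min_image _ τ ne
      have hi' := Finset.mem_filter.mp hi
      have hj := jump h1 h2 h3 hz' (Finset.mem_range.mp hi'.1) hi'.2 fun l hl hz =>
        hm l (Finset.mem_filter.mpr ⟨Finset.mem_range.mpr hl, hz⟩)
      have := Finset.card_lt_card ((Finset.ssubset_iff_of_subset sub).mpr
        ⟨i, hi, fun h => (Finset.mem_filter.mp h).2.not_ge hj⟩)
      omega

theorem tail (h1 : G1 n θ k T φ x sh τ i0) {z : ℝ} (hz : z ∈ Ico (τ i0) (φ + 1))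
    (hf : ∀ i < k, τ i ≤ z) (m : ℕ) :
    (Gm n θ k sh)^[m] z = φ + 1 - lam n k ^ m * (φ + 1 - z) := by
  have hn := h1.hyp.hn
  have hφ := (h1.τm i0 h1.i0k).1.1
  induction m with
  | zero => simp
  | succ m ih =>
    have hw := h1.right_iter hz m
    have h := Free.Gm (sh := sh) hn (h1.free (a := (Gm n θ k sh)^[m] z) (b := φ + 1)
      (by linarith [hw.1, hz.1]) le_rfl fun i hi hm => (hw.1.trans_lt hm.1).not_ge (hf i hi)) hw.2.le
    rw [Gm_add_one hn, h1.fix] at h
    rw [Function.iterate_succ_apply', pow_succ]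
    rw [ih] at h ⊢
    linarith

end XRUNR

theorem st_RUNR : St_RUNR := by
  classical
  intro n θ k T φ x sh τ i0 ψ s h1 h2 h3 y hy r hr
  have hn := h1.hyp.hn
  have hy' : y ∈ Ico (τ i0) (φ + 1) := ⟨hy.1.le, hy.2⟩
  have hc := XRUNR.count h1 h2 h3 hy' k
  rw [Nat.sub_self, Nat.le_zero, Finset.card_eq_zero, Finset.filter_eq_empty_iff] at hc
  have hz := h1.right_iter hy' (3 * k)
  obtain ⟨m, rfl⟩ := Nat.exists_eq_add_of_le hr
  rw [show 3 * k + 3 + m = m + 3 + 3 * k by ring, Function.iterate_add_apply,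
    XRUNR.tail h1 ⟨hy'.1.trans hz.1, hz.2⟩ fun i hi => not_lt.mp (hc (Finset.mem_range.mpr hi))]
  have l0 := lam_pos (k := k) hn
  have l1 := lam_le hn h1.hyp.pos
  have hφ := (h1.τm i0 h1.i0k).1.1
  have p0 := pow_pos l0 (m + 3)
  have p1 : lam n k ^ (m + 3) ≤ lam n k / 4 := by
    have a : lam n k ^ m ≤ 1 := pow_le_one₀ l0.le (by linarith)
    have b : lam n k ^ 3 ≤ lam n k / 4 := by nlinarith [mul_pos l0 l0]
    rw [pow_add]
    nlinarith [pow_pos l0 3]
  constructor <;> nlinarith [hz.1, hz.2, hy.1]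

end KN
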