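import Pool.Agent.Lib.KN55.Kit3

/-! Block STEP: the Dirichlet distance inside a disc. -/

set_option autoImplicit false

open Filter Topology Set Metric Complex Bornology MeasureTheory N62a1eb23
open scoped Real ENNReal

namespace KN

open Pool.Agent.Lib.MP_c35c17_an

theorem st_STEP : St_STEP := by
  intro w w' r hr hw φ hd h0 E hE hEn
  have hsub : ∀ y, ‖y - w‖ ≤ r / 2 → ball y (r / 2) ⊆ ball w r := fun y hy =>
    ball_subset_ball' (by rw [dist_eq_norm]; linarith)
  have hb : ∀ y, ‖y - w‖ ≤ r / 2 → r / 2 * (‖deriv φ y‖ / ‖φ y‖) ≤ E := by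
    intro y hy
    have h1 := mean_sq (h := fun z => deriv φ z / φ z) (half_pos hr)
      (((hd.deriv isOpen_ball).div hd h0).mono (hsub y hy))
    simp only [norm_div, div_pow] at h1
    have h2 := (ENNReal.ofReal_le_ofReal_iff (sq_nonneg E)).1
      ((h1.trans (En_mono (hsub y hy))).trans hEn)
    refine le_of_sq_le_sq ?_ hE
    have h3 : 0 ≤ r ^ 2 / 2 ^ 2 * (‖deriv φ y‖ ^ 2 / ‖φ y‖ ^ 2) := by positivity
    rw [mul_pow, div_pow, div_pow]
    nlinarith [Real.pi_gt_three]
  have hseg : ∀ s ∈ Icc (0 : ℝ) 1, ‖w + s * (w' - w) - w‖ ≤ r / 2 := fun s hs => by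
    rw [add_sub_cancel_left, norm_mul, norm_real, Real.norm_of_nonneg hs.1]
    nlinarith [hs.1, hs.2, norm_nonneg (w' - w)]
  have hmem : ∀ s ∈ Icc (0 : ℝ) 1, w + s * (w' - w) ∈ ball w r :=
    fun s hs => hsub _ (hseg s hs) (mem_ball_self (half_pos hr))
  have hD : ∀ s ∈ Icc (0 : ℝ) 1, HasDerivAt (fun s : ℝ => Real.log (‖φ (w + s * (w' - w))‖ ^ 2))
      (2 * inner ℝ (φ (w + s * (w' - w))) (deriv φ (w + s * (w' - w)) * (w' - w)) /
        ‖φ (w + s * (w' - w))‖ ^ 2) s := fun s hs => by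
    have h1 : HasDerivAt (fun z : ℂ => w + z * (w' - w)) (w' - w) s := by
      simpa using ((hasDerivAt_id (s : ℂ)).mul_const (w' - w)).const_add w
    have h2 := ((hd.differentiableAt (isOpen_ball.mem_nhds (hmem s hs))).hasDerivAt.comp
      (s : ℂ) h1).comp_ofReal.norm_sq
    exact h2.log (pow_ne_zero _ (norm_ne_zero_iff.mpr (h0 _ (hmem s hs))))
  have key := norm_image_sub_le_of_norm_deriv_le_segment_01' (C := 2 * E)
    (fun s hs => (hD s hs).hasDerivWithinAt) fun s hs => by
      have hs' := Ico_subset_Icc_self hs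
      have p := norm_pos_iff.mpr (h0 _ (hmem s hs'))
      have q := hb _ (hseg s hs')
      have i := norm_inner_le_norm (𝕜 := ℝ) (φ (w + s * (w' - w)))
        (deriv φ (w + s * (w' - w)) * (w' - w))
      rw [norm_div, norm_mul, Real.norm_of_nonneg (sq_nonneg _), div_le_iff₀ (by positivity),
        Real.norm_two]
      rw [norm_mul] at i
      rw [← mul_div_assoc, div_le_iff₀ p] at q
      have j := mul_le_mul_of_nonneg_left hw (norm_nonneg (deriv φ (w + s * (w' - w))))
      nlinarith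
  simp only [ofReal_one, ofReal_zero, one_mul, zero_mul, add_zero, add_sub_cancel,
    Real.log_pow, Real.norm_eq_abs, Nat.cast_ofNat] at key
  rw [← mul_sub, abs_mul, abs_two, abs_sub_comm] at key
  linarith

end KN
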