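import Pool.Agent.Lib.KN55.Defs

/-! Statements of the blocks of the Yoccoz inequality in kneading form. -/

set_option autoImplicit false

open Filter Topology Set Metric Complex Bornology MeasureTheory N62a1eb23
open scoped Real ENNReal

namespace KN

open Pool.Agent.Lib.MP_c35c17_an

/-! ### analysis -/

def St_STEP : Prop := ∀ (w w' : ℂ) (r : ℝ), 0 < r → ‖w' - w‖ ≤ r / 2 → Dst (ball w r) w w' 1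

def St_TENT : Prop := ∀ (α β r t x : ℝ) (N : ℕ), β ≤ α + 1 → 0 < r → r ≤ t → t ≤ x - α →
  t ≤ β - x → 1 ≤ (7 / 6) ^ N * r →
    Dst (Ioo (r / 2) 1 ×ℂ Ioo (α + r / 2) (β - r / 2)) ⟨t, x⟩ ⟨(β - α) / 2, (α + β) / 2⟩ N

def St_CHAIN : Prop := ∀ (x a b : ℝ) (d : ℂ) (N : ℕ) (R : Set ℂ), d.re = 1 → ‖d‖ ≤ 3 / 2 → 0 < a →
  a ≤ b → b ≤ (7 / 6) ^ N * a → (∀ s ∈ Icc a b, ball (⟨0, x⟩ + s * d) (s / 2) ⊆ R) →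
    Dst R (⟨0, x⟩ + a * d) (⟨0, x⟩ + b * d) √(8 * N)

def St_CROSS : Prop := ∀ (Ω : Set ℂ) (G₀ G₁ : ℂ → ℂ) (a b : ℂ) (κ : ℝ), IsOpen Ω →
  IsPreconnected Ω → DifferentiableOn ℂ G₀ Ω → DifferentiableOn ℂ G₁ Ω → InjOn G₀ Ω → InjOn G₁ Ω →
  MapsTo G₀ Ω Ω → MapsTo G₁ Ω Ω → (∀ y ∈ Ω, ∀ y' ∈ Ω, G₀ y ≠ G₁ y') → a ∈ Ω → b ∈ Ω → 0 ≤ κ →
  Dst Ω a (G₀ a) κ → Dst Ω a (G₁ a) κ → Dst Ω b (G₀ b) κ → Dst Ω b (G₁ b) κ → Dst Ω a b (8 * κ)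

def St_WAND : Prop := ∀ (ψ : ℂ → ℂ) (s U : Set ℂ) (μ : ℂ), IsOpen U → s ⊆ U → MeasurableSet s →
  DifferentiableOn ℂ ψ U → InjOn ψ s → (∀ u ∈ s, ψ u ≠ 0) → μ ≠ 0 → ‖μ‖ < 1 →
  (∀ j : ℕ, 0 < j → ∀ u ∈ s, ∀ u' ∈ s, μ ^ j * ψ u ≠ ψ u') →
    En ψ s ≤ ENNReal.ofReal (2 * π * -Real.log ‖μ‖)

def St_FIX : Prop := ∀ (Ω O : Set ℂ) (G : ℂ → ℂ) (C : ℝ), IsOpen Ω → IsPreconnected Ω →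
  DifferentiableOn ℂ G Ω → InjOn G Ω → MapsTo G Ω Ω →
  (∀ R : ℝ, ∀ᶠ m in atTop, ∀ w ∈ Ω, ‖w‖ ≤ R → ‖G^[m] w‖ ≤ C) → IsOpen O → O.Nonempty → O ⊆ Ω →
  (∀ j : ℕ, 0 < j → ∀ y ∈ O, G^[j] y ∉ O) →
    ∃ z, TendstoLocallyUniformlyOn (fun m => G^[m]) (fun _ => z) (hyperfilter ℕ) Ω

def St_KOE : Prop := ∀ (Ω : Set ℂ) (G : ℂ → ℂ) (z : ℂ), IsOpen Ω → DifferentiableOn ℂ G Ω →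
  InjOn G Ω → MapsTo G Ω Ω → z ∈ Ω → deriv G z ≠ 0 →
  TendstoLocallyUniformlyOn (fun m => G^[m]) (fun _ => z) (hyperfilter ℕ) Ω →
    G z = z ∧ ‖deriv G z‖ < 1 ∧ ∃ φ : ℂ → ℂ, DifferentiableOn ℂ φ Ω ∧ InjOn φ Ω ∧ φ z = 0 ∧
      ∀ y ∈ Ω, φ (G y) = deriv G z * φ y

def St_JAN : Prop := ∀ (S : ℕ → Set ℂ) (A : Set ℕ), A.Finite → (∀ l ∈ A, IsClosed (S l)) →
  (∀ l ∈ A, Lg (S l)) → (∀ l ∈ A, ∀ l' ∈ A, l ≠ l' → Disjoint (S l) (S l')) →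
    IsPreconnected (Om S A)

def St_ARC : Prop := ∀ (e : ℂ → ℂ) (γ : ℝ → ℂ) (c : ℂ) (ε a : ℝ), 0 < ε → Continuous e →
  InjOn e (closedBall c ε) → ContinuousOn γ (Ici a) → InjOn γ (Ici a) →
  Tendsto (fun t => ‖γ t‖) atTop atTop → γ a ∈ e '' closedBall c ε →
  (∀ t, a < t → γ t ∉ e '' closedBall c ε) →
    IsClosed (e '' closedBall c ε ∪ γ '' Ici a) ∧ IsPreconnected (e '' closedBall c ε ∪ γ '' Ici a) ∧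
      ¬ IsBounded (e '' closedBall c ε ∪ γ '' Ici a) ∧ Lg (e '' closedBall c ε ∪ γ '' Ici a)

/-! ### the model -/

def St_PEAK (n : ℕ) : Prop := ∀ c ∈ multibrotSet n, ∀ Φ, L.Bot n c 1 Φ →
  c ∈ closure (Φ '' {w | 1 < ‖w‖}) → ∃ θ : ℝ, Peak c Φ θ ∧
    MapClusterPt c (𝓝[{w | 1 < ‖w‖}] exp (2 * π * I * θ)) Φ

def St_SHORT (n : ℕ) : Prop := ∀ c Φ, L.Cj n c Φ → ∀ K δ : ℝ, 0 < δ → ∃ t₀ > 0, ∀ t s x : ℝ,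
  0 < t → t < t₀ → t ≤ s → s ≤ K * t → ‖Bc Φ ⟨s, x⟩ - Bc Φ ⟨t, x⟩‖ ≤ δ

def St_SLIT (n : ℕ) : Prop := ∀ c ∈ multibrotSet n, ∀ Φ, L.Bot n c 1 Φ →
  Function.Injective (fun j => (F n c)^[j] 0) → ∀ θ, Peak c Φ θ → ∀ (N : ℕ) (e : ℝ), 0 < e →
    ∃ ε g ϑ : ℝ, 0 < ε ∧ 0 < g ∧ g < e ∧ |ϑ - θ| < e ∧ Bc Φ ⟨g, ϑ⟩ ∈ closedBall c ε ∧
      (∀ l ≤ N, InjOn (F n c)^[l] (closedBall c ε)) ∧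
      (∀ (l : ℕ) (ζ : ℂ), 0 < ζ.re → Bc Φ ζ ∈ (F n c)^[l] '' closedBall c ε →
        ζ.re ≤ (n : ℝ) ^ l * g) ∧
      ∀ l ≤ N, ∀ l' ≤ N, l ≠ l' → Disjoint (slit n c Φ ε g ϑ l) (slit n c Φ ε g ϑ l')

def St_BR (n : ℕ) : Prop := ∀ c ∈ multibrotSet n, ∀ Φ, L.Bot n c 1 Φ → ∀ (S : Set ℂ) (g₀ ϑ : ℝ),
  IsClosed S → IsPreconnected S → ¬ IsBounded S → IsPreconnected Sᶜ → c ∈ S → 0 < g₀ →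
  (∀ t x : ℝ, g₀ < t → ϑ < x → x < ϑ + 1 → Bc Φ ⟨t, x⟩ ∉ S) →
    ∃ g : ZMod n → ℂ → ℂ, (∀ a, DifferentiableOn ℂ (g a) Sᶜ) ∧ (∀ a, ∀ y ∉ S, F n c (g a y) = y) ∧
      (∀ a b, ∀ y ∉ S, ∀ y' ∉ S, g a y = g b y' → a = b) ∧
      (∀ y, F n c y ∉ S → ∃ a, y = g a (F n c y)) ∧
      ∀ a, ∀ t x : ℝ, g₀ < t → ϑ < x → x < ϑ + 1 →
        g a (Bc Φ ⟨t, x⟩) = Bc Φ ⟨t / n, (x + (a.val : ℝ)) / n⟩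

def St_MODEL (n : ℕ) : Prop := ∀ c ∈ multibrotSet n, ∀ Φ, L.Bot n c 1 Φ →
  Function.Injective (fun j => (F n c)^[j] 0) → ∀ θ, Peak c Φ θ → ∀ (T : ℕ) (η : ℝ), 0 < η →
  (∀ i ≤ T, ¬ Cg ((n : ℝ) ^ (i + 1) * θ) θ) → ∃ S g, Mod n c Φ θ T η S g

/-! ### combinatorics -/

def St_UL : Prop := ∀ (n : ℕ) (θ : ℝ) (r : ℕ) (x x' y y' : ℝ), 2 ≤ n →
  (∀ j < r, lts n θ x j = lts n θ y j) → (∀ j < r, lts n θ x' j = lts n θ y' j) →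
  (∃ j < r, lts n θ x j ≠ lts n θ x' j) → x < x' → x' < y → y < x + 1 →
    ∃ m : ℤ, y' + m ∈ Ioo x y

def St_PER : Prop := ∀ (n : ℕ) (θ : ℝ) (k T : ℕ), Hyp n θ k T →
  ∃ (P : ℕ) (p : ℤ) (φ : ℝ), 0 < P ∧ Fm n θ k P p φ = φ

def St_WT : Prop := ∀ (n : ℕ) (θ : ℝ) (k T P : ℕ) (p : ℤ), Hyp n θ k T → 0 < P →
  Wt (Fm n θ k P p) θ → Limb n θ k T

def St_SA1 : Prop := ∀ (n : ℕ) (θ : ℝ) (k T P : ℕ) (a b : ℝ), Hyp n θ k T → 0 < P →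
  Per n θ k 0 a → Lat n (k * P) a → Per n θ k 0 b → Lat n (k * P) b → ¬ Cg a b →
    ∃ x y, Per n θ k 0 x ∧ Lat n (k * P) x ∧ Per n θ k 0 y ∧ Lat n (k * P) y ∧ x < θ ∧ θ < y ∧
      (∀ e, Per n θ k 0 e → Lat n (k * P) e → e ∉ Ioo x y) ∧
      ∀ i, 0 < i → i < k → ∀ m : ℤ, (n : ℝ) ^ i * θ + m ∉ Ioo x y

def St_NW : Prop := ∀ (n : ℕ) (θ : ℝ) (k T P : ℕ) (p : ℤ) (φ : ℝ), Hyp n θ k T → 0 < P →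
  Fm n θ k P p φ = φ → ¬ Wt (Fm n θ k P p) θ → ∀ x, Fm n θ k P p x = x → Cg x φ

def St_TRI : Prop := ∀ (n : ℕ) (θ : ℝ) (k T : ℕ), Hyp n θ k T → Limb n θ k T ∨
  ∃ φ x, Pre n θ k T φ x ∧ ((∀ j < T / k, x j < x (j + 1)) ∨ ∀ j < T / k, x (j + 1) < x j)

def St_REFL : Prop := ∀ (n : ℕ) (θ : ℝ) (k T : ℕ), Hyp n θ k T → Hyp n (-θ) k T ∧
  ∀ φ x, Pre n θ k T φ x → Pre n (-θ) k T (-φ - 1) fun j => -x j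

def St_WS : Prop := ∀ (n : ℕ) (θ : ℝ) (k T : ℕ) (φ : ℝ) (x : ℕ → ℝ), Hyp n θ k T →
  50 * k ≤ T / k → Pre n θ k T φ x → (∀ j < T / k, x j < x (j + 1)) →
    ∃ sh τ i0, G1 n θ k T φ x sh τ i0

def St_SA2 : Prop := ∀ (n : ℕ) (θ : ℝ) (k T : ℕ) (φ : ℝ) (x : ℕ → ℝ) (sh : ℤ) (τ : ℕ → ℝ) (i0 : ℕ),
  G1 n θ k T φ x sh τ i0 → ∀ i < k, θ ≤ τ i

def St_CL : Prop := ∀ (n : ℕ) (θ : ℝ) (k i : ℕ) (ψ y₁ y₂ : ℝ), 2 ≤ n → i < k → Lat n k ψ →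
  ψ < y₁ → y₁ ≤ y₂ → y₂ ≤ ψ + 2 * lam n k ^ 5 → Cg y₁ ((n : ℝ) ^ i * θ) →
    ∀ j < k, lts n θ y₁ j = lts n θ y₂ j

def St_RUN : Prop := ∀ (n : ℕ) (θ : ℝ) (k T : ℕ) (φ : ℝ) (x : ℕ → ℝ) (sh : ℤ) (τ : ℕ → ℝ) (i0 : ℕ),
  G1 n θ k T φ x sh τ i0 → (∀ i < k, θ ≤ τ i) →
    ∀ y ∈ Ioo φ (τ i0), ∀ i, 0 < i → i < k → (Gm n θ k sh)^[5 * k] y < τ i

def St_VF : Prop := ∀ (n : ℕ) (θ : ℝ) (k T : ℕ) (φ : ℝ) (x : ℕ → ℝ) (sh : ℤ) (τ : ℕ → ℝ) (i0 : ℕ),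
  G1 n θ k T φ x sh τ i0 → ∃ ψ s, G2 n θ k T φ sh τ i0 ψ s

def St_CLU : Prop := ∀ (n : ℕ) (θ : ℝ) (k T : ℕ) (φ : ℝ) (x : ℕ → ℝ) (sh : ℤ) (τ : ℕ → ℝ) (i0 : ℕ)
  (ψ s : ℝ), G1 n θ k T φ x sh τ i0 → G2 n θ k T φ sh τ i0 ψ s → G3 n θ k φ τ ψ s

def St_RUNR : Prop := ∀ (n : ℕ) (θ : ℝ) (k T : ℕ) (φ : ℝ) (x : ℕ → ℝ) (sh : ℤ) (τ : ℕ → ℝ) (i0 : ℕ)
  (ψ s : ℝ), G1 n θ k T φ x sh τ i0 → G2 n θ k T φ sh τ i0 ψ s → G3 n θ k φ τ ψ s →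
    ∀ y ∈ Ioo (τ i0) (φ + 1), ∀ r, 3 * k + 3 ≤ r →
      (Gm n θ k sh)^[r] y ∈ Icc (φ + 1 - lam n k / 4) (φ + 1)

def St_HH : Prop := ∀ (n : ℕ) (θ : ℝ) (k T : ℕ) (φ : ℝ) (x : ℕ → ℝ) (sh : ℤ) (τ : ℕ → ℝ) (i0 : ℕ)
  (ψ s : ℝ), G1 n θ k T φ x sh τ i0 → G2 n θ k T φ sh τ i0 ψ s → G3 n θ k φ τ ψ s →
    ∃ j0 sh' σ, G4 n θ k T φ x τ i0 ψ j0 sh' σ

def St_G2A : Prop := ∀ (n : ℕ) (θ : ℝ) (k T : ℕ) (φ : ℝ) (x : ℕ → ℝ) (sh : ℤ) (τ : ℕ → ℝ) (i0 : ℕ)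
  (ψ s : ℝ) (j0 : ℕ) (sh' : ℤ) (σ : ℝ), G1 n θ k T φ x sh τ i0 → G2 n θ k T φ sh τ i0 ψ s →
  G3 n θ k φ τ ψ s → G4 n θ k T φ x τ i0 ψ j0 sh' σ → ∀ r, r = mm k ∨ r = mm k + 1 →
    ∀ y ∈ Ico θ (ψ + lam n k),
      θ + (y - θ) / (n : ℝ) ^ (r * k + (j0 + 1)) ≤ Wh n θ k i0 j0 r y - (sh' + r * sh : ℤ) ∧
        Wh n θ k i0 j0 r y - (sh' + r * sh : ℤ) ≤ ψ + lam n k / 2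

def St_PASS : Prop := ∀ (n : ℕ) (θ : ℝ) (k T : ℕ) (φ : ℝ) (x : ℕ → ℝ) (sh : ℤ) (τ : ℕ → ℝ) (i0 : ℕ)
  (ψ s : ℝ) (j0 : ℕ) (sh' : ℤ) (σ : ℝ), G1 n θ k T φ x sh τ i0 → G2 n θ k T φ sh τ i0 ψ s →
  G3 n θ k φ τ ψ s → G4 n θ k T φ x τ i0 ψ j0 sh' σ → ∀ r, r = mm k ∨ r = mm k + 1 →
    Pass n θ k T ψ i0 j0 r

def St_GATEC : Prop := ∀ (n : ℕ) (θ : ℝ) (k T : ℕ) (φ : ℝ) (x : ℕ → ℝ), Hyp n θ k T →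
  50 * k ≤ T / k → Pre n θ k T φ x → (∀ j < T / k, x j < x (j + 1)) →
    ∃ ψ ξ i0 j0, Gate n θ k T φ ψ ξ i0 j0

/-! ### estimates -/

def St_LIN (n : ℕ) : Prop := ∀ (θ : ℝ) (k T : ℕ), Hyp n θ k T → ∃ η₀ > 0, ∀ η, 0 < η → η ≤ η₀ →
  ∀ c Φ S g, ‖c‖ ≤ 2 → L.Cj n c Φ → Mod n c Φ θ T η S g → ∃ σ : Sit n θ k T η, σ.c = c

def St_BAND : Prop := ∀ (n : ℕ) (θ : ℝ) (k T : ℕ) (η : ℝ) (σ : Sit n θ k T η) (R : Set ℂ)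
  (t₀ α : ℝ) (r : ℕ), IsOpen R → 0 < t₀ →
  (∀ ζ ∈ R, t₀ ≤ ζ.re ∧ ζ.re < (n : ℝ) ^ (k * r) * t₀ ∧ α < ζ.im ∧ ζ.im < α + 1) →
  MapsTo (Bc σ.Φ) R σ.Ω → En (σ.φ ∘ Bc σ.Φ) R ≤ ENNReal.ofReal (r * (2 * π * σ.Λ))

def St_LIMB (n : ℕ) : Prop := ∃ C : ℝ, 0 < C ∧ ∀ (θ : ℝ) (k T : ℕ), Hyp n θ k T → Limb n θ k T →
  ∃ η₀ > 0, ∀ η ≤ η₀, ∀ σ : Sit n θ k T η, T * σ.Λ ≤ C * k ^ 2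

def St_GA0 : Prop := ∀ (n : ℕ) (θ : ℝ) (k T : ℕ) (η : ℝ) (σ : Sit n θ k T η) (i0 j0 : ℕ),
  50 * k ≤ T / k → j0 < k → vv n θ k (i0 + j0) ≠ vv n θ k j0 →
    (∀ r, r = mm k ∨ r = mm k + 1 → DifferentiableOn ℂ (σ.W i0 j0 r) σ.Ωs ∧
      InjOn (σ.W i0 j0 r) σ.Ωs ∧ MapsTo (σ.W i0 j0 r) σ.Ωs σ.Ωs) ∧
    ∀ y ∈ σ.Ωs, ∀ y' ∈ σ.Ωs, σ.W i0 j0 (mm k) y ≠ σ.W i0 j0 (mm k + 1) y'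

def St_GA1 (n : ℕ) : Prop := ∃ C : ℝ, 0 < C ∧ ∀ (θ : ℝ) (k T : ℕ) (φ ψ ξ : ℝ) (i0 j0 : ℕ) (η : ℝ)
  (σ : Sit n θ k T η), Gate n θ k T φ ψ ξ i0 j0 → η * (n : ℝ) ^ (3 * LL k) < 1 →
    ∀ x ∈ ({ψ + 3 * lam n k / 8, ψ + 5 * lam n k / 8} : Set ℝ),
      Dst σ.Ωs (Bc σ.Φ ⟨lam n k / 16, x⟩) (Bc σ.Φ ⟨lam n k / 4, φ⟩) (C * k ^ 2)

def St_GA2 : Prop := ∀ (n : ℕ) (θ : ℝ) (k T : ℕ) (η : ℝ) (σ : Sit n θ k T η) (i0 j0 : ℕ),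
  50 * k ≤ T / k → j0 < k → vv n θ k (i0 + j0) ≠ vv n θ k j0 →
    ∃ r, (r = mm k ∨ r = mm k + 1) ∧ MapsTo (σ.Y i0 j0 r) σ.Ωs σ.Ω ∧
      DifferentiableOn ℂ (σ.φ ∘ σ.Y i0 j0 r) σ.Ωs ∧ (∀ y ∈ σ.Ωs, σ.φ (σ.Y i0 j0 r y) ≠ 0) ∧
      En (σ.φ ∘ σ.Y i0 j0 r) σ.Ωs ≤ ENNReal.ofReal (σ.A ^ 2)

def St_GA3 : Prop := ∀ (n : ℕ) (θ : ℝ) (k T : ℕ) (φ ψ ξ : ℝ) (i0 j0 : ℕ) (η : ℝ)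
  (σ : Sit n θ k T η) (x ρ : ℝ) (N : ℕ), Gate n θ k T φ ψ ξ i0 j0 → ψ < x → x + ρ ≤ θ →
  ρ ≤ lam n k / 8 → 8 * (n : ℝ) ^ k * η < ρ → lam n k / 8 ≤ (7 / 6) ^ N * ρ →
    |σ.U (Bc σ.Φ ⟨ρ, x⟩) - σ.U (Bc σ.Φ ⟨lam n k / 8, x + ρ - lam n k / 8⟩)| ≤ √(8 * N) * σ.A

def St_GA4 (n : ℕ) : Prop := ∃ C : ℝ, 0 < C ∧ ∀ (θ : ℝ) (k T : ℕ) (φ ψ ξ : ℝ) (i0 j0 : ℕ) (η : ℝ)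
  (σ : Sit n θ k T η) (t x t' x' : ℝ), Gate n θ k T φ ψ ξ i0 j0 → η * (n : ℝ) ^ (3 * LL k) < 1 →
  lam n k / 16 / (n : ℝ) ^ LL k ≤ t → t ≤ x - (φ - lam n k / 2) → t ≤ θ - x →
  lam n k / 16 / (n : ℝ) ^ LL k ≤ t' → t' ≤ x' - (φ - lam n k / 2) → t' ≤ θ - x' →
    |σ.U (Bc σ.Φ ⟨t, x⟩) - σ.U (Bc σ.Φ ⟨t', x'⟩)| ≤ C * k ^ 3 * σ.A

/-- the left chain -/
def St_GA5 (n : ℕ) : Prop := ∃ C : ℝ, 0 < C ∧ ∀ (θ : ℝ) (k T : ℕ) (φ ψ ξ : ℝ) (i0 j0 r : ℕ),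
  Gate n θ k T φ ψ ξ i0 j0 → r = mm k ∨ r = mm k + 1 →
    ∃ x ∈ ({ψ + 3 * lam n k / 8, ψ + 5 * lam n k / 8} : Set ℝ), ∃ M, T / k ≤ M ∧ ∃ η₀ > 0,
      ∀ η ≤ η₀, ∀ σ : Sit n θ k T η, MapsTo (σ.Y i0 j0 r) σ.Ωs σ.Ω →
        σ.U (Bc σ.Φ ⟨lam n k / 4, φ⟩) + M * σ.Λ ≤ σ.U (σ.Y i0 j0 r (Bc σ.Φ ⟨lam n k / 16, x⟩)) +
          C * (√(k * M) + k ^ 3) * σ.A

/-- the right chain -/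
def St_GA6 (n : ℕ) : Prop := ∃ C : ℝ, 0 < C ∧ ∀ (θ : ℝ) (k T : ℕ) (φ ψ ξ : ℝ) (i0 j0 r : ℕ) (η : ℝ)
  (σ : Sit n θ k T η), Gate n θ k T φ ψ ξ i0 j0 → r = mm k ∨ r = mm k + 1 →
  η * (n : ℝ) ^ (3 * LL k) < 1 → MapsTo (σ.Y i0 j0 r) σ.Ωs σ.Ω →
    σ.U (σ.Y i0 j0 r (Bc σ.Φ ⟨lam n k / 4, φ⟩)) ≤
      σ.U (Bc σ.Φ ⟨lam n k / 4, φ⟩) + mm k * σ.Λ + C * k ^ 3 * σ.A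

def St_GATE (n : ℕ) : Prop := ∃ C : ℝ, 0 < C ∧ ∀ (θ : ℝ) (k T : ℕ) (φ ψ ξ : ℝ) (i0 j0 : ℕ),
  Gate n θ k T φ ψ ξ i0 j0 → k ^ 5 ≤ T / k →
    ∃ η₀ > 0, ∀ η ≤ η₀, ∀ σ : Sit n θ k T η, T * σ.Λ ≤ C * k ^ 2

/-- the conclusion: a weakly repelling point of period dividing `k` -/
def Out (n : ℕ) (c : ℂ) (k T : ℕ) (C : ℝ) : Prop :=
  ∃ z, (F n c)^[k] z = z ∧ 1 < ‖dF n c k z‖ ∧ T * Real.log ‖dF n c k z‖ ≤ C * k ^ 2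

/-- complex conjugation -/
def St_CONJ (n : ℕ) : Prop := ∀ c ∈ multibrotSet n, ∀ Φ, L.Bot n c 1 Φ →
  Function.Injective (fun j => (F n c)^[j] 0) → ∀ θ, Peak c Φ θ →
    ∃ c' ∈ multibrotSet n, ∃ Φ', L.Bot n c' 1 Φ' ∧ Function.Injective (fun j => (F n c')^[j] 0) ∧
      Peak c' Φ' (-θ) ∧ ∀ k T C, Out n c' k T C → Out n c k T C

def St_PRIM (n : ℕ) : Prop := ∃ C : ℝ, 0 < C ∧ ∀ c ∈ multibrotSet n, ∀ Φ, L.Bot n c 1 Φ →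
  Function.Injective (fun j => (F n c)^[j] 0) → ∀ θ, Peak c Φ θ → ∀ k T : ℕ, Hyp n θ k T →
    50 * k ^ 6 ≤ T → Out n c k T C

/-- reduction to the primitive period -/
def St_RED : Prop := ∀ (n : ℕ) (θ : ℝ) (k L : ℕ), 2 ≤ n → 0 < k → k ≤ L →
  (∀ i ≤ L + k, ∀ m : ℤ, ((n : ℝ) ^ (i + 1) - 1) * θ ≠ m) →
  (∀ i < L, ⌊((n : ℝ) ^ (i + k + 1) - 1) * θ⌋ ≡ ⌊((n : ℝ) ^ (i + 1) - 1) * θ⌋ [ZMOD n]) →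
  ¬ ⌊((n : ℝ) ^ (L + k + 1) - 1) * θ⌋ ≡ ⌊((n : ℝ) ^ (L + 1) - 1) * θ⌋ [ZMOD n] →
    ∃ k', k' ∣ k ∧ Hyp n θ k' (L + k)

def St_DIST (n : ℕ) : Prop := ∃ C : ℝ, 0 < C ∧ ∀ (c z : ℂ) (k : ℕ), 0 < k → (F n c)^[k] z = z →
  1 < ‖dF n c k z‖ → C * k ^ 456 * Real.log ‖dF n c k z‖ ≤ 1 →
    infDist c {c | ∃ m z, IsAttractingCycle (fun w ↦ w ^ n + c) m z} ^ 48 ≤
      C * k ^ 408 * Real.log ‖dF n c k z‖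

end KN
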