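import Pool.Agent.Lib.MP_c35c17_an.LUI

/-! Definitions for the Yoccoz inequality in kneading form. -/

set_option autoImplicit false

open Filter Topology Set Metric Complex Bornology MeasureTheory N62a1eb23
open scoped Real ENNReal

namespace KN

open Pool.Agent.Lib.MP_c35c17_an

/-! ### angles -/

/-- congruence modulo one -/
def Cg (x y : ℝ) : Prop := ∃ m : ℤ, x = y + m

/-- fixed modulo one by multiplication with `n ^ k` -/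
def Lat (n k : ℕ) (x : ℝ) : Prop := ∃ m : ℤ, ((n : ℝ) ^ k - 1) * x = m

/-- the letter of an angle -/
noncomputable def lt (n : ℕ) (θ x : ℝ) : ZMod n := ((⌊(n : ℝ) * x - θ⌋ : ℤ) : ZMod n)

/-- the letter at time `j` -/
noncomputable def lts (n : ℕ) (θ x : ℝ) (j : ℕ) : ZMod n := lt n θ ((n : ℝ) ^ j * x)

/-- the kneading sequence -/
noncomputable def nu (n : ℕ) (θ : ℝ) (i : ℕ) : ZMod n := lts n θ θ i

/-- the periodic sequence given by the first `k` letters -/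
noncomputable def vv (n : ℕ) (θ : ℝ) (k j : ℕ) : ZMod n := nu n θ (j % k)

/-- lifted inverse branch on angles -/
noncomputable def gh (n : ℕ) (θ : ℝ) (a : ZMod n) (x : ℝ) : ℝ :=
  (x + (a.val : ℝ) + ((n : ℝ) - 1) * (⌊x - θ⌋ : ℤ)) / n

/-- composition of `r` branches, outermost letter `v p` -/
def br {α β : Type} (g : α → β → β) (v : ℕ → α) (p r : ℕ) (x : β) : β :=
  ((List.range r).map fun j => v (p + j)).foldr g x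

/-- branch along a factor of the periodic sequence, on angles -/
noncomputable def bh (n : ℕ) (θ : ℝ) (k p r : ℕ) : ℝ → ℝ := br (gh n θ) (vv n θ k) p r

/-- the branch of one period, shifted by an integer -/
noncomputable def Gm (n : ℕ) (θ : ℝ) (k : ℕ) (sh : ℤ) (y : ℝ) : ℝ := bh n θ k 0 k y - sh

/-- the branch of `P` periods, shifted by an integer -/
noncomputable def Fm (n : ℕ) (θ : ℝ) (k P : ℕ) (p : ℤ) (y : ℝ) : ℝ := bh n θ k 0 (k * P) y - p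

/-- watershed points -/
def Wt (f : ℝ → ℝ) (x : ℝ) : Prop := x < f x ∧ ∀ᶠ y in 𝓝[<] x, f y < y

noncomputable def lam (n k : ℕ) : ℝ := ((n : ℝ) ^ k)⁻¹

def mm (k : ℕ) : ℕ := 5 * k + 3

def LL (k : ℕ) : ℕ := (10 * k + 9) * k

/-- the itinerary is the periodic sequence, from phase `i` -/
def Per (n : ℕ) (θ : ℝ) (k i : ℕ) (x : ℝ) : Prop := ∀ j, lts n θ x j = vv n θ k (i + j)

/-- no point of the orbit of `θ` up to time `L` in the interval -/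
def Free (n : ℕ) (θ x y : ℝ) (L : ℕ) : Prop := ∀ l < L, ∀ m : ℤ, (n : ℝ) ^ l * θ + m ∉ Ioc x y

/-- far from the orbit of `θ` up to time `L` -/
def Far (n : ℕ) (θ η x : ℝ) (L : ℕ) : Prop :=
  ∀ l < L, ∀ m : ℤ, (n : ℝ) ^ l * η < |x - (n : ℝ) ^ l * θ - m|

/-- the kneading sequence has the primitive period `k` exactly up to time `T` -/
structure Hyp (n : ℕ) (θ : ℝ) (k T : ℕ) : Prop where
  hn : 2 ≤ n
  pos : 0 < k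
  two : 2 * k ≤ T
  opn : ∀ i ≤ T, ¬ Cg ((n : ℝ) ^ (i + 1) * θ) θ
  per : ∀ i < T, nu n θ i = vv n θ k i
  brk : nu n θ T ≠ vv n θ k T
  prim : ∀ i, ¬ k ∣ i → ∃ j < k, vv n θ k (i + j) ≠ vv n θ k j

/-- many periodic angles -/
def Limb (n : ℕ) (θ : ℝ) (k T : ℕ) : Prop := ∃ (P : ℕ) (E : Finset ℝ), 0 < P ∧ T / k < E.card ∧
  (∀ a ∈ E, Per n θ k 0 a ∧ Lat n (k * P) a) ∧ ∀ a ∈ E, ∀ b ∈ E, Cg a b → a = b

/-- a single fixed angle -/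
structure Pre (n : ℕ) (θ : ℝ) (k T : ℕ) (φ : ℝ) (x : ℕ → ℝ) : Prop where
  per : Per n θ k 0 φ
  lat : Lat n k φ
  uniq : ∀ s, Per n θ k 0 s → Lat n k s → Cg s φ
  x0 : x 0 = θ
  cg : ∀ j ≤ T / k, Cg (x j) ((n : ℝ) ^ (j * k) * θ)
  mem : ∀ j ≤ T / k, x j ∈ Ioo φ (φ + 1)

/-- the watershed -/
structure G1 (n : ℕ) (θ : ℝ) (k T : ℕ) (φ : ℝ) (x : ℕ → ℝ) (sh : ℤ) (τ : ℕ → ℝ) (i0 : ℕ) :
    Prop where
  hyp : Hyp n θ k T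
  big : 50 * k ≤ T / k
  pre : Pre n θ k T φ x
  inc : ∀ j < T / k, x j < x (j + 1)
  fix : Gm n θ k sh φ = φ
  ch : ∀ j < T / k, Gm n θ k sh (x (j + 1)) = x j
  τ0 : τ 0 = θ
  τm : ∀ i < k, τ i ∈ Ioo φ (φ + 1) ∧ Cg (τ i) ((n : ℝ) ^ i * θ)
  i0p : 0 < i0
  i0k : i0 < k
  xJ : x (T / k) < τ i0
  left : ∀ y ∈ Ioo φ (τ i0), φ < Gm n θ k sh y ∧ Gm n θ k sh y < y
  right : ∀ y ∈ Ico (τ i0) (φ + 1), y < Gm n θ k sh y ∧ Gm n θ k sh y < φ + 1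
  act : ∀ j < i0, vv n θ k (k - i0 + j) = vv n θ k j

/-- the virtual fixed angle -/
structure G2 (n : ℕ) (θ : ℝ) (k T : ℕ) (φ : ℝ) (sh : ℤ) (τ : ℕ → ℝ) (i0 : ℕ) (ψ s : ℝ) :
    Prop where
  low : ∀ i < k, θ ≤ τ i
  eq : θ = ψ + s
  lat : Lat n k ψ
  spos : 0 < s
  small : s < 2 * lam n k ^ (T / k - 5 * k)
  gap : φ + lam n k < θ
  k0 : ∀ y, θ ≤ y → (∀ i, 0 < i → i < k → y < τ i) →
    Gm n θ k sh y = ψ + lam n k * (y - ψ) ∧ y - ψ < 2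
  run : ∀ y ∈ Ioo φ (τ i0), ∀ i, 0 < i → i < k → (Gm n θ k sh)^[5 * k] y < τ i
  g5 : ∀ y ∈ Ico φ θ, Gm n θ k sh y = φ + lam n k * (y - φ)

/-- the clusters -/
structure G3 (n : ℕ) (θ : ℝ) (k : ℕ) (φ : ℝ) (τ : ℕ → ℝ) (ψ s : ℝ) : Prop where
  xi : (n : ℝ) ^ LL k * s ≤ lam n k / 8 / (n : ℝ) ^ LL k
  gap : φ + lam n k < ψ
  tau : ∀ i, 0 < i → i < k → ψ + lam n k ≤ τ i ∧ τ i ≤ φ + 1 - lam n k / 2 ∧
    Lat n k (τ i - (n : ℝ) ^ i * s)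
  clu : ∀ l ≤ LL k, ∃ y, Cg y ((n : ℝ) ^ l * θ) ∧ (k ∣ l → θ ≤ y ∧ y ≤ ψ + (n : ℝ) ^ LL k * s) ∧
    (¬ k ∣ l → ψ + lam n k ≤ y ∧ y ≤ φ + 1 - lam n k / 2)

/-- the breaking word -/
structure G4 (n : ℕ) (θ : ℝ) (k T : ℕ) (φ : ℝ) (x : ℕ → ℝ) (τ : ℕ → ℝ) (i0 : ℕ) (ψ : ℝ)
    (j0 : ℕ) (sh' : ℤ) (σ : ℝ) : Prop where
  jk : j0 < k
  ne : vv n θ k (i0 + j0) ≠ vv n θ k j0
  σm : ψ + lam n k ≤ σ ∧ σ ≤ φ + 1 - lam n k / 2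
  lft : ∀ y ∈ Ico θ σ, bh n θ k i0 (j0 + 1) y - sh' ∈ Ioo (x (T / k - 1)) (τ i0)
  rgt : ∀ y ∈ Ioo σ (θ + 1), bh n θ k i0 (j0 + 1) y - sh' ∈ Ioo (τ i0) (φ + 1)

/-- the word `u ^ r w` on angles -/
noncomputable def Wh (n : ℕ) (θ : ℝ) (k i0 j0 r : ℕ) (y : ℝ) : ℝ :=
  (bh n θ k 0 k)^[r] (bh n θ k i0 (j0 + 1) y)

/-- the word `w u ^ r w` on angles -/
noncomputable def Yh (n : ℕ) (θ : ℝ) (k i0 j0 r : ℕ) (y : ℝ) : ℝ :=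
  bh n θ k i0 (j0 + 1) (Wh n θ k i0 j0 r y)

/-- the radius of the interval sent through the gate -/
noncomputable def rad (n k j0 r : ℕ) : ℝ := lam n k / 16 / (n : ℝ) ^ (2 * (j0 + 1) + r * k)

/-- slits kept for the linearizer -/
def Zs (k T : ℕ) : Set ℕ := {l | l < k ∨ (k ∣ l ∧ l ≤ T)}

/-- the passage through the gate -/
def Pass (n : ℕ) (θ : ℝ) (k T : ℕ) (ψ : ℝ) (i0 j0 r : ℕ) : Prop :=
  ∃ x ∈ ({ψ + 3 * lam n k / 8, ψ + 5 * lam n k / 8} : Set ℝ), ∃ M, T / k ≤ M ∧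
    (∀ j < M, ∀ i < k, ∀ p : ℤ, lam n k ^ j * rad n k j0 r ≤
      |(bh n θ k 0 k)^[j] (Yh n θ k i0 j0 r x) - (n : ℝ) ^ i * θ - p|) ∧
    ∃ p : ℤ, ψ < (bh n θ k 0 k)^[M] (Yh n θ k i0 j0 r x) - p ∧
      (bh n θ k 0 k)^[M] (Yh n θ k i0 j0 r x) - p + lam n k ^ M * rad n k j0 r ≤ θ

/-- the certificate of the gate case -/
structure Gate (n : ℕ) (θ : ℝ) (k T : ℕ) (φ ψ ξ : ℝ) (i0 j0 : ℕ) : Prop where
  hyp : Hyp n θ k T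
  big : 50 * k ≤ T / k
  jk : j0 < k
  ne : vv n θ k (i0 + j0) ≠ vv n θ k j0
  o1 : φ + lam n k < ψ
  o2 : ψ < θ
  o3 : θ ≤ ψ + ξ
  o4 : ψ + 3 * lam n k / 2 ≤ φ + 1
  xi : ξ ≤ lam n k / 8 / (n : ℝ) ^ LL k
  freeA : ∀ l ≤ LL k, ∀ m : ℤ, (n : ℝ) ^ l * θ + m ∉ Ioo (ψ + ξ) (ψ + lam n k)
  freeB : ∀ l, l ≤ LL k ∨ l ∈ Zs k T → ∀ m : ℤ, (n : ℝ) ^ l * θ + m ∉ Ioo (φ - lam n k / 2) θ
  g2 : ∀ r, r = mm k ∨ r = mm k + 1 → ∀ y ∈ Ioo (ψ + ξ) (ψ + lam n k), ∃ p : ℤ,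
    ψ + (y - θ) / (n : ℝ) ^ (r * k + (j0 + 1)) ≤ Wh n θ k i0 j0 r y - p ∧
      Wh n θ k i0 j0 r y - p ≤ ψ + lam n k / 2
  g3 : ∀ r, r = mm k ∨ r = mm k + 1 → ∀ y ∈ Icc (φ - lam n k / 4) φ, ∃ p : ℤ,
    Wh n θ k i0 j0 r y - p ∈ Icc (φ - lam n k / 4) φ
  g4 : ∀ r, r = mm k ∨ r = mm k + 1 → Pass n θ k T ψ i0 j0 r
  g5 : ∃ p : ℤ, ∀ y ∈ Ioo φ θ, bh n θ k 0 k y = p + φ + lam n k * (y - φ)

/-! ### energy -/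

/-- logarithmic area with multiplicity -/
noncomputable def En (φ : ℂ → ℂ) (S : Set ℂ) : ℝ≥0∞ :=
  ∫⁻ z in S, ENNReal.ofReal (‖deriv φ z‖ ^ 2 / ‖φ z‖ ^ 2)

/-- the Dirichlet distance of `a` and `b` in `Ω` is at most `κ` -/
def Dst (Ω : Set ℂ) (a b : ℂ) (κ : ℝ) : Prop := ∀ φ : ℂ → ℂ, DifferentiableOn ℂ φ Ω →
  (∀ z ∈ Ω, φ z ≠ 0) → ∀ E : ℝ, 0 ≤ E → En φ Ω ≤ ENNReal.ofReal (E ^ 2) →
    |Real.log ‖φ a‖ - Real.log ‖φ b‖| ≤ κ * E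

/-- logarithms that witness that a closed set does not separate the plane -/
def Lg (A : Set ℂ) : Prop := ∀ x ∉ A, ∀ y ∉ A, ∃ l : ℂ → ℂ, ContinuousOn l A ∧
  (∀ z ∈ A, exp (l z) = (z - x) / (z - y)) ∧ ∃ R : ℝ, ∀ z ∈ A, R ≤ ‖z‖ → ‖l z‖ ≤ 1

/-! ### the model -/

/-- the Boettcher chart: real part potential, imaginary part angle -/
noncomputable def Bc (Φ : ℂ → ℂ) (ζ : ℂ) : ℂ := Φ (exp (2 * π * ζ))

/-- `θ` is a limit of angles of points of largest potential in small discs about `c` -/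
def Peak (c : ℂ) (Φ : ℂ → ℂ) (θ : ℝ) : Prop := ∀ e > 0, ∃ ε g ϑ : ℝ, 0 < ε ∧ ε < e ∧ 0 < g ∧
  g < e ∧ |ϑ - θ| < e ∧ ‖Bc Φ ⟨g, ϑ⟩ - c‖ ≤ ε ∧ ∀ ζ : ℂ, 0 < ζ.re → ‖Bc Φ ζ - c‖ ≤ ε → ζ.re ≤ g

/-- the slit at time `l` -/
def slit (n : ℕ) (c : ℂ) (Φ : ℂ → ℂ) (ε g ϑ : ℝ) (l : ℕ) : Set ℂ :=
  (F n c)^[l] '' closedBall c ε ∪
    (fun t : ℝ => Bc Φ ⟨t, (n : ℝ) ^ l * ϑ⟩) '' Ici ((n : ℝ) ^ l * g)

/-- the complement of some slits -/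
def Om (S : ℕ → Set ℂ) (A : Set ℕ) : Set ℂ := {y | ∀ l ∈ A, y ∉ S l}

/-- slits and inverse branches -/
structure Mod (n : ℕ) (c : ℂ) (Φ : ℂ → ℂ) (θ : ℝ) (T : ℕ) (η : ℝ) (S : ℕ → Set ℂ)
    (g : ZMod n → ℂ → ℂ) : Prop where
  cl : ∀ l ≤ 2 * T, IsClosed (S l)
  conn : ∀ A : Set ℕ, A ⊆ Iic (2 * T) → IsPreconnected (Om S A)
  map : ∀ l, MapsTo (F n c) (S l) (S (l + 1))
  diff : ∀ a, DifferentiableOn ℂ (g a) (S 0)ᶜ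
  inv : ∀ a, ∀ y ∉ S 0, F n c (g a y) = y
  disj : ∀ a b, ∀ y ∉ S 0, ∀ y' ∉ S 0, g a y = g b y' → a = b
  sect : ∀ l ≤ 2 * T, ∃ a, S l ⊆ g a '' (S 0)ᶜ
  sectν : ∀ l ≤ T, S l ⊆ g (nu n θ l) '' (S 0)ᶜ
  off : ∀ l ≤ 2 * T, ∀ t x : ℝ, η < t → (∀ m : ℤ, η < |x - (n : ℝ) ^ l * θ - m|) →
    Bc Φ ⟨t, x⟩ ∉ S l
  chart : ∀ a, ∀ t x : ℝ, η < t → (∀ m : ℤ, η < |x - θ - m|) →
    g a (Bc Φ ⟨t, x⟩) = Bc Φ ⟨t / n, gh n θ a x⟩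

/-- a model with the linearizer of the branch of one period -/
structure Sit (n : ℕ) (θ : ℝ) (k T : ℕ) (η : ℝ) where
  c : ℂ
  Φ : ℂ → ℂ
  S : ℕ → Set ℂ
  g : ZMod n → ℂ → ℂ
  φ : ℂ → ℂ
  z : ℂ
  μ : ℂ
  hyp : Hyp n θ k T
  ηpos : 0 < η
  cj : L.Cj n c Φ
  mod : Mod n c Φ θ T η S g
  maps : MapsTo (br g (vv n θ k) 0 k) (Om S (Zs k T)) (Om S (Zs k T))
  zper : (F n c)^[k] z = z
  zfix : z ∈ Om S (Zs k T) ∧ br g (vv n θ k) 0 k z = z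
  dφ : DifferentiableOn ℂ φ (Om S (Zs k T))
  inj : InjOn φ (Om S (Zs k T))
  zero : φ z = 0
  eqn : ∀ y ∈ Om S (Zs k T), φ (br g (vv n θ k) 0 k y) = μ * φ y
  μlt : ‖μ‖ < 1
  mult : dF n c k z * μ = 1

namespace Sit

variable {n : ℕ} {θ : ℝ} {k T : ℕ} {η : ℝ} (σ : Sit n θ k T η)

/-- domain of the linearizer -/
def Ω : Set ℂ := Om σ.S (Zs k T)

/-- domain of the horseshoe -/
def Ωs : Set ℂ := Om σ.S (Iic (LL k))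

/-- branch along a factor of the periodic sequence -/
noncomputable def b (p r : ℕ) : ℂ → ℂ := br σ.g (vv n θ k) p r

noncomputable def W (i0 j0 r : ℕ) (y : ℂ) : ℂ := (σ.b 0 k)^[r] (σ.b i0 (j0 + 1) y)

noncomputable def Y (i0 j0 r : ℕ) (y : ℂ) : ℂ := σ.b i0 (j0 + 1) (σ.W i0 j0 r y)

noncomputable def U (y : ℂ) : ℝ := Real.log ‖σ.φ y‖

noncomputable def Λ : ℝ := -Real.log ‖σ.μ‖

noncomputable def A : ℝ := √(2 * π * σ.Λ)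

/-- the point lies in the sector `a` at time `j` -/
def InV (y : ℂ) (j : ℕ) (a : ZMod n) : Prop := ∃ y' ∉ σ.S 0, (F n σ.c)^[j] y = σ.g a y'

end Sit

end KN
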