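import Pool.Agent.Lib.KN55.Blue

/-! Tools on angles. -/

set_option autoImplicit false

open Filter Topology Set

namespace KN

/-! ### congruence -/

section cg
variable {x y z : ℝ}

theorem Cg.refl (x : ℝ) : Cg x x := ⟨0, by simp⟩

theorem Cg.symm (h : Cg x y) : Cg y x := by
  obtain ⟨m, rfl⟩ := h
  exact ⟨-m, by push_cast; ring⟩

theorem Cg.trans (h : Cg x y) (h' : Cg y z) : Cg x z := by
  obtain ⟨m, rfl⟩ := h
  obtain ⟨m', rfl⟩ := h'
  exact ⟨m' + m, by push_cast; ring⟩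

theorem cg_add_int (x : ℝ) (m : ℤ) : Cg (x + m) x := ⟨m, rfl⟩

theorem cg_sub_int (x : ℝ) (m : ℤ) : Cg (x - m) x := ⟨-m, by push_cast; ring⟩

theorem cg_add_one (x : ℝ) : Cg (x + 1) x := ⟨1, by simp⟩

theorem Cg.mul_pow (h : Cg x y) (n j : ℕ) : Cg ((n : ℝ) ^ j * x) ((n : ℝ) ^ j * y) := by
  obtain ⟨m, rfl⟩ := h
  exact ⟨n ^ j * m, by push_cast; ring⟩

theorem Cg.mul_nat (h : Cg x y) (n : ℕ) : Cg ((n : ℝ) * x) ((n : ℝ) * y) := by
  simpa using h.mul_pow n 1

theorem Cg.neg (h : Cg x y) : Cg (-x) (-y) := by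
  obtain ⟨m, rfl⟩ := h
  exact ⟨-m, by push_cast; ring⟩

theorem Cg.eq_of_abs (h : Cg x y) (h1 : |x - y| < 1) : x = y := by
  obtain ⟨m, rfl⟩ := h
  rw [add_sub_cancel_left] at h1
  have : m = 0 := Int.abs_lt_one_iff.mp (by exact_mod_cast h1)
  simp [this]

theorem Cg.eq_of_mem {a : ℝ} (h : Cg x y) (hx : x ∈ Ioo a (a + 1)) (hy : y ∈ Ioo a (a + 1)) :
    x = y := h.eq_of_abs (abs_lt.mpr ⟨by linarith [hx.1, hy.2], by linarith [hx.2, hy.1]⟩)

theorem exists_lift (a x : ℝ) : ∃ m : ℤ, x + m ∈ Ico a (a + 1) :=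
  ⟨-⌊x - a⌋, by push_cast; linarith [Int.floor_le (x - a)],
    by push_cast; linarith [Int.lt_floor_add_one (x - a)]⟩

theorem exists_lift' {a x : ℝ} (h : ¬ Cg x a) : ∃ y ∈ Ioo a (a + 1), Cg y x := by
  obtain ⟨m, h1, h2⟩ := exists_lift a x
  exact ⟨x + m, ⟨lt_of_le_of_ne h1 fun e => h (e ▸ (cg_add_int x m).symm), h2⟩, cg_add_int x m⟩

/-- a point that is not congruent to finitely many points is far from them -/
theorem exists_margin {ι : Type} (s : Finset ι) (a : ι → ℝ) (x : ℝ) (h : ∀ i ∈ s, ¬ Cg x (a i)) :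
    ∃ δ > 0, ∀ i ∈ s, ∀ m : ℤ, δ ≤ |x - a i - m| := by
  classical
  induction s using Finset.induction_on with
  | empty => exact ⟨1, one_pos, by simp⟩
  | insert i s _ ih =>
    obtain ⟨δ, hδ, h1⟩ := ih fun j hj => h j (Finset.mem_insert_of_mem hj)
    obtain ⟨y, hy, m, hm⟩ := exists_lift' (h i (Finset.mem_insert_self _ _))
    refine ⟨min δ (min (y - a i) (a i + 1 - y)), by
      simp only [gt_iff_lt, lt_min_iff]; exact ⟨hδ, by linarith [hy.1], by linarith [hy.2]⟩, ?_⟩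
    intro j hj m'
    rcases Finset.mem_insert.mp hj with rfl | hj
    · refine (min_le_right _ _).trans ?_
      rcases le_or_gt (m + m') 0 with h2 | h2
      · have : ((m + m' : ℤ) : ℝ) ≤ 0 := by exact_mod_cast h2
        push_cast at this
        exact (min_le_left _ _).trans (le_abs.mpr (Or.inl (by linarith)))
      · have : (1 : ℝ) ≤ ((m + m' : ℤ) : ℝ) := by exact_mod_cast h2
        push_cast at this
        exact (min_le_right _ _).trans (le_abs.mpr (Or.inr (by linarith)))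
    · exact (min_le_left _ _).trans (h1 j hj m')

end cg

/-! ### letters -/

section letters
variable {n k : ℕ} {θ x y : ℝ}

theorem Cg.lt_eq (h : Cg x y) (n : ℕ) (θ : ℝ) : lt n θ x = lt n θ y := by
  obtain ⟨m, rfl⟩ := h
  rw [lt, lt, show (n : ℝ) * (y + m) - θ = n * y - θ + (n * m : ℤ) by push_cast; ring,
    Int.floor_add_intCast]
  simp

theorem Cg.lts_eq (h : Cg x y) (n : ℕ) (θ : ℝ) (j : ℕ) : lts n θ x j = lts n θ y j :=
  (h.mul_pow n j).lt_eq n θ

theorem lts_zero : lts n θ x 0 = lt n θ x := by simp [lts]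

theorem lts_pow (i j : ℕ) : lts n θ ((n : ℝ) ^ i * x) j = lts n θ x (i + j) := by
  rw [lts, lts, ← mul_assoc, ← pow_add, add_comm]

theorem lts_mul (j : ℕ) : lts n θ ((n : ℝ) * x) j = lts n θ x (j + 1) := by
  simpa [add_comm] using lts_pow (n := n) (θ := θ) (x := x) 1 j

theorem Cg.lts_nu {l : ℕ} (h : Cg x ((n : ℝ) ^ l * θ)) (j : ℕ) : lts n θ x j = nu n θ (l + j) := by
  rw [h.lts_eq, lts_pow, nu]

theorem vv_dvd {p : ℕ} (h : k ∣ p) (j : ℕ) : vv n θ k (p + j) = vv n θ k j := by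
  obtain ⟨m, rfl⟩ := h
  rw [vv, vv, Nat.mul_add_mod]

theorem vv_add (j : ℕ) : vv n θ k (j + k) = vv n θ k j := by rw [vv, vv, Nat.add_mod_right]

theorem vv_mod (i j : ℕ) : vv n θ k (i % k + j) = vv n θ k (i + j) := by
  rw [vv, vv, Nat.mod_add_mod]

theorem Per.cg {i : ℕ} (h : Per n θ k i x) (h' : Cg y x) : Per n θ k i y :=
  fun j => (h'.lts_eq n θ j).trans (h j)

theorem Per.pow {i : ℕ} (h : Per n θ k i x) (l : ℕ) : Per n θ k (i + l) ((n : ℝ) ^ l * x) :=
  fun j => by rw [lts_pow, h, add_assoc]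

theorem Per.phase {i i' : ℕ} (h : Per n θ k i x) (e : i % k = i' % k) : Per n θ k i' x :=
  fun j => by rw [h, ← vv_mod, e, vv_mod]

/-- different letters force a point of the partition in between -/
theorem exists_cut (hxy : x ≤ y) {j : ℕ} (h : lts n θ x j ≠ lts n θ y j) :
    ∃ m : ℤ, θ + m ∈ Ioc ((n : ℝ) ^ (j + 1) * x) ((n : ℝ) ^ (j + 1) * y) := by
  have h1 : ⌊(n : ℝ) * (n ^ j * x) - θ⌋ < ⌊(n : ℝ) * (n ^ j * y) - θ⌋ :=
    lt_of_le_of_ne (Int.floor_mono (by gcongr)) fun e => h (by rw [lts, lts, lt, lt, e])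
  refine ⟨⌊(n : ℝ) * (n ^ j * y) - θ⌋, ?_, ?_⟩
  · have := Int.floor_lt.mp h1
    rw [pow_succ']; linarith [mul_assoc (n : ℝ) (n ^ j) x]
  · have := Int.floor_le ((n : ℝ) * (n ^ j * y) - θ)
    rw [pow_succ']; linarith [mul_assoc (n : ℝ) (n ^ j) y]

end letters

/-! ### one branch -/

section gh
variable {n : ℕ} {θ x y : ℝ} {a : ZMod n}

theorem npos (hn : 2 ≤ n) : (0 : ℝ) < n := by exact_mod_cast (by omega : 0 < n)

theorem ntwo (hn : 2 ≤ n) : (2 : ℝ) ≤ n := by exact_mod_cast hn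

theorem mul_gh (hn : 2 ≤ n) : n * gh n θ a x = x + (a.val : ℝ) + ((n : ℝ) - 1) * (⌊x - θ⌋ : ℤ) := by
  rw [gh, mul_div_cancel₀ _ (npos hn).ne']

theorem gh_add_int (hn : 2 ≤ n) (m : ℤ) : gh n θ a (x + m) = gh n θ a x + m := by
  have := (npos hn).ne'
  rw [gh, gh, show x + m - θ = x - θ + m by ring, Int.floor_add_intCast]
  push_cast
  field_simp
  ring

theorem gh_cg (hn : 2 ≤ n) : Cg (n * gh n θ a x) x :=
  ⟨a.val + (n - 1) * ⌊x - θ⌋, by rw [mul_gh hn]; push_cast; ring⟩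

theorem floor_gh (hn : 2 ≤ n) : ⌊n * gh n θ a x - θ⌋ = a.val + n * ⌊x - θ⌋ := by
  rw [mul_gh hn, show x + (a.val : ℝ) + ((n : ℝ) - 1) * (⌊x - θ⌋ : ℤ) - θ =
    x - θ + ((a.val + (n - 1) * ⌊x - θ⌋ : ℤ) : ℝ) by push_cast; ring, Int.floor_add_intCast]
  ring

theorem lt_gh (hn : 2 ≤ n) : lt n θ (gh n θ a x) = a := by
  have : NeZero n := ⟨by omega⟩
  rw [lt, floor_gh hn]
  simp

theorem gh_sub (hn : 2 ≤ n) : gh n θ a y - gh n θ a x =
    (y - x + ((n : ℝ) - 1) * ((⌊y - θ⌋ - ⌊x - θ⌋ : ℤ) : ℝ)) / n := by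
  have := (npos hn).ne'
  rw [gh, gh]
  push_cast
  field_simp
  ring

theorem gh_sub_ge (hn : 2 ≤ n) (h : x ≤ y) : (y - x) / n ≤ gh n θ a y - gh n θ a x := by
  rw [gh_sub hn]
  have h1 : (0 : ℝ) ≤ ((⌊y - θ⌋ - ⌊x - θ⌋ : ℤ) : ℝ) := by
    exact_mod_cast sub_nonneg.mpr (Int.floor_mono (by linarith))
  have h2 := ntwo hn
  gcongr
  nlinarith

theorem gh_strictMono (hn : 2 ≤ n) : StrictMono (gh n θ a) := fun x y h => by
  have h1 := gh_sub_ge (θ := θ) (a := a) hn h.le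
  have h2 : 0 < (y - x) / n := div_pos (by linarith) (npos hn)
  linarith

theorem gh_affine (hn : 2 ≤ n) (h : x ≤ y) (h' : ∀ m : ℤ, θ + m ∉ Ioc x y) :
    gh n θ a y = gh n θ a x + (y - x) / n := by
  have h1 : ⌊y - θ⌋ = ⌊x - θ⌋ := le_antisymm (not_lt.mp fun h2 => h' ⌊y - θ⌋
    ⟨by linarith [Int.floor_lt.mp h2], by linarith [Int.floor_le (y - θ)]⟩)
    (Int.floor_mono (by linarith))
  have h2 := gh_sub (θ := θ) (a := a) (x := x) (y := y) hn
  rw [h1, sub_self, Int.cast_zero, mul_zero, add_zero] at h2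
  linarith

theorem gh_jump (hn : 2 ≤ n) {m : ℤ} (h : θ + m ∈ Ioc x y) :
    gh n θ a x + 1 / n < gh n θ a y := by
  have h1 : ⌊x - θ⌋ < m := Int.floor_lt.mpr (by linarith [h.1])
  have h2 : m ≤ ⌊y - θ⌋ := Int.le_floor.mpr (by linarith [h.2])
  have h3 : (1 : ℝ) ≤ ((⌊y - θ⌋ - ⌊x - θ⌋ : ℤ) : ℝ) := by exact_mod_cast (by omega)
  have h4 := ntwo hn
  rw [← lt_sub_iff_add_lt', gh_sub hn]
  gcongr
  nlinarith [h.1, h.2]

theorem gh_back (hn : 2 ≤ n) (y : ℝ) : Cg (gh n θ (lt n θ y) (n * y)) y := by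
  have : NeZero n := ⟨by omega⟩
  have h1 := ZMod.val_intCast (n := n) ⌊(n : ℝ) * y - θ⌋
  have h2 := Int.mul_ediv_add_emod ⌊(n : ℝ) * y - θ⌋ n
  refine ⟨⌊(n : ℝ) * y - θ⌋ - ⌊(n : ℝ) * y - θ⌋ / n, mul_left_cancel₀ (npos hn).ne' ?_⟩
  rw [mul_gh hn, lt]
  have h3 : (((⌊(n : ℝ) * y - θ⌋ : ZMod n).val : ℤ) : ℝ) =
      ((⌊(n : ℝ) * y - θ⌋ - n * (⌊(n : ℝ) * y - θ⌋ / n) : ℤ) : ℝ) := by
    rw [h1]; congr 1; omega
  push_cast at h3 ⊢
  rw [h3]
  ring

end gh

/-! ### compositions -/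

section br
variable {α β : Type} {g : α → β → β} {v : ℕ → α} {p r : ℕ} {x : β}

@[simp] theorem br_zero : br g v p 0 x = x := rfl

theorem br_succ : br g v p (r + 1) x = g (v p) (br g v (p + 1) r x) := by
  simp only [br, List.range_succ_eq_map, List.map_cons, List.foldr_cons, List.map_map, add_zero]
  congr 3
  funext j
  simp only [Function.comp_apply]
  congr 1
  omega

theorem br_add (r' : ℕ) : br g v p (r + r') x = br g v p r (br g v (p + r) r' x) := by
  induction r generalizing p with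
  | zero => simp
  | succ r ih => rw [add_right_comm, br_succ, br_succ, ih, add_assoc, add_comm 1 r]

theorem br_succ' : br g v p (r + 1) x = br g v p r (g (v (p + r)) x) := by
  rw [br_add, br_succ, br_zero]

theorem br_congr {p' : ℕ} (h : ∀ j, v (p + j) = v (p' + j)) : br g v p r x = br g v p' r x := by
  simp only [br, h]

theorem br_iter {n k : ℕ} {θ : ℝ} {g : ZMod n → β → β} (m : ℕ) (x : β) :
    (br g (vv n θ k) 0 k)^[m] x = br g (vv n θ k) 0 (k * m) x := by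
  induction m with
  | zero => simp
  | succ m ih =>
    rw [Function.iterate_succ_apply', ih, mul_add, mul_one, add_comm (k * m), br_add]
    congr 1
    exact br_congr fun j => by rw [zero_add, zero_add, vv_dvd dvd_rfl]

theorem br_dvd {n k : ℕ} {θ : ℝ} {g : ZMod n → β → β} (h : k ∣ p) :
    br g (vv n θ k) p r x = br g (vv n θ k) 0 r x :=
  br_congr fun j => by rw [zero_add, vv_dvd h]

end br

section bh
variable {n k p r : ℕ} {θ x y : ℝ}

@[simp] theorem bh_zero : bh n θ k p 0 x = x := rfl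

theorem bh_succ : bh n θ k p (r + 1) x = gh n θ (vv n θ k p) (bh n θ k (p + 1) r x) := br_succ

theorem bh_add (r' : ℕ) : bh n θ k p (r + r') x = bh n θ k p r (bh n θ k (p + r) r' x) := br_add r'

theorem bh_iter (m : ℕ) (x : ℝ) : (bh n θ k 0 k)^[m] x = bh n θ k 0 (k * m) x := br_iter m x

theorem bh_dvd (h : k ∣ p) : bh n θ k p r x = bh n θ k 0 r x := br_dvd h

theorem bh_add_int (hn : 2 ≤ n) (m : ℤ) : bh n θ k p r (x + m) = bh n θ k p r x + m := by
  induction r generalizing p with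
  | zero => rfl
  | succ r ih => rw [bh_succ, bh_succ, ih, gh_add_int hn]

theorem bh_sub_int (hn : 2 ≤ n) (m : ℤ) : bh n θ k p r (x - m) = bh n θ k p r x - m := by
  simpa [sub_eq_add_neg] using bh_add_int (k := k) (p := p) (r := r) (θ := θ) (x := x) hn (-m)

theorem bh_add_one (hn : 2 ≤ n) : bh n θ k p r (x + 1) = bh n θ k p r x + 1 := by
  simpa using bh_add_int (k := k) (p := p) (r := r) (θ := θ) (x := x) hn 1

theorem Cg.bh (hn : 2 ≤ n) (h : Cg x y) : Cg (bh n θ k p r x) (bh n θ k p r y) := by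
  obtain ⟨m, rfl⟩ := h
  exact ⟨m, bh_add_int hn m⟩

theorem bh_sub_ge (hn : 2 ≤ n) (h : x ≤ y) :
    (y - x) / (n : ℝ) ^ r ≤ bh n θ k p r y - bh n θ k p r x := by
  have h0 := npos hn
  induction r generalizing p with
  | zero => simp
  | succ r ih =>
    have h1 := ih (p := p + 1)
    have h2 : 0 ≤ (y - x) / (n : ℝ) ^ r := div_nonneg (by linarith) (by positivity)
    rw [bh_succ, bh_succ, pow_succ, ← div_div]
    exact le_trans (by gcongr) (gh_sub_ge hn (by linarith))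

theorem bh_strictMono (hn : 2 ≤ n) : StrictMono (bh n θ k p r) := fun x y h => by
  have h1 := bh_sub_ge (k := k) (p := p) (r := r) (θ := θ) hn h.le
  have h2 : 0 < (y - x) / (n : ℝ) ^ r := div_pos (by linarith) (pow_pos (npos hn) _)
  linarith

theorem bh_cg (hn : 2 ≤ n) : Cg ((n : ℝ) ^ r * bh n θ k p r x) x := by
  induction r generalizing p with
  | zero => simpa using Cg.refl x
  | succ r ih =>
    rw [bh_succ, pow_succ, mul_assoc]
    exact ((gh_cg hn).mul_pow n r).trans ih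

/-- the letters after the word -/
theorem lts_bh_add (hn : 2 ≤ n) (j : ℕ) : lts n θ (bh n θ k p r x) (r + j) = lts n θ x j := by
  rw [← lts_pow, (bh_cg hn).lts_eq]

/-- the letters of the word -/
theorem lts_bh (hn : 2 ≤ n) {j : ℕ} (hj : j < r) :
    lts n θ (bh n θ k p r x) j = vv n θ k (p + j) := by
  obtain ⟨e, rfl⟩ := Nat.exists_eq_add_of_lt hj
  have h := lts_bh_add (k := k) (p := p) (r := j) (θ := θ) (x := bh n θ k (p + j) (e + 1) x) hn 0
  rwa [← bh_add, add_zero, ← add_assoc, lts_zero, bh_succ (p := p + j), lt_gh hn] at h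

/-- a point is the image of its forward iterate under the branch given by its letters -/
theorem bh_back (hn : 2 ≤ n) (h : ∀ j < r, lts n θ y j = vv n θ k (p + j)) :
    Cg (bh n θ k p r ((n : ℝ) ^ r * y)) y := by
  induction r generalizing p y with
  | zero => simpa using Cg.refl y
  | succ r ih =>
    have h1 := ih (p := p + 1) (y := n * y) fun j hj => by
      rw [lts_mul, h _ (by omega), add_assoc, add_comm 1]
    have h2 := h 0 (by omega)
    rw [lts_zero, add_zero] at h2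
    obtain ⟨m, hm⟩ := h1
    rw [bh_succ, pow_succ, mul_assoc, hm, gh_add_int hn, ← h2]
    exact (cg_add_int _ m).trans (gh_back hn y)

theorem Cg.of_bh (hn : 2 ≤ n) {l : ℕ} (h : Cg (KN.bh n θ k p r x) ((n : ℝ) ^ l * θ)) :
    Cg x ((n : ℝ) ^ (l + r) * θ) := by
  have h1 := h.mul_pow n r
  rw [← mul_assoc, ← pow_add, add_comm] at h1
  exact (bh_cg hn).symm.trans h1

theorem Per.bh (hn : 2 ≤ n) (h : Per n θ k (p + r) x) : Per n θ k p (bh n θ k p r x) := fun j => by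
  rcases lt_or_ge j r with hj | hj
  · exact lts_bh hn hj
  · obtain ⟨e, rfl⟩ := Nat.exists_eq_add_of_le hj
    rw [lts_bh_add hn, h, add_assoc]

theorem Free.mono {L L' : ℕ} {x' y' : ℝ} (h : Free n θ x y L) (hL : L' ≤ L) (hx : x ≤ x')
    (hy : y' ≤ y) : Free n θ x' y' L' :=
  fun l hl m hm => h l (hl.trans_le hL) m ⟨hx.trans_lt hm.1, hm.2.trans hy⟩

/-- branches are affine on intervals without points of the orbit of `θ` -/
theorem Free.bh (hn : 2 ≤ n) {L : ℕ} (h : Free n θ x y (r + L)) (hxy : x ≤ y) :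
    bh n θ k p r y = bh n θ k p r x + (y - x) / (n : ℝ) ^ r ∧
      Free n θ (bh n θ k p r x) (bh n θ k p r y) L := by
  have h0 := npos hn
  induction r generalizing p L with
  | zero => simpa using h
  | succ r ih =>
    obtain ⟨h1, h2⟩ := ih (p := p + 1) (L := L + 1) (by rwa [add_comm L, ← add_assoc])
    have h3 := (bh_strictMono (k := k) (p := p + 1) (r := r) (θ := θ) hn).monotone hxy
    have h4 := gh_affine (a := vv n θ k p) hn h3 fun m => by simpa using h2 0 (by omega) m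
    rw [bh_succ, bh_succ]
    refine ⟨by rw [h4, h1, pow_succ]; field_simp; ring, fun l hl m hm => ?_⟩
    obtain ⟨m', hm'⟩ := gh_cg (θ := θ) (a := vv n θ k p) (x := KN.bh n θ k (p + 1) r x) hn
    refine h2 (l + 1) (by omega) (n * m - m') ⟨?_, ?_⟩
    · have := mul_lt_mul_of_pos_left hm.1 h0
      push_cast
      rw [pow_succ']
      linarith [mul_assoc (n : ℝ) (n ^ l) θ]
    · have := mul_le_mul_of_nonneg_left hm.2 h0.le
      rw [h4, mul_add (n : ℝ) (gh _ _ _ _), mul_div_cancel₀ _ h0.ne'] at this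
      push_cast
      rw [pow_succ']
      linarith [mul_assoc (n : ℝ) (n ^ l) θ]

theorem Free.affine (hn : 2 ≤ n) (h : Free n θ x y r) (hxy : x ≤ y) :
    KN.bh n θ k p r y = KN.bh n θ k p r x + (y - x) / (n : ℝ) ^ r :=
  (Free.bh (L := 0) hn h hxy).1

theorem exists_free {L : ℕ} (h : ∀ l < L, ¬ Cg x ((n : ℝ) ^ l * θ)) :
    ∃ δ > 0, Free n θ (x - δ) (x + δ) L := by
  obtain ⟨δ, hδ, h1⟩ := exists_margin (Finset.range L) (fun l => (n : ℝ) ^ l * θ) x
    fun l hl => h l (Finset.mem_range.mp hl)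
  refine ⟨δ / 2, half_pos hδ, fun l hl m hm => ?_⟩
  have := h1 l (Finset.mem_range.mpr hl) m
  rcases le_abs.mp this with h2 | h2 <;> linarith [hm.1, hm.2]

theorem exists_free_right (x : ℝ) (L : ℕ) : ∃ δ > 0, Free n θ x (x + δ) L := by
  induction L with
  | zero => exact ⟨1, one_pos, fun _ h => absurd h (Nat.not_lt_zero _)⟩
  | succ L ih =>
    obtain ⟨δ, hδ, h⟩ := ih
    have h1 := Int.lt_floor_add_one (x - (n : ℝ) ^ L * θ)
    refine ⟨min δ ((⌊x - (n : ℝ) ^ L * θ⌋ + 1 - (x - (n : ℝ) ^ L * θ)) / 2),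
      lt_min hδ (by linarith), fun l hl m hm => ?_⟩
    rcases Nat.lt_succ_iff_lt_or_eq.mp hl with hl | rfl
    · exact h l hl m ⟨hm.1, hm.2.trans (add_le_add_right (min_le_left _ _) x)⟩
    · have h2 : ⌊x - (n : ℝ) ^ l * θ⌋ < m := Int.floor_lt.mpr (by linarith [hm.1])
      have h3 : ((⌊x - (n : ℝ) ^ l * θ⌋ + 1 : ℤ) : ℝ) ≤ m := by exact_mod_cast h2
      push_cast at h3
      linarith [hm.2, min_le_right δ ((⌊x - (n : ℝ) ^ l * θ⌋ + 1 - (x - (n : ℝ) ^ l * θ)) / 2)]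

/-- affine on a left neighbourhood -/
def LAf (f : ℝ → ℝ) (x a : ℝ) : Prop := ∃ δ > 0, ∀ y ∈ Icc (x - δ) x, f y = f x - (x - y) / a

/-- either a branch is affine on the left, or a first active jump occurs -/
theorem laf_or (hn : 2 ≤ n) (p r : ℕ) (x : ℝ) : LAf (bh n θ k p r) x ((n : ℝ) ^ r) ∨
    ∃ i q, q + i = p + r ∧ i < r ∧ Cg (bh n θ k q i x) θ ∧ LAf (bh n θ k q i) x ((n : ℝ) ^ i) := by
  have h0 := npos hn
  induction r generalizing p with
  | zero => exact Or.inl ⟨1, one_pos, fun y _ => by simp⟩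
  | succ r ih =>
    rcases ih (p + 1) with h | ⟨i, q, h1, h2, h3⟩
    · by_cases hc : Cg (bh n θ k (p + 1) r x) θ
      · exact Or.inr ⟨r, p + 1, by omega, by omega, hc, h⟩
      obtain ⟨δ, hδ, h⟩ := h
      obtain ⟨ε, hε, h1⟩ := exists_free (n := n) (θ := θ) (L := 1) (x := bh n θ k (p + 1) r x)
        fun l hl => by simpa [Nat.lt_one_iff.mp hl] using hc
      refine Or.inl ⟨min δ ε, lt_min hδ hε, fun y hy => ?_⟩
      have h2 := h y ⟨by linarith [hy.1, min_le_left δ ε], hy.2⟩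
      have h3 : (x - y) / (n : ℝ) ^ r ≤ x - y :=
        div_le_self (by linarith [hy.2]) (one_le_pow₀ (by linarith [ntwo hn]))
      have h4 : 0 ≤ (x - y) / (n : ℝ) ^ r := div_nonneg (by linarith [hy.2]) (by positivity)
      have h5 := gh_affine (θ := θ) (a := vv n θ k p) (x := bh n θ k (p + 1) r y)
        (y := bh n θ k (p + 1) r x) hn (by linarith) fun m hm => h1 0 one_pos m
          ⟨by linarith [hm.1, hy.1, min_le_right δ ε], by linarith [hm.2]⟩
      rw [bh_succ, bh_succ, h5, h2, pow_succ]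
      field_simp
      ring
    · exact Or.inr ⟨i, q, by omega, by omega, h3⟩

theorem Far.mono {η : ℝ} {L L' : ℕ} (h : Far n θ η x L) (hL : L' ≤ L) : Far n θ η x L' :=
  fun l hl => h l (hl.trans_le hL)

theorem Far.bh (hn : 2 ≤ n) {η : ℝ} {L : ℕ} (h : Far n θ η x (r + L)) :
    Far n θ η (bh n θ k p r x) L := fun l hl m => by
  obtain ⟨m', hm'⟩ := bh_cg (k := k) (p := p) (r := r) (θ := θ) (x := x) hn
  have h0 := pow_pos (npos hn) r
  have h1 := h (r + l) (by omega) (n ^ r * m - m')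
  rw [show x - (n : ℝ) ^ (r + l) * θ - ((n ^ r * m - m' : ℤ) : ℝ) =
    (n : ℝ) ^ r * (KN.bh n θ k p r x - n ^ l * θ - m) by
      push_cast; rw [pow_add]; linear_combination -hm', abs_mul, abs_of_pos h0, pow_add,
    mul_assoc] at h1
  exact lt_of_mul_lt_mul_left h1 h0.le

end bh

end KN
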