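import Pool.Agent.Lib.KN55.Kit1

/-! Tools on periodic angles, monotone maps and words. -/

set_option autoImplicit false

open Filter Topology Set

namespace KN

/-! ### numbers -/

section num
variable {n k : ℕ}

theorem one_le_npow (hn : 2 ≤ n) (j : ℕ) : (1 : ℝ) ≤ (n : ℝ) ^ j :=
  one_le_pow₀ (by linarith [ntwo hn])

theorem npow_pos (hn : 2 ≤ n) (j : ℕ) : (0 : ℝ) < (n : ℝ) ^ j := pow_pos (npos hn) j

theorem npow_mono (hn : 2 ≤ n) {i j : ℕ} (h : i ≤ j) : (n : ℝ) ^ i ≤ (n : ℝ) ^ j :=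
  pow_le_pow_right₀ (by linarith [ntwo hn]) h

theorem two_pow_le (hn : 2 ≤ n) (j : ℕ) : (2 : ℝ) ^ j ≤ (n : ℝ) ^ j :=
  pow_le_pow_left₀ (by norm_num) (ntwo hn) j

theorem two_le_npow (hn : 2 ≤ n) (hk : 0 < k) : (2 : ℝ) ≤ (n : ℝ) ^ k :=
  (ntwo hn).trans (by simpa using npow_mono hn (show 1 ≤ k from hk))

theorem lam_pos (hn : 2 ≤ n) : 0 < lam n k := inv_pos.mpr (npow_pos hn k)

theorem lam_mul (hn : 2 ≤ n) : (n : ℝ) ^ k * lam n k = 1 := mul_inv_cancel₀ (npow_pos hn k).ne'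

theorem lam_le (hn : 2 ≤ n) (hk : 0 < k) : lam n k ≤ 1 / 2 := by
  rw [lam, one_div]
  exact inv_anti₀ two_pos (two_le_npow hn hk)

theorem lam_pow (j : ℕ) : lam n k ^ j = ((n : ℝ) ^ (k * j))⁻¹ := by rw [lam, inv_pow, pow_mul]

theorem div_npow (x : ℝ) : x / (n : ℝ) ^ k = lam n k * x := by rw [lam, div_eq_inv_mul]

theorem npow_le_ratio (n j : ℕ) : (n : ℝ) ^ j ≤ (7 / 6) ^ (5 * n * j) := by
  rw [pow_mul]
  gcongr
  rw [pow_mul]
  calc (n : ℝ) ≤ 2 ^ n := by exact_mod_cast Nat.lt_two_pow_self.le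
    _ ≤ _ := by gcongr; norm_num

end num

/-! ### the lattice of fixed angles -/

section lat
variable {n k : ℕ} {x y θ : ℝ}

theorem Lat.add (h : Lat n k x) (h' : Lat n k y) : Lat n k (x + y) := by
  obtain ⟨m, hm⟩ := h
  obtain ⟨m', hm'⟩ := h'
  exact ⟨m + m', by push_cast; rw [mul_add, hm, hm']⟩

theorem Lat.sub (h : Lat n k x) (h' : Lat n k y) : Lat n k (x - y) := by
  obtain ⟨m, hm⟩ := h
  obtain ⟨m', hm'⟩ := h'
  exact ⟨m - m', by push_cast; rw [mul_sub, hm, hm']⟩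

theorem lat_int (m : ℤ) : Lat n k m := ⟨(n ^ k - 1) * m, by push_cast; rfl⟩

theorem Lat.cg (h : Lat n k x) (h' : Cg y x) : Lat n k y := by
  obtain ⟨m, rfl⟩ := h'
  exact h.add (lat_int m)

theorem Lat.mul_pow (h : Lat n k x) (j : ℕ) : Lat n k ((n : ℝ) ^ j * x) := by
  obtain ⟨m, hm⟩ := h
  exact ⟨n ^ j * m, by push_cast; rw [← hm]; ring⟩

theorem lat_iff : Lat n k x ↔ Cg ((n : ℝ) ^ k * x) x :=
  ⟨fun ⟨m, hm⟩ => ⟨m, by linarith⟩, fun ⟨m, hm⟩ => ⟨m, by linarith⟩⟩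

theorem Lat.cg_pow (h : Lat n k x) (j : ℕ) : Cg ((n : ℝ) ^ (k * j) * x) x := by
  induction j with
  | zero => simpa using Cg.refl x
  | succ j ih =>
    rw [mul_add, mul_one, pow_add, mul_assoc]
    exact ((lat_iff.mp h).mul_pow n _).trans ih

theorem Lat.mul (h : Lat n k x) (j : ℕ) : Lat n (k * j) x := lat_iff.mpr (h.cg_pow j)

theorem Lat.lam_lt (hn : 2 ≤ n) (hk : 0 < k) (h : Lat n k x) (h0 : 0 < x) : lam n k < x := by
  obtain ⟨m, hm⟩ := h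
  have h1 := two_le_npow hn hk
  have h2 : (0 : ℝ) < m := hm ▸ mul_pos (by linarith) h0
  have h3 : (1 : ℝ) ≤ m := by exact_mod_cast (by exact_mod_cast h2 : 0 < m)
  rw [lam, inv_lt_iff_one_lt_mul₀' (by linarith)]
  nlinarith

theorem Lat.eq_zero (hn : 2 ≤ n) (hk : 0 < k) (h : Lat n k x) (h0 : |x| ≤ lam n k) : x = 0 := by
  rcases lt_trichotomy x 0 with h1 | h1 | h1
  · have := ((lat_int (n := n) (k := k) 0).sub h).lam_lt hn hk (by simpa using h1)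
    simp only [Int.cast_zero, zero_sub] at this
    linarith [(abs_le.mp h0).1]
  · exact h1
  · linarith [h.lam_lt hn hk h1, (abs_le.mp h0).2]

/-- finitely many lattice points in a bounded interval -/
theorem lat_finite (hn : 2 ≤ n) (hk : 0 < k) (a b : ℝ) : {x | Lat n k x ∧ x ∈ Icc a b}.Finite := by
  have h1 := two_le_npow hn hk
  refine ((finite_Icc ⌊((n : ℝ) ^ k - 1) * a⌋ ⌈((n : ℝ) ^ k - 1) * b⌉).image
    fun m : ℤ => m / ((n : ℝ) ^ k - 1)).subset ?_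
  rintro x ⟨⟨m, hm⟩, hx⟩
  refine ⟨m, ⟨?_, ?_⟩, by
    simp only; rw [← hm, mul_div_cancel_left₀ _ (by linarith)]⟩
  · exact Int.floor_le_iff.mpr (by nlinarith [hx.1])
  · exact Int.le_ceil_iff.mpr (by nlinarith [hx.2])

end lat

/-! ### monotone maps -/

section mono
variable {f h : ℝ → ℝ} {x y a : ℝ}

theorem tarski (hf : Monotone f) (hxy : x ≤ y) (hx : x ≤ f x) (hy : f y ≤ y) :
    ∃ s ∈ Icc x y, f s = s := by
  have hb : BddBelow {z | z ∈ Icc x y ∧ f z ≤ z} := ⟨x, fun z hz => hz.1.1⟩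
  have hne : {z | z ∈ Icc x y ∧ f z ≤ z}.Nonempty := ⟨y, ⟨hxy, le_rfl⟩, hy⟩
  have h1 := le_csInf hne fun z hz => hz.1.1
  have h2 := csInf_le hb (a := y) ⟨⟨hxy, le_rfl⟩, hy⟩
  have h3 := le_csInf hne fun z hz => (hf (csInf_le hb hz)).trans hz.2
  exact ⟨_, ⟨h1, h2⟩, le_antisymm h3 (csInf_le hb ⟨⟨hx.trans (hf h1), h3.trans h2⟩, hf h3⟩)⟩

theorem LAf.tendsto (ha : 0 < a) (hh : LAf h x a) : Tendsto h (𝓝[<] x) (𝓝[<] h x) := by
  obtain ⟨δ, hδ, hh⟩ := hh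
  have h1 : h =ᶠ[𝓝[<] x] fun y => h x - (x - y) / a :=
    eventually_of_mem (Ioo_mem_nhdsLT (show x - δ < x by linarith)) fun y hy => hh y ⟨hy.1.le, hy.2.le⟩
  refine Tendsto.congr' h1.symm (tendsto_nhdsWithin_iff.mpr ⟨?_, ?_⟩)
  · exact (Continuous.tendsto' (by fun_prop) x _ (by simp)).mono_left nhdsWithin_le_nhds
  · exact eventually_mem_nhdsWithin.mono fun y hy =>
      sub_lt_self _ (div_pos (sub_pos.mpr hy) ha)

/-- watershed points pull back -/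
theorem Wt.back (hh : StrictMono h) (hc : ∀ y, f (h y) = h (f y)) (ha : 0 < a) (hl : LAf h x a)
    (hw : Wt f (h x)) : Wt f x :=
  ⟨hh.lt_iff_lt.mp (hc x ▸ hw.1),
    ((hl.tendsto ha).eventually hw.2).mono fun y hy => hh.lt_iff_lt.mp (hc y ▸ hy)⟩

/-- watershed points push forward -/
theorem Wt.forth (hh : StrictMono h) (hc : ∀ y, f (h y) = h (f y)) (ha : 0 < a) (hl : LAf h x a)
    (hw : Wt f x) : Wt f (h x) := by
  refine ⟨hc x ▸ hh hw.1, ?_⟩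
  obtain ⟨δ, hδ, hl⟩ := hl
  have h1 : Tendsto (fun y => x - a * (h x - y)) (𝓝[<] h x) (𝓝[<] x) :=
    tendsto_nhdsWithin_iff.mpr ⟨(Continuous.tendsto' (by fun_prop) _ _ (by simp)).mono_left
      nhdsWithin_le_nhds, eventually_mem_nhdsWithin.mono fun y hy =>
        sub_lt_self _ (mul_pos ha (sub_pos.mpr hy))⟩
  filter_upwards [h1.eventually hw.2, h1.eventually (Ioo_mem_nhdsLT (show x - δ < x by linarith))]
    with y h2 h3
  have h4 := hl _ ⟨h3.1.le, h3.2.le⟩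
  rw [sub_sub_cancel, mul_div_cancel_left₀ _ ha.ne', sub_sub_cancel] at h4
  rw [← h4, hc]
  exact hh h2

theorem Wt.not_laf (ha : 0 < a) (hw : Wt f x) : ¬ LAf f x a := fun hl =>
  hw.1.not_ge (le_of_tendsto ((hl.tendsto ha).mono_right nhdsWithin_le_nhds)
    ((hw.2.and eventually_mem_nhdsWithin).mono fun _ hy => (hy.1.trans hy.2).le))

/-- a fixed point between two watershed points -/
theorem Wt.fixed (hf : Monotone f) (hx : Wt f x) (hy : Wt f y) (hxy : x < y) :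
    ∃ s ∈ Ioo x y, f s = s := by
  obtain ⟨z, h1, h2⟩ := (hy.2.and (Ioo_mem_nhdsLT hxy)).exists
  obtain ⟨s, h3, h4⟩ := tarski hf h2.1.le hx.1.le h1.le
  exact ⟨s, ⟨lt_of_le_of_ne h3.1 fun e => hx.1.ne (by rw [e, h4]), h3.2.trans_lt h2.2⟩, h4⟩

/-- the watershed between consecutive attracting fixed points -/
theorem exists_wt (hf : Monotone f) (hxy : x < y) (h0 : ∀ z ∈ Ioo x y, f z ≠ z)
    (hx : ∀ᶠ z in 𝓝[>] x, f z < z) (hy : ∀ᶠ z in 𝓝[<] y, z < f z)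
    (hr : ∀ z ∈ Ioo x y, f z < z → ∀ᶠ w in 𝓝[>] z, f w < w) :
    ∃ τ ∈ Ioo x y, Wt f τ ∧ (∀ z ∈ Ioo x τ, f z < z) ∧ ∀ z ∈ Ico τ y, z < f z := by
  have hb : BddBelow {z | z ∈ Ioo x y ∧ z < f z} := ⟨x, fun z hz => hz.1.1.le⟩
  obtain ⟨y', h1, h2⟩ := (hy.and (Ioo_mem_nhdsLT hxy)).exists
  have hne : {z | z ∈ Ioo x y ∧ z < f z}.Nonempty := ⟨y', h2, h1⟩
  have key : ∀ z, (∀ᶠ w in 𝓝[>] z, f w < w) → z ≤ sInf {z | z ∈ Ioo x y ∧ z < f z} →
      z ∉ {z | z ∈ Ioo x y ∧ z < f z} → z < sInf {z | z ∈ Ioo x y ∧ z < f z} := fun z hz h3 h4 => by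
    obtain ⟨u, hu, h5⟩ := (nhdsGT_basis z).eventually_iff.mp hz
    refine hu.trans_le (le_csInf hne fun w hw => not_lt.mp fun h6 => ?_)
    exact (h5 ⟨lt_of_le_of_ne (h3.trans (csInf_le hb hw)) fun e => h4 (e ▸ hw), h6⟩).not_gt hw.2
  have h3 := key x hx (le_csInf hne fun z hz => hz.1.1.le) fun h => lt_irrefl _ h.1.1
  have h4 := (csInf_le hb (a := y') ⟨h2, h1⟩).trans_lt h2.2
  generalize hτ : sInf {z | z ∈ Ioo x y ∧ z < f z} = τ at h3 h4 key
  have h5 : ∀ z ∈ Ioo x τ, f z < z := fun z hz =>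
    lt_of_le_of_ne (not_lt.mp fun h => (hτ ▸ csInf_le hb ⟨⟨hz.1, hz.2.trans h4⟩, h⟩).not_gt hz.2)
      (h0 z ⟨hz.1, hz.2.trans h4⟩)
  have h6 : τ < f τ := not_le.mp fun h => lt_irrefl _ (key τ (hr τ ⟨h3, h4⟩
    (lt_of_le_of_ne h (h0 τ ⟨h3, h4⟩))) le_rfl fun h' => h'.2.not_ge h)
  refine ⟨τ, ⟨h3, h4⟩, ⟨h6, eventually_of_mem (Ioo_mem_nhdsLT h3) h5⟩, h5, fun z hz => ?_⟩
  refine not_le.mp fun h => ?_
  obtain ⟨s, h7, h8⟩ := tarski hf hz.1 h6.le h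
  exact h0 s ⟨h3.trans_le h7.1, h7.2.trans_lt hz.2⟩ h8

end mono

/-! ### words -/

section words
variable {n k T : ℕ} {θ x y : ℝ}

theorem Hyp.kT (h : Hyp n θ k T) : k < T := by have := h.two; have := h.pos; omega

theorem Hyp.vv_eq (h : Hyp n θ k T) {p : ℕ} (he : ∀ e < k, vv n θ k (p + e) = vv n θ k e) :
    k ∣ p := by
  by_contra h1
  obtain ⟨j, hj, h2⟩ := h.prim p h1
  exact h2 (he j hj)

/-- the period occurs only at multiples of `k` -/
theorem Hyp.dvd_of_occ (h : Hyp n θ k T) {l : ℕ} (hl : l + k ≤ T)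
    (he : ∀ e < k, nu n θ (l + e) = vv n θ k e) : k ∣ l :=
  h.vv_eq fun e h1 => (h.per _ (by omega)).symm.trans (he e h1)

theorem Hyp.w2 (h : Hyp n θ k T) {l : ℕ} (hl : l ∈ Zs k T) :
    ∃ i, l + i ≤ T ∧ nu n θ (l + i) ≠ vv n θ k i := by
  have := h.two
  by_cases h1 : k ∣ l
  · have h2 : l ≤ T := hl.elim (fun h => by omega) fun h => h.2
    refine ⟨T - l, by omega, ?_⟩
    rw [← vv_dvd h1, Nat.add_sub_cancel' h2]
    exact h.brk
  · have h2 : l < k := hl.resolve_right fun h => h1 h.1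
    obtain ⟨j, hj, h3⟩ := h.prim l h1
    exact ⟨j, by omega, by rwa [h.per _ (by omega)]⟩

theorem Hyp.w3 (h : Hyp n θ k T) (p : ℕ) : ∃ j ≤ T, nu n θ j ≠ vv n θ k (p + j) := by
  by_cases h1 : k ∣ p
  · exact ⟨T, le_rfl, by rw [vv_dvd h1]; exact h.brk⟩
  · obtain ⟨j, hj, h3⟩ := h.prim p h1
    exact ⟨j, by have := h.kT; omega, by rw [h.per _ (hj.trans h.kT)]; exact h3.symm⟩

theorem Hyp.per_ne (h : Hyp n θ k T) (hx : Per n θ k 0 x) {l : ℕ} (hl : l ∈ Zs k T) :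
    ¬ Cg x ((n : ℝ) ^ l * θ) := fun hc => by
  obtain ⟨i, -, h1⟩ := h.w2 hl
  exact h1 (by rw [← hc.lts_nu, hx, zero_add])

theorem Hyp.per_ne' (h : Hyp n θ k T) {p : ℕ} (hx : Per n θ k p x) : ¬ Cg x θ := fun hc => by
  obtain ⟨j, -, h1⟩ := h.w3 p
  exact h1 (by rw [← hx, hc.lts_eq, nu])

theorem Hyp.opn' (h : Hyp n θ k T) {l : ℕ} (h0 : 0 < l) (hl : l ≤ T + 1) :
    ¬ Cg ((n : ℝ) ^ l * θ) θ := by
  obtain ⟨i, rfl⟩ := Nat.exists_eq_succ_of_ne_zero h0.ne'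
  exact h.opn i (by omega)

/-- the points `t i`, `i < k`, are distinct modulo one -/
theorem Hyp.t_inj (h : Hyp n θ k T) {i j : ℕ} (hi : i < k) (hj : j < k)
    (hc : Cg ((n : ℝ) ^ i * θ) ((n : ℝ) ^ j * θ)) : i = j := by
  have := h.two
  wlog hij : i ≤ j generalizing i j
  · exact (this hj hi hc.symm (by omega)).symm
  have h1 : ∀ e < k, vv n θ k (i + e) = vv n θ k (j + e) := fun e he => by
    rw [← h.per _ (by omega), ← h.per _ (by omega), ← hc.lts_nu, (Cg.refl _).lts_nu]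
  have h2 : k ∣ j - i := h.vv_eq fun e _ => by
    have h3 := h1 ((e + k - i) % k) (Nat.mod_lt _ h.pos)
    rw [add_comm i, add_comm j, vv_mod, vv_mod, show e + k - i + i = e + k by omega,
      show e + k - i + j = j - i + e + k by omega, vv_add, vv_add] at h3
    exact h3.symm
  have := Nat.eq_zero_of_dvd_of_lt h2 (by omega)
  omega

/-- letters are locally constant off the partition -/
theorem lts_near {L : ℕ} (hn : 2 ≤ n) (h : ∀ j < L, ¬ Cg ((n : ℝ) ^ (j + 1) * x) θ) :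
    ∃ δ > 0, ∀ y, |y - x| < δ → ∀ j < L, lts n θ y j = lts n θ x j := by
  induction L with
  | zero => exact ⟨1, one_pos, fun _ _ _ h => absurd h (Nat.not_lt_zero _)⟩
  | succ L ih =>
    obtain ⟨δ, hδ, h1⟩ := ih fun j hj => h j (by omega)
    obtain ⟨ε, hε, h2⟩ := exists_margin {()} (fun _ => θ) _ fun _ _ => h L (by omega)
    have h0 := npow_pos hn (L + 1)
    refine ⟨min δ (ε / (n : ℝ) ^ (L + 1)), lt_min hδ (by positivity), fun y hy j hj => ?_⟩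
    rcases Nat.lt_succ_iff_lt_or_eq.mp hj with hj | rfl
    · exact h1 y (hy.trans_le (min_le_left _ _)) j hj
    have h3 := abs_lt.mp (hy.trans_le (min_le_right _ _))
    rw [← neg_div, div_lt_iff₀' h0, lt_div_iff₀' h0, mul_sub] at h3
    by_contra h4
    rcases le_total x y with h5 | h5
    · obtain ⟨m, hm⟩ := exists_cut h5 (Ne.symm h4)
      rcases le_abs.mp (h2 () (by simp) m) with h | h <;> linarith [hm.1, hm.2, h3.2]
    · obtain ⟨m, hm⟩ := exists_cut h5 h4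
      have h6 := mul_le_mul_of_nonneg_left h5 h0.le
      rcases le_abs.mp (h2 () (by simp) m) with h | h <;> linarith [hm.1, hm.2, h3.1]

/-- points that follow the periodic sequence for a long time stay away from `θ` -/
theorem Hyp.far (h : Hyp n θ k T) : ∃ δ > 0, ∀ (p : ℕ) (y : ℝ),
    (∀ j ≤ T, lts n θ y j = vv n θ k (p + j)) → ∀ m : ℤ, δ ≤ |y - θ - m| := by
  obtain ⟨δ, hδ, h1⟩ := lts_near (L := T + 1) (x := θ) h.hn fun j hj => h.opn j (by omega)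
  refine ⟨δ, hδ, fun p y hy m => not_lt.mp fun h2 => ?_⟩
  obtain ⟨j, hj, h3⟩ := h.w3 p
  refine h3 ?_
  rw [← hy j hj, nu, ← h1 (y - m) (by rwa [sub_right_comm]) j (by omega), (cg_sub_int y m).lts_eq]

end words

/-! ### the shifted branches -/

section gm
variable {n k T P : ℕ} {θ x y φ ψ s : ℝ} {p sh : ℤ}

theorem Fm_one : Fm n θ k 1 sh = Gm n θ k sh := by
  funext y; rw [Fm, Gm, mul_one]

theorem Fm_strictMono (hn : 2 ≤ n) : StrictMono (Fm n θ k P p) :=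
  fun _ _ h => sub_lt_sub_right (bh_strictMono hn h) _

theorem Gm_strictMono (hn : 2 ≤ n) : StrictMono (Gm n θ k sh) :=
  fun _ _ h => sub_lt_sub_right (bh_strictMono hn h) _

theorem Fm_add_int (hn : 2 ≤ n) (m : ℤ) : Fm n θ k P p (x + m) = Fm n θ k P p x + m := by
  rw [Fm, Fm, bh_add_int hn]; ring

theorem Gm_add_int (hn : 2 ≤ n) (m : ℤ) : Gm n θ k sh (x + m) = Gm n θ k sh x + m := by
  rw [Gm, Gm, bh_add_int hn]; ring

theorem Gm_add_one (hn : 2 ≤ n) : Gm n θ k sh (x + 1) = Gm n θ k sh x + 1 := by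
  rw [Gm, Gm, bh_add_one hn]; ring

theorem Gm_iter (hn : 2 ≤ n) (r : ℕ) (y : ℝ) :
    (Gm n θ k sh)^[r] y = bh n θ k 0 (k * r) y - (r * sh : ℤ) := by
  rw [← bh_iter]
  induction r with
  | zero => simp
  | succ r ih =>
    rw [Function.iterate_succ_apply', Function.iterate_succ_apply', ih, Gm, bh_sub_int hn]
    push_cast
    ring

theorem Fm_iter (hn : 2 ≤ n) (r : ℕ) (y : ℝ) :
    (Fm n θ k P p)^[r] y = bh n θ k 0 (k * P * r) y - (r * p : ℤ) := by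
  induction r with
  | zero => simp
  | succ r ih =>
    rw [Function.iterate_succ_apply', ih, Fm, bh_sub_int hn, mul_add, mul_one, add_comm (k * P * r),
      bh_add, bh_dvd (p := 0 + k * P) (by simp)]
    push_cast
    ring

/-- the branches of whole periods commute -/
theorem Fm_comm (hn : 2 ≤ n) (j : ℕ) (y : ℝ) :
    Fm n θ k P p (bh n θ k 0 (k * j) y) = bh n θ k 0 (k * j) (Fm n θ k P p y) := by
  rw [Fm, Fm, bh_sub_int hn, ← bh_iter, ← bh_iter, ← bh_iter, ← bh_iter,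
    ← Function.iterate_add_apply, ← Function.iterate_add_apply, add_comm]

theorem Wt.cg (hn : 2 ≤ n) (h : Wt (Fm n θ k P p) x) (hc : Cg y x) : Wt (Fm n θ k P p) y := by
  obtain ⟨m, rfl⟩ := hc
  exact h.forth (h := fun y => y + m) (a := 1) (fun _ _ h => by simpa using h)
    (fun y => Fm_add_int hn m) one_pos ⟨1, one_pos, fun y _ => by ring⟩

theorem lts_Gm (hn : 2 ≤ n) {j : ℕ} (hj : j < k) : lts n θ (Gm n θ k sh y) j = vv n θ k j := by
  rw [Gm, (cg_sub_int _ sh).lts_eq, lts_bh hn hj, zero_add]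

theorem per_of_fix (hn : 2 ≤ n) (hk : 0 < k) (hP : 0 < P) (h : Fm n θ k P p x = x) :
    Per n θ k 0 x ∧ Lat n (k * P) x := by
  constructor
  · intro j
    have h1 := Function.iterate_fixed h (j + 1)
    rw [Fm_iter hn] at h1
    rw [← h1, (cg_sub_int _ _).lts_eq, lts_bh hn]
    have := Nat.mul_pos hk hP
    nlinarith
  · have h1 : Cg (bh n θ k 0 (k * P) x) x := ⟨p, by rw [Fm] at h; linarith⟩
    exact lat_iff.mpr ((h1.symm.mul_pow n _).trans (bh_cg hn))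

theorem fix_of_per (hn : 2 ≤ n) (hφ : Fm n θ k P p φ = φ) (hx : Per n θ k 0 x)
    (hl : Lat n (k * P) x) : Fm n θ k P p x = x := by
  obtain ⟨m, hm⟩ := ((lat_iff.mp hl).symm.bh (k := k) (p := 0) (r := k * P) (θ := θ) hn).trans
    (bh_back hn fun j _ => hx j)
  have h1 : Fm n θ k P p x = x + (m - p : ℤ) := by rw [Fm, hm]; push_cast; ring
  obtain ⟨q, h2, h3⟩ := exists_lift φ x
  have h4 : Fm n θ k P p (x + q) = x + q + (m - p : ℤ) := by rw [Fm_add_int hn, h1]; ring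
  have h5 := (Fm_strictMono (k := k) (P := P) (θ := θ) (p := p) hn).monotone h2
  have h6 := Fm_strictMono (k := k) (P := P) (θ := θ) (p := p) hn h3
  have h7 := Fm_add_int (k := k) (P := P) (θ := θ) (p := p) (x := φ) hn 1
  rw [Int.cast_one] at h7
  rw [h7, h4, hφ] at h6
  rw [h4, hφ] at h5
  have h8 : m - p = 0 := Int.abs_lt_one_iff.mp (by
    have : |((m - p : ℤ) : ℝ)| < 1 := abs_lt.mpr ⟨by linarith, by linarith⟩
    exact_mod_cast this)
  rw [h1, h8, Int.cast_zero, add_zero]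

/-- the virtual fixed point of the affine piece through `y` -/
theorem exists_virtual (hn : 2 ≤ n) (hk : 0 < k) (y : ℝ) :
    ∃ ψ, Lat n k ψ ∧ Gm n θ k sh y = ψ + lam n k * (y - ψ) := by
  obtain ⟨m, hm⟩ := ((cg_sub_int (bh n θ k 0 k y) sh).mul_pow n k).trans (bh_cg hn)
  have h1 := two_le_npow hn hk
  have h2 : (n : ℝ) ^ k - 1 ≠ 0 := by linarith
  have h3 := (npow_pos hn k).ne'
  refine ⟨m / ((n : ℝ) ^ k - 1), ⟨m, mul_div_cancel₀ _ h2⟩, mul_left_cancel₀ h3 ?_⟩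
  rw [Gm, hm, lam]
  field_simp
  ring

theorem Free.Gm (hn : 2 ≤ n) (h : Free n θ x y k) (hxy : x ≤ y) :
    Gm n θ k sh y = Gm n θ k sh x + lam n k * (y - x) := by
  rw [KN.Gm, KN.Gm, h.affine hn hxy, div_npow]; ring

theorem Fm_right (hn : 2 ≤ n) (hk : 0 < k) (hP : 0 < P) (h : Fm n θ k P p x ≤ x) :
    ∀ᶠ w in 𝓝[>] x, Fm n θ k P p w < w := by
  obtain ⟨δ, hδ, h1⟩ := exists_free_right (n := n) (θ := θ) x (k * P)
  filter_upwards [Ioo_mem_nhdsGT (show x < x + δ by linarith)] with w hw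
  have h2 := (h1.mono le_rfl le_rfl hw.2.le).affine (k := k) (p := 0) hn hw.1.le
  have h3 := div_lt_self (sub_pos.mpr hw.1)
    (lt_of_lt_of_le one_lt_two (two_le_npow hn (Nat.mul_pos hk hP)))
  rw [Fm] at h ⊢
  linarith

theorem Hyp.Fm_left (h : Hyp n θ k T) (hP : 0 < P) (hx : Fm n θ k P p x = x) :
    ∀ᶠ w in 𝓝[<] x, w < Fm n θ k P p w := by
  have h1 := (per_of_fix h.hn h.pos hP hx).1
  rcases laf_or (k := k) (θ := θ) h.hn 0 (k * P) x with ⟨δ, hδ, h2⟩ | ⟨i, q, h2, -, h3, -⟩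
  · filter_upwards [Ioo_mem_nhdsLT (show x - δ < x by linarith)] with w hw
    have h3 := div_lt_self (sub_pos.mpr hw.2)
      (lt_of_lt_of_le one_lt_two (two_le_npow h.hn (Nat.mul_pos h.pos hP)))
    rw [Fm] at hx
    rw [Fm, h2 w ⟨hw.1.le, hw.2.le⟩]
    linarith
  · exact absurd h3 (h.per_ne' (Per.bh h.hn (h1.phase (by rw [h2]; simp))))

variable {x : ℕ → ℝ} {τ : ℕ → ℝ} {i0 : ℕ}

theorem G1.free (h : G1 n θ k T φ x sh τ i0) {a b : ℝ} (ha : φ ≤ a) (hb : b ≤ φ + 1)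
    (h1 : ∀ i < k, τ i ∉ Ioc a b) : Free n θ a b k := fun l hl m hm => by
  rcases (hm.2.trans hb).eq_or_lt with e | e
  · exact h.hyp.per_ne h.pre.per (Or.inl hl)
      ((cg_add_one φ).symm.trans (e ▸ cg_add_int _ m))
  · exact h1 l hl (((cg_add_int _ m).trans (h.τm l hl).2.symm).eq_of_mem ⟨ha.trans_lt hm.1, e⟩
      (h.τm l hl).1 ▸ hm)

theorem G1.bigT (h : G1 n θ k T φ x sh τ i0) : 50 * k * k ≤ T :=
  (Nat.le_div_iff_mul_le h.hyp.pos).mp h.big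

theorem G1.mono (h : G1 n θ k T φ x sh τ i0) {i j : ℕ} (hij : i ≤ j) (hj : j ≤ T / k) :
    x i ≤ x j := by
  induction j, hij using Nat.le_induction with
  | base => rfl
  | succ j _ ih => exact (ih (by omega)).trans (h.inc j hj).le

theorem G1.iter (h : G1 n θ k T φ x sh τ i0) {i r : ℕ} (hj : i + r ≤ T / k) :
    (Gm n θ k sh)^[r] (x (i + r)) = x i := by
  induction r with
  | zero => rfl
  | succ r ih => rw [Function.iterate_succ_apply, ← add_assoc, h.ch _ (by omega), ih (by omega)]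

theorem G1.left_iter (h : G1 n θ k T φ x sh τ i0) (hy : y ∈ Ioo φ (τ i0)) (r : ℕ) :
    (Gm n θ k sh)^[r] y ∈ Ioc φ y := by
  induction r with
  | zero => exact ⟨hy.1, le_rfl⟩
  | succ r ih =>
    have := h.left _ ⟨ih.1, ih.2.trans_lt hy.2⟩
    rw [Function.iterate_succ_apply']
    exact ⟨this.1, this.2.le.trans ih.2⟩

theorem G1.right_iter (h : G1 n θ k T φ x sh τ i0) (hy : y ∈ Ico (τ i0) (φ + 1)) (r : ℕ) :
    (Gm n θ k sh)^[r] y ∈ Ico y (φ + 1) := by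
  induction r with
  | zero => exact ⟨le_rfl, hy.2⟩
  | succ r ih =>
    have := h.right _ ⟨hy.1.trans ih.1, ih.2⟩
    rw [Function.iterate_succ_apply']
    exact ⟨ih.1.trans this.1.le, this.2⟩

theorem G3.xi' (hn : 2 ≤ n) (h : G3 n θ k φ τ ψ s) : (n : ℝ) ^ LL k * s ≤ lam n k / 8 :=
  h.xi.trans (div_le_self (by linarith [lam_pos (k := k) hn]) (one_le_npow hn _))

/-- position of all lifts of the first points of the orbit of `θ` -/
theorem G3.free (h1 : G1 n θ k T φ x sh τ i0) (h : G3 n θ k φ τ ψ s) {l : ℕ} (hl : l ≤ LL k)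
    (m : ℤ) : (n : ℝ) ^ l * θ + m ∉ Ioo (ψ + (n : ℝ) ^ LL k * s) (ψ + lam n k) ∧
      (n : ℝ) ^ l * θ + m ∉ Ioo (φ - lam n k / 2) θ := by
  have hn := h1.hyp.hn
  obtain ⟨y, h2, h3, h4⟩ := h.clu l hl
  have h5 := h.tau i0 h1.i0p h1.i0k
  have h6 := h.xi' hn
  have h7 := lam_pos (k := k) hn
  have h8 := h.gap
  have h9 := (h1.τ0 ▸ h1.τm 0 h1.hyp.pos).1
  have h10 := (h1.pre.x0 ▸ h1.mono (Nat.zero_le _) le_rfl).trans_lt h1.xJ
  have hc := (cg_add_int _ m).trans h2.symm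
  obtain ⟨y0, -, h11, -⟩ := h.clu 0 (Nat.zero_le _)
  have h12 := h11 (dvd_zero k)
  by_cases hd : k ∣ l
  · have := h3 hd
    refine ⟨fun hm => ?_, fun hm => ?_⟩
    · linarith [hc.eq_of_abs (abs_lt.mpr ⟨by linarith [hm.1, h9.1],
        by linarith [hm.2, h9.1, h5.1, h5.2]⟩), hm.1]
    · linarith [hc.eq_of_abs (abs_lt.mpr ⟨by linarith [hm.1, h5.1, h5.2],
        by linarith [hm.2]⟩), hm.2]
  · have := h4 hd
    refine ⟨fun hm => ?_, fun hm => ?_⟩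
    · linarith [hc.eq_of_abs (abs_lt.mpr ⟨by linarith [hm.1, h9.1, h12.1, h12.2],
        by linarith [hm.2]⟩), hm.2]
    · linarith [hc.eq_of_abs (abs_lt.mpr ⟨by linarith [hm.1],
        by linarith [hm.2, h12.1, h12.2]⟩), hm.2, h12.1, h12.2]

theorem Wh_eq (j0 r : ℕ) (y : ℝ) :
    Wh n θ k i0 j0 r y = bh n θ k 0 (k * r) (bh n θ k i0 (j0 + 1) y) := bh_iter r _

theorem Wh_add_int (hn : 2 ≤ n) (j0 r : ℕ) (y : ℝ) (m : ℤ) :
    Wh n θ k i0 j0 r (y + m) = Wh n θ k i0 j0 r y + m := by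
  rw [Wh_eq, Wh_eq, bh_add_int hn, bh_add_int hn]

/-- the word `u ^ r w` through the shifted maps -/
theorem Wh_Gm (hn : 2 ≤ n) (j0 r : ℕ) (y : ℝ) (sh sh' : ℤ) :
    Wh n θ k i0 j0 r y - (sh' + r * sh : ℤ) =
      (Gm n θ k sh)^[r] (bh n θ k i0 (j0 + 1) y - sh') := by
  rw [Wh_eq, Gm_iter hn, bh_sub_int hn]
  push_cast
  ring

end gm

end KN
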