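import Pool.Agent.Lib.KN55.Kit2
import Pool.Agent.Lib.MP_c35c17_an.R_MEAN

/-! Tools on energy, the chart and the model. -/

set_option autoImplicit false

open Filter Topology Set Metric Complex Bornology MeasureTheory N62a1eb23
open scoped Real ENNReal

namespace KN

open Pool.Agent.Lib.MP_c35c17_an

/-! ### energy -/

section energy
variable {Ω Ω' : Set ℂ} {a b c : ℂ} {κ κ' : ℝ} {φ G : ℂ → ℂ}

theorem En_mono (h : Ω' ⊆ Ω) : En φ Ω' ≤ En φ Ω := lintegral_mono_set h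

/-- change of variables -/
theorem En_comp {s : Set ℂ} (hs : MeasurableSet s) (hG : ∀ z ∈ s, DifferentiableAt ℂ G z)
    (hi : InjOn G s) (hφ : ∀ z ∈ s, DifferentiableAt ℂ φ (G z)) :
    En (φ ∘ G) s = En φ (G '' s) := by
  rw [En, En, Q.lintegral_image_holo' hs (fun z hz => (hG z hz).hasDerivAt) hi]
  refine setLIntegral_congr_fun hs fun z hz => ?_
  rw [deriv_comp z (hφ z hz) (hG z hz), ← ENNReal.ofReal_mul (by positivity), norm_mul,
    Function.comp_apply]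
  congr 1
  ring

theorem Dst.refl (Ω : Set ℂ) (a : ℂ) : Dst Ω a a 0 := fun _ _ _ _ _ _ => by simp

theorem Dst.symm (h : Dst Ω a b κ) : Dst Ω b a κ := fun φ h1 h2 E h3 h4 =>
  (abs_sub_comm _ _).trans_le (h φ h1 h2 E h3 h4)

theorem Dst.trans (h : Dst Ω a b κ) (h' : Dst Ω b c κ') : Dst Ω a c (κ + κ') :=
  fun φ h1 h2 E h3 h4 => by
    linarith [abs_sub_le (Real.log ‖φ a‖) (Real.log ‖φ b‖) (Real.log ‖φ c‖), h φ h1 h2 E h3 h4,
      h' φ h1 h2 E h3 h4]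

theorem Dst.weaken (h : Dst Ω a b κ) (hκ : κ ≤ κ') : Dst Ω a b κ' := fun φ h1 h2 E h3 h4 =>
  (h φ h1 h2 E h3 h4).trans (mul_le_mul_of_nonneg_right hκ h3)

theorem Dst.mono (h : Dst Ω' a b κ) (hs : Ω' ⊆ Ω) : Dst Ω a b κ := fun φ h1 h2 E h3 h4 =>
  h φ (h1.mono hs) (fun z hz => h2 z (hs hz)) E h3 ((En_mono hs).trans h4)

theorem Dst.pull (h : Dst Ω' a b κ) (hΩ' : IsOpen Ω') (hΩ : IsOpen Ω)
    (hG : DifferentiableOn ℂ G Ω') (hi : InjOn G Ω') (hm : MapsTo G Ω' Ω) :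
    Dst Ω (G a) (G b) κ := fun φ h1 h2 E h3 h4 =>
  h (φ ∘ G) (h1.comp hG hm) (fun z hz => h2 _ (hm hz)) E h3 (by
    rw [En_comp hΩ'.measurableSet (fun z hz => hG.differentiableAt (hΩ'.mem_nhds hz)) hi
      fun z hz => h1.differentiableAt (hΩ.mem_nhds (hm hz))]
    exact (En_mono hm.image_subset).trans h4)

/-- mean value inequality -/
theorem mean_sq {h : ℂ → ℂ} {w : ℂ} {r : ℝ} (hr : 0 < r) (hd : DifferentiableOn ℂ h (ball w r)) :
    ENNReal.ofReal (π * r ^ 2 * ‖h w‖ ^ 2) ≤ ∫⁻ z in ball w r, ENNReal.ofReal (‖h z‖ ^ 2) := by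
  have key : ∀ s ∈ Ioo 0 r, ENNReal.ofReal (π * s ^ 2 * ‖h w‖ ^ 2) ≤
      ∫⁻ z in ball w r, ENNReal.ofReal (‖h z‖ ^ 2) := fun s hs => by
    have hi : IntegrableOn (fun z => h z ^ 2) (ball w s) :=
      (((hd.continuousOn.mono (closedBall_subset_ball hs.2)).pow 2).integrableOn_compact
        (isCompact_closedBall w s)).mono_set ball_subset_closedBall
    have h2 : ∫ z in ball w s, h z ^ 2 = (π * s ^ 2 : ℝ) * h w ^ 2 := by
      have h3 := R.T55.ball_zero (e := fun z => h (z + w) ^ 2 - h w ^ 2) hs.2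
        (((hd.comp (differentiableOn_id.add_const w) fun z hz => by
          simpa [dist_eq_norm] using hz).pow 2).sub_const _) (by simp)
      have h4 : ∫ z in ball (0 : ℂ) s, (h (z + w) ^ 2 - h w ^ 2) =
          ∫ z in ball w s, (h z ^ 2 - h w ^ 2) := by
        rw [← (measurePreserving_add_right volume w).setIntegral_preimage_emb
          (measurableEmbedding_addRight w) _ (ball w s)]
        congr 2
        ext z
        simp [dist_eq_norm]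
      rw [h4, integral_sub hi (integrableOn_const measure_ball_lt_top.ne), sub_eq_zero,
        setIntegral_const, Measure.real, Complex.volume_ball] at h3
      rw [h3, ENNReal.toReal_mul, ENNReal.toReal_pow, ENNReal.toReal_ofReal hs.1.le]
      simp [mul_comm]
    calc _ = ENNReal.ofReal ‖∫ z in ball w s, h z ^ 2‖ := by
          rw [h2, norm_mul, norm_pow, norm_real, Real.norm_of_nonneg (by positivity)]
      _ ≤ ∫⁻ z in ball w s, ENNReal.ofReal (‖h z‖ ^ 2) := by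
          rw [ofReal_norm]
          refine (enorm_integral_le_lintegral_enorm _).trans_eq (lintegral_congr fun z => ?_)
          rw [← ofReal_norm, norm_pow]
      _ ≤ _ := lintegral_mono_set (ball_subset_ball hs.2.le)
  have h5 : Tendsto (fun s : ℝ => ENNReal.ofReal (π * s ^ 2 * ‖h w‖ ^ 2)) (𝓝[<] r)
      (𝓝 (ENNReal.ofReal (π * r ^ 2 * ‖h w‖ ^ 2))) :=
    (ENNReal.continuous_ofReal.comp (by fun_prop)).continuousAt.tendsto.mono_left nhdsWithin_le_nhds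
  exact le_of_tendsto h5 (eventually_of_mem (Ioo_mem_nhdsLT hr) key)

end energy

/-! ### the chart -/

section chart
variable {n : ℕ} {c ζ ζ' : ℂ} {Φ : ℂ → ℂ} {t x : ℝ}

theorem norm_chart (ζ : ℂ) : ‖exp (2 * π * ζ)‖ = Real.exp (2 * π * ζ.re) := by
  rw [norm_exp]; simp

theorem chart_gt (h : 0 < ζ.re) : 1 < ‖exp (2 * π * ζ)‖ := by
  rw [norm_chart, Real.one_lt_exp_iff]; positivity

theorem exists_chart {w : ℂ} (h : 1 < ‖w‖) : ∃ ζ : ℂ, 0 < ζ.re ∧ exp (2 * π * ζ) = w := by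
  have h0 : (2 * π : ℂ) ≠ 0 := by simp
  refine ⟨log w / (2 * π), ?_, by
    rw [mul_div_cancel₀ _ h0, exp_log (norm_pos_iff.mp (by linarith))]⟩
  rw [show (2 * π : ℂ) = (2 * π : ℝ) by simp, div_ofReal_re, log_re]
  exact div_pos (Real.log_pos h) (by positivity)

theorem Bc_add_int (m : ℤ) : Bc Φ ⟨t, x + m⟩ = Bc Φ ⟨t, x⟩ := by
  rw [Bc, Bc, show 2 * π * (⟨t, x + m⟩ : ℂ) = 2 * π * ⟨t, x⟩ + m * (2 * π * I) by
    exact Complex.ext (by simp) (by simp; ring), exp_add, exp_int_mul_two_pi_mul_I, mul_one]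

theorem Cg.Bc {y : ℝ} (h : Cg x y) : Bc Φ ⟨t, x⟩ = Bc Φ ⟨t, y⟩ := by
  obtain ⟨m, rfl⟩ := h
  exact Bc_add_int m

theorem Bc_iter (hn : 2 ≤ n) (h : L.Cj n c Φ) (hζ : 0 < ζ.re) (j : ℕ) :
    (F n c)^[j] (Bc Φ ζ) = Bc Φ ((n : ℝ) ^ j * ζ) := by
  rw [Bc, Bc, ← Q.conj_iter hn h.conj j (chart_gt hζ), ← exp_nat_mul]
  push_cast
  ring_nf

theorem Bc_iter' (hn : 2 ≤ n) (h : L.Cj n c Φ) (ht : 0 < t) (j : ℕ) :
    (F n c)^[j] (Bc Φ ⟨t, x⟩) = Bc Φ ⟨(n : ℝ) ^ j * t, (n : ℝ) ^ j * x⟩ := by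
  rw [Bc_iter hn h ht, ← ofReal_pow]
  congr 1
  exact Complex.ext (re_ofReal_mul _ _) (im_ofReal_mul _ _)

theorem Bc_diff (h : L.Cj n c Φ) : DifferentiableOn ℂ (Bc Φ) {ζ | 0 < ζ.re} :=
  h.diff.comp (f := fun ζ => exp (2 * π * ζ)) (by fun_prop) fun _ hζ => chart_gt hζ

theorem Bc_inj (h : L.Cj n c Φ) (hζ : 0 < ζ.re) (hζ' : 0 < ζ'.re) (e : Bc Φ ζ = Bc Φ ζ') :
    ζ.re = ζ'.re ∧ Cg ζ.im ζ'.im := by
  obtain ⟨m, hm⟩ := exp_eq_exp_iff_exists_int.mp (h.inj (chart_gt hζ) (chart_gt hζ') e)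
  have h1 : ζ = ζ' + m * I := mul_left_cancel₀ (show (2 * π : ℂ) ≠ 0 by simp) (by rw [hm]; ring)
  rw [h1]
  exact ⟨by simp, m, by simp⟩

theorem Bc_injOn (h : L.Cj n c Φ) {R : Set ℂ} {α : ℝ}
    (hR : ∀ ζ ∈ R, 0 < ζ.re ∧ α < ζ.im ∧ ζ.im < α + 1) : InjOn (Bc Φ) R := fun ζ h1 ζ' h2 e => by
  obtain ⟨h3, h4⟩ := Bc_inj h (hR ζ h1).1 (hR ζ' h2).1 e
  exact Complex.ext h3 (h4.eq_of_mem (hR ζ h1).2 (hR ζ' h2).2)

theorem cj_of_bot (hn : 2 ≤ n) (hc : c ∈ multibrotSet n) (h : L.Bot n c 1 Φ) : L.Cj n c Φ :=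
  ⟨h.diff, L.ii hn c hc Φ h, h.conj⟩

/-- preimages of points of the basin -/
theorem pre_range (hn : 2 ≤ n) (hc : c ∈ multibrotSet n) (h : L.Bot n c 1 Φ) {y : ℂ} (j : ℕ)
    (hζ : 0 < ζ.re) (e : (F n c)^[j] y = Bc Φ ζ) :
    ∃ ζ' : ℂ, ζ.re = (n : ℝ) ^ j * ζ'.re ∧ y = Bc Φ ζ' := by
  have h0 := npos hn
  induction j generalizing ζ with
  | zero => exact ⟨ζ, by simp, e⟩
  | succ j ih =>
    have h1 : 0 < (ζ / n).re := by rw [div_natCast_re]; positivity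
    have h2 := Bc_iter hn (cj_of_bot hn hc h) h1 1
    rw [pow_one, ofReal_natCast, mul_div_cancel₀ _ (by exact_mod_cast h0.ne'), ← e,
      Function.iterate_one, iter_succ, F, add_left_inj] at h2
    have h3 : Bc Φ (ζ / n) ≠ 0 := h.ne_orbit hn hc le_rfl (chart_gt h1) 0
    have h4 : ((F n c)^[j] y / Bc Φ (ζ / n)) ^ n = 1 := by
      rw [div_pow, h2, div_self (h2 ▸ pow_ne_zero n h3)]
    have h5 := L.UI.rot hn hc h h4 (chart_gt h1)
    rw [show Φ (exp (2 * π * (ζ / n))) = Bc Φ (ζ / n) from rfl, div_mul_cancel₀ _ h3] at h5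
    have h6 := norm_eq_one_of_pow_eq_one h4 (by omega)
    obtain ⟨ζ₁, h7, h8⟩ := exists_chart (w := (F n c)^[j] y / Bc Φ (ζ / n) * exp (2 * π * (ζ / n)))
      (by rw [norm_mul, h6, one_mul]; exact chart_gt h1)
    obtain ⟨ζ', h9, h10⟩ := ih h7 (by rw [Bc, h8, h5])
    have h11 := congrArg norm h8
    rw [norm_mul, h6, one_mul, norm_chart, norm_chart, Real.exp_eq_exp, div_natCast_re] at h11
    refine ⟨ζ', ?_, h10⟩
    rw [pow_succ', mul_assoc, ← h9, mul_left_cancel₀ (by positivity) h11, mul_div_cancel₀ _ h0.ne']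

theorem Bc_tendsto (h : L.Bot n c 1 Φ) (x : ℝ) :
    Tendsto (fun t : ℝ => ‖Bc Φ ⟨t, x⟩‖) atTop atTop := by
  have h1 : Tendsto (fun t : ℝ => ‖exp (2 * π * (⟨t, x⟩ : ℂ))‖) atTop atTop := by
    simp only [norm_chart]
    exact Real.tendsto_exp_atTop.comp (tendsto_id.const_mul_atTop (by positivity))
  have h2 := h1.atTop_mul_pos one_pos
    (by simpa using (h.norm.comp (tendsto_norm_atTop_iff_cobounded.mp h1)).norm)
  refine h2.congr fun t => ?_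
  rw [mul_div_cancel₀ _ (norm_ne_zero_iff.mpr (exp_ne_zero _)), Bc]

end chart

/-! ### the model -/

section model
variable {n k T p r : ℕ} {c y : ℂ} {Φ : ℂ → ℂ} {θ η t x : ℝ} {S : ℕ → Set ℂ} {g : ZMod n → ℂ → ℂ}
  {v : ℕ → ZMod n}

theorem Om_mono {A A' : Set ℕ} (h : A ⊆ A') : Om S A' ⊆ Om S A := fun _ hy l hl => hy l (h hl)

theorem Mod.isOpen (h : Mod n c Φ θ T η S g) {A : Set ℕ} (hA : A ⊆ Iic (2 * T)) :
    IsOpen (Om S A) := by
  have : Om S A = ⋂ l ∈ A, (S l)ᶜ := by ext; simp [Om]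
  exact this ▸ ((finite_Iic _).subset hA).isOpen_biInter fun l hl => (h.cl l (hA hl)).isOpen_compl

theorem Mod.map_iter (h : Mod n c Φ θ T η S g) {l : ℕ} (hy : y ∈ S l) (j : ℕ) :
    (F n c)^[j] y ∈ S (l + j) := by
  induction j with
  | zero => exact hy
  | succ j ih => rw [Function.iterate_succ_apply']; exact h.map _ ih

theorem Mod.br_inv (h : Mod n c Φ θ T η S g) {L : ℕ} (hy : y ∈ Om S (Iio (r + L))) :
    (F n c)^[r] (br g v p r y) = y ∧ br g v p r y ∈ Om S (Iio L) := by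
  induction r generalizing p L with
  | zero => simpa using hy
  | succ r ih =>
    obtain ⟨h1, h2⟩ := ih (p := p + 1) (L := L + 1) (by rwa [add_comm L, ← add_assoc])
    have h3 := h.inv (v p) _ (h2 0 (by simp))
    rw [br_succ, Function.iterate_succ_apply, h3]
    exact ⟨h1, fun l hl hm => h2 (l + 1) (by simpa using hl) (h3 ▸ h.map l hm)⟩

theorem Mod.br_diff (h : Mod n c Φ θ T η S g) :
    DifferentiableOn ℂ (br g v p r) (Om S (Iio r)) := by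
  induction r generalizing p with
  | zero => exact differentiableOn_id
  | succ r ih =>
    exact ((h.diff (v p)).comp ((ih (p := p + 1)).mono (Om_mono (Iio_subset_Iio (by omega))))
      fun y hy => (h.br_inv (L := 1) hy).2 0 (by simp)).congr fun y _ => br_succ

theorem Mod.br_inj (h : Mod n c Φ θ T η S g) : InjOn (br g v p r) (Om S (Iio r)) :=
  fun y hy y' hy' e => by
    rw [← (h.br_inv (v := v) (p := p) (L := 0) hy).1, e, (h.br_inv (L := 0) hy').1]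

/-- the chart formula for a word whose partial images stay away from `θ` -/
theorem Mod.ch (hn : 2 ≤ n) (h : Mod n c Φ θ T η S g) (hη : 0 < η) (ht : (n : ℝ) ^ r * η < t)
    (hx : ∀ i q, q + i = p + r → i < r → ∀ m : ℤ, η < |bh n θ k q i x - θ - m|) :
    br g (vv n θ k) p r (Bc Φ ⟨t, x⟩) = Bc Φ ⟨t / (n : ℝ) ^ r, bh n θ k p r x⟩ := by
  induction r generalizing p with
  | zero => simp
  | succ r ih =>
    have h1 := mul_le_mul_of_nonneg_right (npow_mono hn (Nat.le_succ r)) hη.le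
    rw [br_succ, ih (h1.trans_lt ht) fun i q h2 h3 => hx i q (by omega) (by omega), bh_succ,
      h.chart _ _ _ ((lt_div_iff₀' (npow_pos hn r)).mpr (h1.trans_lt ht))
        (hx r (p + 1) (by omega) (by omega)), div_div, pow_succ]

theorem Mod.ch_far (hn : 2 ≤ n) (h : Mod n c Φ θ T η S g) (hη : 0 < η) (ht : (n : ℝ) ^ r * η < t)
    (hx : Far n θ η x r) :
    br g (vv n θ k) p r (Bc Φ ⟨t, x⟩) = Bc Φ ⟨t / (n : ℝ) ^ r, bh n θ k p r x⟩ :=
  h.ch hn hη ht fun i q _ hi m => by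
    simpa using Far.bh (k := k) (p := q) (r := i) (L := 1) hn (hx.mono hi) 0 one_pos m

end model

namespace Sit

variable {n k T p r j : ℕ} {θ η t x : ℝ} (σ : Sit n θ k T η) {y : ℂ} {a a' : ZMod n}

include σ in
theorem Zs_sub : Zs k T ⊆ Iic (2 * T) := fun l hl => by
  have := σ.hyp.kT
  rcases hl with h | h <;> simp only [mem_Iic] <;> omega

theorem Ω_open : IsOpen σ.Ω := σ.mod.isOpen σ.Zs_sub

include σ in
theorem LL_le (h : 50 * k ≤ T / k) : 2 * LL k ≤ T := by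
  have h1 := (Nat.le_div_iff_mul_le σ.hyp.pos).mp h
  have h2 := σ.hyp.pos
  rw [LL]
  nlinarith

theorem Ωs_open (h : 50 * k ≤ T / k) : IsOpen σ.Ωs :=
  σ.mod.isOpen (Iic_subset_Iic.mpr (by have := σ.LL_le h; omega))

theorem Ω_sub : σ.Ω ⊆ Om σ.S (Iio k) := Om_mono fun _ hl => Or.inl hl

theorem Ωs_sub (h : r ≤ LL k + 1) : σ.Ωs ⊆ Om σ.S (Iio r) :=
  Om_mono fun _ hl => Nat.lt_succ_iff.mp (lt_of_lt_of_le hl h)

theorem b_iter (m : ℕ) (y : ℂ) : (σ.b 0 k)^[m] y = σ.b 0 (k * m) y := br_iter m y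

theorem G_maps : MapsTo (σ.b 0 k) σ.Ω σ.Ω := σ.maps

theorem G_inv (hy : y ∈ σ.Ω) (m : ℕ) : (F n σ.c)^[k * m] ((σ.b 0 k)^[m] y) = y := by
  induction m with
  | zero => rfl
  | succ m ih =>
    rw [Function.iterate_succ_apply', mul_add, mul_one, Function.iterate_add_apply]
    exact (congrArg _ (σ.mod.br_inv (L := 0) (σ.Ω_sub (σ.G_maps.iterate m hy))).1).trans ih

theorem μ_ne : σ.μ ≠ 0 := fun h => by simpa [h] using σ.mult

theorem Λ_pos : 0 < σ.Λ := neg_pos.mpr (Real.log_neg (norm_pos_iff.mpr σ.μ_ne) σ.μlt)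

theorem A_sq : σ.A ^ 2 = 2 * π * σ.Λ := Real.sq_sqrt (by have := σ.Λ_pos; positivity)

theorem A_pos : 0 < σ.A := Real.sqrt_pos.mpr (by have := σ.Λ_pos; positivity)

theorem φ_iter (hy : y ∈ σ.Ω) (m : ℕ) : σ.φ ((σ.b 0 k)^[m] y) = σ.μ ^ m * σ.φ y := by
  induction m with
  | zero => simp
  | succ m ih =>
    rw [Function.iterate_succ_apply']
    refine (σ.eqn _ (σ.G_maps.iterate m hy)).trans ?_
    rw [ih, pow_succ', mul_assoc]

theorem φ_ne (hy : y ∈ σ.Ω) (h : y ≠ σ.z) : σ.φ y ≠ 0 :=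
  fun e => h (σ.inj hy σ.zfix.1 (e.trans σ.zero.symm))

theorem Bc_ne {ζ : ℂ} (h : 0 < ζ.re) : Bc σ.Φ ζ ≠ σ.z :=
  σ.cj.ne_per σ.hyp.hn σ.hyp.pos σ.zper (chart_gt h)

theorem U_iter (hy : y ∈ σ.Ω) (h : σ.φ y ≠ 0) (m : ℕ) :
    σ.U ((σ.b 0 k)^[m] y) = σ.U y - m * σ.Λ := by
  rw [U, U, Λ, σ.φ_iter hy, norm_mul, norm_pow, Real.log_mul
    (pow_ne_zero _ (norm_ne_zero_iff.mpr σ.μ_ne)) (norm_ne_zero_iff.mpr h), Real.log_pow]
  ring

/-- use of a distance bound in the chart for the linearizer -/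
theorem U_chart {R : Set ℂ} {ζ ζ' : ℂ} {κ E : ℝ} (h : Dst R ζ ζ' κ) (hR : ∀ u ∈ R, 0 < u.re)
    (hm : MapsTo (Bc σ.Φ) R σ.Ω) (hE : 0 ≤ E)
    (he : En (σ.φ ∘ Bc σ.Φ) R ≤ ENNReal.ofReal (E ^ 2)) :
    |σ.U (Bc σ.Φ ζ) - σ.U (Bc σ.Φ ζ')| ≤ κ * E :=
  h _ (σ.dφ.comp ((Bc_diff σ.cj).mono hR) hm) (fun u hu => σ.φ_ne (hm hu) (σ.Bc_ne (hR u hu))) E
    hE he

theorem InV.uniq {σ : Sit n θ k T η} (h : σ.InV y j a) (h' : σ.InV y j a') : a = a' := by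
  obtain ⟨u, h1, h2⟩ := h
  obtain ⟨u', h3, h4⟩ := h'
  exact σ.mod.disj _ _ _ h1 _ h3 (h2.symm.trans h4)

theorem inV_slit {l : ℕ} (hy : y ∈ σ.S l) (hl : l + j ≤ T) : σ.InV y j (nu n θ (l + j)) := by
  obtain ⟨u, h1, h2⟩ := σ.mod.sectν _ hl (σ.mod.map_iter hy j)
  exact ⟨u, h1, h2.symm⟩

theorem b_inv (hy : y ∈ Om σ.S (Iio r)) : (F n σ.c)^[r] (σ.b p r y) = y :=
  (σ.mod.br_inv (L := 0) hy).1

theorem inV_b_add (hy : y ∈ Om σ.S (Iio r)) (h : σ.InV y j a) : σ.InV (σ.b p r y) (r + j) a := by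
  rwa [InV, add_comm, Function.iterate_add_apply, σ.b_inv hy]

theorem inV_b (hy : y ∈ Om σ.S (Iio r)) (hj : j < r) :
    σ.InV (σ.b p r y) j (vv n θ k (p + j)) := by
  obtain ⟨e, rfl⟩ := Nat.exists_eq_add_of_lt hj
  have h1 := σ.mod.br_inv (v := vv n θ k) (p := p + j) (r := e + 1) (L := j)
    (by rwa [add_comm, ← add_assoc])
  have h2 := σ.mod.br_inv (v := vv n θ k) (p := p + j + 1) (r := e) (L := 1)
    (Om_mono (Iio_subset_Iio (by omega)) hy)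
  refine ⟨_, h2.2 0 (by simp), ?_⟩
  rw [b, add_assoc j, br_add, ← b, σ.b_inv h1.2, br_succ]

theorem inV_G (hy : y ∈ σ.Ω) (hj : j < k) : σ.InV (σ.b 0 k y) j (vv n θ k j) := by
  simpa using σ.inV_b (p := 0) (σ.Ω_sub hy) hj

theorem W_eq (i0 j0 r : ℕ) (y : ℂ) : σ.W i0 j0 r y = σ.b 0 (k * r) (σ.b i0 (j0 + 1) y) :=
  σ.b_iter r _

/-- the chart formula for the word `u ^ r w` -/
theorem W_chart {i0 j0 L : ℕ} (ht : (n : ℝ) ^ (k * r + (j0 + 1)) * η < t)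
    (hx : Far n θ η x (k * r + (j0 + 1) + L)) :
    σ.W i0 j0 r (Bc σ.Φ ⟨t, x⟩) =
      Bc σ.Φ ⟨t / (n : ℝ) ^ (k * r + (j0 + 1)), Wh n θ k i0 j0 r x⟩ ∧
        Far n θ η (Wh n θ k i0 j0 r x) L := by
  have hn := σ.hyp.hn
  have h1 : Far n θ η (bh n θ k i0 (j0 + 1) x) (k * r + L) := Far.bh hn (hx.mono (by omega))
  have h2 := mul_le_mul_of_nonneg_right (npow_mono hn (Nat.le_add_left (j0 + 1) (k * r))) σ.ηpos.le
  rw [W_eq, Wh_eq, b, b, σ.mod.ch_far hn σ.ηpos (h2.trans_lt ht) (hx.mono (by omega)),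
    σ.mod.ch_far hn σ.ηpos (by rwa [lt_div_iff₀' (npow_pos hn _), ← mul_assoc, ← pow_add, add_comm])
      (h1.mono (by omega)), div_div, ← pow_add, add_comm (j0 + 1)]
  exact ⟨rfl, Far.bh hn h1⟩

theorem mem_Om {A : Set ℕ} (hA : A ⊆ Iic (2 * T)) (ht : η < t)
    (hx : ∀ l ∈ A, ∀ m : ℤ, η < |x - (n : ℝ) ^ l * θ - m|) : Bc σ.Φ ⟨t, x⟩ ∈ Om σ.S A :=
  fun l hl => σ.mod.off l (hA hl) t x ht (hx l hl)

end Sit

/-- distance to the complement of an interval -/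
theorem lt_abs_of_not_mem {α β x u d : ℝ} {m : ℤ} (h : u + m ∉ Ioo α β) (h1 : α + d < x)
    (h2 : x < β - d) : d < |x - u - m| := by
  rcases not_and_or.mp h with h | h
  · exact lt_abs.mpr (Or.inl (by linarith [not_lt.mp h]))
  · exact lt_abs.mpr (Or.inr (by linarith [not_lt.mp h]))

/-- the standard smallness condition on `η` -/
theorem eta_small {n k : ℕ} {η : ℝ} (hn : 2 ≤ n) (hk : 0 < k) (h0 : 0 < η)
    (h : η * (n : ℝ) ^ (3 * LL k) < 1) : (n : ℝ) ^ LL k * η < lam n k / 32 := by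
  have h1 : (n : ℝ) ^ (LL k + k + 5) ≤ (n : ℝ) ^ (3 * LL k) := npow_mono hn (by rw [LL]; nlinarith)
  have h2 := two_pow_le hn 5
  have h3 := npow_pos hn k
  have h4 := npow_pos hn (LL k)
  rw [pow_add, pow_add] at h1
  rw [lam, lt_div_iff₀ (by norm_num), ← one_div, lt_div_iff₀ h3]
  calc _ = η * ((n : ℝ) ^ LL k * n ^ k * 2 ^ 5) := by ring
    _ ≤ η * ((n : ℝ) ^ LL k * n ^ k * n ^ 5) := by gcongr
    _ ≤ η * (n : ℝ) ^ (3 * LL k) := by gcongr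
    _ < 1 := h

end KN
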